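import Mathlib

/-!
# From a bound on the numerical range to a bound on the norm

If a linear operator `T` on a finite dimensional space of functions in `L^p`, `1 < p`, satisfies
`|∫ |F|^{p-2} conj F (T F)| ≤ c ∫ |F|^p` for all `F`, then `‖T F‖_p ≤ e c ‖F‖_p`.
-/

set_option autoImplicit false

open MeasureTheory Set Filter Topology
open scoped ENNReal ComplexConjugate

namespace Pool.Agent.H93.NumRange

section abstract_part

variable {V : Type*} [NormedAddCommGroup V] [NormedSpace ℂ V] [CompleteSpace V]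
variable {E : Type*} [NormedAddCommGroup E] [NormedSpace ℂ E]

theorem hasDerivAt_orbit (A : V →L[ℂ] V) (v : V) (u : ℂ) :
    HasDerivAt (fun u : ℂ => NormedSpace.exp (u • A) v) (A (NormedSpace.exp (u • A) v)) u := by
  have h1 : HasDerivAt (fun u : ℂ => NormedSpace.exp (u • A))
      (A * NormedSpace.exp (u • A)) u := hasDerivAt_exp_smul_const' A _
  exact (ContinuousLinearMap.apply ℂ V v).hasFDerivAt.comp_hasDerivAt u h1

theorem growth (Φ : V →L[ℂ] E) (A : V →L[ℂ] V) {c : ℝ}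
    (H : ∀ (v : V) (z : ℂ), (1 - c * ‖z‖) * ‖Φ v‖ ≤ ‖Φ (v - z • A v)‖) (v : V) (z : ℂ) :
    ‖Φ (NormedSpace.exp (z • A) v)‖ ≤ Real.exp (c * ‖z‖) * ‖Φ v‖ := by
  let w : ℝ → V := fun s => NormedSpace.exp (((s : ℂ) * z) • A) v
  have hw : ∀ t : ℝ, HasDerivAt w (z • A (w t)) t := by
    intro t
    have h2 : HasDerivAt (fun s : ℝ => (s : ℂ) * z) z t := by
      simpa using (Complex.ofRealCLM.hasDerivAt (x := t)).mul_const z
    exact (hasDerivAt_orbit A v ((t : ℂ) * z)).scomp t h2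
  have hwc : Continuous w := continuous_iff_continuousAt.2 fun t => (hw t).continuousAt
  let u : ℝ → ℝ := fun s => ‖Φ (w s)‖
  have huc : Continuous u := (Φ.continuous.comp hwc).norm
  have key : ∀ x ∈ Ico (0 : ℝ) 1, ∀ r, c * ‖z‖ * u x < r →
      ∃ᶠ s in 𝓝[>] x, (s - x)⁻¹ * (u s - u x) < r := by
    intro x _ r hr
    -- the auxiliary curve
    let K : ℝ → E := fun s => Φ (w s - ((s - x : ℝ) : ℂ) • z • A (w s))
    have hK : HasDerivAt K 0 x := by
      have hAw : HasDerivAt (fun s => z • A (w s)) (z • A (z • A (w x))) x := by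
        have h1 := ((A.restrictScalars ℝ).hasFDerivAt.comp_hasDerivAt x (hw x))
        exact h1.const_smul z
      have h3 : HasDerivAt (fun s : ℝ => ((s - x : ℝ) : ℂ)) 1 x := by
        have := (Complex.ofRealCLM.hasDerivAt (x := x)).sub_const (x : ℂ)
        simpa using this
      have h4 := (hw x).sub (h3.smul hAw)
      have h5 : HasDerivAt K (Φ.restrictScalars ℝ (z • A (w x) -
          (((x - x : ℝ) : ℂ) • (z • A (z • A (w x))) + (1 : ℂ) • (z • A (w x))))) x :=
        ((Φ.restrictScalars ℝ).hasFDerivAt.comp_hasDerivAt x h4)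
      have h6 : z • A (w x) -
          (((x - x : ℝ) : ℂ) • (z • A (z • A (w x))) + (1 : ℂ) • (z • A (w x))) = 0 := by
        simp
      rw [h6, map_zero] at h5
      exact h5
    have hKx : K x = Φ (w x) := by simp [K]
    have hlim : Tendsto (fun s => (s - x)⁻¹ * (‖K s‖ - ‖K x‖)) (𝓝[>] x) (𝓝 0) := by
      have h6 := hK.tendsto_slope.mono_left (nhdsGT_le_nhdsNE x)
      have h7 : Tendsto (fun s => ‖slope K x s‖) (𝓝[>] x) (𝓝 0) := by
        simpa using h6.norm
      refine squeeze_zero_norm (fun s => ?_) h7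
      rw [slope_def_module, norm_smul, norm_mul]
      gcongr
      rw [Real.norm_eq_abs]
      exact abs_norm_sub_norm_le _ _
    have hlim2 : Tendsto (fun s => c * ‖z‖ * u s + (s - x)⁻¹ * (‖K s‖ - ‖K x‖)) (𝓝[>] x)
        (𝓝 (c * ‖z‖ * u x + 0)) :=
      ((huc.tendsto x).mono_left nhdsWithin_le_nhds |>.const_mul _).add hlim
    rw [add_zero] at hlim2
    refine Eventually.frequently ?_
    filter_upwards [hlim2.eventually (gt_mem_nhds hr), self_mem_nhdsWithin] with s hs hsx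
    have hpos : 0 < s - x := sub_pos.2 hsx
    refine lt_of_le_of_lt ?_ hs
    have h8 := H (w s) (((s - x : ℝ) : ℂ) * z)
    rw [norm_mul, Complex.norm_real, Real.norm_eq_abs, abs_of_pos hpos, mul_smul] at h8
    have h9 : (1 - c * ((s - x) * ‖z‖)) * u s ≤ ‖K s‖ := h8
    have h10 : ‖K x‖ = u x := by rw [hKx]
    rw [h10, inv_mul_eq_div, inv_mul_eq_div, div_le_iff₀ hpos, add_mul, div_mul_cancel₀ _ hpos.ne']
    nlinarith [h9]
  have hG := le_gronwallBound_of_liminf_deriv_right_le (f := u) (f' := fun x => c * ‖z‖ * u x)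
    (δ := ‖Φ v‖) (K := c * ‖z‖) (ε := 0) (a := 0) (b := 1) huc.continuousOn key
    (by simp [u, w, NormedSpace.exp_zero]) (fun x _ => by simp) 1 (by simp)
  rw [gronwallBound_ε0] at hG
  simp only [u, w, Complex.ofReal_one, one_mul, sub_zero, mul_one] at hG
  rw [mul_comm]
  exact hG

theorem norm_le (Φ : V →L[ℂ] E) (A : V →L[ℂ] V) {c : ℝ} (hc : 0 ≤ c)
    (H : ∀ (v : V) (z : ℂ), (1 - c * ‖z‖) * ‖Φ v‖ ≤ ‖Φ (v - z • A v)‖) (v : V) :
    ‖Φ (A v)‖ ≤ Real.exp 1 * c * ‖Φ v‖ := by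
  have main : ∀ c' : ℝ, c < c' → ‖Φ (A v)‖ ≤ Real.exp 1 * c' * ‖Φ v‖ := by
    intro c' hcc
    have hc' : 0 < c' := lt_of_le_of_lt hc hcc
    have hd : ∀ u : ℂ, HasDerivAt (fun u : ℂ => Φ (NormedSpace.exp (u • A) v))
        (Φ (A (NormedSpace.exp (u • A) v))) u := fun u =>
      Φ.hasFDerivAt.comp_hasDerivAt u (hasDerivAt_orbit A v u)
    have h1 := Complex.norm_deriv_le_of_forall_mem_sphere_norm_le (c := 0) (R := 1 / c')
      (C := Real.exp 1 * ‖Φ v‖) (f := fun u : ℂ => Φ (NormedSpace.exp (u • A) v))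
      (by positivity)
      (Differentiable.diffContOnCl fun u => (hd u).differentiableAt)
      (by
        intro z hz
        rw [mem_sphere_zero_iff_norm] at hz
        refine (growth Φ A H v z).trans ?_
        gcongr
        rw [hz, mul_one_div, div_le_one hc']
        exact hcc.le)
    rw [(hd 0).deriv] at h1
    simp only [zero_smul, NormedSpace.exp_zero, one_apply_eq_self] at h1
    rw [div_div_eq_mul_div, div_one] at h1
    linarith
  have hlim : Tendsto (fun c' : ℝ => Real.exp 1 * c' * ‖Φ v‖) (𝓝[>] c)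
      (𝓝 (Real.exp 1 * c * ‖Φ v‖)) :=
    ((continuous_const.mul continuous_id).mul continuous_const).continuousAt.tendsto.mono_left
      nhdsWithin_le_nhds
  exact ge_of_tendsto hlim (by filter_upwards [self_mem_nhdsWithin] with c' hc' using main c' hc')

end abstract_part

section lp_part

variable {Ω : Type*} [MeasurableSpace Ω] {μ : Measure Ω} {p : ℝ}

theorem integrable_rpow (hp : 1 < p) {f : Ω → ℂ} (hf : MemLp f (ENNReal.ofReal p) μ) :
    Integrable (fun x => ‖f x‖ ^ p) μ := by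
  have h := hf.integrable_norm_rpow (by simp; linarith) ENNReal.ofReal_ne_top
  rwa [ENNReal.toReal_ofReal (by linarith)] at h

/-- the duality pairing is integrable -/
theorem integrable_pair (hp : 1 < p) {f g : Ω → ℂ} (hf : MemLp f (ENNReal.ofReal p) μ)
    (hg : MemLp g (ENNReal.ofReal p) μ) :
    Integrable (fun x => ((‖f x‖ ^ (p - 2) : ℝ) : ℂ) * conj (f x) * g x) μ := by
  refine ((integrable_rpow hp hf).add (integrable_rpow hp hg)).mono'
    (((Complex.measurable_ofReal.comp_aemeasurable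
      (hf.1.norm.aemeasurable.pow_const _)).aestronglyMeasurable.mul
      (Complex.continuous_conj.comp_aestronglyMeasurable hf.1)).mul hg.1)
    (Eventually.of_forall fun x => ?_)
  have h0 : ‖((‖f x‖ ^ (p - 2) : ℝ) : ℂ) * conj (f x) * g x‖ = ‖f x‖ ^ (p - 1) * ‖g x‖ := by
    rw [norm_mul, norm_mul, Complex.norm_real, Real.norm_of_nonneg (by positivity),
      RCLike.norm_conj]
    congr 1
    rcases eq_or_lt_of_le (norm_nonneg (f x)) with h | h
    · rw [← h, mul_zero, Real.zero_rpow (by linarith)]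
    · rw [← Real.rpow_add_one h.ne']; congr 1; ring
  rw [h0]
  rcases le_total ‖f x‖ ‖g x‖ with h | h
  · calc ‖f x‖ ^ (p - 1) * ‖g x‖ ≤ ‖g x‖ ^ (p - 1) * ‖g x‖ := by
          gcongr
      _ ≤ ‖g x‖ ^ p := by
          rcases eq_or_lt_of_le (norm_nonneg (g x)) with h' | h'
          · rw [← h', mul_zero, Real.zero_rpow (by linarith)]
          · rw [← Real.rpow_add_one h'.ne']; ring_nf; exact le_rfl
      _ ≤ _ := by
          have : (0 : ℝ) ≤ ‖f x‖ ^ p := by positivity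
          simp only [Pi.add_apply]; linarith
  · calc ‖f x‖ ^ (p - 1) * ‖g x‖ ≤ ‖f x‖ ^ (p - 1) * ‖f x‖ := by gcongr
      _ ≤ ‖f x‖ ^ p := by
          rcases eq_or_lt_of_le (norm_nonneg (f x)) with h' | h'
          · rw [← h', mul_zero, Real.zero_rpow (by linarith)]
          · rw [← Real.rpow_add_one h'.ne']; ring_nf; exact le_rfl
      _ ≤ _ := by
          have : (0 : ℝ) ≤ ‖g x‖ ^ p := by positivity
          simp only [Pi.add_apply]; linarith

theorem norm_pair_le (hp : 1 < p) {f g : Ω → ℂ} (hf : MemLp f (ENNReal.ofReal p) μ)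
    (hg : MemLp g (ENNReal.ofReal p) μ) :
    ‖∫ x, ((‖f x‖ ^ (p - 2) : ℝ) : ℂ) * conj (f x) * g x ∂μ‖ ≤
      (∫ x, ‖f x‖ ^ p ∂μ) ^ (1 - 1 / p) * (∫ x, ‖g x‖ ^ p ∂μ) ^ (1 / p) := by
  have hp0 : 0 < p := by linarith
  have hpq : p.HolderConjugate (p / (p - 1)) := Real.HolderConjugate.conjExponent hp
  have hq : ENNReal.ofReal p / ENNReal.ofReal (p - 1) = ENNReal.ofReal (p / (p - 1)) := by
    rw [ENNReal.ofReal_div_of_pos (by linarith)]
  have h1 : MemLp (fun x => ‖f x‖ ^ (p - 1)) (ENNReal.ofReal (p / (p - 1))) μ := by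
    have := hf.norm_rpow_div (ENNReal.ofReal (p - 1))
    rwa [ENNReal.toReal_ofReal (by linarith), hq] at this
  have h1c : MemLp (fun x => ((‖f x‖ ^ (p - 1) : ℝ) : ℂ)) (ENNReal.ofReal (p / (p - 1))) μ :=
    h1.ofReal
  have h2 := integral_mul_norm_le_Lp_mul_Lq hpq hg h1c
  have h3 : ∀ x, ‖((‖f x‖ ^ (p - 1) : ℝ) : ℂ)‖ = ‖f x‖ ^ (p - 1) := fun x => by
    rw [Complex.norm_real, Real.norm_of_nonneg (by positivity)]
  have h4 : ∀ x, (‖f x‖ ^ (p - 1)) ^ (p / (p - 1)) = ‖f x‖ ^ p := fun x => by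
    rw [← Real.rpow_mul (norm_nonneg _)]
    congr 1
    have := (sub_pos.2 hp).ne'
    field_simp
  simp_rw [h3, h4] at h2
  have h5 : 1 / (p / (p - 1)) = 1 - 1 / p := by field_simp
  rw [h5] at h2
  calc ‖∫ x, ((‖f x‖ ^ (p - 2) : ℝ) : ℂ) * conj (f x) * g x ∂μ‖
      ≤ ∫ x, ‖((‖f x‖ ^ (p - 2) : ℝ) : ℂ) * conj (f x) * g x‖ ∂μ := norm_integral_le_integral_norm _
    _ = ∫ x, ‖g x‖ * ‖f x‖ ^ (p - 1) ∂μ := by
        refine integral_congr_ae (Eventually.of_forall fun x => ?_)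
        change ‖((‖f x‖ ^ (p - 2) : ℝ) : ℂ) * conj (f x) * g x‖ = ‖g x‖ * ‖f x‖ ^ (p - 1)
        rw [norm_mul, norm_mul, Complex.norm_real, Real.norm_of_nonneg (by positivity),
          RCLike.norm_conj, mul_comm]
        congr 1
        rcases eq_or_lt_of_le (norm_nonneg (f x)) with h | h
        · rw [← h, mul_zero, Real.zero_rpow (by linarith)]
        · rw [← Real.rpow_add_one h.ne']; congr 1; ring
    _ ≤ _ := by rw [mul_comm]; exact h2

end lp_part

/-- **Numerical range bound implies norm bound** (Bohnenblust-Karlin) in `L^p`. -/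
theorem numRange_bound {Ω : Type*} [MeasurableSpace Ω] (μ : Measure Ω) {m : ℕ} {p : ℝ}
    (hp : 1 < p) (φ : Fin m → Ω → ℂ) (hφ : ∀ i, MemLp (φ i) (ENNReal.ofReal p) μ)
    (T : (Fin m → ℂ) →ₗ[ℂ] (Fin m → ℂ)) {c : ℝ} (hc : 0 ≤ c) (F : (Fin m → ℂ) → Ω → ℂ)
    (hF : ∀ v x, F v x = ∑ i, v i * φ i x)
    (h : ∀ v, ‖∫ x, ((‖F v x‖ ^ (p - 2) : ℝ) : ℂ) * (starRingEnd ℂ) (F v x) * F (T v) x ∂μ‖ ≤
      c * ∫ x, ‖F v x‖ ^ p ∂μ) :
    ∀ v, eLpNorm (F (T v)) (ENNReal.ofReal p) μ ≤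
      ENNReal.ofReal (Real.exp 1 * c) * eLpNorm (F v) (ENNReal.ofReal p) μ := by
  have hp0 : 0 < p := by linarith
  have : Fact (1 ≤ ENNReal.ofReal p) := ⟨by rw [← ENNReal.ofReal_one]; exact ENNReal.ofReal_le_ofReal hp.le⟩
  have hFf : ∀ v, F v = fun x => ∑ i, v i * φ i x := fun v => funext (hF v)
  have hm : ∀ v, MemLp (F v) (ENNReal.ofReal p) μ := by
    intro v
    rw [hFf]
    exact memLp_finsetSum _ fun i _ => (hφ i).const_mul (v i)
  let Φl : (Fin m → ℂ) →ₗ[ℂ] Lp ℂ (ENNReal.ofReal p) μ :=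
    { toFun := fun v => (hm v).toLp (F v)
      map_add' := by
        intro v w
        rw [← MemLp.toLp_add]
        refine MemLp.toLp_congr _ _ (Eventually.of_forall fun x => ?_)
        simp only [Pi.add_apply, hF, ← Finset.sum_add_distrib, add_mul]
      map_smul' := by
        intro z v
        rw [RingHom.id_apply, ← MemLp.toLp_const_smul]
        refine MemLp.toLp_congr _ _ (Eventually.of_forall fun x => ?_)
        simp only [Pi.smul_apply, hF, smul_eq_mul, Finset.mul_sum, mul_assoc] }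
  have hnorm : ∀ v, ‖Φl v‖ = (∫ x, ‖F v x‖ ^ p ∂μ) ^ (1 / p) := by
    intro v
    change ‖(hm v).toLp (F v)‖ = _
    rw [Lp.norm_toLp, MemLp.eLpNorm_eq_integral_rpow_norm (by simp; linarith) ENNReal.ofReal_ne_top
      (hm v), ENNReal.toReal_ofReal hp0.le, ENNReal.toReal_ofReal (by positivity), one_div]
  have H : ∀ (v : Fin m → ℂ) (z : ℂ), (1 - c * ‖z‖) * ‖Φl.toContinuousLinearMap v‖ ≤
      ‖Φl.toContinuousLinearMap (v - z • T.toContinuousLinearMap v)‖ := by
    intro v z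
    simp only [LinearMap.coe_toContinuousLinearMap']
    set N : ℝ := ∫ x, ‖F v x‖ ^ p ∂μ with hN
    have hN0 : 0 ≤ N := integral_nonneg fun x => by positivity
    rcases eq_or_lt_of_le hN0 with h0 | h0
    · rw [hnorm v, ← hN, ← h0, Real.zero_rpow (by positivity), mul_zero]
      exact norm_nonneg _
    have e1 : ∀ x, F (v - z • T v) x = F v x - z * F (T v) x := by
      intro x
      simp only [hF, Pi.sub_apply, Pi.smul_apply, smul_eq_mul, sub_mul, Finset.sum_sub_distrib,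
        Finset.mul_sum, mul_assoc]
    have e2 : ∫ x, ((‖F v x‖ ^ (p - 2) : ℝ) : ℂ) * conj (F v x) * F (v - z • T v) x ∂μ =
        (N : ℂ) - z * ∫ x, ((‖F v x‖ ^ (p - 2) : ℝ) : ℂ) * conj (F v x) * F (T v) x ∂μ := by
      have i1 : Integrable (fun x => ((‖F v x‖ ^ p : ℝ) : ℂ)) μ :=
        (integrable_rpow hp (hm v)).ofReal
      rw [← integral_const_mul, hN, ← integral_complex_ofReal,
        ← integral_sub i1 ((integrable_pair hp (hm v) (hm (T v))).const_mul z)]
      refine integral_congr_ae (Eventually.of_forall fun x => ?_)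
      simp only [e1]
      have e3 : ((‖F v x‖ ^ (p - 2) : ℝ) : ℂ) * conj (F v x) * F v x = ((‖F v x‖ ^ p : ℝ) : ℂ) := by
        rw [mul_assoc, mul_comm (conj (F v x)), Complex.mul_conj, Complex.normSq_eq_norm_sq,
          ← Complex.ofReal_mul]
        congr 1
        rcases eq_or_lt_of_le (norm_nonneg (F v x)) with h | h
        · rw [← h, Real.zero_rpow (by linarith : p ≠ 0)]; ring
        · rw [← Real.rpow_natCast _ 2, ← Real.rpow_add h]; congr 1; push_cast; ring
      rw [mul_sub, e3]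
      ring
    have e4 := norm_pair_le hp (hm v) (hm (v - z • T v))
    rw [e2] at e4
    have e5 : (1 - c * ‖z‖) * N ≤ ‖(N : ℂ) - z * ∫ x, ((‖F v x‖ ^ (p - 2) : ℝ) : ℂ) *
        conj (F v x) * F (T v) x ∂μ‖ := by
      have e6 := norm_sub_norm_le (N : ℂ) (z * ∫ x, ((‖F v x‖ ^ (p - 2) : ℝ) : ℂ) *
        conj (F v x) * F (T v) x ∂μ)
      rw [norm_mul, Complex.norm_real, Real.norm_of_nonneg hN0] at e6
      have e7 := mul_le_mul_of_nonneg_left (h v) (norm_nonneg z)
      nlinarith [e6, e7]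
    have e8 : (1 - c * ‖z‖) * N ≤ N ^ (1 - 1 / p) * ‖Φl (v - z • T v)‖ := by
      rw [hnorm]
      exact e5.trans e4
    rw [hnorm v, ← hN]
    have e9 : N = N ^ (1 - 1 / p) * N ^ (1 / p) := by
      rw [← Real.rpow_add h0]; simp
    have hNp : 0 < N ^ (1 - 1 / p) := Real.rpow_pos_of_pos h0 _
    rw [show (1 - c * ‖z‖) * N = N ^ (1 - 1 / p) * ((1 - c * ‖z‖) * N ^ (1 / p)) by
      conv_lhs => rw [e9]
      ring] at e8
    exact le_of_mul_le_mul_left e8 hNp
  intro v
  have h1 := norm_le Φl.toContinuousLinearMap T.toContinuousLinearMap hc H v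
  simp only [LinearMap.coe_toContinuousLinearMap'] at h1
  have h2 : ∀ w, ENNReal.ofReal ‖Φl w‖ = eLpNorm (F w) (ENNReal.ofReal p) μ := by
    intro w
    change ENNReal.ofReal ‖(hm w).toLp (F w)‖ = _
    rw [Lp.norm_toLp, ENNReal.ofReal_toReal (hm w).2.ne]
  rw [← h2, ← h2, ← ENNReal.ofReal_mul (by positivity)]
  exact ENNReal.ofReal_le_ofReal h1

end Pool.Agent.H93.NumRange
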