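import Mathlib

/-!
# Multilinear polynomials in independent copies of a random variable, and composition
-/

set_option autoImplicit false

open MeasureTheory Finset
open scoped ENNReal

namespace Pool.Agent.H93.RH

/-- The multilinear polynomial with coefficients `a`. -/
def ml {κ : Type} [Fintype κ] (a : Finset κ → ℝ) (w : κ → ℝ) : ℝ :=
  ∑ S : Finset κ, a S * ∏ i ∈ S, w i

/-- Span of the monomials supported in `J` of degree at most `D`. -/
def MS (κ : Type) (J : Finset κ) (D : ℕ) : Submodule ℝ ((κ → ℝ) → ℝ) :=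
  Submodule.span ℝ {g | ∃ S : Finset κ, S ⊆ J ∧ S.card ≤ D ∧ g = fun w => ∏ i ∈ S, w i}

theorem mono_mem {κ : Type} {J S : Finset κ} {D : ℕ} (h1 : S ⊆ J) (h2 : S.card ≤ D) :
    (fun w : κ → ℝ => ∏ i ∈ S, w i) ∈ MS κ J D :=
  Submodule.subset_span ⟨S, h1, h2, rfl⟩

theorem MS_mono {κ : Type} {J J' : Finset κ} {D D' : ℕ} (h : J ⊆ J') (h' : D ≤ D') :
    MS κ J D ≤ MS κ J' D' := by
  refine Submodule.span_mono ?_
  rintro _ ⟨S, h1, h2, rfl⟩
  exact ⟨S, h1.trans h, h2.trans h', rfl⟩

theorem MS_mul {κ : Type} [DecidableEq κ] {J J' : Finset κ} {D D' : ℕ} (hJ : Disjoint J J')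
    {f g : (κ → ℝ) → ℝ} (hf : f ∈ MS κ J D) (hg : g ∈ MS κ J' D') :
    f * g ∈ MS κ (J ∪ J') (D + D') := by
  have h1 : f * g ∈ MS κ J D * MS κ J' D' := Submodule.mul_mem_mul hf hg
  rw [MS, MS, Submodule.span_mul_span] at h1
  refine Submodule.span_le.2 ?_ h1
  rintro _ ⟨_, ⟨S, hS1, hS2, rfl⟩, _, ⟨S', hS'1, hS'2, rfl⟩, rfl⟩
  have hd : Disjoint S S' := Finset.disjoint_of_subset_left hS1
    (Finset.disjoint_of_subset_right hS'1 hJ)
  have : (fun x1 x2 : (κ → ℝ) → ℝ => x1 * x2) (fun w => ∏ i ∈ S, w i) (fun w => ∏ i ∈ S', w i) =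
      fun w : κ → ℝ => ∏ i ∈ S ∪ S', w i := by
    ext w
    simp only [Pi.mul_apply]
    rw [Finset.prod_union hd]
  rw [this]
  refine mono_mem (Finset.union_subset_union hS1 hS'1) ?_
  exact (Finset.card_union_le _ _).trans (by omega)

theorem MS_coeff {κ : Type} [Fintype κ] {J : Finset κ} {D : ℕ} {g : (κ → ℝ) → ℝ}
    (hg : g ∈ MS κ J D) :
    ∃ A : Finset κ → ℝ, (∀ S, D < S.card → A S = 0) ∧ ∀ w, g w = ml A w := by
  classical
  refine Submodule.span_induction (p := fun g _ => ∃ A : Finset κ → ℝ,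
    (∀ S, D < S.card → A S = 0) ∧ ∀ w, g w = ml A w) ?_ ?_ ?_ ?_ hg
  · rintro _ ⟨S, -, hS, rfl⟩
    refine ⟨fun S' => if S' = S then 1 else 0, ?_, ?_⟩
    · intro S' h
      have : S' ≠ S := by rintro rfl; omega
      simp [this]
    · intro w; simp [ml]
  · exact ⟨0, by simp, by simp [ml]⟩
  · rintro x y _ _ ⟨b, hb, hx⟩ ⟨c, hc, hy⟩
    refine ⟨b + c, fun S hS => by simp [hb S hS, hc S hS], fun T => ?_⟩
    simp [hx, hy, ml, add_mul, Finset.sum_add_distrib]
  · rintro a x _ ⟨b, hb, hx⟩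
    refine ⟨a • b, fun S hS => by simp [hb S hS], fun T => ?_⟩
    simp [hx, ml, Finset.mul_sum, mul_assoc]

/-- Composition of multilinear polynomials in disjoint sets of variables. -/
theorem comp_coeff {ι κ : Type} [Fintype ι] [Fintype κ] {d k : ℕ} (a : Finset ι → ℝ)
    (ha : ∀ S, d < S.card → a S = 0) (b : Finset κ → ℝ) (hb : ∀ S, k < S.card → b S = 0) :
    ∃ A : Finset (ι × κ) → ℝ, (∀ S, d * k < S.card → A S = 0) ∧
      ∀ w : ι × κ → ℝ, ml A w = ml a (fun i => ml b (fun l => w (i, l))) := by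
  classical
  -- one block
  have h1 : ∀ i : ι, (fun w : ι × κ → ℝ => ml b (fun l => w (i, l))) ∈
      MS (ι × κ) ({i} ×ˢ Finset.univ) k := by
    intro i
    have : (fun w : ι × κ → ℝ => ml b (fun l => w (i, l))) =
        ∑ T : Finset κ, b T • (fun w : ι × κ → ℝ => ∏ q ∈ ({i} : Finset ι) ×ˢ T, w q) := by
      ext w
      simp [ml]
    rw [this]
    refine Submodule.sum_mem _ fun T _ => ?_
    by_cases hT : k < T.card
    · rw [hb T hT, zero_smul]; exact Submodule.zero_mem _
    · refine Submodule.smul_mem _ _ (mono_mem ?_ ?_)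
      · exact Finset.product_subset_product_right (Finset.subset_univ _)
      · simpa using not_lt.1 hT
  have h2 : ∀ S : Finset ι, (fun w : ι × κ → ℝ => ∏ i ∈ S, ml b (fun l => w (i, l))) ∈
      MS (ι × κ) (S ×ˢ Finset.univ) (S.card * k) := by
    intro S
    induction S using Finset.induction_on with
    | empty =>
      have := mono_mem (κ := ι × κ) (J := (∅ : Finset ι) ×ˢ (Finset.univ : Finset κ))
        (S := ∅) (D := 0) (by simp) (by simp)
      simpa using this
    | insert i S hi ih =>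
      have hd : Disjoint (({i} : Finset ι) ×ˢ (Finset.univ : Finset κ)) (S ×ˢ Finset.univ) := by
        rw [Finset.disjoint_left]
        rintro ⟨x, y⟩ hx hy
        simp only [Finset.mem_product, Finset.mem_singleton, Finset.mem_univ, and_true] at hx hy
        exact hi (hx ▸ hy)
      have h3 := MS_mul hd (h1 i) ih
      have e1 : (fun w : ι × κ → ℝ => ∏ i ∈ insert i S, ml b (fun l => w (i, l))) =
          (fun w : ι × κ → ℝ => ml b (fun l => w (i, l))) *
            (fun w : ι × κ → ℝ => ∏ i ∈ S, ml b (fun l => w (i, l))) := by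
        ext w
        simp only [Pi.mul_apply, Finset.prod_insert hi]
      rw [e1]
      refine MS_mono ?_ ?_ h3
      · rintro ⟨x, y⟩ hx
        simp only [Finset.mem_union, Finset.mem_product, Finset.mem_singleton, Finset.mem_univ,
          and_true, Finset.mem_insert] at hx ⊢
        exact hx
      · rw [Finset.card_insert_of_notMem hi, Nat.succ_mul]; omega
  have h3 : (fun w : ι × κ → ℝ => ml a (fun i => ml b (fun l => w (i, l)))) ∈
      MS (ι × κ) Finset.univ (d * k) := by
    have : (fun w : ι × κ → ℝ => ml a (fun i => ml b (fun l => w (i, l)))) =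
        ∑ S : Finset ι, a S • (fun w : ι × κ → ℝ => ∏ i ∈ S, ml b (fun l => w (i, l))) := by
      ext w
      simp [ml]
    rw [this]
    refine Submodule.sum_mem _ fun S _ => ?_
    by_cases hS : d < S.card
    · rw [ha S hS, zero_smul]; exact Submodule.zero_mem _
    · refine Submodule.smul_mem _ _ (MS_mono (Finset.subset_univ _) ?_ (h2 S))
      exact Nat.mul_le_mul_right _ (not_lt.1 hS)
  obtain ⟨A, hA, hA2⟩ := MS_coeff h3
  exact ⟨A, hA, fun w => (hA2 w).symm⟩

section measure

variable {Ω : Type} [MeasurableSpace Ω]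

theorem measurable_ml {ι : Type} [Fintype ι] (a : Finset ι → ℝ) {v : Ω → ℝ} (hv : Measurable v) :
    Measurable fun x : ι → Ω => ml a (fun i => v (x i)) := by
  unfold ml
  fun_prop

theorem measurable_ml' {ι : Type} [Fintype ι] (a : Finset ι → ℝ) :
    Measurable fun w : ι → ℝ => ml a w := by
  unfold ml
  fun_prop

/-- `Good μ P v v' K`: for every multilinear polynomial `F` of degree at most `d` in independent
variables, `‖F(v')‖ ≤ K ^ d ‖F(v)‖` in `L^P`. -/
def Good (μ : Measure Ω) (P : ℝ≥0∞) (v v' : Ω → ℝ) (K : ℝ) : Prop :=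
  ∀ (ι : Type) [Fintype ι] (d : ℕ) (a : Finset ι → ℝ), (∀ S, d < S.card → a S = 0) →
    lpNorm (fun x : ι → Ω => ml a (fun i => v' (x i))) P (Measure.pi fun _ => μ) ≤
      K ^ d * lpNorm (fun x : ι → Ω => ml a (fun i => v (x i))) P (Measure.pi fun _ => μ)

theorem lpNorm_comp_mp {α β E : Type*} [MeasurableSpace α] [MeasurableSpace β]
    [NormedAddCommGroup E] {μ : Measure α} {ν : Measure β} {f : α → β} {g : β → E} {P : ℝ≥0∞}
    (hg : AEStronglyMeasurable g ν) (hf : MeasurePreserving f μ ν) :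
    lpNorm (g ∘ f) P μ = lpNorm g P ν := by
  rw [← toReal_eLpNorm hg, ← toReal_eLpNorm (hg.comp_measurePreserving hf),
    eLpNorm_comp_measurePreserving hg hf]

/-- Currying is measure preserving. -/
theorem mp_curry {ι κ : Type} [Fintype ι] [Fintype κ] (μ : Measure Ω) [IsProbabilityMeasure μ] :
    MeasurePreserving (MeasurableEquiv.curry ι κ Ω) (Measure.pi fun _ : ι × κ => μ)
      (Measure.pi fun _ : ι => Measure.pi fun _ : κ => μ) := by
  refine ⟨(MeasurableEquiv.curry ι κ Ω).measurable, ?_⟩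
  have h := Measure.infinitePi_map_curry (ι := ι) (κ := κ) (fun _ _ => μ)
  rw [Measure.infinitePi_eq_pi, Measure.infinitePi_eq_pi] at h
  simp only [Measure.infinitePi_eq_pi] at h
  exact h

theorem Good.comp {μ : Measure Ω} [IsProbabilityMeasure μ] {P : ℝ≥0∞} {v v' : Ω → ℝ} {K : ℝ}
    (hv : Measurable v) (hv' : Measurable v') (h : Good μ P v v' K)
    {κ : Type} [Fintype κ] {k : ℕ} (b : Finset κ → ℝ) (hb : ∀ S, k < S.card → b S = 0) :
    Good (Measure.pi fun _ : κ => μ) P (fun y : κ → Ω => ml b (fun l => v (y l)))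
      (fun y : κ → Ω => ml b (fun l => v' (y l))) (K ^ k) := by
  intro ι _ d a ha
  obtain ⟨A, hA, hA2⟩ := comp_coeff a ha b hb
  have key : ∀ w : Ω → ℝ, Measurable w →
      lpNorm (fun x : ι → (κ → Ω) => ml a (fun i => ml b (fun l => w (x i l)))) P
        (Measure.pi fun _ : ι => Measure.pi fun _ : κ => μ) =
      lpNorm (fun x : ι × κ → Ω => ml A (fun q => w (x q))) P (Measure.pi fun _ => μ) := by
    intro w hw
    have h1 : Measurable (fun x : ι → (κ → Ω) => ml a (fun i => ml b (fun l => w (x i l)))) :=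
      measurable_ml a (Ω := κ → Ω) (v := fun y => ml b (fun l => w (y l))) (measurable_ml b hw)
    rw [← lpNorm_comp_mp h1.aestronglyMeasurable (mp_curry μ)]
    congr 1
    ext x
    rw [hA2]
    rfl
  have h2 := h (ι × κ) (d * k) A hA
  rw [← key v hv, ← key v' hv'] at h2
  rw [← pow_mul, mul_comm k d]
  exact h2

end measure

end Pool.Agent.H93.RH
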