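import Mathlib
import Pool.Agent.H93.RHBasic

/-!
# Limits of multilinear polynomials in independent variables
-/

set_option autoImplicit false

open MeasureTheory Finset Filter Topology
open scoped ENNReal

namespace Pool.Agent.H93.RH

variable {Ω : Type} [MeasurableSpace Ω]

theorem lpN {E : Type*} [NormedAddCommGroup E] {μ : Measure Ω} {p : ℝ} (hp : 0 < p) {f : Ω → E}
    (hf : AEStronglyMeasurable f μ) :
    lpNorm f (ENNReal.ofReal p) μ = (∫ x, ‖f x‖ ^ p ∂μ) ^ p⁻¹ := by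
  rw [lpNorm_eq_integral_norm_rpow_toReal (by simpa using hp) ENNReal.ofReal_ne_top hf,
    ENNReal.toReal_ofReal hp.le]

theorem lpNorm_prod {𝕜 : Type} [RCLike 𝕜] {ι : Type} [Fintype ι] {μ : Measure Ω}
    [IsProbabilityMeasure μ] {p : ℝ} (hp : 0 < p) {g : ι → Ω → 𝕜} (hg : ∀ i, Measurable (g i)) :
    lpNorm (fun x : ι → Ω => ∏ i, g i (x i)) (ENNReal.ofReal p) (Measure.pi fun _ => μ) =
      ∏ i, lpNorm (g i) (ENNReal.ofReal p) μ := by
  have h1 : Measurable (fun x : ι → Ω => ∏ i, g i (x i)) := by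
    have := hg
    fun_prop
  rw [lpN hp h1.aestronglyMeasurable]
  have h2 : ∀ x : ι → Ω, ‖∏ i, g i (x i)‖ ^ p = ∏ i, ‖g i (x i)‖ ^ p := by
    intro x
    rw [norm_prod, Real.finsetProd_rpow _ _ (fun i _ => norm_nonneg _)]
  simp only [h2]
  rw [integral_fintype_prod_eq_prod (fun (i : ι) (y : Ω) => ‖g i y‖ ^ p),
    ← Real.finsetProd_rpow _ _ (fun i _ => integral_nonneg fun y => by positivity)]
  refine Finset.prod_congr rfl fun i _ => ?_
  rw [lpN hp (hg i).aestronglyMeasurable]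

theorem memLp_prod {𝕜 : Type} [RCLike 𝕜] {ι : Type} [Fintype ι] {μ : Measure Ω}
    [IsProbabilityMeasure μ] {p : ℝ} (hp : 0 < p) {g : ι → Ω → 𝕜} (hg : ∀ i, Measurable (g i))
    (hg' : ∀ i, MemLp (g i) (ENNReal.ofReal p) μ) :
    MemLp (fun x : ι → Ω => ∏ i, g i (x i)) (ENNReal.ofReal p) (Measure.pi fun _ => μ) := by
  have h1 : Measurable (fun x : ι → Ω => ∏ i, g i (x i)) := by
    have := hg
    fun_prop
  have hp0 : ENNReal.ofReal p ≠ 0 := by simpa using hp
  rw [← integrable_norm_rpow_iff h1.aestronglyMeasurable hp0 ENNReal.ofReal_ne_top,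
    ENNReal.toReal_ofReal hp.le]
  have h2 : ∀ x : ι → Ω, ‖∏ i, g i (x i)‖ ^ p = ∏ i, ‖g i (x i)‖ ^ p := by
    intro x
    rw [norm_prod, Real.finsetProd_rpow _ _ (fun i _ => norm_nonneg _)]
  simp only [h2]
  refine Integrable.fintype_prod (f := fun (i : ι) (y : Ω) => ‖g i y‖ ^ p) fun i => ?_
  have h3 := (integrable_norm_rpow_iff (hg i).aestronglyMeasurable hp0
    ENNReal.ofReal_ne_top).2 (hg' i)
  rwa [ENNReal.toReal_ofReal hp.le] at h3

/-- product over a subset -/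
theorem prod_sub_eq {ι M : Type} [Fintype ι] [DecidableEq ι] [CommMonoid M] (S : Finset ι)
    (f : ι → M) : ∏ i ∈ S, f i = ∏ i, (if i ∈ S then f i else 1) := by
  rw [Finset.prod_ite_mem, Finset.univ_inter]

theorem memLp_monomial {𝕜 : Type} [RCLike 𝕜] {ι : Type} [Fintype ι] {μ : Measure Ω}
    [IsProbabilityMeasure μ] {p : ℝ} (hp : 0 < p) {v : Ω → 𝕜} (hv : Measurable v)
    (hv' : MemLp v (ENNReal.ofReal p) μ) (S : Finset ι) :
    MemLp (fun x : ι → Ω => ∏ i ∈ S, v (x i)) (ENNReal.ofReal p) (Measure.pi fun _ => μ) := by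
  classical
  have h := memLp_prod (ι := ι) (μ := μ) hp (g := fun i y => if i ∈ S then v y else 1)
    (fun i => by split_ifs <;> fun_prop) (fun i => by
      split_ifs
      · exact hv'
      · exact memLp_const 1)
  have e : (fun x : ι → Ω => ∏ i ∈ S, v (x i)) =
      fun x : ι → Ω => ∏ i, (if i ∈ S then v (x i) else 1) := by
    ext x
    exact prod_sub_eq S (fun i => v (x i))
  rw [e]
  exact h

theorem memLp_ml {ι : Type} [Fintype ι] {μ : Measure Ω} [IsProbabilityMeasure μ] {p : ℝ}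
    (hp : 0 < p) {v : Ω → ℝ} (hv : Measurable v) (hv' : MemLp v (ENNReal.ofReal p) μ)
    (a : Finset ι → ℝ) :
    MemLp (fun x : ι → Ω => ml a (fun i => v (x i))) (ENNReal.ofReal p)
      (Measure.pi fun _ => μ) := by
  unfold ml
  exact memLp_finsetSum _ fun S _ => (memLp_monomial hp hv hv' S).const_mul (a S)

/-- A piece in the expansion of `∏ v - ∏ U`. -/
def pc {ι : Type} [DecidableEq ι] (v U : Ω → ℝ) (S t : Finset ι) (i : ι) (y : Ω) : ℝ :=
  if i ∈ t then v y - U y else if i ∈ S then U y else 1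

theorem pc_meas {ι : Type} [DecidableEq ι] {v U : Ω → ℝ} (hv : Measurable v) (hU : Measurable U)
    (S t : Finset ι) (i : ι) : Measurable (pc v U S t i) := by
  unfold pc
  split_ifs <;> fun_prop

theorem pc_memLp {ι : Type} [DecidableEq ι] {μ : Measure Ω} [IsProbabilityMeasure μ]
    {P : ℝ≥0∞} {v U : Ω → ℝ} (hv : MemLp v P μ) (hU : MemLp U P μ)
    (S t : Finset ι) (i : ι) : MemLp (pc v U S t i) P μ := by
  unfold pc
  split_ifs
  · exact hv.sub hU
  · exact hU
  · exact memLp_const 1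

theorem pc_expand {ι : Type} [Fintype ι] [DecidableEq ι] (v U : Ω → ℝ) (S : Finset ι)
    (x : ι → Ω) : ∏ i ∈ S, v (x i) - ∏ i ∈ S, U (x i) =
      ∑ t ∈ S.powerset.erase ∅, ∏ i, pc v U S t i (x i) := by
  have h3 : ∏ i ∈ S, v (x i) = ∑ t ∈ S.powerset,
      (∏ i ∈ t, (v (x i) - U (x i))) * ∏ i ∈ S \ t, U (x i) := by
    rw [← Finset.prod_add]
    refine Finset.prod_congr rfl fun i _ => by ring
  have h4 : ∑ t ∈ S.powerset,
      (∏ i ∈ t, (v (x i) - U (x i))) * ∏ i ∈ S \ t, U (x i) = ∏ i ∈ S, U (x i) +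
      ∑ t ∈ S.powerset.erase ∅,
        (∏ i ∈ t, (v (x i) - U (x i))) * ∏ i ∈ S \ t, U (x i) := by
    rw [← Finset.add_sum_erase _ _ (Finset.empty_mem_powerset S)]
    simp
  rw [h3, h4, add_sub_cancel_left]
  refine Finset.sum_congr rfl fun t ht => ?_
  have hts : t ⊆ S := Finset.mem_powerset.1 (Finset.mem_of_mem_erase ht)
  have h7 := prod_sub_eq t (fun i => v (x i) - U (x i))
  have h8 := prod_sub_eq (S \ t) (fun i => U (x i))
  rw [h7, h8, ← Finset.prod_mul_distrib]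
  refine Finset.prod_congr rfl fun i _ => ?_
  simp only [pc, Finset.mem_sdiff]
  by_cases h5 : i ∈ t
  · simp [h5]
  · by_cases h6 : i ∈ S <;> simp [h5, h6]

theorem pc_bound {ι : Type} [Fintype ι] [DecidableEq ι] {μ : Measure Ω} [IsProbabilityMeasure μ]
    {p : ℝ} (hp : 0 < p) {v U : Ω → ℝ} {δ B : ℝ}
    (h1 : lpNorm (fun y => v y - U y) (ENNReal.ofReal p) μ ≤ δ)
    (h2 : lpNorm U (ENNReal.ofReal p) μ ≤ B) {S t : Finset ι} (hts : t ⊆ S) :
    ∏ i, lpNorm (pc v U S t i) (ENNReal.ofReal p) μ ≤ δ ^ t.card * B ^ (S.card - t.card) := by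
  have e5 : ∏ i, lpNorm (pc v U S t i) (ENNReal.ofReal p) μ ≤
      ∏ i, (if i ∈ t then δ else if i ∈ S then B else 1) := by
    refine Finset.prod_le_prod (fun i _ => lpNorm_nonneg) fun i _ => ?_
    unfold pc
    split_ifs
    · exact h1
    · exact h2
    · rw [lpNorm_const' (by simpa using hp) ENNReal.ofReal_ne_top]
      simp
  refine e5.trans (le_of_eq ?_)
  have e6 : ∀ i, (if i ∈ t then δ else if i ∈ S then B else 1) =
      (if i ∈ t then δ else 1) * (if i ∈ S \ t then B else 1) := by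
    intro i
    simp only [Finset.mem_sdiff]
    by_cases h5 : i ∈ t
    · simp [h5]
    · by_cases h6 : i ∈ S <;> simp [h5, h6]
  have h7 := prod_sub_eq t (fun _ => δ)
  have h8 := prod_sub_eq (S \ t) (fun _ => B)
  rw [Finset.prod_congr rfl (fun i _ => e6 i), Finset.prod_mul_distrib, ← h7, ← h8,
    Finset.prod_const, Finset.prod_const, Finset.card_sdiff_of_subset hts]

theorem lpNorm_const_mul' {Ω' : Type} [MeasurableSpace Ω'] (c : ℝ) (f : Ω' → ℝ) (P : ℝ≥0∞)
    (ν : Measure Ω') : lpNorm (fun x => c * f x) P ν = |c| * lpNorm f P ν := by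
  have := lpNorm_const_smul (p := P) c f ν
  simpa [Pi.smul_def, smul_eq_mul] using this

/-- Stability of multilinear polynomials. -/
theorem ml_sub_le {ι : Type} [Fintype ι] {μ : Measure Ω} [IsProbabilityMeasure μ] {p : ℝ}
    (hp : 1 ≤ p) {v U : Ω → ℝ} (hv : Measurable v) (hv' : MemLp v (ENNReal.ofReal p) μ)
    (hU : Measurable U) (hU' : MemLp U (ENNReal.ofReal p) μ) {δ B : ℝ}
    (h1 : lpNorm (fun y => v y - U y) (ENNReal.ofReal p) μ ≤ δ)
    (h2 : lpNorm U (ENNReal.ofReal p) μ ≤ B) (a : Finset ι → ℝ) :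
    lpNorm (fun x : ι → Ω => ml a (fun i => v (x i)) - ml a (fun i => U (x i)))
      (ENNReal.ofReal p) (Measure.pi fun _ => μ) ≤
      ∑ S : Finset ι, |a S| * ((δ + B) ^ S.card - B ^ S.card) := by
  classical
  have hp0 : 0 < p := by linarith
  have hP : 1 ≤ ENNReal.ofReal p := by
    rw [← ENNReal.ofReal_one]; exact ENNReal.ofReal_le_ofReal hp
  have e2 : (fun x : ι → Ω => ml a (fun i => v (x i)) - ml a (fun i => U (x i))) =
      ∑ S : Finset ι, ∑ t ∈ S.powerset.erase ∅,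
        fun x : ι → Ω => a S * ∏ i, pc v U S t i (x i) := by
    ext x
    simp only [Finset.sum_apply, ml]
    rw [← Finset.sum_sub_distrib]
    refine Finset.sum_congr rfl fun S _ => ?_
    rw [← mul_sub, pc_expand, Finset.mul_sum]
  have hmem : ∀ S t, MemLp (fun x : ι → Ω => a S * ∏ i, pc v U S t i (x i)) (ENNReal.ofReal p)
      (Measure.pi fun _ => μ) := fun S t =>
    (memLp_prod hp0 (pc_meas hv hU S t) (pc_memLp hv' hU' S t)).const_mul (a S)
  have e3 : ∀ S : Finset ι, (δ + B) ^ S.card - B ^ S.card =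
      ∑ t ∈ S.powerset.erase ∅, δ ^ t.card * B ^ (S.card - t.card) := by
    intro S
    rw [← Finset.sum_pow_mul_eq_add_pow,
      ← Finset.add_sum_erase _ _ (Finset.empty_mem_powerset S)]
    simp
  have hmem2 : ∀ S : Finset ι, MemLp (∑ t ∈ S.powerset.erase ∅,
      fun x : ι → Ω => a S * ∏ i, pc v U S t i (x i)) (ENNReal.ofReal p)
      (Measure.pi fun _ => μ) := fun S => memLp_finsetSum' _ fun t _ => hmem S t
  have h3 := lpNorm_sum_le (s := (Finset.univ : Finset (Finset ι)))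
    (f := fun S => ∑ t ∈ S.powerset.erase ∅, fun x : ι → Ω => a S * ∏ i, pc v U S t i (x i))
    (fun S _ => hmem2 S) hP
  rw [e2]
  refine h3.trans ?_
  refine Finset.sum_le_sum fun S _ => ?_
  have h4 := lpNorm_sum_le (s := S.powerset.erase ∅)
    (f := fun t => fun x : ι → Ω => a S * ∏ i, pc v U S t i (x i))
    (fun t _ => hmem S t) hP
  refine h4.trans ?_
  rw [e3, Finset.mul_sum]
  refine Finset.sum_le_sum fun t ht => ?_
  have hts : t ⊆ S := Finset.mem_powerset.1 (Finset.mem_of_mem_erase ht)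
  have h5 := lpNorm_const_mul' (a S) (fun x : ι → Ω => ∏ i, pc v U S t i (x i))
    (ENNReal.ofReal p) (Measure.pi fun _ => μ)
  have h6 := lpNorm_prod (μ := μ) hp0 (pc_meas hv hU S t)
  rw [h6] at h5
  rw [h5]
  exact mul_le_mul_of_nonneg_left (pc_bound hp0 h1 h2 hts) (abs_nonneg _)

end Pool.Agent.H93.RH
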