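import Mathlib
import Pool.Agent.H93.NumRange

/-!
# The Laplacian on low degree functions on the cube in `L^p`, `p = 2 m`, `m` odd

Points of the cube `{-1,1}^n` are coded by subsets `T` of `Fin n` (`x_i = -1` iff `i ∈ T`).
-/

set_option autoImplicit false

open Finset
open scoped ComplexConjugate

namespace Pool.Agent.H93.Cube

variable {n : ℕ}

/-- The character `χ_S`. -/
def chi (S T : Finset (Fin n)) : ℂ := (-1 : ℂ) ^ (S ∩ T).card

theorem chi_eq_prod (S T : Finset (Fin n)) :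
    chi S T = ∏ i, (if i ∈ S ∧ i ∈ T then (-1 : ℂ) else 1) := by
  rw [chi, Finset.prod_ite, Finset.prod_const_one, mul_one, Finset.prod_const]
  congr 1
  congr 1
  ext i
  simp

theorem chi_comm (S T : Finset (Fin n)) : chi S T = chi T S := by
  rw [chi, chi, Finset.inter_comm]

theorem chi_mul (S S' T : Finset (Fin n)) : chi S T * chi S' T = chi (symmDiff S S') T := by
  rw [chi_eq_prod, chi_eq_prod, chi_eq_prod, ← Finset.prod_mul_distrib]
  refine Finset.prod_congr rfl fun i _ => ?_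
  by_cases h1 : i ∈ S <;> by_cases h2 : i ∈ S' <;> by_cases h3 : i ∈ T <;>
    simp [Finset.mem_symmDiff, h1, h2, h3]

theorem chi_conj (S T : Finset (Fin n)) : conj (chi S T) = chi S T := by
  simp [chi]

theorem chi_flip (S T : Finset (Fin n)) (i : Fin n) :
    chi S (symmDiff T {i}) = (if i ∈ S then -1 else 1) * chi S T := by
  rw [chi_comm, ← chi_mul, chi_comm T S, mul_comm]
  congr 1
  by_cases h : i ∈ S
  · simp [chi, Finset.singleton_inter_of_mem h, h]
  · simp [chi, Finset.singleton_inter_of_notMem h, h]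

/-- Flipping the `i`-th coordinate is an equivalence. -/
def flipE (i : Fin n) : Finset (Fin n) ≃ Finset (Fin n) where
  toFun T := symmDiff T {i}
  invFun T := symmDiff T {i}
  left_inv T := by simp
  right_inv T := by simp

theorem sum_chi {S : Finset (Fin n)} (hS : S.Nonempty) : ∑ T, chi S T = 0 := by
  obtain ⟨i, hi⟩ := hS
  have h : ∑ T, chi S T = ∑ T, chi S (symmDiff T {i}) :=
    (Equiv.sum_comp (flipE i) (fun T => chi S T)).symm
  simp only [chi_flip, hi, if_true, neg_mul, one_mul, Finset.sum_neg_distrib] at h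
  exact self_eq_neg.1 h

theorem sum_chi_mul (S S' : Finset (Fin n)) :
    ∑ T, chi S T * chi S' T = if S = S' then (2 : ℂ) ^ n else 0 := by
  simp only [chi_mul]
  by_cases h : S = S'
  · subst h
    simp [chi]
  · rw [if_neg h]
    apply sum_chi
    rw [Finset.nonempty_iff_ne_empty]
    intro h2
    exact h (by simpa [symmDiff_eq_bot] using h2)

/-- Parseval. -/
theorem parseval (b : Finset (Fin n) → ℂ) :
    ∑ T, ‖∑ S, b S * chi S T‖ ^ 2 = 2 ^ n * ∑ S, ‖b S‖ ^ 2 := by
  have h : ∑ T, conj (∑ S, b S * chi S T) * (∑ S, b S * chi S T) =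
      2 ^ n * ∑ S, conj (b S) * b S := by
    simp only [map_sum, map_mul, chi_conj, Finset.sum_mul_sum]
    rw [Finset.sum_comm]
    rw [Finset.mul_sum]
    refine Finset.sum_congr rfl fun S _ => ?_
    rw [Finset.sum_comm]
    have : ∀ S', ∑ T, conj (b S) * chi S T * (b S' * chi S' T) =
        conj (b S) * b S' * (if S = S' then (2 : ℂ) ^ n else 0) := by
      intro S'
      rw [← sum_chi_mul, Finset.mul_sum]
      refine Finset.sum_congr rfl fun T _ => by ring
    simp only [this]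
    simp
    ring
  have h2 : ∀ z : ℂ, conj z * z = ((‖z‖ ^ 2 : ℝ) : ℂ) := fun z => by
    rw [mul_comm, Complex.mul_conj, Complex.normSq_eq_norm_sq]
  simp only [h2] at h
  exact_mod_cast h

/-- Functions of degree at most `k`. -/
def Deg (n k : ℕ) : Submodule ℂ (Finset (Fin n) → ℂ) :=
  Submodule.span ℂ {g | ∃ S : Finset (Fin n), S.card ≤ k ∧ g = chi S}

theorem chi_mem {k : ℕ} {S : Finset (Fin n)} (h : S.card ≤ k) : chi S ∈ Deg n k :=
  Submodule.subset_span ⟨S, h, rfl⟩

theorem deg_mul {k l : ℕ} {g h : Finset (Fin n) → ℂ} (hg : g ∈ Deg n k) (hh : h ∈ Deg n l) :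
    g * h ∈ Deg n (k + l) := by
  have h1 : g * h ∈ Deg n k * Deg n l := Submodule.mul_mem_mul hg hh
  rw [Deg, Deg, Submodule.span_mul_span] at h1
  refine Submodule.span_le.2 ?_ h1
  rintro _ ⟨_, ⟨S, hS, rfl⟩, _, ⟨S', hS', rfl⟩, rfl⟩
  have : (fun x1 x2 : Finset (Fin n) → ℂ => x1 * x2) (chi S) (chi S') = chi (symmDiff S S') := by
    ext T
    exact chi_mul S S' T
  rw [this]
  refine chi_mem ?_
  have h3 : symmDiff S S' ≤ S ∪ S' := symmDiff_le_sup
  exact (Finset.card_le_card h3).trans ((Finset.card_union_le _ _).trans (by omega))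

theorem deg_one : (1 : Finset (Fin n) → ℂ) ∈ Deg n 0 := by
  have : (1 : Finset (Fin n) → ℂ) = chi ∅ := by
    ext T; simp [chi]
  rw [this]
  exact chi_mem (by simp)

theorem deg_pow {k : ℕ} {g : Finset (Fin n) → ℂ} (hg : g ∈ Deg n k) (r : ℕ) :
    g ^ r ∈ Deg n (r * k) := by
  induction r with
  | zero => simpa using deg_one
  | succ r ih =>
    rw [pow_succ, Nat.succ_mul]
    exact deg_mul ih hg

theorem deg_conj {k : ℕ} {g : Finset (Fin n) → ℂ} (hg : g ∈ Deg n k) :
    (fun T => conj (g T)) ∈ Deg n k := by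
  refine Submodule.span_induction (p := fun g _ => (fun T => conj (g T)) ∈ Deg n k)
    ?_ ?_ ?_ ?_ hg
  · rintro _ ⟨S, hS, rfl⟩
    have : (fun T => conj (chi S T)) = chi S := by
      ext T; exact chi_conj S T
    rw [this]
    exact chi_mem hS
  · have : (fun T : Finset (Fin n) => conj ((0 : Finset (Fin n) → ℂ) T)) = 0 := by
      ext T; simp
    rw [this]; exact Submodule.zero_mem _
  · intro x y _ _ hx hy
    have : (fun T : Finset (Fin n) => conj ((x + y) T)) =
        (fun T => conj (x T)) + (fun T => conj (y T)) := by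
      ext T; simp
    rw [this]; exact Submodule.add_mem _ hx hy
  · intro a x _ hx
    have : (fun T : Finset (Fin n) => conj ((a • x) T)) =
        (conj a) • (fun T => conj (x T)) := by
      ext T; simp
    rw [this]; exact Submodule.smul_mem _ _ hx

theorem deg_coeff {k : ℕ} {g : Finset (Fin n) → ℂ} (hg : g ∈ Deg n k) :
    ∃ b : Finset (Fin n) → ℂ, (∀ S, k < S.card → b S = 0) ∧
      ∀ T, g T = ∑ S, b S * chi S T := by
  refine Submodule.span_induction (p := fun g _ => ∃ b : Finset (Fin n) → ℂ,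
    (∀ S, k < S.card → b S = 0) ∧ ∀ T, g T = ∑ S, b S * chi S T) ?_ ?_ ?_ ?_ hg
  · rintro _ ⟨S, hS, rfl⟩
    refine ⟨fun S' => if S' = S then 1 else 0, ?_, ?_⟩
    · intro S' h
      have : S' ≠ S := by rintro rfl; omega
      simp [this]
    · intro T; simp
  · exact ⟨0, by simp, by simp⟩
  · rintro x y _ _ ⟨b, hb, hx⟩ ⟨c, hc, hy⟩
    refine ⟨b + c, fun S hS => by simp [hb S hS, hc S hS], fun T => ?_⟩
    simp [hx, hy, add_mul, Finset.sum_add_distrib]
  · rintro a x _ ⟨b, hb, hx⟩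
    refine ⟨a • b, fun S hS => by simp [hb S hS], fun T => ?_⟩
    simp [hx, Finset.mul_sum, mul_assoc]

/-- Spectral gap: `∑_i E |g - g^i|² ≤ 4 k E |g|²`. -/
theorem energy_le {k : ℕ} {g : Finset (Fin n) → ℂ} (hg : g ∈ Deg n k) :
    ∑ i, ∑ T, ‖g T - g (symmDiff T {i})‖ ^ 2 ≤ 4 * k * ∑ T, ‖g T‖ ^ 2 := by
  obtain ⟨b, hb, hgb⟩ := deg_coeff hg
  have h1 : ∀ i : Fin n, ∑ T, ‖g T - g (symmDiff T {i})‖ ^ 2 =
      2 ^ n * ∑ S, (if i ∈ S then 4 * ‖b S‖ ^ 2 else 0) := by
    intro i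
    have h2 : ∀ T, g T - g (symmDiff T {i}) =
        ∑ S, ((if i ∈ S then 2 else 0) * b S) * chi S T := by
      intro T
      rw [hgb, hgb, ← Finset.sum_sub_distrib]
      refine Finset.sum_congr rfl fun S _ => ?_
      rw [chi_flip]
      split_ifs <;> ring
    simp only [h2]
    rw [parseval]
    congr 1
    refine Finset.sum_congr rfl fun S _ => ?_
    split_ifs
    · rw [norm_mul, mul_pow]; norm_num
    · simp
  simp only [h1, ← Finset.mul_sum]
  have h3 : ∑ T, ‖g T‖ ^ 2 = 2 ^ n * ∑ S, ‖b S‖ ^ 2 := by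
    simp only [hgb]
    exact parseval b
  rw [h3, Finset.sum_comm]
  have h4 : ∀ S : Finset (Fin n), ∑ i, (if i ∈ S then 4 * ‖b S‖ ^ 2 else 0) ≤
      4 * k * ‖b S‖ ^ 2 := by
    intro S
    rw [← Finset.sum_filter, Finset.sum_const, nsmul_eq_mul]
    have : (Finset.univ.filter (fun i => i ∈ S)).card = S.card := by
      congr 1; ext i; simp
    rw [this]
    by_cases hS : k < S.card
    · rw [hb S hS]; simp
    · have : (S.card : ℝ) ≤ k := by exact_mod_cast not_lt.1 hS
      nlinarith [sq_nonneg ‖b S‖]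
  calc 2 ^ n * ∑ S, ∑ i, (if i ∈ S then 4 * ‖b S‖ ^ 2 else 0)
      ≤ 2 ^ n * ∑ S, 4 * k * ‖b S‖ ^ 2 := by
        gcongr with S _
        exact h4 S
    _ = _ := by rw [← Finset.mul_sum]; ring

/-- The elementary inequality
`|a - b| |a |a|^{2r} - b |b|^{2r}| ≤ 2 |a |a|^r - b |b|^r|²`. -/
theorem pointwise (r : ℕ) (a b : ℂ) :
    ‖a - b‖ * ‖a * ((‖a‖ ^ (2 * r) : ℝ) : ℂ) - b * ((‖b‖ ^ (2 * r) : ℝ) : ℂ)‖ ≤
      2 * ‖a * ((‖a‖ ^ r : ℝ) : ℂ) - b * ((‖b‖ ^ r : ℝ) : ℂ)‖ ^ 2 := by
  wlog hab : ‖b‖ ≤ ‖a‖ generalizing a b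
  · have := this b a (le_of_not_ge hab)
    rwa [norm_sub_rev, norm_sub_rev (a * _), norm_sub_rev (a * _)]
  set A : ℝ := ‖a‖ ^ r with hA
  set B : ℝ := ‖b‖ ^ r with hB
  have hAB : B ≤ A := pow_le_pow_left₀ (norm_nonneg _) hab _
  have hB0 : 0 ≤ B := by positivity
  have hA0 : 0 ≤ A := by positivity
  have e1 : ‖a‖ ^ (2 * r) = A * A := by rw [hA, two_mul, pow_add]
  have e2 : ‖b‖ ^ (2 * r) = B * B := by rw [hB, two_mul, pow_add]
  rw [e1, e2]
  set w : ℂ := a * (A : ℂ) - b * (B : ℂ) with hw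
  -- lower bound for `w`
  have hw1 : ‖a‖ * A - ‖b‖ * B ≤ ‖w‖ := by
    have := norm_sub_norm_le (a * (A : ℂ)) (b * (B : ℂ))
    simpa [norm_mul, Complex.norm_real, abs_of_nonneg hA0, abs_of_nonneg hB0] using this
  have hw2 : ‖a‖ * (A - B) ≤ ‖w‖ := by
    have : ‖b‖ * B ≤ ‖a‖ * B := by gcongr
    nlinarith
  have hw3 : ‖b‖ * (A - B) ≤ ‖w‖ := by
    refine le_trans ?_ hw2
    have : 0 ≤ A - B := by linarith
    gcongr
  -- upper bound
  have h1 : ‖a * ((A * A : ℝ) : ℂ) - b * ((B * B : ℝ) : ℂ)‖ ≤ (A + B) * ‖w‖ := by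
    have e : a * ((A * A : ℝ) : ℂ) - b * ((B * B : ℝ) : ℂ) =
        (A : ℂ) * w + (B : ℂ) * (b * ((A - B : ℝ) : ℂ)) := by
      rw [hw]; push_cast; ring
    rw [e]
    refine (norm_add_le _ _).trans ?_
    rw [norm_mul, norm_mul, norm_mul, Complex.norm_real, Complex.norm_real, Complex.norm_real,
      Real.norm_of_nonneg hA0, Real.norm_of_nonneg hB0, Real.norm_of_nonneg (by linarith)]
    nlinarith
  -- monotonicity
  have h2 : (A + B) * ‖a - b‖ ^ 2 ≤ 2 * (‖w‖ * ‖a - b‖) := by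
    have h3 : (w * conj (a - b)).re ≤ ‖w‖ * ‖a - b‖ := by
      refine (Complex.re_le_norm _).trans ?_
      rw [norm_mul, RCLike.norm_conj]
    have h4 : 2 * (w * conj (a - b)).re = (A + B) * ‖a - b‖ ^ 2 +
        (A - B) * (‖a‖ ^ 2 - ‖b‖ ^ 2) := by
      rw [← Complex.normSq_eq_norm_sq, ← Complex.normSq_eq_norm_sq, ← Complex.normSq_eq_norm_sq]
      simp only [hw, Complex.normSq_apply, Complex.mul_re, Complex.sub_re, Complex.sub_im,
        Complex.conj_re, Complex.conj_im, Complex.ofReal_re, Complex.ofReal_im, Complex.mul_im,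
        map_sub]
      ring
    have h5 : 0 ≤ (A - B) * (‖a‖ ^ 2 - ‖b‖ ^ 2) := by
      apply mul_nonneg (by linarith)
      have := norm_nonneg b
      nlinarith
    linarith
  have h3 : (A + B) * ‖a - b‖ ≤ 2 * ‖w‖ := by
    rcases eq_or_lt_of_le (norm_nonneg (a - b)) with h | h
    · rw [← h]; simp
    · refine le_of_mul_le_mul_right ?_ h
      calc (A + B) * ‖a - b‖ * ‖a - b‖ = (A + B) * ‖a - b‖ ^ 2 := by ring
        _ ≤ _ := h2
        _ = _ := by ring
  calc _ ≤ ‖a - b‖ * ((A + B) * ‖w‖) := by gcongr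
    _ = ((A + B) * ‖a - b‖) * ‖w‖ := by ring
    _ ≤ 2 * ‖w‖ * ‖w‖ := by gcongr
    _ = _ := by ring

/-- The Laplacian acting on coefficients. -/
theorem laplace (a : Finset (Fin n) → ℂ) (T : Finset (Fin n)) :
    ∑ S, (S.card : ℂ) * a S * chi S T =
      ∑ i, ((∑ S, a S * chi S T) - ∑ S, a S * chi S (symmDiff T {i})) / 2 := by
  have h : ∀ i : Fin n, ((∑ S, a S * chi S T) - ∑ S, a S * chi S (symmDiff T {i})) / 2 =
      ∑ S, (if i ∈ S then a S * chi S T else 0) := by
    intro i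
    rw [← Finset.sum_sub_distrib, Finset.sum_div]
    refine Finset.sum_congr rfl fun S _ => ?_
    rw [chi_flip]
    split_ifs <;> ring
  simp only [h]
  rw [Finset.sum_comm]
  refine Finset.sum_congr rfl fun S _ => ?_
  rw [← Finset.sum_filter, Finset.sum_const, nsmul_eq_mul]
  have : (Finset.univ.filter (fun i => i ∈ S)).card = S.card := by
    congr 1; ext i; simp
  rw [this]; ring

/-- Summation by parts. -/
theorem parts (g f : Finset (Fin n) → ℂ) :
    ∑ T, g T * ∑ i, (f T - f (symmDiff T {i})) / 2 =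
      (1 / 4) * ∑ i, ∑ T, (g T - g (symmDiff T {i})) * (f T - f (symmDiff T {i})) := by
  simp only [Finset.mul_sum]
  rw [Finset.sum_comm]
  refine Finset.sum_congr rfl fun i _ => ?_
  have h1 : ∑ T, g T * ((f T - f (symmDiff T {i})) / 2) =
      ∑ T, g (symmDiff T {i}) * ((f (symmDiff T {i}) - f T) / 2) := by
    have := Equiv.sum_comp (flipE i) (fun T => g T * ((f T - f (symmDiff T {i})) / 2))
    rw [← this]
    refine Finset.sum_congr rfl fun T _ => ?_
    have e : symmDiff (symmDiff T {i}) {i} = T := by simp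
    simp only [flipE, Equiv.coe_fn_mk, e]
  have h2 : ∑ T, g T * ((f T - f (symmDiff T {i})) / 2) =
      (1 / 2) * (∑ T, g T * ((f T - f (symmDiff T {i})) / 2) +
        ∑ T, g (symmDiff T {i}) * ((f (symmDiff T {i}) - f T) / 2)) := by
    rw [← h1]; ring
  rw [h2, ← Finset.sum_add_distrib, Finset.mul_sum]
  refine Finset.sum_congr rfl fun T _ => by ring

/-- Numerical range bound: `|E |f|^{p-2} conj f Δf| ≤ p d E |f|^p`, `p = 4 k + 2`. -/
theorem num_range (k d : ℕ) {f : Finset (Fin n) → ℂ} (hf : f ∈ Deg n d) :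
    ‖∑ T, ((‖f T‖ ^ (4 * k) : ℝ) : ℂ) * conj (f T) * ∑ i, (f T - f (symmDiff T {i})) / 2‖ ≤
      ((4 * k + 2 : ℕ) : ℝ) * d * ∑ T, ‖f T‖ ^ (4 * k + 2) := by
  have h0 := parts (fun T => ((‖f T‖ ^ (4 * k) : ℝ) : ℂ) * conj (f T)) f
  rw [h0]
  set G : Finset (Fin n) → ℂ := fun T => f T * ((‖f T‖ ^ (2 * k) : ℝ) : ℂ) with hG
  have hGd : G ∈ Deg n ((2 * k + 1) * d) := by
    have h1 : G = f ^ (k + 1) * (fun T => conj (f T)) ^ k := by
      ext T
      simp only [hG, Pi.mul_apply, Pi.pow_apply]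
      rw [pow_succ, mul_comm _ (f T), mul_assoc, ← mul_pow, Complex.mul_conj,
        Complex.normSq_eq_norm_sq, ← Complex.ofReal_pow, ← pow_mul]
    rw [h1]
    have h2 := deg_mul (deg_pow hf (k + 1)) (deg_pow (deg_conj hf) k)
    convert h2 using 2
    ring
  have h1 := energy_le hGd
  have h2 : ∑ T, ‖G T‖ ^ 2 = ∑ T, ‖f T‖ ^ (4 * k + 2) := by
    refine Finset.sum_congr rfl fun T _ => ?_
    simp only [hG]
    rw [norm_mul, Complex.norm_real, Real.norm_of_nonneg (by positivity)]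
    ring
  have h3 : ∀ i : Fin n, ∀ T, ‖(((‖f T‖ ^ (4 * k) : ℝ) : ℂ) * conj (f T) -
      ((‖f (symmDiff T {i})‖ ^ (4 * k) : ℝ) : ℂ) * conj (f (symmDiff T {i}))) *
      (f T - f (symmDiff T {i}))‖ ≤ 2 * ‖G T - G (symmDiff T {i})‖ ^ 2 := by
    intro i T
    have h4 := pointwise (2 * k) (f T) (f (symmDiff T {i}))
    rw [norm_mul, mul_comm]
    refine le_trans (le_of_eq ?_) h4
    congr 1
    rw [← RCLike.norm_conj]
    congr 1
    simp only [map_sub, map_mul, Complex.conj_ofReal, Complex.conj_conj]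
    rw [show 4 * k = 2 * (2 * k) by ring]
    ring
  calc _ ≤ (1 / 4) * ∑ i, ∑ T, 2 * ‖G T - G (symmDiff T {i})‖ ^ 2 := by
        rw [norm_mul]
        have : ‖(1 / 4 : ℂ)‖ = 1 / 4 := by norm_num
        rw [this]
        gcongr
        refine (norm_sum_le _ _).trans ?_
        gcongr with i _
        refine (norm_sum_le _ _).trans ?_
        gcongr with T _
        exact h3 i T
    _ = (1 / 2) * ∑ i, ∑ T, ‖G T - G (symmDiff T {i})‖ ^ 2 := by
        simp only [← Finset.mul_sum]; ring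
    _ ≤ (1 / 2) * (4 * ((2 * k + 1) * d : ℕ) * ∑ T, ‖G T‖ ^ 2) := by gcongr
    _ = _ := by rw [h2]; push_cast; ring

theorem deg_of_coeff {d : ℕ} (a : Finset (Fin n) → ℂ) (ha : ∀ S, d < S.card → a S = 0) :
    (fun T => ∑ S, a S * chi S T) ∈ Deg n d := by
  have : (fun T => ∑ S, a S * chi S T) = ∑ S, a S • chi S := by
    ext T; simp
  rw [this]
  refine Submodule.sum_mem _ fun S _ => ?_
  by_cases h : d < S.card
  · rw [ha S h, zero_smul]; exact Submodule.zero_mem _
  · exact Submodule.smul_mem _ _ (chi_mem (not_lt.1 h))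

section final

open MeasureTheory

/-- Conversion of the `L^p` norm for the counting measure into a finite sum. -/
theorem eLpNorm_count {Ω : Type*} [Fintype Ω] [MeasurableSpace Ω] [MeasurableSingletonClass Ω]
    {p : ℕ} (hp : 0 < p) (g : Ω → ℂ) :
    eLpNorm g (ENNReal.ofReal p) Measure.count =
      ENNReal.ofReal ((∑ T, ‖g T‖ ^ p) ^ (1 / (p : ℝ))) := by
  have hg : MemLp g (ENNReal.ofReal p) Measure.count := MemLp.of_discrete
  have hp' : (0 : ℝ) < p := by exact_mod_cast hp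
  rw [MemLp.eLpNorm_eq_integral_rpow_norm (by simpa using hp.ne') ENNReal.ofReal_ne_top hg,
    ENNReal.toReal_ofReal hp'.le, integral_count, one_div]
  simp only [Real.rpow_natCast]

theorem main (k d n : ℕ) (a : Finset (Fin n) → ℂ) (ha : ∀ S, d < S.card → a S = 0) :
    (∑ T, ‖∑ S, a S * (S.card : ℂ) * chi S T‖ ^ (4 * k + 2)) ^ (1 / ((4 * k + 2 : ℕ) : ℝ)) ≤
      Real.exp 1 * ((4 * k + 2 : ℕ) : ℝ) * d *
        (∑ T, ‖∑ S, a S * chi S T‖ ^ (4 * k + 2)) ^ (1 / ((4 * k + 2 : ℕ) : ℝ)) := by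
  classical
  let _ : MeasurableSpace (Finset (Fin n)) := ⊤
  let ι := {S : Finset (Fin n) // S.card ≤ d}
  let e : Fin (Fintype.card ι) ≃ ι := (Fintype.equivFin ι).symm
  set p : ℕ := 4 * k + 2 with hp
  have hp1 : (1 : ℝ) < p := by
    have : 1 < p := by omega
    exact_mod_cast this
  let L : (Fin (Fintype.card ι) → ℂ) →ₗ[ℂ] (Fin (Fintype.card ι) → ℂ) :=
    { toFun := fun v j => (((e j).1.card : ℕ) : ℂ) * v j
      map_add' := by intro v w; ext j; simp [mul_add]
      map_smul' := by intro z v; ext j; simp; ring }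
  let φ : Fin (Fintype.card ι) → Finset (Fin n) → ℂ := fun j => chi (e j).1
  let F : (Fin (Fintype.card ι) → ℂ) → Finset (Fin n) → ℂ := fun v T => ∑ j, v j * φ j T
  -- extension of a coefficient vector
  let b : (Fin (Fintype.card ι) → ℂ) → Finset (Fin n) → ℂ := fun v S =>
    if h : S.card ≤ d then v (e.symm ⟨S, h⟩) else 0
  have hb0 : ∀ v, ∀ S : Finset (Fin n), d < S.card → b v S = 0 := by
    intro v S hS
    simp only [b]
    rw [dif_neg (not_le.2 hS)]
  have hsum : ∀ (w : Finset (Fin n) → ℂ) (v : Fin (Fintype.card ι) → ℂ), (∀ j, v j = w (e j).1) →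
      (∀ S, d < S.card → w S = 0) → ∀ T, F v T = ∑ S, w S * chi S T := by
    intro w v hv hw T
    have h1 : F v T = ∑ x : ι, w x.1 * chi x.1 T := by
      simp only [F, φ]
      rw [← Equiv.sum_comp e (fun x : ι => w x.1 * chi x.1 T)]
      refine Finset.sum_congr rfl fun j _ => by rw [hv]
    rw [h1]
    rw [← Finset.sum_subtype (Finset.univ.filter fun S : Finset (Fin n) => S.card ≤ d)
      (by simp) (fun S => w S * chi S T)]
    rw [Finset.sum_filter]
    refine Finset.sum_congr rfl fun S _ => ?_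
    split_ifs with h
    · rfl
    · rw [hw S (not_le.1 h), zero_mul]
  have hbe : ∀ v j, v j = b v (e j).1 := by
    intro v j
    simp only [b]
    rw [dif_pos (e j).2]
    simp
  have hFb : ∀ v T, F v T = ∑ S, b v S * chi S T := fun v => hsum (b v) v (hbe v) (hb0 v)
  have hLb : ∀ v T, F (L v) T = ∑ i, (F v T - F v (symmDiff T {i})) / 2 := by
    intro v T
    have h1 : F (L v) T = ∑ S, ((S.card : ℂ) * b v S) * chi S T := by
      refine hsum (fun S => (S.card : ℂ) * b v S) (L v) (fun j => ?_) (fun S hS => ?_) T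
      · change (((e j).1.card : ℕ) : ℂ) * v j = _
        rw [← hbe]
      · simp only [hb0 v S hS, mul_zero]
    rw [h1, laplace]
    simp only [← hFb]
  have hFd : ∀ v, F v ∈ Deg n d := by
    intro v
    have : F v = fun T => ∑ S, b v S * chi S T := funext (hFb v)
    rw [this]
    exact deg_of_coeff _ (hb0 v)
  have key := NumRange.numRange_bound (Measure.count : Measure (Finset (Fin n))) hp1 φ
    (fun i => MemLp.of_discrete) L (c := (p : ℝ) * d) (by positivity) F (fun v x => rfl)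
    (by
      intro v
      rw [integral_count, integral_count]
      have h1 := num_range k d (hFd v)
      simp only [Real.rpow_natCast, hLb]
      have h2 : ∀ T, ‖F v T‖ ^ ((p : ℝ) - 2) = ‖F v T‖ ^ (4 * k) := by
        intro T
        rw [hp, ← Real.rpow_natCast]
        congr 1
        push_cast
        ring
      simp only [h2]
      exact h1)
  let v : Fin (Fintype.card ι) → ℂ := fun j => a (e j).1
  have hv : ∀ T, F v T = ∑ S, a S * chi S T := hsum a v (fun j => rfl) ha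
  have hLv : ∀ T, F (L v) T = ∑ S, a S * (S.card : ℂ) * chi S T := by
    refine hsum (fun S => a S * (S.card : ℂ)) (L v) (fun j => ?_) (fun S hS => ?_)
    · change (((e j).1.card : ℕ) : ℂ) * a (e j).1 = _
      ring
    · simp only [ha S hS, zero_mul]
  have h1 := key v
  rw [eLpNorm_count (by omega), eLpNorm_count (by omega), ← ENNReal.ofReal_mul (by positivity),
    ENNReal.ofReal_le_ofReal_iff (by positivity)] at h1
  simp only [hv, hLv] at h1
  rw [← mul_assoc] at h1
  exact h1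

end final

end Pool.Agent.H93.Cube
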