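import Pool.Agent.H93.RBPUpper2

/-! # The explicit supersolution of the renewal inequality -/

open MeasureTheory ProbabilityTheory Filter Topology Set
open scoped ENNReal

noncomputable section

namespace Pool.Agent.RBP

lemma exp_neg_le_rpow {a : ℝ} (ha : 0 ≤ a) :
    ∃ C : ℝ, 0 < C ∧ ∀ u : ℝ, 0 < u → Real.exp (-u) ≤ C * u ^ (-a) := by
  obtain ⟨n, hn⟩ := exists_nat_ge a
  refine ⟨1 + n.factorial, by positivity, fun u hu => ?_⟩
  have h1 : u ^ a ≤ (1 + n.factorial) * Real.exp u := by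
    rcases le_total u 1 with h | h
    · have e1 : u ^ a ≤ 1 := Real.rpow_le_one hu.le h ha
      have e2 : 1 ≤ Real.exp u := Real.one_le_exp hu.le
      have e3 : (0 : ℝ) ≤ n.factorial := by positivity
      nlinarith
    · have e1 : u ^ a ≤ u ^ (n : ℝ) := Real.rpow_le_rpow_of_exponent_le h hn
      rw [Real.rpow_natCast] at e1
      have e2 := Real.pow_div_factorial_le_exp u hu.le n
      rw [div_le_iff₀ (by positivity)] at e2
      have e3 := Real.exp_pos u
      nlinarith
  rw [Real.exp_neg, Real.rpow_neg hu.le, inv_eq_one_div, inv_eq_one_div, mul_one_div,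
    div_le_div_iff₀ (Real.exp_pos u) (Real.rpow_pos_of_pos hu a), one_mul]
  exact h1

lemma lint_exp_le {κ r : ℝ} (hκ : 0 < κ) (hr : 0 ≤ r) :
    ∫⁻ v, (if 0 < v ∧ v ≤ r then ENNReal.ofReal (Real.exp (-(κ * v))) else 0)
      ≤ ENNReal.ofReal (1 / κ) := by
  have h1 : ∫⁻ v, (if 0 < v ∧ v ≤ r then ENNReal.ofReal (Real.exp (-(κ * v))) else 0)
      = ∫⁻ v, (if 0 < v ∧ v < r then ENNReal.ofReal (Real.exp (-(κ * v))) else 0) := by
    refine lintegral_congr_ae ?_
    have h0 : ∀ᵐ v : ℝ, v ≠ r := by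
      simp [ae_iff, measure_singleton]
    filter_upwards [h0] with v hv
    refine if_congr ?_ rfl rfl
    exact ⟨fun h => ⟨h.1, lt_of_le_of_ne h.2 hv⟩, fun h => ⟨h.1, h.2.le⟩⟩
  rw [h1, lintegral_exp_Ioo hκ hr]
  apply ENNReal.ofReal_le_ofReal
  apply div_le_div_of_nonneg_right _ hκ.le
  linarith [Real.exp_pos (-(κ * r))]

lemma lint_rpow_le {a L r : ℝ} (ha : 1 < a) (hL : 0 < L) (hr : 0 ≤ r) :
    ∫⁻ v, (if 0 < v ∧ v ≤ r then ENNReal.ofReal ((L + r - v) ^ (-a)) else 0)
      ≤ ENNReal.ofReal (L ^ (1 - a) / (a - 1)) := by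
  have h1 : ∫⁻ v, (if 0 < v ∧ v ≤ r then ENNReal.ofReal ((L + r - v) ^ (-a)) else 0)
      = ∫⁻ v in Ioc 0 r, ENNReal.ofReal ((L + r - v) ^ (-a)) := by
    rw [← lintegral_indicator measurableSet_Ioc]
    refine lintegral_congr fun v => ?_
    simp only [Set.indicator, Set.mem_Ioc]
  have hcont : ContinuousOn (fun v : ℝ => (L + r - v) ^ (-a)) (Icc 0 r) := by
    refine ContinuousOn.rpow_const (by fun_prop) fun v hv => Or.inl ?_
    have := hv.2
    intro h
    linarith
  rw [h1, ← ofReal_integral_eq_lintegral_ofReal]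
  · apply ENNReal.ofReal_le_ofReal
    rw [← intervalIntegral.integral_of_le hr]
    have hd : ∀ v ∈ uIcc 0 r, HasDerivAt (fun v : ℝ => (L + r - v) ^ (1 - a) / (a - 1))
        ((L + r - v) ^ (-a)) v := by
      intro v hv
      rw [uIcc_of_le hr] at hv
      have hpos : 0 < L + r - v := by linarith [hv.2]
      have e1 : HasDerivAt (fun v : ℝ => L + r - v) (-1) v := by
        simpa using (hasDerivAt_id v).const_sub (L + r)
      have e2 := (e1.rpow_const (p := 1 - a) (Or.inl hpos.ne')).div_const (a - 1)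
      convert! e2 using 1
      have : (1 - a) - 1 = -a := by ring
      rw [this]
      have : a - 1 ≠ 0 := by linarith
      field_simp
      ring
    rw [intervalIntegral.integral_eq_sub_of_hasDerivAt hd]
    · have e3 : 0 < (L + r - 0) ^ (1 - a) / (a - 1) := by
        have : 0 < L + r - 0 := by linarith
        have h2 : 0 < a - 1 := by linarith
        positivity
      have e4 : L + r - r = L := by ring
      rw [e4]
      linarith
    · rw [intervalIntegrable_iff_integrableOn_Icc_of_le hr]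
      exact hcont.integrableOn_Icc
  · exact hcont.integrableOn_Icc.mono_set Ioc_subset_Icc_self
  · rw [EventuallyLE, ae_restrict_iff' measurableSet_Ioc]
    refine Eventually.of_forall fun v hv => ?_
    have : 0 < L + r - v := by linarith [hv.2]
    simp only [Pi.zero_apply]
    positivity

/-- pointwise inequality -/
lemma pointwise_split {a C κ δ L r v : ℝ} (ha : 0 ≤ a)
    (hC0 : 0 < C) (hC : ∀ u : ℝ, 0 < u → Real.exp (-u) ≤ C * u ^ (-a))
    (hκ : 0 < κ) (hδ : 0 < δ) (hδ1 : δ < 1) (hL : 0 < L) (hr : 0 ≤ r) (hv : 0 < v) (hvr : v ≤ r) :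
    Real.exp (-(κ * v)) * (L + r - v) ^ (-a) ≤ (L + r) ^ (-a) *
      ((1 - δ) ^ (-a) * Real.exp (-(κ * v)) + C * (κ * δ) ^ (-a) * (L + r - v) ^ (-a)) := by
  have hLr : 0 < L + r := by linarith
  have hp : 0 < L + r - v := by linarith
  have e0 := Real.exp_pos (-(κ * v))
  have p1 : 0 < (L + r - v) ^ (-a) := Real.rpow_pos_of_pos hp _
  have p2 : 0 < (L + r) ^ (-a) := Real.rpow_pos_of_pos hLr _
  have h1δ : 0 < 1 - δ := by linarith
  have p3 : 0 < (1 - δ) ^ (-a) := Real.rpow_pos_of_pos h1δ _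
  have p4 : 0 < (κ * δ) ^ (-a) := Real.rpow_pos_of_pos (by positivity) _
  rcases le_or_gt v (δ * (L + r)) with h | h
  · have h2 : (L + r - v) ^ (-a) ≤ (L + r) ^ (-a) * (1 - δ) ^ (-a) := by
      rw [← Real.mul_rpow hLr.le h1δ.le]
      apply Real.rpow_le_rpow_of_nonpos (by positivity) _ (by linarith)
      nlinarith
    calc Real.exp (-(κ * v)) * (L + r - v) ^ (-a)
        ≤ Real.exp (-(κ * v)) * ((L + r) ^ (-a) * (1 - δ) ^ (-a)) :=
          mul_le_mul_of_nonneg_left h2 e0.le
      _ = (L + r) ^ (-a) * ((1 - δ) ^ (-a) * Real.exp (-(κ * v)) + 0) := by ring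
      _ ≤ _ := by
          apply mul_le_mul_of_nonneg_left _ p2.le
          apply add_le_add le_rfl
          positivity
  · have h2 : Real.exp (-(κ * v)) ≤ C * ((κ * δ) ^ (-a) * (L + r) ^ (-a)) := by
      refine le_trans (hC _ (by positivity)) ?_
      apply mul_le_mul_of_nonneg_left _ hC0.le
      rw [← Real.mul_rpow (by positivity) hLr.le]
      apply Real.rpow_le_rpow_of_nonpos (by positivity) _ (by linarith)
      nlinarith
    calc Real.exp (-(κ * v)) * (L + r - v) ^ (-a)
        ≤ (C * ((κ * δ) ^ (-a) * (L + r) ^ (-a))) * (L + r - v) ^ (-a) :=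
          mul_le_mul_of_nonneg_right h2 p1.le
      _ = (L + r) ^ (-a) * (0 + C * (κ * δ) ^ (-a) * (L + r - v) ^ (-a)) := by ring
      _ ≤ _ := by
          apply mul_le_mul_of_nonneg_left _ p2.le
          apply add_le_add _ le_rfl
          positivity

end Pool.Agent.RBP
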