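import Pool.Agent.H93.RBPAnalysis

/-! # The explicit supersolution, part 2 -/

open MeasureTheory ProbabilityTheory Filter Topology Set
open scoped ENNReal

noncomputable section

namespace Pool.Agent.RBP

/-- pointwise (in the fitness) bound of the integrand -/
lemma Gam_le {a C β γ δ L A r x : ℝ} (ha : 1 < a)
    (hC0 : 0 < C) (hC : ∀ u : ℝ, 0 < u → Real.exp (-u) ≤ C * u ^ (-a))
    (hβ : 0 < β) (hγ : 0 < γ) (hδ : 0 < δ) (hδ1 : δ < 1) (hL : 1 ≤ L) (hA : 0 < A)
    (hr : 0 ≤ r) (hx : 0 < x) (hx1 : x < 1) :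
    Gam β γ (fun s => ENNReal.ofReal (A * Real.exp (γ * s) * (L + s) ^ (-a))) x r
      ≤ ENNReal.ofReal (Real.exp (γ * r) * (L + r) ^ (-a) * ((2 * L) ^ a))
        + ENNReal.ofReal (Real.exp (γ * r) * (L + r) ^ (-a) * (β * A * (1 - δ) ^ (-a) / γ))
          * ENNReal.ofReal (x / (1 - x))
        + ENNReal.ofReal (Real.exp (γ * r) * (L + r) ^ (-a) * (2 ^ a * C * γ ^ (-a)
            + β * A * C * (γ * δ) ^ (-a) * (L ^ (1 - a) / (a - 1))))
          * ENNReal.ofReal ((1 - x) ^ (-a)) := by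
  set κ : ℝ := γ * (1 - x) with hκdef
  have h1x : 0 < 1 - x := by linarith
  have hκ : 0 < κ := by positivity
  have hL0 : 0 < L := by linarith
  have hLr : 0 < L + r := by linarith
  have h1δ : 0 < 1 - δ := by linarith
  have ha1 : 0 < a - 1 := by linarith
  set E : ℝ := Real.exp (γ * r) * (L + r) ^ (-a) with hE
  have hE0 : 0 < E := by positivity
  have q1 : 0 < (1 - x) ^ (-a) := by positivity
  have hκa : κ ^ (-a) = γ ^ (-a) * (1 - x) ^ (-a) := by
    rw [hκdef, Real.mul_rpow hγ.le h1x.le]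
  have hκδ : (κ * δ) ^ (-a) = (γ * δ) ^ (-a) * (1 - x) ^ (-a) := by
    rw [hκdef, show γ * (1 - x) * δ = (γ * δ) * (1 - x) by ring,
      Real.mul_rpow (by positivity) h1x.le]
  -- first term
  have T1 : Real.exp (γ * x * r) ≤ E * ((2 * L) ^ a) + E * (2 ^ a * C * γ ^ (-a)) * (1 - x) ^ (-a) := by
    have e1 : Real.exp (γ * x * r) = Real.exp (γ * r) * Real.exp (-(κ * r)) := by
      rw [← Real.exp_add]; congr 1; rw [hκdef]; ring
    have e2 : Real.exp (-(κ * r)) ≤ (L + r) ^ (-a) * ((2 * L) ^ a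
        + 2 ^ a * C * γ ^ (-a) * (1 - x) ^ (-a)) := by
      have hLa : (L + r) ^ (-a) * (L + r) ^ a = 1 := by
        rw [← Real.rpow_add hLr]; simp
      rcases le_or_gt r L with h | h
      · have e3 : (L + r) ^ a ≤ (2 * L) ^ a := Real.rpow_le_rpow hLr.le (by linarith) (by linarith)
        have e4 : Real.exp (-(κ * r)) ≤ 1 := Real.exp_le_one_iff.2 (by
          have := mul_nonneg hκ.le hr; linarith)
        calc Real.exp (-(κ * r)) ≤ 1 := e4
          _ = (L + r) ^ (-a) * (L + r) ^ a := hLa.symm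
          _ ≤ (L + r) ^ (-a) * ((2 * L) ^ a + 2 ^ a * C * γ ^ (-a) * (1 - x) ^ (-a)) := by
              apply mul_le_mul_of_nonneg_left _ (by positivity)
              have : 0 < 2 ^ a * C * γ ^ (-a) * (1 - x) ^ (-a) := by positivity
              linarith
      · have hr0 : 0 < r := by linarith
        have e3 : Real.exp (-(κ * r)) ≤ C * (κ * r) ^ (-a) := hC _ (by positivity)
        have e5 : r ^ (-a) ≤ (L + r) ^ (-a) * 2 ^ a := by
          have : (2 * r) ^ (-a) ≤ (L + r) ^ (-a) :=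
            Real.rpow_le_rpow_of_nonpos hLr (by linarith) (by linarith)
          rw [Real.mul_rpow (by norm_num) hr0.le] at this
          have e6 : (2 : ℝ) ^ (-a) * 2 ^ a = 1 := by
            rw [← Real.rpow_add (by norm_num)]; simp
          calc r ^ (-a) = (2 ^ (-a) * r ^ (-a)) * 2 ^ a := by
                rw [mul_right_comm, e6, one_mul]
            _ ≤ (L + r) ^ (-a) * 2 ^ a := mul_le_mul_of_nonneg_right this (by positivity)
        calc Real.exp (-(κ * r)) ≤ C * (κ * r) ^ (-a) := e3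
          _ = C * γ ^ (-a) * (1 - x) ^ (-a) * r ^ (-a) := by
              rw [Real.mul_rpow hκ.le hr0.le, hκa]; ring
          _ ≤ C * γ ^ (-a) * (1 - x) ^ (-a) * ((L + r) ^ (-a) * 2 ^ a) :=
              mul_le_mul_of_nonneg_left e5 (by positivity)
          _ = (L + r) ^ (-a) * (0 + 2 ^ a * C * γ ^ (-a) * (1 - x) ^ (-a)) := by ring
          _ ≤ _ := by
              apply mul_le_mul_of_nonneg_left _ (by positivity)
              apply add_le_add _ le_rfl
              positivity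
    calc Real.exp (γ * x * r) = Real.exp (γ * r) * Real.exp (-(κ * r)) := e1
      _ ≤ Real.exp (γ * r) * ((L + r) ^ (-a) * ((2 * L) ^ a
        + 2 ^ a * C * γ ^ (-a) * (1 - x) ^ (-a))) := mul_le_mul_of_nonneg_left e2 (by positivity)
      _ = _ := by rw [hE]; ring
  -- second term
  have T2 : ∫⁻ v, (if 0 < v ∧ v ≤ r then ENNReal.ofReal (x * Real.exp (γ * x * v)) *
        ENNReal.ofReal (A * Real.exp (γ * (r - v)) * (L + (r - v)) ^ (-a)) else 0)
      ≤ ENNReal.ofReal (E * A * (1 - δ) ^ (-a) * (x / κ)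
        + E * A * C * (κ * δ) ^ (-a) * (L ^ (1 - a) / (a - 1))) := by
    have hb : ∀ v, (if 0 < v ∧ v ≤ r then ENNReal.ofReal (x * Real.exp (γ * x * v)) *
        ENNReal.ofReal (A * Real.exp (γ * (r - v)) * (L + (r - v)) ^ (-a)) else 0)
        ≤ ENNReal.ofReal (E * A * (1 - δ) ^ (-a) * x) *
            (if 0 < v ∧ v ≤ r then ENNReal.ofReal (Real.exp (-(κ * v))) else 0)
          + ENNReal.ofReal (E * A * C * (κ * δ) ^ (-a)) *
            (if 0 < v ∧ v ≤ r then ENNReal.ofReal ((L + r - v) ^ (-a)) else 0) := by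
      intro v
      by_cases hv : 0 < v ∧ v ≤ r
      · rw [if_pos hv, if_pos hv, if_pos hv, ← ENNReal.ofReal_mul (by positivity),
          ← ENNReal.ofReal_mul (by positivity), ← ENNReal.ofReal_mul (by positivity)]
        have hp : 0 < L + r - v := by linarith [hv.2]
        rw [← ENNReal.ofReal_add (by positivity) (by positivity)]
        apply ENNReal.ofReal_le_ofReal
        have hps := pointwise_split (a := a) (by linarith) hC0 hC hκ hδ hδ1 hL0 hr hv.1 hv.2
        have e7 : Real.exp (γ * x * v) * Real.exp (γ * (r - v)) = Real.exp (γ * r)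
            * Real.exp (-(κ * v)) := by
          rw [← Real.exp_add, ← Real.exp_add]; congr 1; rw [hκdef]; ring
        have e8 : L + (r - v) = L + r - v := by ring
        rw [e8]
        have p5 : 0 < Real.exp (-(κ * v)) := Real.exp_pos _
        have p6 : 0 < (L + r - v) ^ (-a) := by positivity
        have p7 : 0 < (κ * δ) ^ (-a) := by positivity
        calc x * Real.exp (γ * x * v) * (A * Real.exp (γ * (r - v)) * (L + r - v) ^ (-a))
            = x * A * (Real.exp (γ * x * v) * Real.exp (γ * (r - v))) * (L + r - v) ^ (-a) := by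
              ring
          _ = x * A * Real.exp (γ * r) * (Real.exp (-(κ * v)) * (L + r - v) ^ (-a)) := by
              rw [e7]; ring
          _ ≤ x * A * Real.exp (γ * r) * ((L + r) ^ (-a) *
              ((1 - δ) ^ (-a) * Real.exp (-(κ * v)) + C * (κ * δ) ^ (-a) * (L + r - v) ^ (-a))) :=
              mul_le_mul_of_nonneg_left hps (by positivity)
          _ = E * A * (1 - δ) ^ (-a) * x * Real.exp (-(κ * v))
              + x * (E * A * C * (κ * δ) ^ (-a) * (L + r - v) ^ (-a)) := by rw [hE]; ring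
          _ ≤ E * A * (1 - δ) ^ (-a) * x * Real.exp (-(κ * v))
              + 1 * (E * A * C * (κ * δ) ^ (-a) * (L + r - v) ^ (-a)) := by
              apply add_le_add le_rfl
              exact mul_le_mul_of_nonneg_right hx1.le (by positivity)
          _ = _ := by ring
      · rw [if_neg hv]; exact zero_le
    refine le_trans (lintegral_mono hb) ?_
    have m1 : Measurable fun v : ℝ => (if 0 < v ∧ v ≤ r then
        ENNReal.ofReal (Real.exp (-(κ * v))) else 0) := by
      refine Measurable.ite ?_ (by fun_prop) measurable_const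
      exact (measurableSet_lt measurable_const measurable_id).inter
        (measurableSet_le measurable_id measurable_const)
    rw [lintegral_add_left (m1.const_mul _), lintegral_const_mul' _ _ ENNReal.ofReal_ne_top,
      lintegral_const_mul' _ _ ENNReal.ofReal_ne_top]
    refine le_trans (add_le_add (mul_le_mul_right (lint_exp_le hκ hr) _)
      (mul_le_mul_right (lint_rpow_le ha hL0 hr) _)) (le_of_eq ?_)
    rw [← ENNReal.ofReal_mul (by positivity), ← ENNReal.ofReal_mul (by positivity),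
      ← ENNReal.ofReal_add (by positivity) (by positivity)]
    congr 1
    ring
  unfold Gam
  refine le_trans (add_le_add (ENNReal.ofReal_le_ofReal T1) (mul_le_mul_right T2 _)) ?_
  rw [← ENNReal.ofReal_mul hβ.le, ← ENNReal.ofReal_mul (by positivity),
    ← ENNReal.ofReal_mul (by positivity), ← ENNReal.ofReal_add (by positivity) (by positivity),
    ← ENNReal.ofReal_add (by positivity) (by positivity),
    ← ENNReal.ofReal_add (by positivity) (by positivity)]
  apply ENNReal.ofReal_le_ofReal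
  rw [hκδ, hκdef]
  apply le_of_eq
  field_simp
  ring

theorem exists_super {β γ a : ℝ} (hβ0 : 0 < β) (hγ0 : 0 < γ) (ha : 1 < a) (μ : Measure ℝ)
    [IsProbabilityMeasure μ] (hμ : μ (Ioo 0 1)ᶜ = 0)
    (hJ : ∫⁻ x, ENNReal.ofReal (x / (1 - x)) ∂μ < ENNReal.ofReal (γ / β))
    (hI : ∫⁻ x, ENNReal.ofReal ((1 - x) ^ (-a)) ∂μ ≠ ⊤) :
    ∃ A L : ℝ, 0 < A ∧ 1 ≤ L ∧ ∀ r, 0 ≤ r →
      ∫⁻ x, Gam β γ (fun s => ENNReal.ofReal (A * Real.exp (γ * s) * (L + s) ^ (-a))) x r ∂μ
        ≤ ENNReal.ofReal (A * Real.exp (γ * r) * (L + r) ^ (-a)) := by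
  obtain ⟨C, hC0, hC⟩ := exp_neg_le_rpow (a := a) (by linarith)
  set J := (∫⁻ x, ENNReal.ofReal (x / (1 - x)) ∂μ).toReal with hJdef
  set I := (∫⁻ x, ENNReal.ofReal ((1 - x) ^ (-a)) ∂μ).toReal with hIdef
  have hJfin : ∫⁻ x, ENNReal.ofReal (x / (1 - x)) ∂μ ≠ ⊤ := ne_top_of_lt hJ
  have eJ : ∫⁻ x, ENNReal.ofReal (x / (1 - x)) ∂μ = ENNReal.ofReal J :=
    (ENNReal.ofReal_toReal hJfin).symm
  have eI : ∫⁻ x, ENNReal.ofReal ((1 - x) ^ (-a)) ∂μ = ENNReal.ofReal I :=
    (ENNReal.ofReal_toReal hI).symm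
  have hJ0 : 0 ≤ J := ENNReal.toReal_nonneg
  have hI0 : 0 ≤ I := ENNReal.toReal_nonneg
  have hJ' : J < γ / β := by
    rw [eJ] at hJ
    exact (ENNReal.ofReal_lt_ofReal_iff (by positivity)).1 hJ
  have hJ'' : β * (J / γ) * (1 - 0) ^ (-a) < 1 := by
    rw [sub_zero, Real.one_rpow, mul_one]
    rw [lt_div_iff₀ hβ0] at hJ'
    rw [← mul_div_assoc, div_lt_one hγ0]
    linarith
  have ha1 : 0 < a - 1 := by linarith
  obtain ⟨δ, hδ0, hδ1, hδ⟩ : ∃ δ : ℝ, 0 < δ ∧ δ < 1 ∧ β * (J / γ) * (1 - δ) ^ (-a) < 1 := by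
    have hc : ContinuousAt (fun δ : ℝ => β * (J / γ) * (1 - δ) ^ (-a)) 0 := by
      refine ContinuousAt.mul continuousAt_const ?_
      exact ContinuousAt.rpow_const (by fun_prop) (Or.inl (by norm_num))
    have h1 : ∀ᶠ δ in 𝓝 (0 : ℝ), β * (J / γ) * (1 - δ) ^ (-a) < 1 :=
      hc.eventually (gt_mem_nhds hJ'')
    have h2 : ∀ᶠ δ in 𝓝 (0 : ℝ), δ < 1 := gt_mem_nhds one_pos
    have h3 : ∀ᶠ δ in 𝓝[>] (0 : ℝ), β * (J / γ) * (1 - δ) ^ (-a) < 1 ∧ δ < 1 ∧ 0 < δ := by
      filter_upwards [h1.filter_mono nhdsWithin_le_nhds, h2.filter_mono nhdsWithin_le_nhds,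
        self_mem_nhdsWithin] with δ e1 e2 e3
      exact ⟨e1, e2, e3⟩
    obtain ⟨δ, e1, e2, e3⟩ := h3.exists
    exact ⟨δ, e3, e2, e1⟩
  obtain ⟨L, hL1, hL⟩ : ∃ L : ℝ, 1 ≤ L ∧ β * (J / γ) * (1 - δ) ^ (-a)
      + β * C * (γ * δ) ^ (-a) * I * (L ^ (1 - a) / (a - 1)) < 1 := by
    have h1 : Tendsto (fun L : ℝ => L ^ (1 - a)) atTop (𝓝 0) := by
      have := tendsto_rpow_neg_atTop (y := a - 1) ha1
      simpa using this
    have h2 : Tendsto (fun L : ℝ => β * (J / γ) * (1 - δ) ^ (-a)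
      + β * C * (γ * δ) ^ (-a) * I * (L ^ (1 - a) / (a - 1))) atTop
        (𝓝 (β * (J / γ) * (1 - δ) ^ (-a)
      + β * C * (γ * δ) ^ (-a) * I * (0 / (a - 1)))) :=
      tendsto_const_nhds.add (tendsto_const_nhds.mul (h1.div_const _))
    rw [zero_div, mul_zero, add_zero] at h2
    have h3 := (h2.eventually (gt_mem_nhds hδ)).and (eventually_ge_atTop 1)
    obtain ⟨L, e1, e2⟩ := h3.exists
    exact ⟨L, e2, e1⟩
  set θ := β * (J / γ) * (1 - δ) ^ (-a)
      + β * C * (γ * δ) ^ (-a) * I * (L ^ (1 - a) / (a - 1)) with hθ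
  set D := (2 * L) ^ a + 2 ^ a * C * γ ^ (-a) * I with hD
  have hL0 : 0 < L := by linarith
  have hD0 : 0 < D := by
    have : 0 < (2 * L) ^ a := by positivity
    have : 0 ≤ 2 ^ a * C * γ ^ (-a) * I := by positivity
    rw [hD]; linarith
  have hθ1 : 0 < 1 - θ := by linarith
  set A := D / (1 - θ) with hAdef
  have hA : 0 < A := by positivity
  have hDA : D = A * (1 - θ) := by rw [hAdef]; field_simp
  refine ⟨A, L, hA, hL1, fun r hr => ?_⟩
  have hLr : 0 < L + r := by linarith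
  set E : ℝ := Real.exp (γ * r) * (L + r) ^ (-a) with hE
  have hE0 : 0 < E := by positivity
  have hae : ∀ᵐ x ∂μ, x ∈ Ioo (0 : ℝ) 1 := hμ
  have hle : ∫⁻ x, Gam β γ (fun s => ENNReal.ofReal (A * Real.exp (γ * s) * (L + s) ^ (-a))) x r ∂μ
      ≤ ∫⁻ x, (ENNReal.ofReal (E * ((2 * L) ^ a))
        + ENNReal.ofReal (E * (β * A * (1 - δ) ^ (-a) / γ))
          * ENNReal.ofReal (x / (1 - x))
        + ENNReal.ofReal (E * (2 ^ a * C * γ ^ (-a)
            + β * A * C * (γ * δ) ^ (-a) * (L ^ (1 - a) / (a - 1))))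
          * ENNReal.ofReal ((1 - x) ^ (-a))) ∂μ := by
    refine lintegral_mono_ae ?_
    filter_upwards [hae] with x hx
    exact Gam_le ha hC0 hC hβ0 hγ0 hδ0 hδ1 hL1 hA hr hx.1 hx.2
  refine le_trans hle ?_
  have h1δ : 0 < 1 - δ := by linarith
  rw [lintegral_add_left (by fun_prop), lintegral_add_left (by fun_prop), lintegral_const,
    measure_univ, mul_one, lintegral_const_mul' _ _ ENNReal.ofReal_ne_top,
    lintegral_const_mul' _ _ ENNReal.ofReal_ne_top, eJ, eI,
    ← ENNReal.ofReal_mul (by positivity), ← ENNReal.ofReal_mul (by positivity),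
    ← ENNReal.ofReal_add (by positivity) (by positivity),
    ← ENNReal.ofReal_add (by positivity) (by positivity)]
  apply ENNReal.ofReal_le_ofReal
  apply le_of_eq
  have : E * (2 * L) ^ a + E * (β * A * (1 - δ) ^ (-a) / γ) * J + E * (2 ^ a * C * γ ^ (-a)
            + β * A * C * (γ * δ) ^ (-a) * (L ^ (1 - a) / (a - 1))) * I
      = E * (D + A * θ) := by
    rw [hD, hθ]; ring
  rw [this, hDA, hE]
  ring

end Pool.Agent.RBP
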