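import Mathlib

/-! # Resampling one coordinate of an infinite product measure -/

open MeasureTheory ProbabilityTheory Filter Topology Set
open scoped ENNReal

namespace Pool.Agent.RBP

variable {ι : Type*} [DecidableEq ι] {X : ι → Type*} [∀ i, MeasurableSpace (X i)]
  (μ : ∀ i, Measure (X i)) [∀ i, IsProbabilityMeasure (μ i)]

lemma map_update_infinitePi (i : ι) :
    ((Measure.infinitePi μ).prod (μ i)).map (fun p => Function.update p.1 i p.2)
      = Measure.infinitePi μ := by
  refine Measure.eq_infinitePi _ fun s t ht => ?_
  have hmeas : Measurable (fun p : (∀ i, X i) × X i => Function.update p.1 i p.2) := by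
    refine measurable_pi_iff.2 fun j => ?_
    by_cases hj : j = i
    · subst hj
      simp only [Function.update_self]
      exact measurable_snd
    · simp only [Function.update_of_ne hj]
      exact (measurable_pi_apply j).comp measurable_fst
  rw [Measure.map_apply hmeas (MeasurableSet.pi s.countable_toSet fun j _ => ht j)]
  by_cases hi : i ∈ s
  · have hset : (fun p : (∀ i, X i) × X i => Function.update p.1 i p.2) ⁻¹' ((s : Set ι).pi t)
        = (((s.erase i : Finset ι) : Set ι).pi t) ×ˢ (t i) := by
      ext p
      simp only [Set.mem_preimage, Set.mem_pi, Set.mem_prod, Finset.mem_coe, Finset.mem_erase]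
      constructor
      · intro h
        refine ⟨fun j hj => ?_, ?_⟩
        · have := h j hj.2
          rwa [Function.update_of_ne hj.1] at this
        · have := h i hi
          rwa [Function.update_self] at this
      · rintro ⟨h1, h2⟩ j hj
        by_cases hji : j = i
        · subst hji; rwa [Function.update_self]
        · rw [Function.update_of_ne hji]; exact h1 j ⟨hji, hj⟩
    rw [hset, Measure.prod_prod, Measure.infinitePi_pi _ (fun j _ => ht j),
      Finset.prod_erase_mul _ _ hi]
  · have hset : (fun p : (∀ i, X i) × X i => Function.update p.1 i p.2) ⁻¹' ((s : Set ι).pi t)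
        = ((s : Set ι).pi t) ×ˢ (Set.univ) := by
      ext p
      simp only [Set.mem_preimage, Set.mem_pi, Set.mem_prod, Finset.mem_coe, Set.mem_univ,
        and_true]
      refine forall₂_congr fun j hj => ?_
      have hji : j ≠ i := fun h => hi (h ▸ hj)
      rw [Function.update_of_ne hji]
    rw [hset, Measure.prod_prod, Measure.infinitePi_pi _ (fun j _ => ht j), measure_univ, mul_one]

lemma measurable_update_pair (i : ι) :
    Measurable (fun p : (∀ i, X i) × X i => Function.update p.1 i p.2) := by
  refine measurable_pi_iff.2 fun j => ?_
  by_cases hj : j = i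
  · subst hj
    simp only [Function.update_self]
    exact measurable_snd
  · simp only [Function.update_of_ne hj]
    exact (measurable_pi_apply j).comp measurable_fst

/-- Resampling the coordinate `i`. -/
lemma lintegral_resample (i : ι) {Φ : (∀ i, X i) → ℝ≥0∞} (hΦ : Measurable Φ) :
    ∫⁻ ω, Φ ω ∂Measure.infinitePi μ
      = ∫⁻ ω, ∫⁻ y, Φ (Function.update ω i y) ∂(μ i) ∂Measure.infinitePi μ := by
  conv_lhs => rw [← map_update_infinitePi μ i]
  rw [lintegral_map hΦ (measurable_update_pair i)]
  exact lintegral_prod (fun p : (∀ i, X i) × X i => Φ (Function.update p.1 i p.2))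
    (hΦ.comp (measurable_update_pair i)).aemeasurable

end Pool.Agent.RBP
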