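import Pool.Agent.H93.RBPModel
import Pool.Agent.H93.RBPResample

/-! # One family: the one-step potential lemma -/

open MeasureTheory ProbabilityTheory Filter Topology Set
open scoped ENNReal

noncomputable section

namespace Pool.Agent.RBP

/-- next size -/
def nsz (z : ℕ) (y : Ev) : ℕ := z + (if add y then 1 else 0)

lemma measurable_nsz : Measurable fun p : ℕ × Ev => nsz p.1 p.2 := by
  unfold nsz
  refine measurable_fst.add (Measurable.ite ?_ measurable_const measurable_const)
  exact (measurable_add.comp measurable_snd) (measurableSet_singleton true)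

lemma size_succ (s : ℕ → Ev) (k : ℕ) : size s (k + 1) = nsz (size s k) (s k) := rfl

theorem chain_lemma (ν : Measure Ev) [IsProbabilityMeasure ν] (x : ℝ)
    (c : ℕ → ℝ → Ev → ℝ≥0∞) (V : ℕ → ℝ → ℝ≥0∞)
    (hc : Measurable fun p : ℕ × ℝ × Ev => c p.1 p.2.1 p.2.2)
    (hV : Measurable fun p : ℕ × ℝ => V p.1 p.2)
    (h : ∀ z : ℕ, 1 ≤ z → ∀ b : ℝ,
      ∫⁻ y, (c z b y + V (nsz z y) (b + clock y / (x * z))) ∂ν ≤ V z b) :
    ∑' k : ℕ, ∫⁻ s, c (size s k) (age x s k) (s k) ∂(Measure.infinitePi fun _ : ℕ => ν)
      ≤ V 1 0 := by
  set P := Measure.infinitePi (fun _ : ℕ => ν) with hP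
  have mage : ∀ k, Measurable fun s : ℕ → Ev => age x s k := fun k =>
    (measurable_age k).comp (measurable_const.prodMk measurable_id)
  have mc : ∀ k, Measurable fun s : ℕ → Ev => c (size s k) (age x s k) (s k) := fun k =>
    hc.comp ((measurable_size k).prodMk ((mage k).prodMk (measurable_pi_apply k)))
  have mV : ∀ k, Measurable fun s : ℕ → Ev => V (size s k) (age x s k) := fun k =>
    hV.comp ((measurable_size k).prodMk (mage k))
  have key : ∀ n : ℕ, ∑ k ∈ Finset.range n, ∫⁻ s, c (size s k) (age x s k) (s k) ∂P
      + ∫⁻ s, V (size s n) (age x s n) ∂P ≤ V 1 0 := by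
    intro n
    induction n with
    | zero => simp [size, age_zero]
    | succ n ih =>
      refine le_trans ?_ ih
      rw [Finset.sum_range_succ, add_assoc]
      refine add_le_add_right ?_ _
      rw [← lintegral_add_left (mc n)]
      have hm : Measurable fun s : ℕ → Ev => c (size s n) (age x s n) (s n)
          + V (size s (n + 1)) (age x s (n + 1)) := (mc n).add (mV (n + 1))
      rw [hP, lintegral_resample (fun _ : ℕ => ν) n hm]
      refine lintegral_mono fun s => ?_
      have e1 : ∀ y, size (Function.update s n y) n = size s n := fun y =>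
        size_congr fun j hj => by rw [Function.update_of_ne (by omega)]
      have e2 : ∀ y, age x (Function.update s n y) n = age x s n := fun y =>
        age_congr fun j hj => by rw [Function.update_of_ne (by omega)]
      simp only [size_succ, age_succ, e1, e2, Function.update_self]
      exact h _ (size_pos s n) _
  refine ENNReal.tsum_le_of_sum_range_le fun n => le_trans (le_add_right le_rfl) (key n)

/-! ### The laws -/

lemma lintegral_markLaw (β γ : ℝ) (φ : Bool × Bool → ℝ≥0∞) :
    ∫⁻ m, φ m ∂(markLaw β γ) = ENNReal.ofReal (β + γ - 1) * φ (true, true)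
      + ENNReal.ofReal (1 - γ) * φ (true, false) + ENNReal.ofReal (1 - β) * φ (false, true) := by
  unfold markLaw
  rw [lintegral_add_measure, lintegral_add_measure, lintegral_smul_measure,
    lintegral_smul_measure, lintegral_smul_measure]
  simp

lemma isProb_markLaw {β γ : ℝ} (hβ : β ≤ 1) (hγ : γ ≤ 1) (h : 1 ≤ β + γ) :
    IsProbabilityMeasure (markLaw β γ) := by
  constructor
  have := lintegral_markLaw β γ (fun _ => 1)
  simp only [lintegral_const, one_mul, mul_one] at this
  rw [this, ← ENNReal.ofReal_add (by linarith) (by linarith),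
    ← ENNReal.ofReal_add (by linarith) (by linarith)]
  simp

lemma isProb_evLaw {β γ : ℝ} (hβ : β ≤ 1) (hγ : γ ≤ 1) (h : 1 ≤ β + γ) (μ : Measure ℝ)
    [IsProbabilityMeasure μ] : IsProbabilityMeasure (evLaw β γ μ) := by
  have := isProb_markLaw hβ hγ h
  have := isProbabilityMeasure_expMeasure (r := 1) one_pos
  unfold evLaw
  infer_instance

lemma lintegral_exp_scale {l : ℝ} (hl : 0 < l) {φ : ℝ → ℝ≥0∞} (hφ : Measurable φ) :
    ∫⁻ v, φ (v / l) ∂(expMeasure 1)
      = ∫⁻ w, (if 0 < w then ENNReal.ofReal (l * Real.exp (-(l * w))) else 0) * φ w := by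
  have h1 : ∫⁻ v, φ (v / l) ∂(expMeasure 1)
      = ∫⁻ v, (if 0 < v then ENNReal.ofReal (Real.exp (-v)) else 0) * φ (v / l) := by
    unfold expMeasure gammaMeasure
    have hg : Measurable (gammaPDF 1 1) := (measurable_gammaPDFReal 1 1).ennreal_ofReal
    have hf : Measurable fun v => φ (v / l) := by fun_prop
    rw [lintegral_withDensity_eq_lintegral_mul _ hg hf]
    refine lintegral_congr_ae ?_
    have h0 : ∀ᵐ v : ℝ, v ≠ 0 := by
      simp [ae_iff, measure_singleton]
    filter_upwards [h0] with v hv
    have := exponentialPDF_eq 1 v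
    unfold exponentialPDF exponentialPDFReal at this
    simp only [Pi.mul_apply]
    rw [gammaPDF, this]
    congr 1
    rcases lt_or_gt_of_ne hv with h | h
    · rw [if_neg (not_le.2 h), if_neg (not_lt.2 h.le)]; simp
    · rw [if_pos h.le, if_pos h]; simp
  rw [h1]
  have h2 := Real.smul_map_volume_mul_left (a := l) hl.ne'
  conv_lhs => rw [← h2]
  rw [lintegral_smul_measure, lintegral_map]
  · rw [smul_eq_mul, ← lintegral_const_mul]
    · refine lintegral_congr fun w => ?_
      rw [abs_of_pos hl, mul_div_cancel_left₀ _ hl.ne', ← mul_assoc]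
      congr 1
      by_cases hw : 0 < w
      · rw [if_pos (mul_pos hl hw), if_pos hw, ENNReal.ofReal_mul hl.le]
      · rw [if_neg hw, if_neg (by intro h; exact hw (by nlinarith [mul_pos_iff.1 h])), mul_zero]
    · refine Measurable.mul (Measurable.ite ?_ (by fun_prop) measurable_const) (by fun_prop)
      exact measurableSet_lt measurable_const (by fun_prop)
  · refine Measurable.mul (Measurable.ite ?_ (by fun_prop) measurable_const) (by fun_prop)
    exact measurableSet_lt measurable_const (by fun_prop)
  · fun_prop

lemma lintegral_exp_Ioo {κ r : ℝ} (hκ : 0 < κ) (hr : 0 ≤ r) :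
    ∫⁻ w, (if 0 < w ∧ w < r then ENNReal.ofReal (Real.exp (-(κ * w))) else 0)
      = ENNReal.ofReal ((1 - Real.exp (-(κ * r))) / κ) := by
  have h1 : ∫⁻ w, (if 0 < w ∧ w < r then ENNReal.ofReal (Real.exp (-(κ * w))) else 0)
      = ∫⁻ w in Ioc 0 r, ENNReal.ofReal (Real.exp (-(κ * w))) := by
    rw [← lintegral_indicator measurableSet_Ioc]
    refine lintegral_congr_ae ?_
    have h0 : ∀ᵐ v : ℝ, v ≠ r := by
      simp [ae_iff, measure_singleton]
    filter_upwards [h0] with v hv
    simp only [Set.indicator, Set.mem_Ioc]
    by_cases h : 0 < v ∧ v < r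
    · rw [if_pos h, if_pos ⟨h.1, h.2.le⟩]
    · rw [if_neg h, if_neg]
      intro h'
      exact h ⟨h'.1, lt_of_le_of_ne h'.2 hv⟩
  rw [h1, ← ofReal_integral_eq_lintegral_ofReal]
  · congr 1
    rw [← intervalIntegral.integral_of_le hr]
    have : ∀ w : ℝ, Real.exp (-(κ * w)) = Real.exp ((-κ) * w) := fun w => by ring_nf
    simp_rw [this]
    rw [intervalIntegral.integral_comp_mul_left (fun w => Real.exp w) (neg_ne_zero.2 hκ.ne')]
    rw [integral_exp]
    simp only [mul_zero, Real.exp_zero, smul_eq_mul]
    field_simp
    ring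
  · have : Continuous fun w : ℝ => Real.exp (-(κ * w)) := by fun_prop
    exact (this.integrableOn_Icc (a := 0) (b := r)).mono_set Ioc_subset_Icc_self
  · exact Eventually.of_forall fun w => (Real.exp_pos _).le

/-- The founding intensity functional. -/
def W (γ x : ℝ) (h : ℝ → ℝ≥0∞) (b : ℝ) : ℝ≥0∞ :=
  ∫⁻ s, (if b < s then ENNReal.ofReal (x * Real.exp (γ * x * (s - b))) else 0) * h s

lemma measurable_W (γ x : ℝ) {h : ℝ → ℝ≥0∞} (hh : Measurable h) : Measurable (W γ x h) := by
  unfold W
  refine Measurable.lintegral_prod_right' (f := fun p : ℝ × ℝ =>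
    (if p.1 < p.2 then ENNReal.ofReal (x * Real.exp (γ * x * (p.2 - p.1))) else 0) * h p.2) ?_
  refine Measurable.mul (Measurable.ite ?_ (by fun_prop) measurable_const) (by fun_prop)
  exact measurableSet_lt measurable_fst measurable_snd

lemma upper_step {γ x : ℝ} (hγ : 0 ≤ γ) (hx : 0 < x) {z : ℕ} (hz : 1 ≤ z) {h : ℝ → ℝ≥0∞}
    (hh : Measurable h) (b : ℝ) :
    ∫⁻ v, h (b + v / (x * z)) ∂(expMeasure 1)
      + ENNReal.ofReal (z + γ) * ∫⁻ v, W γ x h (b + v / (x * z)) ∂(expMeasure 1)
      = z * W γ x h b := by
  have hz' : (1 : ℝ) ≤ z := by exact_mod_cast hz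
  set l : ℝ := x * z with hl
  have hl0 : 0 < l := by positivity
  set κ : ℝ := l + γ * x with hκ
  have hκ0 : 0 < κ := by positivity
  have mW := measurable_W γ x hh
  rw [lintegral_exp_scale hl0 (φ := fun w => h (b + w)) (by fun_prop),
    lintegral_exp_scale hl0 (φ := fun w => W γ x h (b + w)) (by fun_prop)]
  have first : ∫⁻ w, (if 0 < w then ENNReal.ofReal (l * Real.exp (-(l * w))) else 0) * h (b + w)
      = ∫⁻ s, (if b < s then ENNReal.ofReal (l * Real.exp (-(l * (s - b)))) else 0) * h s := by
    rw [← lintegral_add_left_eq_self (μ := volume)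
      (fun s => (if b < s then ENNReal.ofReal (l * Real.exp (-(l * (s - b)))) else 0) * h s) b]
    refine lintegral_congr fun w => ?_
    simp
  have second : ∫⁻ w, (if 0 < w then ENNReal.ofReal (l * Real.exp (-(l * w))) else 0)
        * W γ x h (b + w)
      = ∫⁻ s, (if b < s then ENNReal.ofReal (l * x * Real.exp (γ * x * (s - b))
          * ((1 - Real.exp (-(κ * (s - b)))) / κ)) else 0) * h s := by
    have e1 : ∀ w, (if 0 < w then ENNReal.ofReal (l * Real.exp (-(l * w))) else 0)
        * W γ x h (b + w) = ∫⁻ s, (if 0 < w ∧ b + w < s then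
          ENNReal.ofReal (l * Real.exp (-(l * w)) * (x * Real.exp (γ * x * (s - (b + w)))))
          else 0) * h s := by
      intro w
      unfold W
      rw [← lintegral_const_mul']
      · refine lintegral_congr fun s => ?_
        rw [← mul_assoc]
        congr 1
        by_cases hw : 0 < w
        · by_cases hs : b + w < s
          · rw [if_pos hw, if_pos hs, if_pos ⟨hw, hs⟩, ← ENNReal.ofReal_mul (by positivity)]
          · rw [if_pos hw, if_neg hs, if_neg (show ¬(0 < w ∧ b + w < s) from fun h => hs h.2),
              mul_zero]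
        · rw [if_neg hw, if_neg (show ¬(0 < w ∧ b + w < s) from fun h => hw h.1), zero_mul]
      · split_ifs <;> simp
    simp_rw [e1]
    rw [lintegral_lintegral_swap]
    · refine lintegral_congr fun s => ?_
      rw [lintegral_mul_const]
      · congr 1
        by_cases hs : b < s
        · rw [if_pos hs]
          have e2 : ∀ w, (if 0 < w ∧ b + w < s then
              ENNReal.ofReal (l * Real.exp (-(l * w)) * (x * Real.exp (γ * x * (s - (b + w)))))
              else 0) = ENNReal.ofReal (l * x * Real.exp (γ * x * (s - b))) *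
                (if 0 < w ∧ w < s - b then ENNReal.ofReal (Real.exp (-(κ * w))) else 0) := by
            intro w
            by_cases hw : 0 < w ∧ b + w < s
            · rw [if_pos hw, if_pos ⟨hw.1, by linarith [hw.2]⟩, ← ENNReal.ofReal_mul (by positivity)]
              congr 1
              have : Real.exp (γ * x * (s - (b + w))) = Real.exp (γ * x * (s - b))
                  * Real.exp (-(γ * x * w)) := by rw [← Real.exp_add]; ring_nf
              rw [this]
              have : Real.exp (-(κ * w)) = Real.exp (-(l * w)) * Real.exp (-(γ * x * w)) := by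
                rw [← Real.exp_add, hκ]; ring_nf
              rw [this]; ring
            · rw [if_neg hw, if_neg (fun h => hw ⟨h.1, by linarith [h.2]⟩), mul_zero]
          simp_rw [e2]
          rw [lintegral_const_mul' _ _ ENNReal.ofReal_ne_top,
            lintegral_exp_Ioo hκ0 (by linarith), ← ENNReal.ofReal_mul (by positivity)]
        · rw [if_neg hs]
          have e2 : ∀ w, (if 0 < w ∧ b + w < s then
              ENNReal.ofReal (l * Real.exp (-(l * w)) * (x * Real.exp (γ * x * (s - (b + w)))))
              else 0) = 0 := fun w => if_neg fun h => hs (by linarith [h.1, h.2])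
          simp_rw [e2]; simp
      · refine Measurable.ite ?_ (by fun_prop) measurable_const
        exact (measurableSet_lt measurable_const measurable_id).inter
          (measurableSet_lt (show Measurable fun w : ℝ => b + w by fun_prop) measurable_const)
    · refine Measurable.aemeasurable ?_
      refine Measurable.mul (Measurable.ite ?_ (by fun_prop) measurable_const) (by fun_prop)
      exact (measurableSet_lt measurable_const measurable_fst).inter
        (measurableSet_lt (by fun_prop) measurable_snd)
  rw [first, second]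
  unfold W
  rw [← lintegral_const_mul' _ _ ENNReal.ofReal_ne_top, ← lintegral_add_left]
  · rw [← lintegral_const_mul' _ _ (by simp)]
    refine lintegral_congr fun s => ?_
    rw [← mul_assoc, ← mul_assoc, ← add_mul]
    congr 1
    by_cases hs : b < s
    · rw [if_pos hs, if_pos hs, if_pos hs, ← ENNReal.ofReal_mul (by positivity),
        ← ENNReal.ofReal_add (by positivity), ← ENNReal.ofReal_natCast,
        ← ENNReal.ofReal_mul (by positivity)]
      · congr 1
        have hk : κ = x * (z + γ) := by rw [hκ, hl]; ring
        have e3 : Real.exp (-(κ * (s - b))) = Real.exp (-(l * (s - b)))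
            * Real.exp (-(γ * x * (s - b))) := by
          rw [← Real.exp_add, hκ]; ring_nf
        have e4 : Real.exp (γ * x * (s - b)) * Real.exp (-(γ * x * (s - b))) = 1 := by
          rw [← Real.exp_add]; simp
        rw [e3, hk]
        have hzγ : (z : ℝ) + γ ≠ 0 := by positivity
        generalize Real.exp (γ * x * (s - b)) = E at e4 ⊢
        generalize Real.exp (-(γ * x * (s - b))) = D at e4 ⊢
        generalize Real.exp (-(l * (s - b))) = L
        have h5 : (z + γ) * (l * x * E * ((1 - L * D) / (x * (z + γ)))) = l * E - l * L * (E * D) := by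
          field_simp
        rw [h5, e4, hl]
        ring
      · have : Real.exp (-(κ * (s - b))) ≤ 1 := by
          rw [Real.exp_le_one_iff]
          have := mul_pos hκ0 (sub_pos.2 hs)
          linarith
        have h1 : 0 ≤ 1 - Real.exp (-(κ * (s - b))) := by linarith
        positivity
    · rw [if_neg hs, if_neg hs, if_neg hs]; simp
  · refine Measurable.mul (Measurable.ite ?_ (by fun_prop) measurable_const) (by fun_prop)
    exact measurableSet_lt measurable_const measurable_id

end Pool.Agent.RBP
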