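import Pool.Agent.H93.RBPChain

/-! # One family: upper bounds and lower tail -/

open MeasureTheory ProbabilityTheory Filter Topology Set
open scoped ENNReal

noncomputable section

namespace Pool.Agent.RBP

lemma lintegral_evLaw {β γ : ℝ} (hβ : β ≤ 1) (hγ : γ ≤ 1) (h : 1 ≤ β + γ) (μ : Measure ℝ)
    [IsProbabilityMeasure μ] {Φ : ℝ → (Bool × Bool) × ℝ → ℝ≥0∞}
    (hΦ : Measurable fun p : Ev => Φ p.1 p.2) :
    ∫⁻ y, Φ y.1 y.2 ∂(evLaw β γ μ)
      = ∫⁻ v, ∫⁻ p, Φ v p ∂((markLaw β γ).prod μ) ∂(expMeasure 1) := by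
  have := isProb_markLaw hβ hγ h
  have := isProbabilityMeasure_expMeasure (r := 1) one_pos
  unfold evLaw
  rw [lintegral_prod _ hΦ.aemeasurable]

lemma lintegral_nsz {β γ : ℝ} (hβ : β ≤ 1) (hγ0 : 0 ≤ γ) (hγ : γ ≤ 1) (h : 1 ≤ β + γ)
    (μ : Measure ℝ)
    [IsProbabilityMeasure μ] (f : ℕ → ℝ≥0∞) (z : ℕ) :
    ∫⁻ p : (Bool × Bool) × ℝ, f (z + (if p.1.2 then 1 else 0)) ∂((markLaw β γ).prod μ)
      = ENNReal.ofReal γ * f (z + 1) + ENNReal.ofReal (1 - γ) * f z := by
  have := isProb_markLaw hβ hγ h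
  rw [lintegral_prod _ (by
    refine Measurable.aemeasurable ?_
    have : Measurable fun m : Bool × Bool => f (z + (if m.2 then 1 else 0)) := measurable_of_countable _
    exact this.comp measurable_fst)]
  have e : ∀ m : Bool × Bool, ∫⁻ y : ℝ, f (z + (if ((m, y) : (Bool × Bool) × ℝ).1.2 then 1 else 0)) ∂μ
      = f (z + (if m.2 then 1 else 0)) := by
    intro m
    have : ∫⁻ _y : ℝ, f (z + (if m.2 then 1 else 0)) ∂μ = f (z + (if m.2 then 1 else 0)) := by
      rw [lintegral_const, measure_univ, mul_one]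
    exact this
  simp_rw [e]
  rw [lintegral_markLaw]
  simp only [if_true, Bool.false_eq_true, if_false, add_zero]
  have : ENNReal.ofReal γ = ENNReal.ofReal (β + γ - 1) + ENNReal.ofReal (1 - β) := by
    rw [← ENNReal.ofReal_add (by linarith) (by linarith)]; ring_nf
  rw [this]; ring

theorem family_upper {β γ : ℝ} (hβ : β ≤ 1) (hγ0 : 0 ≤ γ) (hγ : γ ≤ 1) (h1 : 1 ≤ β + γ)
    (μ : Measure ℝ) [IsProbabilityMeasure μ] {x : ℝ} (hx : 0 < x)
    {g : (Bool × Bool) × ℝ → ℝ → ℝ≥0∞}
    (hg : Measurable fun q : ((Bool × Bool) × ℝ) × ℝ => g q.1 q.2) :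
    ∑' k : ℕ, ∫⁻ s, g (s k).2 (age x s (k + 1)) ∂(Measure.infinitePi fun _ : ℕ => evLaw β γ μ)
      ≤ W γ x (fun r => ∫⁻ p, g p r ∂((markLaw β γ).prod μ)) 0 := by
  have i1 := isProb_markLaw hβ hγ h1
  have i2 := isProbabilityMeasure_expMeasure (r := 1) one_pos
  have i3 := isProb_evLaw hβ hγ h1 μ
  set h : ℝ → ℝ≥0∞ := fun r => ∫⁻ p, g p r ∂((markLaw β γ).prod μ) with hh
  have mh : Measurable h := by
    rw [hh]
    exact Measurable.lintegral_prod_left' (f := fun q : ((Bool × Bool) × ℝ) × ℝ => g q.1 q.2) hg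
  have mW := measurable_W γ x mh
  have key := chain_lemma (evLaw β γ μ) x
    (fun z b y => g y.2 (b + clock y / (x * z))) (fun z b => z * W γ x h b) ?_ ?_ ?_
  · simp only [Nat.cast_one, one_mul] at key
    refine le_trans (le_of_eq ?_) key
    refine tsum_congr fun k => lintegral_congr fun s => ?_
    rw [age_succ]
  · refine hg.comp ((measurable_snd.comp (measurable_snd.comp measurable_snd)).prodMk ?_)
    refine Measurable.add (by fun_prop) (Measurable.div (by fun_prop) ?_)
    exact measurable_const.mul (measurable_from_top.comp measurable_fst)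
  · exact (measurable_from_top.comp measurable_fst).mul (mW.comp measurable_snd)
  · intro z hz b
    have hz' : (1 : ℝ) ≤ z := by exact_mod_cast hz
    rw [← upper_step hγ0 hx hz mh b]
    rw [lintegral_add_left]
    · refine add_le_add ?_ ?_
      · refine le_of_eq ?_
        exact lintegral_evLaw hβ hγ h1 μ (Φ := fun v p => g p (b + v / (x * z)))
          (hg.comp (measurable_snd.prodMk (by fun_prop)))
      · refine le_of_eq ?_
        have hΦ : Measurable fun q : ℝ × ((Bool × Bool) × ℝ) =>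
            ((z + (if q.2.1.2 then 1 else 0) : ℕ) : ℝ≥0∞) * W γ x h (b + q.1 / (x * z)) := by
          refine Measurable.mul ?_ (by fun_prop)
          have : Measurable fun m : Bool × Bool => ((z + (if m.2 then 1 else 0) : ℕ) : ℝ≥0∞) :=
            measurable_of_countable _
          exact this.comp (by fun_prop)
        have := lintegral_evLaw hβ hγ h1 μ (Φ := fun v p =>
            ((z + (if p.1.2 then 1 else 0) : ℕ) : ℝ≥0∞) * W γ x h (b + v / (x * z))) hΦ
        unfold nsz add clock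
        rw [this, ← lintegral_const_mul _ (by fun_prop)]
        refine lintegral_congr fun v => ?_
        rw [lintegral_mul_const]
        · congr 1
          rw [lintegral_nsz hβ hγ0 hγ h1 μ (fun n => (n : ℝ≥0∞)) z]
          rw [← ENNReal.ofReal_natCast, ← ENNReal.ofReal_natCast, ← ENNReal.ofReal_mul hγ0,
            ← ENNReal.ofReal_mul (by linarith), ← ENNReal.ofReal_add (by positivity)
              (mul_nonneg (by linarith) (by positivity))]
          congr 1
          push_cast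
          ring
        · have : Measurable fun m : Bool × Bool => ((z + (if m.2 then 1 else 0) : ℕ) : ℝ≥0∞) :=
            measurable_of_countable _
          exact this.comp (by fun_prop)
    · exact hg.comp ((measurable_snd).prodMk (by fun_prop))

lemma exp1_Ioi {a : ℝ} (ha : 0 ≤ a) :
    expMeasure 1 (Ioi a) = ENNReal.ofReal (Real.exp (-a)) := by
  have i2 := isProbabilityMeasure_expMeasure (r := 1) one_pos
  have h1 : expMeasure 1 (Iic a) = ENNReal.ofReal (1 - Real.exp (-a)) := by
    have := lintegral_exponentialPDF_eq_antiDeriv (r := 1) one_pos a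
    rw [if_pos ha, one_mul] at this
    rw [← this]
    unfold expMeasure gammaMeasure
    rw [withDensity_apply _ measurableSet_Iic]
    rfl
  have h2 : Ioi a = (Iic a)ᶜ := by simp
  rw [h2, prob_compl_eq_one_sub measurableSet_Iic, h1]
  rw [← ENNReal.ofReal_one, ← ENNReal.ofReal_sub _ (by
    have : Real.exp (-a) ≤ 1 := Real.exp_le_one_iff.2 (by linarith)
    linarith)]
  congr 1; ring

/-- The function `1/√(4z-3)`. -/
def psi (z : ℕ) : ℝ := 1 / Real.sqrt (4 * z - 3)

lemma psi_pos {z : ℕ} (hz : 1 ≤ z) : 0 < psi z := by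
  have hz' : (1 : ℝ) ≤ z := by exact_mod_cast hz
  unfold psi
  have : 0 < Real.sqrt (4 * z - 3) := Real.sqrt_pos.2 (by linarith)
  positivity

lemma psi_succ {z : ℕ} (hz : 1 ≤ z) : psi (z + 1) ≤ psi z * (1 - 1 / (2 * z)) := by
  have hz' : (1 : ℝ) ≤ z := by exact_mod_cast hz
  unfold psi
  have h1 : 0 < 4 * (z : ℝ) - 3 := by linarith
  have h2 : 0 < 4 * ((z + 1 : ℕ) : ℝ) - 3 := by push_cast; linarith
  have e0 : 0 < 1 - 1 / (2 * (z : ℝ)) := by
    rw [sub_pos, div_lt_one (by positivity)]; linarith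
  have s1 := Real.sqrt_pos.2 h1
  have s2 := Real.sqrt_pos.2 h2
  rw [div_mul_eq_mul_div, one_mul, div_le_div_iff₀ s2 s1, one_mul]
  have e1 : Real.sqrt (4 * z - 3) ≤ Real.sqrt ((1 - 1 / (2 * (z : ℝ))) ^ 2 * (4 * ((z + 1 : ℕ) : ℝ) - 3)) := by
    apply Real.sqrt_le_sqrt
    have hz0 : (z : ℝ) ≠ 0 := by positivity
    push_cast
    have : (1 - 1 / (2 * (z : ℝ))) ^ 2 * (4 * ((z : ℝ) + 1) - 3) - (4 * z - 3) = 1 / (4 * z ^ 2) := by
      field_simp
      ring
    have h3 : 0 < 1 / (4 * (z : ℝ) ^ 2) := by positivity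
    linarith
  rw [Real.sqrt_mul (by positivity), Real.sqrt_sq e0.le] at e1
  exact e1

lemma psi_anti {y z : ℕ} (hy : 1 ≤ y) (h : y ≤ z) : psi z ≤ psi y := by
  have hy' : (1 : ℝ) ≤ y := by exact_mod_cast hy
  have h' : (y : ℝ) ≤ z := by exact_mod_cast h
  unfold psi
  apply one_div_le_one_div_of_le
  · exact Real.sqrt_pos.2 (by linarith)
  · exact Real.sqrt_le_sqrt (by linarith)

lemma lower_step {γ x : ℝ} (hγ : 0 ≤ γ) (hγ1 : γ ≤ 1) (hx : 0 < x) {z : ℕ} (hz : 1 ≤ z) (t b : ℝ) :
    ∫⁻ v, (if b ≤ t ∧ t < b + v / (x * z) then ENNReal.ofReal (psi z) else 0) ∂(expMeasure 1)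
      + ENNReal.ofReal (γ * psi (z + 1) + (1 - γ) * psi z) *
        ∫⁻ v, (if b + v / (x * z) ≤ t then
          ENNReal.ofReal (Real.exp (-(γ * x * (t - (b + v / (x * z))) / 2))) else 0) ∂(expMeasure 1)
      ≤ if b ≤ t then ENNReal.ofReal (psi z * Real.exp (-(γ * x * (t - b) / 2))) else 0 := by
  have hz' : (1 : ℝ) ≤ z := by exact_mod_cast hz
  set l : ℝ := x * z with hl
  have hl0 : 0 < l := by positivity
  set κ : ℝ := l - γ * x / 2 with hκ
  have hκ' : κ = x * (z - γ / 2) := by rw [hκ, hl]; ring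
  have hzγ : 0 < (z : ℝ) - γ / 2 := by linarith
  have hκ0 : 0 < κ := by rw [hκ']; positivity
  have mm : Measurable fun w : ℝ => (if b + w ≤ t then
          ENNReal.ofReal (Real.exp (-(γ * x * (t - (b + w)) / 2))) else 0) := by
    refine Measurable.ite ?_ (by fun_prop) measurable_const
    exact measurableSet_le (by fun_prop) measurable_const
  rw [lintegral_exp_scale hl0 (φ := fun w => (if b + w ≤ t then
          ENNReal.ofReal (Real.exp (-(γ * x * (t - (b + w)) / 2))) else 0)) mm]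
  by_cases hb : b ≤ t
  swap
  · rw [if_neg hb]
    have e1 : ∀ v : ℝ, (if b ≤ t ∧ t < b + v / l then ENNReal.ofReal (psi z) else 0) = 0 :=
      fun v => if_neg fun h => hb h.1
    have e2 : ∀ w : ℝ, (if 0 < w then ENNReal.ofReal (l * Real.exp (-(l * w))) else 0) *
        (if b + w ≤ t then ENNReal.ofReal (Real.exp (-(γ * x * (t - (b + w)) / 2))) else 0) = 0 := by
      intro w
      by_cases hw : 0 < w
      · rw [if_neg (show ¬ (b + w ≤ t) by intro h; exact hb (by linarith)), mul_zero]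
      · rw [if_neg hw, zero_mul]
    simp_rw [e1, e2]
    simp
  rw [if_pos hb]
  set r : ℝ := t - b with hr
  have hr0 : 0 ≤ r := by rw [hr]; linarith
  have e1 : ∫⁻ v, (if b ≤ t ∧ t < b + v / l then ENNReal.ofReal (psi z) else 0) ∂(expMeasure 1)
      = ENNReal.ofReal (psi z * Real.exp (-(l * r))) := by
    have : ∀ v : ℝ, (if b ≤ t ∧ t < b + v / l then ENNReal.ofReal (psi z) else 0)
        = (Ioi (l * r)).indicator (fun _ => ENNReal.ofReal (psi z)) v := by
      intro v
      simp only [Set.indicator, Set.mem_Ioi]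
      refine if_congr ?_ rfl rfl
      rw [and_iff_right hb, ← sub_lt_iff_lt_add', ← hr, lt_div_iff₀ hl0, mul_comm]
    simp_rw [this]
    rw [lintegral_indicator measurableSet_Ioi, lintegral_const, Measure.restrict_apply_univ,
      exp1_Ioi (by positivity), ← ENNReal.ofReal_mul (psi_pos hz).le]
  have e2 : ∫⁻ w, (if 0 < w then ENNReal.ofReal (l * Real.exp (-(l * w))) else 0) *
        (if b + w ≤ t then ENNReal.ofReal (Real.exp (-(γ * x * (t - (b + w)) / 2))) else 0)
      = ENNReal.ofReal (l * Real.exp (-(γ * x * r / 2)) * ((1 - Real.exp (-(κ * r))) / κ)) := by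
    rw [ENNReal.ofReal_mul (by positivity), ← lintegral_exp_Ioo hκ0 hr0,
      ← lintegral_const_mul' _ _ ENNReal.ofReal_ne_top]
    refine lintegral_congr_ae ?_
    have h0 : ∀ᵐ v : ℝ, v ≠ r := by
      simp [ae_iff, measure_singleton]
    filter_upwards [h0] with w hwr
    by_cases hw : 0 < w
    · by_cases hw2 : b + w ≤ t
      · have hw3 : w < r := lt_of_le_of_ne (by rw [hr]; linarith) hwr
        rw [if_pos hw, if_pos hw2, if_pos ⟨hw, hw3⟩, ← ENNReal.ofReal_mul (by positivity),
          ← ENNReal.ofReal_mul (by positivity)]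
        have e5 : Real.exp (-(l * w)) * Real.exp (-(γ * x * (t - (b + w)) / 2))
            = Real.exp (-(γ * x * r / 2)) * Real.exp (-(κ * w)) := by
          rw [← Real.exp_add, ← Real.exp_add]; congr 1; rw [hκ, hr]; ring
        congr 1
        calc l * Real.exp (-(l * w)) * Real.exp (-(γ * x * (t - (b + w)) / 2))
            = l * (Real.exp (-(l * w)) * Real.exp (-(γ * x * (t - (b + w)) / 2))) := by ring
          _ = l * (Real.exp (-(γ * x * r / 2)) * Real.exp (-(κ * w))) := by rw [e5]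
          _ = _ := by ring
      · rw [if_neg hw2, if_neg (show ¬(0 < w ∧ w < r) from fun h => hw2 (by
          have := h.2; rw [hr] at this; linarith)), mul_zero, mul_zero]
    · rw [if_neg hw, if_neg (show ¬(0 < w ∧ w < r) from fun h => hw h.1), zero_mul, mul_zero]
  rw [e1, e2]
  have hps := psi_pos hz
  have hps1 := psi_pos (z := z + 1) (by omega)
  have hexp : Real.exp (-(κ * r)) ≤ 1 := Real.exp_le_one_iff.2 (by have := mul_nonneg hκ0.le hr0; linarith)
  have hfr : 0 ≤ (1 - Real.exp (-(κ * r))) / κ := div_nonneg (by linarith) hκ0.le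
  rw [← ENNReal.ofReal_mul (by nlinarith), ← ENNReal.ofReal_add (by positivity) (by
    have : 0 ≤ γ * psi (z + 1) + (1 - γ) * psi z := by nlinarith
    positivity)]
  apply ENNReal.ofReal_le_ofReal
  have h1 : γ * psi (z + 1) + (1 - γ) * psi z ≤ psi z * (1 - γ / (2 * z)) := by
    have := psi_succ hz
    have h2 : γ * psi (z + 1) ≤ γ * (psi z * (1 - 1 / (2 * z))) := mul_le_mul_of_nonneg_left this hγ
    calc γ * psi (z + 1) + (1 - γ) * psi z ≤ γ * (psi z * (1 - 1 / (2 * z))) + (1 - γ) * psi z := by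
          linarith
      _ = psi z * (1 - γ / (2 * z)) := by ring
  have h2 : (γ * psi (z + 1) + (1 - γ) * psi z) *
      (l * Real.exp (-(γ * x * r / 2)) * ((1 - Real.exp (-(κ * r))) / κ))
      ≤ (psi z * (1 - γ / (2 * z))) *
      (l * Real.exp (-(γ * x * r / 2)) * ((1 - Real.exp (-(κ * r))) / κ)) :=
    mul_le_mul_of_nonneg_right h1 (by positivity)
  refine le_trans (add_le_add_right h2 _) (le_of_eq ?_)
  have e3 : Real.exp (-(γ * x * r / 2)) * Real.exp (-(κ * r)) = Real.exp (-(l * r)) := by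
    rw [← Real.exp_add]; congr 1; rw [hκ]; ring
  have h5 : (psi z * (1 - γ / (2 * z))) *
      (l * Real.exp (-(γ * x * r / 2)) * ((1 - Real.exp (-(κ * r))) / κ))
      = psi z * (Real.exp (-(γ * x * r / 2)) - Real.exp (-(γ * x * r / 2)) * Real.exp (-(κ * r))) := by
    rw [hκ', hl]
    generalize Real.exp (-(x * (z - γ / 2) * r)) = E
    generalize Real.exp (-(γ * x * r / 2)) = D
    have hzz : (z : ℝ) ≠ 0 := by positivity
    have hzz2 : (2 * (z : ℝ) - γ) ≠ 0 := by linarith
    field_simp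
  rw [h5, e3]; ring

end Pool.Agent.RBP
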