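import Pool.Agent.H93.RBPFamily

/-! # One family: consequences -/

open MeasureTheory ProbabilityTheory Filter Topology Set
open scoped ENNReal

noncomputable section

namespace Pool.Agent.RBP

lemma measurable_age' (x : ℝ) (k : ℕ) : Measurable fun s : ℕ → Ev => age x s k :=
  (measurable_age k).comp (measurable_const.prodMk measurable_id)

theorem family_lower {β γ : ℝ} (hβ : β ≤ 1) (hγ0 : 0 ≤ γ) (hγ : γ ≤ 1) (h1 : 1 ≤ β + γ)
    (μ : Measure ℝ) [IsProbabilityMeasure μ] {x : ℝ} (hx : 0 < x) {t : ℝ} (ht : 0 ≤ t) :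
    ∑' k : ℕ, ∫⁻ s, (if age x s k ≤ t ∧ t < age x s (k + 1) then
        ENNReal.ofReal (psi (size s k)) else 0) ∂(Measure.infinitePi fun _ : ℕ => evLaw β γ μ)
      ≤ ENNReal.ofReal (Real.exp (-(γ * x * t / 2))) := by
  have i1 := isProb_markLaw hβ hγ h1
  have i2 := isProbabilityMeasure_expMeasure (r := 1) one_pos
  have i3 := isProb_evLaw hβ hγ h1 μ
  have key := chain_lemma (evLaw β γ μ) x
    (fun z b y => if b ≤ t ∧ t < b + clock y / (x * z) then ENNReal.ofReal (psi z) else 0)
    (fun z b => if b ≤ t then ENNReal.ofReal (psi z * Real.exp (-(γ * x * (t - b) / 2))) else 0)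
    ?_ ?_ ?_
  · refine le_trans (le_of_eq ?_) (le_trans key (le_of_eq ?_))
    · refine tsum_congr fun k => lintegral_congr fun s => ?_
      rw [age_succ]
    · rw [if_pos ht]
      simp [psi]
      norm_num
  · have m1 : Measurable fun p : ℕ × ℝ × Ev => ((p.1 : ℕ) : ℝ) :=
      (measurable_from_top (f := fun n : ℕ => (n : ℝ))).comp measurable_fst
    have m2 : Measurable fun p : ℕ × ℝ × Ev => psi p.1 :=
      (measurable_from_top (f := psi)).comp measurable_fst
    have m3 : Measurable fun p : ℕ × ℝ × Ev => p.2.1 := by fun_prop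
    have m4 : Measurable fun p : ℕ × ℝ × Ev => p.2.1 + clock p.2.2 / (x * p.1) := by fun_prop
    refine Measurable.ite ?_ (by fun_prop) measurable_const
    exact (measurableSet_le m3 measurable_const).inter (measurableSet_lt measurable_const m4)
  · have m2 : Measurable fun p : ℕ × ℝ => psi p.1 :=
      (measurable_from_top (f := psi)).comp measurable_fst
    refine Measurable.ite ?_ (by fun_prop) measurable_const
    exact measurableSet_le (by fun_prop) measurable_const
  · intro z hz b
    have hz' : (1 : ℝ) ≤ z := by exact_mod_cast hz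
    refine le_trans (le_of_eq ?_) (lower_step hγ0 hγ hx hz t b)
    rw [lintegral_add_left]
    · congr 1
      · have := lintegral_evLaw hβ hγ h1 μ (Φ := fun v p => if b ≤ t ∧ t < b + v / (x * z) then
          ENNReal.ofReal (psi z) else 0) ?_
        · unfold clock
          rw [this]
          refine lintegral_congr fun v => ?_
          simp
        · have m4 : Measurable fun p : Ev => b + p.1 / (x * z) := by fun_prop
          refine Measurable.ite ?_ (by fun_prop) measurable_const
          exact (MeasurableSet.const _).inter (measurableSet_lt measurable_const m4)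
      · have hΦ : Measurable fun q : ℝ × ((Bool × Bool) × ℝ) =>
            if b + q.1 / (x * z) ≤ t then ENNReal.ofReal (psi (z + (if q.2.1.2 then 1 else 0)) *
              Real.exp (-(γ * x * (t - (b + q.1 / (x * z))) / 2))) else 0 := by
          have : Measurable fun m : Bool × Bool => psi (z + (if m.2 then 1 else 0)) :=
            measurable_of_countable _
          have h2 : Measurable fun q : ℝ × ((Bool × Bool) × ℝ) =>
              psi (z + (if q.2.1.2 then 1 else 0)) := this.comp (by fun_prop)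
          refine Measurable.ite ?_ (by fun_prop) measurable_const
          exact measurableSet_le (by fun_prop) measurable_const
        have := lintegral_evLaw hβ hγ h1 μ (Φ := fun v p =>
            if b + v / (x * z) ≤ t then ENNReal.ofReal (psi (z + (if p.1.2 then 1 else 0)) *
              Real.exp (-(γ * x * (t - (b + v / (x * z))) / 2))) else 0) hΦ
        unfold nsz add clock
        rw [this, ← lintegral_const_mul' _ _ ENNReal.ofReal_ne_top]
        refine lintegral_congr fun v => ?_
        by_cases hv : b + v / (x * z) ≤ t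
        · simp_rw [if_pos hv]
          rw [lintegral_nsz hβ hγ0 hγ h1 μ (fun n => ENNReal.ofReal (psi n *
              Real.exp (-(γ * x * (t - (b + v / (x * z))) / 2)))) z]
          have p1 := psi_pos hz
          have p2 := psi_pos (z := z + 1) (by omega)
          rw [← ENNReal.ofReal_mul hγ0, ← ENNReal.ofReal_mul (by linarith),
            ← ENNReal.ofReal_add (by positivity) (mul_nonneg (by linarith) (by positivity)),
            ← ENNReal.ofReal_mul (by nlinarith)]
          congr 1
          ring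
        · simp_rw [if_neg hv]
          simp
    · have m4 : Measurable fun p : Ev => b + clock p / (x * z) := by fun_prop
      refine Measurable.ite ?_ (by fun_prop) measurable_const
      exact (MeasurableSet.const _).inter (measurableSet_lt measurable_const m4)


lemma lintegral_exp_Ioc {κ r : ℝ} (hκ : 0 < κ) (hr : 0 ≤ r) :
    ∫⁻ w, (if 0 < w ∧ w ≤ r then ENNReal.ofReal (Real.exp (κ * w)) else 0)
      = ENNReal.ofReal ((Real.exp (κ * r) - 1) / κ) := by
  have h1 : ∫⁻ w, (if 0 < w ∧ w ≤ r then ENNReal.ofReal (Real.exp (κ * w)) else 0)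
      = ∫⁻ w in Ioc 0 r, ENNReal.ofReal (Real.exp (κ * w)) := by
    rw [← lintegral_indicator measurableSet_Ioc]
    refine lintegral_congr fun v => ?_
    simp only [Set.indicator, Set.mem_Ioc]
  rw [h1, ← ofReal_integral_eq_lintegral_ofReal]
  · congr 1
    rw [← intervalIntegral.integral_of_le hr]
    rw [intervalIntegral.integral_comp_mul_left (fun w => Real.exp w) hκ.ne']
    rw [integral_exp]
    simp only [mul_zero, Real.exp_zero, smul_eq_mul]
    field_simp
  · have : Continuous fun w : ℝ => Real.exp (κ * w) := by fun_prop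
    exact (this.integrableOn_Icc (a := 0) (b := r)).mono_set Ioc_subset_Icc_self
  · exact Eventually.of_forall fun w => (Real.exp_pos _).le

lemma W_indicator {γ x : ℝ} (hγ : 0 < γ) (hx : 0 < x) {r : ℝ} (hr : 0 ≤ r) (c : ℝ≥0∞) :
    W γ x (fun a => if a ≤ r then c else 0) 0
      = ENNReal.ofReal ((Real.exp (γ * x * r) - 1) / γ) * c := by
  unfold W
  have : ∀ s : ℝ, (if 0 < s then ENNReal.ofReal (x * Real.exp (γ * x * (s - 0))) else 0) *
      (if s ≤ r then c else 0) = ENNReal.ofReal x * (if 0 < s ∧ s ≤ r then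
        ENNReal.ofReal (Real.exp (γ * x * s)) else 0) * c := by
    intro s
    by_cases h1 : 0 < s <;> by_cases h2 : s ≤ r <;> simp [h1, h2, ENNReal.ofReal_mul hx.le]
  simp_rw [this]
  rw [lintegral_mul_const, lintegral_const_mul' _ _ ENNReal.ofReal_ne_top,
    lintegral_exp_Ioc (by positivity) hr, ← ENNReal.ofReal_mul hx.le]
  · congr 2
    field_simp
  · have : Measurable fun s : ℝ => (if 0 < s ∧ s ≤ r then
        ENNReal.ofReal (Real.exp (γ * x * s)) else 0) := by
      refine Measurable.ite ?_ (by fun_prop) measurable_const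
      exact (measurableSet_lt measurable_const measurable_id).inter
        (measurableSet_le measurable_id measurable_const)
    fun_prop

lemma measurable_famSize : Measurable fun p : (ℝ × (ℕ → Ev)) × ℝ => famSize p.1.1 p.1.2 p.2 := by
  unfold famSize
  refine Measurable.ite (measurableSet_le measurable_const measurable_snd) ?_ measurable_const
  refine measurable_const.add (Measurable.ennreal_tsum fun k => ?_)
  refine Measurable.ite ?_ measurable_const measurable_const
  refine MeasurableSet.inter ?_ (measurableSet_le ((measurable_age (k + 1)).comp measurable_fst)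
    measurable_snd)
  have : Measurable fun p : (ℝ × (ℕ → Ev)) × ℝ => add (p.1.2 k) := by fun_prop
  exact this (measurableSet_singleton true)

theorem family_size {β γ : ℝ} (hβ : β ≤ 1) (hγ0 : 0 < γ) (hγ : γ ≤ 1) (h1 : 1 ≤ β + γ)
    (μ : Measure ℝ) [IsProbabilityMeasure μ] {x : ℝ} (hx : 0 < x) (r : ℝ) :
    ∫⁻ s, famSize x s r ∂(Measure.infinitePi fun _ : ℕ => evLaw β γ μ)
      ≤ if 0 ≤ r then ENNReal.ofReal (Real.exp (γ * x * r)) else 0 := by
  have i1 := isProb_markLaw hβ hγ h1
  have i2 := isProbabilityMeasure_expMeasure (r := 1) one_pos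
  have i3 := isProb_evLaw hβ hγ h1 μ
  unfold famSize
  by_cases hr : 0 ≤ r
  swap
  · simp [hr]
  simp_rw [if_pos hr]
  have mk : ∀ k, Measurable fun s : ℕ → Ev =>
      (if add (s k) = true ∧ age x s (k + 1) ≤ r then (1 : ℝ≥0∞) else 0) := by
    intro k
    refine Measurable.ite ?_ measurable_const measurable_const
    refine MeasurableSet.inter ?_ (measurableSet_le (measurable_age' x (k + 1)) measurable_const)
    have : Measurable fun p : ℕ → Ev => add (p k) := by fun_prop
    exact this (measurableSet_singleton true)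
  rw [lintegral_add_left measurable_const, lintegral_const, measure_univ, mul_one,
    lintegral_tsum fun k => (mk k).aemeasurable]
  have mg : Measurable fun q : ((Bool × Bool) × ℝ) × ℝ =>
      (if q.1.1.2 = true ∧ q.2 ≤ r then (1 : ℝ≥0∞) else 0) := by
    refine Measurable.ite ?_ measurable_const measurable_const
    refine MeasurableSet.inter ?_ (measurableSet_le measurable_snd measurable_const)
    have : Measurable fun p : ((Bool × Bool) × ℝ) × ℝ => p.1.1.2 := by fun_prop
    exact this (measurableSet_singleton true)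
  have key := family_upper hβ hγ0.le hγ h1 μ hx
    (g := fun p a => if p.1.2 = true ∧ a ≤ r then 1 else 0) mg
  have hW : (fun a => ∫⁻ p : (Bool × Bool) × ℝ, (if p.1.2 = true ∧ a ≤ r then (1 : ℝ≥0∞) else 0)
      ∂((markLaw β γ).prod μ)) = fun a => if a ≤ r then ENNReal.ofReal γ else 0 := by
    funext a
    by_cases ha : a ≤ r
    · simp only [ha, and_true, if_true]
      have := lintegral_nsz hβ hγ0.le hγ h1 μ (fun n => if n = 1 then 1 else 0) 0
      simp only [zero_add, if_true] at this
      rw [show ENNReal.ofReal γ = ENNReal.ofReal γ * 1 + ENNReal.ofReal (1 - γ) *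
        (if (0 : ℕ) = 1 then 1 else 0) by simp, ← this]
      refine lintegral_congr fun p => ?_
      by_cases hp : p.1.2 = true <;> simp [hp]
    · simp [ha]
  rw [hW, W_indicator hγ0 hx hr, ← ENNReal.ofReal_mul' hγ0.le] at key
  have e : (Real.exp (γ * x * r) - 1) / γ * γ = Real.exp (γ * x * r) - 1 := by
    field_simp
  rw [e] at key
  refine le_trans (add_le_add_right key 1) (le_of_eq ?_)
  have : 1 ≤ Real.exp (γ * x * r) := Real.one_le_exp (by positivity)
  rw [← ENNReal.ofReal_one, ← ENNReal.ofReal_add zero_le_one (by linarith)]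
  congr 1; ring


lemma exists_crossing {x : ℝ} {s : ℕ → Ev} {t : ℝ} (ht : 0 ≤ t) {K : ℕ} (hK : t < age x s K) :
    ∃ k < K, age x s k ≤ t ∧ t < age x s (k + 1) := by
  have hex : ∃ K, t < age x s K := ⟨K, hK⟩
  classical
  have h0 : Nat.find hex ≠ 0 := by
    intro h
    have := Nat.find_spec hex
    rw [h, age_zero] at this
    linarith
  obtain ⟨k, hk⟩ := Nat.exists_eq_succ_of_ne_zero h0
  have hle : Nat.find hex ≤ K := Nat.find_min' hex hK
  refine ⟨k, by omega, ?_, ?_⟩
  · have := Nat.find_min hex (m := k) (by omega)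
    exact not_lt.1 this
  · have := Nat.find_spec hex
    rwa [hk] at this

lemma crossing_meas {β γ : ℝ} (hβ : β ≤ 1) (hγ0 : 0 ≤ γ) (hγ : γ ≤ 1) (h1 : 1 ≤ β + γ)
    (μ : Measure ℝ) [IsProbabilityMeasure μ] {x : ℝ} (hx : 0 < x) {t : ℝ} (ht : 0 ≤ t)
    {y : ℕ} (hy : 1 ≤ y) :
    (Measure.infinitePi fun _ : ℕ => evLaw β γ μ)
      {s | ∃ k, (age x s k ≤ t ∧ t < age x s (k + 1)) ∧ size s k ≤ y}
      ≤ ENNReal.ofReal (Real.exp (-(γ * x * t / 2)) / psi y) := by
  have i1 := isProb_markLaw hβ hγ h1
  have i2 := isProbabilityMeasure_expMeasure (r := 1) one_pos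
  have i3 := isProb_evLaw hβ hγ h1 μ
  set P := (Measure.infinitePi fun _ : ℕ => evLaw β γ μ) with hP
  have hset : {s : ℕ → Ev | ∃ k, (age x s k ≤ t ∧ t < age x s (k + 1)) ∧ size s k ≤ y}
      = ⋃ k, {s | (age x s k ≤ t ∧ t < age x s (k + 1)) ∧ size s k ≤ y} := by
    ext s; simp
  rw [hset]
  refine le_trans (measure_iUnion_le _) ?_
  have hm : ∀ k, MeasurableSet {s : ℕ → Ev | (age x s k ≤ t ∧ t < age x s (k + 1)) ∧
      size s k ≤ y} := fun k =>
    ((measurableSet_le (measurable_age' x k) measurable_const).inter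
      (measurableSet_lt measurable_const (measurable_age' x (k + 1)))).inter
      (measurableSet_le (measurable_size k) measurable_const)
  have hpy := psi_pos hy
  have h2 : ∀ k, P {s : ℕ → Ev | (age x s k ≤ t ∧ t < age x s (k + 1)) ∧ size s k ≤ y}
      ≤ ENNReal.ofReal (1 / psi y) * ∫⁻ s, (if age x s k ≤ t ∧ t < age x s (k + 1) then
        ENNReal.ofReal (psi (size s k)) else 0) ∂P := by
    intro k
    rw [← lintegral_const_mul' _ _ ENNReal.ofReal_ne_top, ← lintegral_indicator_one (hm k)]
    refine lintegral_mono fun s => ?_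
    simp only [Set.indicator, Set.mem_ofPred_eq, Pi.one_apply]
    by_cases h : (age x s k ≤ t ∧ t < age x s (k + 1)) ∧ size s k ≤ y
    · rw [if_pos h, if_pos h.1, ← ENNReal.ofReal_mul (by positivity), ← ENNReal.ofReal_one]
      apply ENNReal.ofReal_le_ofReal
      have := psi_anti (size_pos s k) h.2
      rw [one_div, ← div_eq_inv_mul, le_div_iff₀ hpy, one_mul]
      exact this
    · rw [if_neg h]; exact zero_le
  refine le_trans (ENNReal.tsum_le_tsum h2) ?_
  rw [ENNReal.tsum_mul_left]
  refine le_trans (mul_le_mul_right (family_lower hβ hγ0 hγ h1 μ hx ht) _) (le_of_eq ?_)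
  rw [← ENNReal.ofReal_mul (by positivity)]
  congr 1
  rw [div_mul_eq_mul_div, one_mul]

theorem age_tail {β γ : ℝ} (hβ : β ≤ 1) (hγ0 : 0 ≤ γ) (hγ : γ ≤ 1) (h1 : 1 ≤ β + γ)
    (μ : Measure ℝ) [IsProbabilityMeasure μ] {x : ℝ} (hx : 0 < x) {t : ℝ} (ht : 0 ≤ t)
    {K : ℕ} (hK : 1 ≤ K) :
    (Measure.infinitePi fun _ : ℕ => evLaw β γ μ) {s | t < age x s K}
      ≤ ENNReal.ofReal (Real.exp (-(γ * x * t / 2)) / psi K) := by
  refine le_trans (measure_mono ?_) (crossing_meas hβ hγ0 hγ h1 μ hx ht hK)
  intro s hs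
  obtain ⟨k, hk, h⟩ := exists_crossing ht hs
  exact ⟨k, h, le_trans (size_le s k) (by omega)⟩

theorem no_explosion {β γ : ℝ} (hβ : β ≤ 1) (hγ0 : 0 < γ) (hγ : γ ≤ 1) (h1 : 1 ≤ β + γ)
    (μ : Measure ℝ) [IsProbabilityMeasure μ] {x : ℝ} (hx : 0 < x) {t : ℝ} (ht : 0 ≤ t) :
    (Measure.infinitePi fun _ : ℕ => evLaw β γ μ) {s | ∀ k, age x s k ≤ t} = 0 := by
  have i1 := isProb_markLaw hβ hγ h1
  have i2 := isProbabilityMeasure_expMeasure (r := 1) one_pos
  have i3 := isProb_evLaw hβ hγ h1 μ
  set P := (Measure.infinitePi fun _ : ℕ => evLaw β γ μ) with hP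
  have mg : Measurable fun q : ((Bool × Bool) × ℝ) × ℝ =>
      (if q.2 ≤ t then (1 : ℝ≥0∞) else 0) :=
    Measurable.ite (measurableSet_le measurable_snd measurable_const) measurable_const
      measurable_const
  have key := family_upper hβ hγ0.le hγ h1 μ hx (g := fun p a => if a ≤ t then 1 else 0) mg
  simp only [lintegral_const, measure_univ, mul_one] at key
  rw [W_indicator hγ0 hx ht 1, mul_one] at key
  have hfin : ∑' k : ℕ, ∫⁻ s, (if age x s (k + 1) ≤ t then (1 : ℝ≥0∞) else 0) ∂P ≠ ⊤ :=
    ne_top_of_le_ne_top ENNReal.ofReal_ne_top key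
  have htend := ENNReal.tendsto_atTop_zero_of_tsum_ne_top hfin
  refine le_antisymm ?_ zero_le
  refine ge_of_tendsto' htend fun k => ?_
  have e : ∫⁻ s, (if age x s (k + 1) ≤ t then (1 : ℝ≥0∞) else 0) ∂P
      = P {s | age x s (k + 1) ≤ t} := by
    rw [← lintegral_indicator_one (measurableSet_le (measurable_age' x (k + 1)) measurable_const)]
    refine lintegral_congr fun s => ?_
    simp [Set.indicator]
  rw [e]
  exact measure_mono fun s hs => hs (k + 1)

theorem size_tail {β γ : ℝ} (hβ : β ≤ 1) (hγ0 : 0 < γ) (hγ : γ ≤ 1) (h1 : 1 ≤ β + γ)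
    (μ : Measure ℝ) [IsProbabilityMeasure μ] {x : ℝ} (hx : 0 < x) {t : ℝ} (ht : 0 ≤ t)
    {y : ℕ} (hy : 1 ≤ y) :
    (Measure.infinitePi fun _ : ℕ => evLaw β γ μ) {s | ¬ ∃ k, age x s k ≤ t ∧ y < size s k}
      ≤ ENNReal.ofReal (Real.exp (-(γ * x * t / 2)) / psi y) := by
  have hsub : {s : ℕ → Ev | ¬ ∃ k, age x s k ≤ t ∧ y < size s k}
      ⊆ {s | ∃ k, (age x s k ≤ t ∧ t < age x s (k + 1)) ∧ size s k ≤ y}
        ∪ {s | ∀ k, age x s k ≤ t} := by
    intro s hs
    by_cases h : ∀ k, age x s k ≤ t
    · exact Or.inr h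
    · left
      push Not at h
      obtain ⟨K, hK⟩ := h
      obtain ⟨k, -, hk⟩ := exists_crossing ht hK
      refine ⟨k, hk, ?_⟩
      by_contra hc
      exact hs ⟨k, hk.1, not_le.1 hc⟩
  refine le_trans (measure_mono hsub) (le_trans (measure_union_le _ _) ?_)
  rw [no_explosion hβ hγ0 hγ h1 μ hx ht, add_zero]
  exact crossing_meas hβ hγ0.le hγ h1 μ hx ht hy

end Pool.Agent.RBP
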