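import Mathlib

/-! # Consequences of regular variation -/

open MeasureTheory ProbabilityTheory Filter Topology Set
open scoped ENNReal

noncomputable section

namespace Pool.Agent.RBP

/-- `ℓ` is slowly varying at `0+`. -/
def SlowlyVaryingAtZero (ℓ : ℝ → ℝ) : Prop :=
  (∀ᶠ ε in 𝓝[>] (0 : ℝ), 0 < ℓ ε) ∧
    ∀ c : ℝ, 0 < c → Tendsto (fun ε => ℓ (c * ε) / ℓ ε) (𝓝[>] 0) (𝓝 1)

lemma dyadic_upper {m : ℝ → ℝ} (hm : ∀ x y, 0 < x → x ≤ y → m x ≤ m y)
    (hm1 : ∀ x, m x ≤ 1) {a : ℝ} (ha : 0 ≤ a)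
    (hq : ∀ᶠ ε in 𝓝[>] (0 : ℝ), m (ε / 2) ≤ (1 / 2) ^ a * m ε) :
    ∃ C : ℝ, 0 < C ∧ ∀ ε, 0 < ε → m ε ≤ C * ε ^ a := by
  obtain ⟨e0, he0, h0⟩ := mem_nhdsGT_iff_exists_Ioo_subset.1 hq
  have he0' : 0 < e0 := he0
  set e := e0 / 2 with he
  have hepos : 0 < e := by positivity
  have hen : e < e0 := by rw [he]; linarith
  have hind : ∀ n : ℕ, m (e * (1 / 2) ^ n) ≤ ((1 / 2 : ℝ) ^ n) ^ a := by
    intro n
    induction n with
    | zero => simpa using hm1 e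
    | succ n ih =>
      have hp : 0 < e * (1 / 2) ^ n := by positivity
      have hlt : e * (1 / 2) ^ n < e0 := by
        have : (1 / 2 : ℝ) ^ n ≤ 1 := pow_le_one₀ (by norm_num) (by norm_num)
        nlinarith
      have h2 : m (e * (1 / 2) ^ n / 2) ≤ (1 / 2) ^ a * m (e * (1 / 2) ^ n) := h0 ⟨hp, hlt⟩
      have e1 : e * (1 / 2) ^ (n + 1) = e * (1 / 2) ^ n / 2 := by rw [pow_succ]; ring
      rw [e1]
      refine le_trans h2 ?_
      rw [pow_succ, Real.mul_rpow (by positivity) (by norm_num), mul_comm (((1 / 2 : ℝ) ^ n) ^ a)]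
      exact mul_le_mul_of_nonneg_left ih (by positivity)
  refine ⟨(2 / e) ^ a, by positivity, fun ε hε => ?_⟩
  rw [← Real.mul_rpow (by positivity) hε.le]
  rcases le_or_gt ε e with h | h
  · have hx1 : ε / e ≤ 1 := by rw [div_le_one hepos]; exact h
    obtain ⟨n, hn1, hn2⟩ := exists_nat_pow_near_of_lt_one (x := ε / e) (y := 1 / 2)
      (by positivity) hx1 (by norm_num) (by norm_num)
    have h3 : m ε ≤ m (e * (1 / 2) ^ n) := by
      apply hm _ _ hε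
      rw [div_le_iff₀ hepos] at hn2
      linarith
    refine le_trans h3 (le_trans (hind n) ?_)
    apply Real.rpow_le_rpow (by positivity) _ ha
    rw [pow_succ] at hn1
    have : 2 / e * ε = 2 * (ε / e) := by ring
    rw [this]
    linarith
  · refine le_trans (hm1 ε) ?_
    apply Real.one_le_rpow _ ha
    have : 2 / e * ε = 2 * (ε / e) := by ring
    rw [this]
    have : 1 < ε / e := by rw [lt_div_iff₀ hepos]; linarith
    linarith

lemma dyadic_lower {m : ℝ → ℝ} (hm : ∀ x y, 0 < x → x ≤ y → m x ≤ m y)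
    (hm0 : ∀ x, 0 < x → 0 < m x) {a : ℝ} (ha : 0 ≤ a)
    (hq : ∀ᶠ ε in 𝓝[>] (0 : ℝ), (1 / 2) ^ a * m ε ≤ m (ε / 2)) :
    ∃ c : ℝ, 0 < c ∧ ∀ᶠ ε in 𝓝[>] (0 : ℝ), c * ε ^ a ≤ m ε := by
  obtain ⟨e0, he0, h0⟩ := mem_nhdsGT_iff_exists_Ioo_subset.1 hq
  have he0' : 0 < e0 := he0
  set e := e0 / 2 with he
  have hepos : 0 < e := by positivity
  have hen : e < e0 := by rw [he]; linarith
  have hind : ∀ n : ℕ, ((1 / 2 : ℝ) ^ n) ^ a * m e ≤ m (e * (1 / 2) ^ n) := by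
    intro n
    induction n with
    | zero => simp
    | succ n ih =>
      have hp : 0 < e * (1 / 2) ^ n := by positivity
      have hlt : e * (1 / 2) ^ n < e0 := by
        have : (1 / 2 : ℝ) ^ n ≤ 1 := pow_le_one₀ (by norm_num) (by norm_num)
        nlinarith
      have h2 : (1 / 2) ^ a * m (e * (1 / 2) ^ n) ≤ m (e * (1 / 2) ^ n / 2) := h0 ⟨hp, hlt⟩
      have e1 : e * (1 / 2) ^ (n + 1) = e * (1 / 2) ^ n / 2 := by rw [pow_succ]; ring
      rw [e1]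
      refine le_trans ?_ h2
      rw [pow_succ, Real.mul_rpow (by positivity) (by norm_num), mul_comm (((1 / 2 : ℝ) ^ n) ^ a),
        mul_assoc]
      exact mul_le_mul_of_nonneg_left ih (by positivity)
  refine ⟨(1 / (2 * e)) ^ a * m e, by have := hm0 e hepos; positivity, ?_⟩
  have hmem : Ioo 0 e ∈ 𝓝[>] (0 : ℝ) := Ioo_mem_nhdsGT hepos
  filter_upwards [hmem] with ε hε
  have hε0 : 0 < ε := hε.1
  have hx1 : ε / e ≤ 1 := by rw [div_le_one hepos]; exact hε.2.le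
  obtain ⟨n, hn1, hn2⟩ := exists_nat_pow_near_of_lt_one (x := ε / e) (y := 1 / 2)
    (by positivity) hx1 (by norm_num) (by norm_num)
  have h3 : m (e * (1 / 2) ^ (n + 1)) ≤ m ε := by
    apply hm _ _ (by positivity)
    rw [lt_div_iff₀ hepos] at hn1
    linarith
  refine le_trans ?_ (le_trans (hind (n + 1)) h3)
  have e2 : (1 / (2 * e)) ^ a * m e * ε ^ a = ((1 / (2 * e)) * ε) ^ a * m e := by
    rw [Real.mul_rpow (by positivity) hε0.le]; ring
  rw [e2]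
  refine mul_le_mul_of_nonneg_right ?_ (hm0 e hepos).le
  apply Real.rpow_le_rpow (by positivity) _ ha
  have : 1 / (2 * e) * ε = (ε / e) / 2 := by field_simp
  rw [this, pow_succ]
  linarith

/-- tail function near the top -/
def tail (μ : Measure ℝ) (ε : ℝ) : ℝ := (μ (Ioo (1 - ε) 1)).toReal

lemma tail_mono (μ : Measure ℝ) [IsProbabilityMeasure μ] (x y : ℝ) (h : x ≤ y) :
    tail μ x ≤ tail μ y := by
  unfold tail
  refine ENNReal.toReal_mono (measure_ne_top _ _) (measure_mono ?_)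
  exact Ioo_subset_Ioo_left (by linarith)

lemma tail_le_one (μ : Measure ℝ) [IsProbabilityMeasure μ] (x : ℝ) : tail μ x ≤ 1 := by
  unfold tail
  exact ENNReal.toReal_le_of_le_ofReal zero_le_one (by simpa using prob_le_one)

lemma tail_ratio {μ : Measure ℝ} [IsProbabilityMeasure μ] {α : ℝ} {ℓ : ℝ → ℝ}
    (hℓ : SlowlyVaryingAtZero ℓ) (hRV : ∀ᶠ ε in 𝓝[>] (0 : ℝ), tail μ ε = ε ^ α * ℓ ε) :
    (∀ x, 0 < x → 0 < tail μ x) ∧
      Tendsto (fun ε => tail μ (ε / 2) / tail μ ε) (𝓝[>] 0) (𝓝 ((1 / 2) ^ α)) := by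
  constructor
  · intro x hx
    have h1 : ∀ᶠ ε in 𝓝[>] (0 : ℝ), 0 < tail μ ε := by
      filter_upwards [hRV, hℓ.1, self_mem_nhdsWithin] with ε e1 e2 e3
      have e3' : (0 : ℝ) < ε := e3
      rw [e1]; positivity
    have h2 : ∀ᶠ ε in 𝓝[>] (0 : ℝ), ε < x := (gt_mem_nhds hx).filter_mono nhdsWithin_le_nhds
    obtain ⟨ε, e1, e2⟩ := (h1.and h2).exists
    exact lt_of_lt_of_le e1 (tail_mono μ _ _ e2.le)
  · have hhalf : Tendsto (fun ε : ℝ => ε / 2) (𝓝[>] 0) (𝓝[>] 0) := by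
      refine tendsto_nhdsWithin_iff.2 ⟨?_, ?_⟩
      · have : Tendsto (fun ε : ℝ => ε / 2) (𝓝 0) (𝓝 (0 / 2)) := tendsto_id.div_const 2
        rw [zero_div] at this
        exact this.mono_left nhdsWithin_le_nhds
      · filter_upwards [self_mem_nhdsWithin] with ε hε
        have hε' : (0 : ℝ) < ε := hε
        exact half_pos hε'
    have h1 := hhalf.eventually hRV
    have h2 := hℓ.2 (1 / 2) (by norm_num)
    have h3 : Tendsto (fun ε => (1 / 2 : ℝ) ^ α * (ℓ (1 / 2 * ε) / ℓ ε)) (𝓝[>] 0)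
        (𝓝 ((1 / 2) ^ α * 1)) := tendsto_const_nhds.mul h2
    rw [mul_one] at h3
    refine h3.congr' ?_
    filter_upwards [hRV, h1, self_mem_nhdsWithin] with ε e1 e2 e3
    have e3' : (0 : ℝ) < ε := e3
    rw [e1, e2, div_eq_inv_mul ε 2, ← one_div, Real.mul_rpow (by norm_num) e3'.le]
    have : ε ^ α ≠ 0 := by positivity
    field_simp

lemma tail_upper {μ : Measure ℝ} [IsProbabilityMeasure μ] {α : ℝ} {ℓ : ℝ → ℝ}
    (hℓ : SlowlyVaryingAtZero ℓ) (hRV : ∀ᶠ ε in 𝓝[>] (0 : ℝ), tail μ ε = ε ^ α * ℓ ε)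
    {a : ℝ} (ha : 0 ≤ a) (haα : a < α) :
    ∃ C : ℝ, 0 < C ∧ ∀ ε, 0 < ε → tail μ ε ≤ C * ε ^ a := by
  obtain ⟨hpos, hlim⟩ := tail_ratio hℓ hRV
  refine dyadic_upper (fun x y _ h => tail_mono μ x y h) (tail_le_one μ) ha ?_
  have h1 : (1 / 2 : ℝ) ^ α < (1 / 2) ^ a :=
    Real.rpow_lt_rpow_of_exponent_gt (by norm_num) (by norm_num) haα
  filter_upwards [hlim.eventually (gt_mem_nhds h1), self_mem_nhdsWithin] with ε e1 e2
  rw [div_lt_iff₀ (hpos ε e2)] at e1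
  exact e1.le

lemma tail_lower {μ : Measure ℝ} [IsProbabilityMeasure μ] {α : ℝ} {ℓ : ℝ → ℝ}
    (hℓ : SlowlyVaryingAtZero ℓ) (hRV : ∀ᶠ ε in 𝓝[>] (0 : ℝ), tail μ ε = ε ^ α * ℓ ε)
    {a : ℝ} (ha : 0 ≤ a) (haα : α < a) :
    ∃ c : ℝ, 0 < c ∧ ∀ᶠ ε in 𝓝[>] (0 : ℝ), c * ε ^ a ≤ tail μ ε := by
  obtain ⟨hpos, hlim⟩ := tail_ratio hℓ hRV
  refine dyadic_lower (fun x y _ h => tail_mono μ x y h) hpos ha ?_
  have h1 : (1 / 2 : ℝ) ^ a < (1 / 2) ^ α :=
    Real.rpow_lt_rpow_of_exponent_gt (by norm_num) (by norm_num) haα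
  filter_upwards [hlim.eventually (lt_mem_nhds h1), self_mem_nhdsWithin] with ε e1 e2
  rw [lt_div_iff₀ (hpos ε e2)] at e1
  exact e1.le

/-- negative moments of `1 - x` are finite below the index -/
lemma moment_finite {μ : Measure ℝ} [IsProbabilityMeasure μ] (hμ : μ (Ioo 0 1)ᶜ = 0)
    {a p C : ℝ} (hp : 0 ≤ p) (hpa : p < a) (hC : 0 < C)
    (h : ∀ ε, 0 < ε → tail μ ε ≤ C * ε ^ a) :
    ∫⁻ x, ENNReal.ofReal ((1 - x) ^ (-p)) ∂μ ≠ ⊤ := by
  set w : ℕ → ℝ := fun n => ((1 / 2 : ℝ) ^ (n + 1)) ^ (-p) with hw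
  set S : ℕ → Set ℝ := fun n => Ioo (1 - 2 * (1 / 2) ^ n) 1 with hS
  have hpt : ∀ᵐ x ∂μ, ENNReal.ofReal ((1 - x) ^ (-p))
      ≤ ∑' n, ENNReal.ofReal (w n) * (S n).indicator 1 x := by
    have hae : ∀ᵐ x ∂μ, x ∈ Ioo (0 : ℝ) 1 := hμ
    filter_upwards [hae] with x hx
    have h1x : 0 < 1 - x := by linarith [hx.2]
    obtain ⟨n, hn1, hn2⟩ := exists_nat_pow_near_of_lt_one (x := 1 - x) (y := 1 / 2)
      h1x (by linarith [hx.1]) (by norm_num) (by norm_num)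
    refine le_trans ?_ (ENNReal.le_tsum n)
    have hmem : x ∈ S n := by
      refine ⟨?_, hx.2⟩
      have : 0 < (1 / 2 : ℝ) ^ n := by positivity
      linarith
    rw [Set.indicator_of_mem hmem, Pi.one_apply, mul_one]
    apply ENNReal.ofReal_le_ofReal
    exact Real.rpow_le_rpow_of_nonpos (by positivity) hn1.le (by linarith)
  refine ne_top_of_le_ne_top ?_ (lintegral_mono_ae hpt)
  have hmS : ∀ n, MeasurableSet (S n) := fun n => measurableSet_Ioo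
  rw [lintegral_tsum fun n => ((measurable_one.indicator (hmS n)).const_mul _).aemeasurable]
  have hle : ∀ n, ∫⁻ x, ENNReal.ofReal (w n) * (S n).indicator 1 x ∂μ
      ≤ ENNReal.ofReal (C * 2 ^ a * 2 ^ p * ((1 / 2) ^ (a - p)) ^ n) := by
    intro n
    rw [lintegral_const_mul _ (measurable_one.indicator (hmS n)), lintegral_indicator_one (hmS n)]
    have h2 : μ (S n) ≤ ENNReal.ofReal (C * (2 * (1 / 2) ^ n) ^ a) := by
      have := h (2 * (1 / 2) ^ n) (by positivity)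
      rw [← ENNReal.ofReal_toReal (measure_ne_top μ (S n))]
      exact ENNReal.ofReal_le_ofReal this
    refine le_trans (mul_le_mul_right h2 _) ?_
    rw [← ENNReal.ofReal_mul (by positivity)]
    apply ENNReal.ofReal_le_ofReal
    apply le_of_eq
    have hq : (0 : ℝ) < (1 / 2) ^ n := by positivity
    have e1 : w n = ((1 / 2 : ℝ) ^ n) ^ (-p) * 2 ^ p := by
      rw [hw]
      simp only
      rw [pow_succ, Real.mul_rpow hq.le (by norm_num)]
      congr 1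
      rw [Real.rpow_neg (by norm_num), one_div, Real.inv_rpow (by norm_num), inv_inv]
    have e2 : (2 * (1 / 2 : ℝ) ^ n) ^ a = 2 ^ a * ((1 / 2) ^ n) ^ a :=
      Real.mul_rpow (by norm_num) hq.le
    have e3 : (((1 / 2 : ℝ) ^ (a - p)) ^ n) = ((1 / 2 : ℝ) ^ n) ^ (-p) * ((1 / 2) ^ n) ^ a := by
      rw [← Real.rpow_add hq, ← Real.rpow_natCast, ← Real.rpow_mul (by norm_num),
        ← Real.rpow_natCast, ← Real.rpow_mul (by norm_num)]
      congr 1
      ring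
    rw [e1, e2, e3]
    ring
  refine ne_top_of_le_ne_top ?_ (ENNReal.tsum_le_tsum hle)
  refine Summable.tsum_ofReal_ne_top ?_
  refine Summable.mul_left _ ?_
  refine summable_geometric_of_lt_one (by positivity) ?_
  exact Real.rpow_lt_one (by norm_num) (by norm_num) (by linarith)

end Pool.Agent.RBP
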