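import Pool.Agent.H93.RBPLower2
import Pool.Agent.H93.RBPRV

/-! # Lower bound for a fixed root fitness -/

open MeasureTheory ProbabilityTheory Filter Topology Set
open scoped ENNReal

noncomputable section

namespace Pool.Agent.RBP

lemma inv_psi_le {z : ℕ} (hz : 1 ≤ z) {Z : ℝ} (h : (z : ℝ) ≤ Z) :
    1 / psi z ≤ 2 * Real.sqrt Z := by
  have hz' : (1 : ℝ) ≤ z := by exact_mod_cast hz
  unfold psi
  rw [one_div_one_div]
  have h4 : (2 : ℝ) = Real.sqrt 4 := by
    rw [show (4 : ℝ) = 2 ^ 2 by norm_num, Real.sqrt_sq (by norm_num)]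
  rw [h4, ← Real.sqrt_mul (by norm_num)]
  apply Real.sqrt_le_sqrt
  linarith

lemma tendsto_ofReal_rpow_neg {c : ℝ} (hc : 0 < c) (D : ℝ) :
    Tendsto (fun t : ℝ => ENNReal.ofReal (D * t ^ (-c))) atTop (𝓝 0) := by
  have h1 : Tendsto (fun t : ℝ => D * t ^ (-c)) atTop (𝓝 (D * 0)) :=
    tendsto_const_nhds.mul (tendsto_rpow_neg_atTop hc)
  rw [mul_zero] at h1
  have := ENNReal.tendsto_ofReal h1
  rwa [ENNReal.ofReal_zero] at this

/-- the size threshold -/
def thr (γ α ε t : ℝ) : ℝ := Real.exp (γ * t) * t ^ (-(α + ε))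

lemma thr_tendsto {γ : ℝ} (hγ : 0 < γ) (s : ℝ) :
    Tendsto (fun t : ℝ => Real.exp (γ * t) * t ^ (-s)) atTop atTop := by
  have h := tendsto_exp_mul_div_rpow_atTop s γ hγ
  refine h.congr' ?_
  filter_upwards [eventually_gt_atTop 0] with t ht
  rw [Real.rpow_neg ht.le, div_eq_mul_inv]

theorem lower_fixed {β γ α ε : ℝ} (hβ0 : 0 < β) (hβ : β ≤ 1) (hγ0 : 0 < γ) (hγ : γ ≤ 1)
    (h1 : 1 ≤ β + γ) (μ : Measure ℝ) [IsProbabilityMeasure μ] (hα : 0 < α) (hε : 0 < ε)
    {ℓ : ℝ → ℝ} (hℓ : SlowlyVaryingAtZero ℓ)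
    (hRV : ∀ᶠ e in 𝓝[>] (0 : ℝ), tail μ e = e ^ α * ℓ e) {x0 : ℝ} (hx0 : 0 < x0) :
    Tendsto (fun t : ℝ => (treeLaw β γ μ) {ω | popSize x0 ω t ≤ (⌈thr γ α ε t⌉₊ : ℝ≥0∞)})
      atTop (𝓝 0) := by
  set e1 : ℝ := ε / 6 with he1
  have he1p : 0 < e1 := by positivity
  -- the fitness of the fit child
  obtain ⟨x1, hx1, hx11, hx1'⟩ : ∃ x1 : ℝ, 0 < x1 ∧ x1 < 1 ∧ (α + 3 * e1) / x1 ≤ α + 4 * e1 := by
    refine ⟨(α + 3 * e1) / (α + 4 * e1), by positivity, ?_, ?_⟩
    · rw [div_lt_one (by positivity)]; linarith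
    · rw [div_div_eq_mul_div, mul_div_assoc, mul_comm, div_mul_cancel₀]
      positivity
  obtain ⟨c, hc, hclow⟩ := tail_lower hℓ hRV (a := α + e1) (by positivity) (by linarith)
  obtain ⟨htpos, -⟩ := tail_ratio hℓ hRV
  set c1 : ℝ := γ * x0 * e1 / 2 with hc1
  have hc1p : 0 < c1 := by positivity
  -- first term
  have hq : (1 - ENNReal.ofReal β * μ (Ici x1)) < 1 := by
    have hpos : 0 < μ (Ici x1) := by
      have h3 : 0 < tail μ (1 - x1) := htpos _ (by linarith)
      unfold tail at h3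
      have h4 : 0 < μ (Ioo (1 - (1 - x1)) 1) := (ENNReal.toReal_pos_iff.1 h3).1
      refine lt_of_lt_of_le h4 (measure_mono ?_)
      intro y hy
      have := hy.1
      simp only [Set.mem_Ici]
      linarith
    refine ENNReal.sub_lt_self ENNReal.one_ne_top one_ne_zero ?_
    exact mul_ne_zero (by simpa using hβ0) hpos.ne'
  have T1 : Tendsto (fun t : ℝ => (1 - ENNReal.ofReal β * μ (Ici x1)) ^ ⌈t ^ c1⌉₊) atTop (𝓝 0) := by
    have hK : Tendsto (fun t : ℝ => ⌈t ^ c1⌉₊) atTop atTop :=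
      tendsto_nat_ceil_atTop.comp (tendsto_rpow_atTop hc1p)
    exact (ENNReal.tendsto_pow_atTop_nhds_zero_of_lt_one hq).comp hK
  have T2 := tendsto_ofReal_rpow_neg (c := c1 / 2) (by positivity) (2 * Real.sqrt 2)
  have T4 := tendsto_ofReal_rpow_neg (c := e1 / 2) (by positivity) (2 * Real.sqrt 2)
  have T5 := tendsto_ofReal_rpow_neg (c := e1 / 2) (by positivity)
    (2 * Real.sqrt 2 * Real.exp (γ / 2))
  have T3 : Tendsto (fun t : ℝ => ENNReal.ofReal (Real.exp (-(β * c * t ^ e1)))) atTop (𝓝 0) := by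
    have h2 : Tendsto (fun t : ℝ => -(β * c * t ^ e1)) atTop atBot := by
      refine tendsto_neg_atTop_atBot.comp ?_
      exact Tendsto.const_mul_atTop (by positivity) (tendsto_rpow_atTop he1p)
    have := ENNReal.tendsto_ofReal (Real.tendsto_exp_atBot.comp h2)
    rwa [ENNReal.ofReal_zero] at this
  have Tsum := (((T1.add T2).add T3).add T4).add T5
  simp only [add_zero] at Tsum
  refine tendsto_of_tendsto_of_tendsto_of_le_of_le' tendsto_const_nhds Tsum
    (Eventually.of_forall fun t => zero_le) ?_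
  -- eventual facts
  have ev1 : ∀ᶠ t : ℝ in atTop, c * (1 / t) ^ (α + e1) ≤ tail μ (1 / t) := by
    have : Tendsto (fun t : ℝ => 1 / t) atTop (𝓝[>] 0) := by
      simp only [one_div]
      exact tendsto_inv_atTop_nhdsGT_zero
    exact this.eventually hclow
  have ev2 : ∀ᶠ t : ℝ in atTop, 0 ≤ t - e1 * Real.log t - (α + 3 * e1) / (γ * x1) * Real.log t := by
    set D := e1 + (α + 3 * e1) / (γ * x1) with hD
    have hlo := Real.isLittleO_log_id_atTop
    have hDp : 0 < D := by positivity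
    have := hlo.bound (c := 1 / D) (by positivity)
    filter_upwards [this, eventually_gt_atTop 1] with t ht ht1
    have hlog : 0 < Real.log t := Real.log_pos ht1
    rw [Real.norm_of_nonneg hlog.le, id, Real.norm_of_nonneg (by linarith)] at ht
    have h5 : D * Real.log t ≤ t := by
      calc D * Real.log t ≤ D * (1 / D * t) := mul_le_mul_of_nonneg_left ht hDp.le
        _ = t := by field_simp
    have : D * Real.log t = e1 * Real.log t + (α + 3 * e1) / (γ * x1) * Real.log t := by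
      rw [hD]; ring
    linarith
  have ev3 : ∀ᶠ t : ℝ in atTop, 1 ≤ thr γ α ε t :=
    (thr_tendsto hγ0 (α + ε)).eventually_ge_atTop 1
  filter_upwards [ev1, ev2, ev3, eventually_gt_atTop 1] with t h2 h3 h4 ht1
  have ht0 : 0 < t := by linarith
  have hlog : 0 < Real.log t := Real.log_pos ht1
  have hx2 : 0 < 1 - 1 / t := by
    rw [sub_pos, div_lt_one ht0]; exact ht1
  have expand : ∀ b : ℝ, Real.exp (b * Real.log t) = t ^ b := by
    intro b; rw [Real.rpow_def_of_pos ht0, mul_comm]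
  -- parameters
  set K1 : ℕ := ⌈t ^ c1⌉₊ with hK1
  set K2 : ℕ := ⌈t ^ (α + 2 * e1)⌉₊ with hK2
  set y : ℕ := ⌈thr γ α ε t⌉₊ with hy
  set s1 : ℝ := e1 * Real.log t with hs1
  set s2 : ℝ := (α + 3 * e1) / (γ * x1) * Real.log t with hs2
  set s3 : ℝ := t - s1 - s2 with hs3
  have pK1 : 1 ≤ t ^ c1 := Real.one_le_rpow ht1.le hc1p.le
  have pK2 : 1 ≤ t ^ (α + 2 * e1) := Real.one_le_rpow ht1.le (by positivity)
  have ceil_le : ∀ z : ℝ, 1 ≤ z → ((⌈z⌉₊ : ℕ) : ℝ) ≤ 2 * z := by
    intro z hz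
    have := (Nat.ceil_lt_add_one (by linarith : (0 : ℝ) ≤ z)).le
    linarith
  have one_le_ceil : ∀ z : ℝ, 1 ≤ z → 1 ≤ ⌈z⌉₊ := by
    intro z hz
    rw [Nat.one_le_ceil_iff]; linarith
  have key := tree_lower hβ hγ0 hγ h1 μ hx0 hx1 hx2 (K1 := K1) (K2 := K2) (y := y)
    (one_le_ceil _ pK1) (one_le_ceil _ pK2) (one_le_ceil _ h4) (s1 := s1) (s2 := s2) (s3 := s3)
    (t := t) (by positivity) (by positivity) h3 (by rw [hs3]; linarith)
  refine le_trans key ?_
  refine add_le_add (add_le_add (add_le_add (add_le_add le_rfl ?_) ?_) ?_) ?_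
  · -- term 2
    apply ENNReal.ofReal_le_ofReal
    have e2 : Real.exp (-(γ * x0 * s1 / 2)) = t ^ (-c1) := by
      rw [← expand]; congr 1; rw [hs1, hc1]; ring
    rw [e2, div_eq_mul_one_div]
    have e3 := inv_psi_le (one_le_ceil _ pK1) (ceil_le _ pK1)
    refine le_trans (mul_le_mul_of_nonneg_left e3 (by positivity)) (le_of_eq ?_)
    rw [Real.sqrt_mul (by norm_num), Real.sqrt_eq_rpow (t ^ c1), ← Real.rpow_mul ht0.le]
    have e4 : t ^ (-(c1 / 2)) = t ^ (-c1) * t ^ (c1 * (1 / 2)) := by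
      rw [← Real.rpow_add ht0]; congr 1; ring
    rw [e4]; ring
  · -- term 3
    have hlow : ENNReal.ofReal (c * (1 / t) ^ (α + e1)) ≤ μ (Ici (1 - 1 / t)) := by
      have h5 : ENNReal.ofReal (tail μ (1 / t)) ≤ μ (Ici (1 - 1 / t)) := by
        unfold tail
        rw [ENNReal.ofReal_toReal (measure_ne_top _ _)]
        exact measure_mono fun z hz => hz.1.le
      exact le_trans (ENNReal.ofReal_le_ofReal h2) h5
    have h6 : 1 - ENNReal.ofReal β * μ (Ici (1 - 1 / t))
        ≤ ENNReal.ofReal (Real.exp (-(β * (c * (1 / t) ^ (α + e1))))) := by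
      calc 1 - ENNReal.ofReal β * μ (Ici (1 - 1 / t))
          ≤ 1 - ENNReal.ofReal β * ENNReal.ofReal (c * (1 / t) ^ (α + e1)) := by gcongr
        _ = ENNReal.ofReal (1 - β * (c * (1 / t) ^ (α + e1))) := by
            rw [← ENNReal.ofReal_mul hβ0.le, ENNReal.ofReal_sub _ (by positivity),
              ENNReal.ofReal_one]
        _ ≤ _ := by
            apply ENNReal.ofReal_le_ofReal
            have := Real.add_one_le_exp (-(β * (c * (1 / t) ^ (α + e1))))
            linarith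
    refine le_trans (pow_le_pow_left' h6 K2) ?_
    rw [← ENNReal.ofReal_pow (Real.exp_pos _).le, ← Real.exp_nat_mul]
    apply ENNReal.ofReal_le_ofReal
    apply Real.exp_le_exp.2
    have h7 : t ^ (α + 2 * e1) ≤ K2 := Nat.le_ceil _
    have h8 : (1 / t) ^ (α + e1) = t ^ (-(α + e1)) := by
      rw [one_div, Real.inv_rpow ht0.le, Real.rpow_neg ht0.le]
    rw [h8]
    have h9 : t ^ (α + 2 * e1) * t ^ (-(α + e1)) = t ^ e1 := by
      rw [← Real.rpow_add ht0]; congr 1; ring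
    have h10 : β * c * t ^ e1 ≤ K2 * (β * (c * t ^ (-(α + e1)))) := by
      rw [← h9]
      have : t ^ (α + 2 * e1) * (β * (c * t ^ (-(α + e1)))) ≤ K2 * (β * (c * t ^ (-(α + e1)))) :=
        mul_le_mul_of_nonneg_right h7 (by positivity)
      linarith
    linarith
  · -- term 4
    apply ENNReal.ofReal_le_ofReal
    have e2 : Real.exp (-(γ * x1 * s2 / 2)) = t ^ (-((α + 3 * e1) / 2)) := by
      rw [← expand]; congr 1; rw [hs2]; field_simp
    rw [e2, div_eq_mul_one_div]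
    have e3 := inv_psi_le (one_le_ceil _ pK2) (ceil_le _ pK2)
    refine le_trans (mul_le_mul_of_nonneg_left e3 (by positivity)) (le_of_eq ?_)
    rw [Real.sqrt_mul (by norm_num), Real.sqrt_eq_rpow (t ^ (α + 2 * e1)), ← Real.rpow_mul ht0.le]
    have e4 : t ^ (-(e1 / 2)) = t ^ (-((α + 3 * e1) / 2)) * t ^ ((α + 2 * e1) * (1 / 2)) := by
      rw [← Real.rpow_add ht0]; congr 1; ring
    rw [e4]; ring
  · -- term 5
    apply ENNReal.ofReal_le_ofReal
    rw [div_eq_mul_one_div]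
    have e3 := inv_psi_le (one_le_ceil _ h4) (ceil_le _ h4)
    refine le_trans (mul_le_mul_of_nonneg_left e3 (by positivity)) ?_
    have e5 : Real.sqrt (thr γ α ε t) = Real.exp (γ * t / 2 - (α + ε) / 2 * Real.log t) := by
      rw [Real.sqrt_eq_iff_eq_sq (by linarith) (Real.exp_pos _).le, ← Real.exp_nat_mul]
      unfold thr
      rw [← expand, ← Real.exp_add]
      congr 1
      push_cast
      ring
    rw [Real.sqrt_mul (by norm_num), e5]
    have e6 : t ^ (-(e1 / 2)) = Real.exp (-(e1 / 2) * Real.log t) := (expand _).symm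
    rw [e6]
    have e7 : Real.exp (-(γ * (1 - 1 / t) * s3 / 2)) * (2 * (Real.sqrt 2 *
        Real.exp (γ * t / 2 - (α + ε) / 2 * Real.log t)))
        = 2 * Real.sqrt 2 * Real.exp (-(γ * (1 - 1 / t) * s3 / 2)
          + (γ * t / 2 - (α + ε) / 2 * Real.log t)) := by
      rw [Real.exp_add]; ring
    have e8 : 2 * Real.sqrt 2 * Real.exp (γ / 2) * Real.exp (-(e1 / 2) * Real.log t)
        = 2 * Real.sqrt 2 * Real.exp (γ / 2 + -(e1 / 2) * Real.log t) := by
      rw [Real.exp_add]; ring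
    rw [e7, e8]
    apply mul_le_mul_of_nonneg_left _ (by positivity)
    apply Real.exp_le_exp.2
    -- exponent comparison
    have hs12 : γ * (s1 + s2) ≤ (α + 5 * e1) * Real.log t := by
      have g1 : γ * s1 ≤ e1 * Real.log t := by
        rw [hs1]
        have : 0 ≤ e1 * Real.log t := by positivity
        nlinarith
      have g2 : γ * s2 = (α + 3 * e1) / x1 * Real.log t := by
        rw [hs2]; field_simp
      have g3 : (α + 3 * e1) / x1 * Real.log t ≤ (α + 4 * e1) * Real.log t :=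
        mul_le_mul_of_nonneg_right hx1' hlog.le
      rw [mul_add, g2]
      linarith
    have hs12p : 0 ≤ s1 + s2 := by positivity
    have id1 : -(γ * (1 - 1 / t) * s3 / 2) + (γ * t / 2 - (α + ε) / 2 * Real.log t)
        = γ / 2 + γ * (s1 + s2) / 2 - γ * (1 / t) * (s1 + s2) / 2 - (α + ε) / 2 * Real.log t := by
      rw [hs3]; field_simp; ring
    rw [id1]
    have hp : 0 ≤ γ * (1 / t) * (s1 + s2) / 2 := by positivity
    have hεe : ε = 6 * e1 := by rw [he1]; ring
    rw [hεe]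
    nlinarith

end Pool.Agent.RBP
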