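import Pool.Agent.H93.RBPUpper

/-! # Tree level: lower bound -/

open MeasureTheory ProbabilityTheory Filter Topology Set
open scoped ENNReal

noncomputable section

namespace Pool.Agent.RBP

/-- The event `k` founds a family of fitness at least `x`. -/
def Good (x : ℝ) (s : ℕ → Ev) (k : ℕ) : Prop := found (s k) = true ∧ x ≤ fit (s k)

/-- first event founding a family of fitness at least `x` (`0` if there is none) -/
def firstGood (x : ℝ) (s : ℕ → Ev) : ℕ := sInf {k | Good x s k}

lemma measurableSet_Good (x : ℝ) (k : ℕ) : MeasurableSet {s : ℕ → Ev | Good x s k} := by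
  refine MeasurableSet.inter ?_ ?_
  · have : Measurable fun s : ℕ → Ev => found (s k) := by fun_prop
    exact this (measurableSet_singleton true)
  · have : Measurable fun s : ℕ → Ev => fit (s k) := by fun_prop
    exact measurableSet_le measurable_const this

lemma measurable_firstGood (x : ℝ) : Measurable (firstGood x) := by
  refine measurable_to_countable' fun n => ?_
  have hset : firstGood x ⁻¹' {n} = ({s | Good x s n} ∩ ⋂ j ∈ Finset.range n, {s | Good x s j}ᶜ)
      ∪ (if n = 0 then ⋂ j, {s | Good x s j}ᶜ else ∅) := by
    ext s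
    simp only [Set.mem_preimage, Set.mem_singleton_iff, Set.mem_union, Set.mem_inter_iff,
      Set.mem_iInter, Finset.mem_range, Set.mem_compl_iff]
    constructor
    · intro h
      by_cases hex : ∃ k, Good x s k
      · left
        have hn : Good x s (firstGood x s) := Nat.sInf_mem (s := {k | Good x s k}) hex
        rw [h] at hn
        refine ⟨hn, fun j hj hg => ?_⟩
        have : firstGood x s ≤ j := Nat.sInf_le hg
        omega
      · right
        have h0 : firstGood x s = 0 := by
          unfold firstGood
          have : {k | Good x s k} = ∅ := by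
            ext k; simp only [Set.mem_empty_iff_false, iff_false]
            exact fun hk => hex ⟨k, hk⟩
          rw [this, Nat.sInf_empty]
        rw [h] at h0
        rw [if_pos h0]
        simp only [Set.mem_iInter, Set.mem_compl_iff]
        exact fun j hj => hex ⟨j, hj⟩
    · rintro (⟨h1, h2⟩ | h)
      · apply le_antisymm
        · exact Nat.sInf_le h1
        · by_contra hc
          have hmem : Good x s (firstGood x s) :=
            Nat.sInf_mem (s := {k | Good x s k}) ⟨n, h1⟩
          exact h2 _ (not_le.1 hc) hmem
      · by_cases hn : n = 0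
        · rw [if_pos hn] at h
          simp only [Set.mem_iInter, Set.mem_compl_iff] at h
          have : {k | Good x s k} = ∅ := by
            ext k; simp only [Set.mem_empty_iff_false, iff_false]
            exact h k
          unfold firstGood
          rw [this, Nat.sInf_empty, hn]
        · rw [if_neg hn] at h
          exact absurd h (by simp)
  rw [hset]
  refine MeasurableSet.union ?_ ?_
  · refine (measurableSet_Good x n).inter ?_
    exact Finset.measurableSet_biInter _ fun j _ => (measurableSet_Good x j).compl
  · split_ifs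
    · exact MeasurableSet.iInter fun j => (measurableSet_Good x j).compl
    · exact MeasurableSet.empty

lemma strong_markov {β γ : ℝ} (hβ : β ≤ 1) (hγ : γ ≤ 1) (h1 : 1 ≤ β + γ)
    (μ : Measure ℝ) [IsProbabilityMeasure μ] (g : ℕ)
    (V : (List ℕ → ℕ → Ev) → List ℕ)
    (hVu : ∀ u, MeasurableSet {ω : List ℕ → ℕ → Ev | V ω = u}) (hlen : ∀ ω, (V ω).length = g)
    (hupd : ∀ ω u s, u.length = g → V (Function.update ω u s) = V ω)
    {B : Set (ℕ → Ev)} (hB : MeasurableSet B) :
    (treeLaw β γ μ) {ω | ω (V ω) ∈ B} ≤ (Measure.infinitePi fun _ : ℕ => evLaw β γ μ) B := by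
  have i3 := isProb_evLaw hβ hγ h1 μ
  have i4 := isProb_treeLaw hβ hγ h1 μ
  set P1 := (Measure.infinitePi fun _ : ℕ => evLaw β γ μ) with hP1
  have hset : {ω : List ℕ → ℕ → Ev | ω (V ω) ∈ B} ⊆ ⋃ u, {ω | V ω = u ∧ ω u ∈ B} := by
    intro ω hω
    simp only [Set.mem_iUnion]
    exact ⟨V ω, rfl, hω⟩
  have hm : ∀ u, MeasurableSet {ω : List ℕ → ℕ → Ev | V ω = u ∧ ω u ∈ B} := fun u =>
    (hVu u).inter ((measurable_pi_apply u) hB)
  have hone : ∀ u, treeLaw β γ μ {ω : List ℕ → ℕ → Ev | V ω = u ∧ ω u ∈ B}
      ≤ treeLaw β γ μ {ω | V ω = u} * P1 B := by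
    intro u
    by_cases hu : u.length = g
    · rw [← lintegral_indicator_one (hm u), treeLaw,
        lintegral_resample (fun _ : List ℕ => Measure.infinitePi fun _ : ℕ => evLaw β γ μ) u
          (measurable_one.indicator (hm u)), ← lintegral_indicator_one (hVu u),
          ← lintegral_mul_const _ (measurable_one.indicator (hVu u))]
      refine lintegral_mono fun ω => ?_
      have e : ∀ s, ({ω : List ℕ → ℕ → Ev | V ω = u ∧ ω u ∈ B}).indicator
          (1 : (List ℕ → ℕ → Ev) → ℝ≥0∞) (Function.update ω u s)
          = ({ω | V ω = u}).indicator (1 : (List ℕ → ℕ → Ev) → ℝ≥0∞) ω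
            * B.indicator (1 : (ℕ → Ev) → ℝ≥0∞) s := by
        intro s
        have hV' := hupd ω u s hu
        by_cases h1 : V ω = u
        · by_cases h2 : s ∈ B
          · rw [Set.indicator_of_mem, Set.indicator_of_mem, Set.indicator_of_mem]
            · simp
            · exact h2
            · exact h1
            · exact ⟨hV'.trans h1, by rw [Function.update_self]; exact h2⟩
          · rw [Set.indicator_of_notMem, Set.indicator_of_notMem h2, mul_zero]
            intro h
            have h3 := h.2
            rw [Function.update_self] at h3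
            exact h2 h3
        · rw [Set.indicator_of_notMem, Set.indicator_of_notMem (s := {ω | V ω = u}), zero_mul]
          · exact h1
          · intro h
            exact h1 (hV'.symm.trans h.1)
      simp_rw [e]
      rw [lintegral_const_mul _ (measurable_one.indicator hB), lintegral_indicator_one hB]
    · have : {ω : List ℕ → ℕ → Ev | V ω = u ∧ ω u ∈ B} = ∅ := by
        ext ω
        simp only [Set.mem_ofPred_eq, Set.mem_empty_iff_false, iff_false, not_and]
        intro h
        exact absurd (by rw [← h]; exact hlen ω) hu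
      rw [this, measure_empty]
      exact zero_le
  refine le_trans (measure_mono hset) (le_trans (measure_iUnion_le _) ?_)
  refine le_trans (ENNReal.tsum_le_tsum hone) ?_
  rw [ENNReal.tsum_mul_right]
  have hsum : ∑' u, treeLaw β γ μ {ω | V ω = u} = 1 := by
    rw [← measure_iUnion]
    · have : ⋃ u, {ω : List ℕ → ℕ → Ev | V ω = u} = Set.univ := by
        ext ω; simp
      rw [this, measure_univ]
    · intro u v huv
      rw [Function.onFun, Set.disjoint_left]
      intro ω h1 h2
      exact huv (h1.symm.trans h2)
    · exact hVu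
  rw [hsum, one_mul]

/-- probability that none of the first `K` events is good -/
lemma not_good_meas {β γ : ℝ} (hβ : β ≤ 1) (hγ : γ ≤ 1) (h1 : 1 ≤ β + γ)
    (μ : Measure ℝ) [IsProbabilityMeasure μ] (x : ℝ) (K : ℕ) :
    (Measure.infinitePi fun _ : ℕ => evLaw β γ μ) {s | ¬ ∃ k < K, Good x s k}
      = (1 - ENNReal.ofReal β * μ (Ici x)) ^ K := by
  have i1 := isProb_markLaw hβ hγ h1
  have i2 := isProbabilityMeasure_expMeasure (r := 1) one_pos
  have i3 := isProb_evLaw hβ hγ h1 μ
  set T : Set Ev := {y | found y = true ∧ x ≤ fit y} with hT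
  have hTm : MeasurableSet T := by
    refine MeasurableSet.inter ?_ (measurableSet_le measurable_const measurable_fit)
    exact measurable_found (measurableSet_singleton true)
  have hset : {s : ℕ → Ev | ¬ ∃ k < K, Good x s k} = ((Finset.range K : Finset ℕ) : Set ℕ).pi
      fun _ => Tᶜ := by
    ext s
    simp only [Set.mem_ofPred_eq, Set.mem_pi, Finset.coe_range, Set.mem_Iio, not_exists, not_and]
    rfl
  rw [hset, Measure.infinitePi_pi _ fun _ _ => hTm.compl, Finset.prod_const, Finset.card_range,
    prob_compl_eq_one_sub hTm]
  congr 2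
  have e : evLaw β γ μ T = ∫⁻ y : Ev, (if y.2.1.1 = true then (Ici x).indicator 1 y.2.2 else 0)
      ∂(evLaw β γ μ) := by
    rw [← lintegral_indicator_one hTm]
    refine lintegral_congr fun y => ?_
    simp only [Set.indicator, hT, Set.mem_ofPred_eq, found, fit, Pi.one_apply, Set.mem_Ici]
    by_cases h1 : y.2.1.1 = true <;> by_cases h2 : x ≤ y.2.2 <;> simp [h1, h2]
  have hm : Measurable fun p : (Bool × Bool) × ℝ =>
      (if p.1.1 = true then (Ici x).indicator (1 : ℝ → ℝ≥0∞) p.2 else 0) := by
    refine Measurable.ite ?_ ((measurable_one.indicator measurableSet_Ici).comp measurable_snd)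
      measurable_const
    have : Measurable fun p : (Bool × Bool) × ℝ => p.1.1 := by fun_prop
    exact this (measurableSet_singleton true)
  rw [e, lintegral_evLaw hβ hγ h1 μ (Φ := fun _ p =>
    (if p.1.1 = true then (Ici x).indicator (1 : ℝ → ℝ≥0∞) p.2 else 0)) (hm.comp measurable_snd),
    lintegral_const, measure_univ, mul_one]
  rw [lintegral_mark_found hβ hγ h1 μ (φ := (Ici x).indicator 1)
    (measurable_one.indicator measurableSet_Ici), lintegral_indicator_one measurableSet_Ici]

end Pool.Agent.RBP
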