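import Pool.Agent.H93.RBPLower

/-! # Tree level: lower bound, part 2 -/

open MeasureTheory ProbabilityTheory Filter Topology Set
open scoped ENNReal

noncomputable section

namespace Pool.Agent.RBP

lemma ae_clock_nonneg {β γ : ℝ} (hβ : β ≤ 1) (hγ : γ ≤ 1) (h1 : 1 ≤ β + γ)
    (μ : Measure ℝ) [IsProbabilityMeasure μ] :
    ∀ᵐ ω ∂(treeLaw β γ μ), ∀ u k, 0 ≤ clock (ω u k) := by
  have i1 := isProb_markLaw hβ hγ h1
  have i2 := isProbabilityMeasure_expMeasure (r := 1) one_pos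
  have i3 := isProb_evLaw hβ hγ h1 μ
  rw [ae_all_iff]
  intro u
  rw [ae_all_iff]
  intro k
  have e0 : ∀ᵐ v ∂(expMeasure 1), 0 ≤ v := by
    rw [ae_iff]
    have : {a : ℝ | ¬ 0 ≤ a} = Iio 0 := by ext a; simp
    rw [this]
    unfold expMeasure gammaMeasure
    rw [withDensity_apply _ measurableSet_Iio]
    exact lintegral_gammaPDF_of_nonpos le_rfl
  have e1 : ∀ᵐ y ∂(evLaw β γ μ), 0 ≤ clock y := by
    have h3 : (evLaw β γ μ).map clock = expMeasure 1 := by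
      have : clock = (Prod.fst : Ev → ℝ) := rfl
      rw [this]
      unfold evLaw
      rw [Measure.map_fst_prod]
      simp
    have : ∀ᵐ z ∂((evLaw β γ μ).map clock), 0 ≤ z := by rw [h3]; exact e0
    exact ae_of_ae_map measurable_clock.aemeasurable this
  have e2 : ∀ᵐ y ∂((treeLaw β γ μ).map (fun ω => ω u k)), 0 ≤ clock y := by
    rw [map_eval_treeLaw hβ hγ h1 μ]; exact e1
  exact ae_of_ae_map (f := fun ω : List ℕ → ℕ → Ev => ω u k)
      (Measurable.aemeasurable (by fun_prop)) e2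

lemma age_nonneg {x : ℝ} (hx : 0 < x) {s : ℕ → Ev} (hs : ∀ k, 0 ≤ clock (s k)) (k : ℕ) :
    0 ≤ age x s k := by
  unfold age
  refine Finset.sum_nonneg fun j _ => div_nonneg (hs j) (by positivity)

lemma age_mono {x : ℝ} (hx : 0 < x) {s : ℕ → Ev} (hs : ∀ k, 0 ≤ clock (s k)) :
    Monotone (age x s) := by
  refine monotone_nat_of_le_succ fun k => ?_
  rw [age_succ]
  have : 0 ≤ clock (s k) / (x * size s k) := div_nonneg (hs k) (by positivity)
  linarith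

lemma age_anti {x x' : ℝ} (hx : 0 < x) (h : x ≤ x') {s : ℕ → Ev} (hs : ∀ k, 0 ≤ clock (s k))
    (k : ℕ) : age x' s k ≤ age x s k := by
  unfold age
  refine Finset.sum_le_sum fun j _ => ?_
  have h1 : (1 : ℝ) ≤ size s j := by exact_mod_cast size_pos s j
  exact div_le_div_of_nonneg_left (hs j) (by positivity)
    (mul_le_mul_of_nonneg_right h (by positivity))

lemma size_eq_sum (s : ℕ → Ev) (k : ℕ) :
    (size s k : ℝ≥0∞) = 1 + ∑ j ∈ Finset.range k, (if add (s j) = true then 1 else 0) := by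
  induction k with
  | zero => simp [size]
  | succ k ih =>
    rw [Finset.sum_range_succ, ← add_assoc, ← ih]
    simp only [size]
    push_cast
    rfl

lemma le_famSize {x : ℝ} (hx : 0 < x) {s : ℕ → Ev} (hs : ∀ k, 0 ≤ clock (s k)) {k : ℕ} {r : ℝ}
    (h : age x s k ≤ r) : (size s k : ℝ≥0∞) ≤ famSize x s r := by
  have hr : 0 ≤ r := le_trans (age_nonneg hx hs k) h
  unfold famSize
  rw [if_pos hr, size_eq_sum]
  refine add_le_add_right ?_ _
  refine le_trans (le_of_eq ?_) (ENNReal.sum_le_tsum (Finset.range k))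
  refine Finset.sum_congr rfl fun j hj => ?_
  have hj' := Finset.mem_range.1 hj
  have : age x s (j + 1) ≤ r := le_trans (age_mono hx hs (by omega)) h
  simp [this]

lemma firstGood_spec {x : ℝ} {s : ℕ → Ev} {K : ℕ} (h : ∃ k < K, Good x s k) :
    Good x s (firstGood x s) ∧ firstGood x s < K := by
  obtain ⟨k, hk, hg⟩ := h
  refine ⟨Nat.sInf_mem (s := {k | Good x s k}) ⟨k, hg⟩, lt_of_le_of_lt (Nat.sInf_le hg) hk⟩

/-- the fit child of the root -/
def V1 (x1 : ℝ) (ω : List ℕ → ℕ → Ev) : List ℕ := [firstGood x1 (ω [])]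

/-- the fitter grandchild -/
def V2 (x1 x2 : ℝ) (ω : List ℕ → ℕ → Ev) : List ℕ :=
  firstGood x2 (ω (V1 x1 ω)) :: V1 x1 ω

lemma measurableSet_V1 (x1 : ℝ) (u : List ℕ) :
    MeasurableSet {ω : List ℕ → ℕ → Ev | V1 x1 ω = u} := by
  have hm : Measurable fun ω : List ℕ → ℕ → Ev => firstGood x1 (ω []) :=
    (measurable_firstGood x1).comp (measurable_pi_apply _)
  match u with
  | [] =>
    have : {ω : List ℕ → ℕ → Ev | V1 x1 ω = []} = ∅ := by
      ext ω; simp [V1]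
    rw [this]; exact MeasurableSet.empty
  | [k] =>
    have : {ω : List ℕ → ℕ → Ev | V1 x1 ω = [k]} = (fun ω => firstGood x1 (ω [])) ⁻¹' {k} := by
      ext ω; simp [V1]
    rw [this]; exact hm (measurableSet_singleton k)
  | k :: l :: u =>
    have : {ω : List ℕ → ℕ → Ev | V1 x1 ω = k :: l :: u} = ∅ := by
      ext ω; simp [V1]
    rw [this]; exact MeasurableSet.empty

lemma measurableSet_V2 (x1 x2 : ℝ) (u : List ℕ) :
    MeasurableSet {ω : List ℕ → ℕ → Ev | V2 x1 x2 ω = u} := by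
  match u with
  | [] =>
    have : {ω : List ℕ → ℕ → Ev | V2 x1 x2 ω = []} = ∅ := by
      ext ω; simp [V2]
    rw [this]; exact MeasurableSet.empty
  | k :: v =>
    have hm : Measurable fun ω : List ℕ → ℕ → Ev => firstGood x2 (ω v) :=
      (measurable_firstGood x2).comp (measurable_pi_apply _)
    have : {ω : List ℕ → ℕ → Ev | V2 x1 x2 ω = k :: v}
        = {ω | V1 x1 ω = v} ∩ (fun ω => firstGood x2 (ω v)) ⁻¹' {k} := by
      ext ω
      simp only [V2, Set.mem_ofPred_eq, List.cons.injEq, Set.mem_inter_iff, Set.mem_preimage,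
        Set.mem_singleton_iff]
      constructor
      · rintro ⟨h1, h2⟩
        rw [h2] at h1
        exact ⟨h2, h1⟩
      · rintro ⟨h1, h2⟩
        rw [h1]
        exact ⟨h2, rfl⟩
    rw [this]
    exact (measurableSet_V1 x1 v).inter (hm (measurableSet_singleton k))

lemma V1_update {x1 : ℝ} {ω : List ℕ → ℕ → Ev} {u : List ℕ} {s : ℕ → Ev} (h : 1 ≤ u.length) :
    V1 x1 (Function.update ω u s) = V1 x1 ω := by
  unfold V1
  rw [Function.update_of_ne]
  rintro rfl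
  simp at h

lemma V2_update {x1 x2 : ℝ} {ω : List ℕ → ℕ → Ev} {u : List ℕ} {s : ℕ → Ev} (h : 2 ≤ u.length) :
    V2 x1 x2 (Function.update ω u s) = V2 x1 x2 ω := by
  unfold V2
  rw [V1_update (by omega), Function.update_of_ne]
  rintro rfl
  simp [V1] at h

lemma popSize_lower {x0 x1 x2 : ℝ} (hx0 : 0 < x0) (hx1 : 0 < x1) (hx2 : 0 < x2)
    {ω : List ℕ → ℕ → Ev} (hω : ∀ u k, 0 ≤ clock (ω u k)) {K1 K2 y : ℕ} {s1 s2 s3 t : ℝ}
    (hst : s1 + s2 + s3 ≤ t)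
    (g1 : ∃ k < K1, Good x1 (ω []) k) (a1 : age x0 (ω []) K1 ≤ s1)
    (g2 : ∃ k < K2, Good x2 (ω (V1 x1 ω)) k) (a2 : age x1 (ω (V1 x1 ω)) K2 ≤ s2)
    (g3 : ∃ k, age x2 (ω (V2 x1 x2 ω)) k ≤ s3 ∧ y < size (ω (V2 x1 x2 ω)) k) :
    (y : ℝ≥0∞) < popSize x0 ω t := by
  obtain ⟨G1, k1⟩ := firstGood_spec g1
  obtain ⟨G2, k2⟩ := firstGood_spec g2
  obtain ⟨k, a3, h3⟩ := g3
  have al1 : alive ω (V1 x1 ω) = true := by
    simp only [V1, alive_cons, alive, Bool.true_and]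
    exact G1.1
  have f1 : x1 ≤ fitn x0 ω (V1 x1 ω) := by
    simp only [V1, fitn_cons]
    exact G1.2
  have b1 : birth x0 ω (V1 x1 ω) ≤ s1 := by
    simp only [V1, birth_cons, birth, fitn, zero_add]
    exact le_trans (age_mono hx0 (hω []) (by omega)) a1
  have al2 : alive ω (V2 x1 x2 ω) = true := by
    simp only [V2, alive_cons, al1, Bool.true_and]
    exact G2.1
  have f2 : x2 ≤ fitn x0 ω (V2 x1 x2 ω) := by
    simp only [V2, fitn_cons]
    exact G2.2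
  have b2 : birth x0 ω (V2 x1 x2 ω) ≤ s1 + s2 := by
    simp only [V2, birth_cons]
    refine add_le_add b1 ?_
    refine le_trans (age_anti hx1 f1 (hω _) _) ?_
    exact le_trans (age_mono hx1 (hω _) (by omega)) a2
  have a4 : age (fitn x0 ω (V2 x1 x2 ω)) (ω (V2 x1 x2 ω)) k ≤ t - birth x0 ω (V2 x1 x2 ω) := by
    refine le_trans (age_anti hx2 f2 (hω _) _) ?_
    linarith
  have f2' : 0 < fitn x0 ω (V2 x1 x2 ω) := lt_of_lt_of_le hx2 f2
  have h5 := le_famSize f2' (hω _) a4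
  have h6 : famSize (fitn x0 ω (V2 x1 x2 ω)) (ω (V2 x1 x2 ω)) (t - birth x0 ω (V2 x1 x2 ω))
      ≤ popSize x0 ω t := by
    unfold popSize
    refine le_trans (le_of_eq ?_) (ENNReal.le_tsum (V2 x1 x2 ω))
    rw [if_pos al2]
  refine lt_of_lt_of_le ?_ (le_trans h5 h6)
  exact_mod_cast h3

theorem tree_lower {β γ : ℝ} (hβ : β ≤ 1) (hγ0 : 0 < γ) (hγ : γ ≤ 1) (h1 : 1 ≤ β + γ)
    (μ : Measure ℝ) [IsProbabilityMeasure μ] {x0 x1 x2 : ℝ} (hx0 : 0 < x0) (hx1 : 0 < x1)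
    (hx2 : 0 < x2) {K1 K2 y : ℕ} (hK1 : 1 ≤ K1) (hK2 : 1 ≤ K2) (hy : 1 ≤ y)
    {s1 s2 s3 t : ℝ} (hs1 : 0 ≤ s1) (hs2 : 0 ≤ s2) (hs3 : 0 ≤ s3) (hst : s1 + s2 + s3 ≤ t) :
    (treeLaw β γ μ) {ω | popSize x0 ω t ≤ y} ≤
      (1 - ENNReal.ofReal β * μ (Ici x1)) ^ K1
      + ENNReal.ofReal (Real.exp (-(γ * x0 * s1 / 2)) / psi K1)
      + (1 - ENNReal.ofReal β * μ (Ici x2)) ^ K2
      + ENNReal.ofReal (Real.exp (-(γ * x1 * s2 / 2)) / psi K2)
      + ENNReal.ofReal (Real.exp (-(γ * x2 * s3 / 2)) / psi y) := by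
  set N : Set (List ℕ → ℕ → Ev) := {ω | ¬ ∀ u k, 0 ≤ clock (ω u k)} with hN
  have hN0 : treeLaw β γ μ N = 0 := ae_clock_nonneg hβ hγ h1 μ
  set B1 : Set (ℕ → Ev) := {s | ¬ ∃ k < K1, Good x1 s k} with hB1
  set B2 : Set (ℕ → Ev) := {s | s1 < age x0 s K1} with hB2
  set B3 : Set (ℕ → Ev) := {s | ¬ ∃ k < K2, Good x2 s k} with hB3
  set B4 : Set (ℕ → Ev) := {s | s2 < age x1 s K2} with hB4
  set B5 : Set (ℕ → Ev) := {s | ¬ ∃ k, age x2 s k ≤ s3 ∧ y < size s k} with hB5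
  have mgood : ∀ (x : ℝ) (K : ℕ), MeasurableSet {s : ℕ → Ev | ¬ ∃ k < K, Good x s k} := by
    intro x K
    have : {s : ℕ → Ev | ¬ ∃ k < K, Good x s k} = ⋂ k ∈ Finset.range K, {s | Good x s k}ᶜ := by
      ext s; simp
    rw [this]
    exact Finset.measurableSet_biInter _ fun j _ => (measurableSet_Good x j).compl
  have mB1 : MeasurableSet B1 := mgood x1 K1
  have mB3 : MeasurableSet B3 := mgood x2 K2
  have mB2 : MeasurableSet B2 := measurableSet_lt measurable_const (measurable_age' x0 K1)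
  have mB4 : MeasurableSet B4 := measurableSet_lt measurable_const (measurable_age' x1 K2)
  have mB5 : MeasurableSet B5 := by
    have : B5 = (⋃ k, {s : ℕ → Ev | age x2 s k ≤ s3 ∧ y < size s k})ᶜ := by
      ext s; simp [hB5]
    rw [this]
    refine (MeasurableSet.iUnion fun k => ?_).compl
    exact (measurableSet_le (measurable_age' x2 k) measurable_const).inter
      (measurableSet_lt measurable_const (measurable_size k))
  have hsub : {ω | popSize x0 ω t ≤ y} ⊆ ((((({ω | ω [] ∈ B1} ∪ {ω | ω [] ∈ B2})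
      ∪ {ω | ω (V1 x1 ω) ∈ B3}) ∪ {ω | ω (V1 x1 ω) ∈ B4}) ∪ {ω | ω (V2 x1 x2 ω) ∈ B5}) ∪ N) := by
    intro ω hω
    by_contra hc
    simp only [Set.mem_union, not_or] at hc
    obtain ⟨⟨⟨⟨⟨c1, c2⟩, c3⟩, c4⟩, c5⟩, c6⟩ := hc
    have d1 : ∃ k < K1, Good x1 (ω []) k := not_not.1 c1
    have d2 : age x0 (ω []) K1 ≤ s1 := not_lt.1 c2
    have d3 : ∃ k < K2, Good x2 (ω (V1 x1 ω)) k := not_not.1 c3
    have d4 : age x1 (ω (V1 x1 ω)) K2 ≤ s2 := not_lt.1 c4
    have d5 : ∃ k, age x2 (ω (V2 x1 x2 ω)) k ≤ s3 ∧ y < size (ω (V2 x1 x2 ω)) k := not_not.1 c5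
    have d6 : ∀ u k, 0 ≤ clock (ω u k) := not_not.1 c6
    have := popSize_lower hx0 hx1 hx2 d6 hst d1 d2 d3 d4 d5
    exact absurd hω (not_le.2 this)
  have sm0 : ∀ B : Set (ℕ → Ev), MeasurableSet B → treeLaw β γ μ {ω | ω [] ∈ B}
      ≤ (Measure.infinitePi fun _ : ℕ => evLaw β γ μ) B := fun B hB =>
    strong_markov hβ hγ h1 μ 0 (fun _ => []) (fun u => MeasurableSet.const _) (fun _ => rfl)
      (fun _ _ _ _ => rfl) hB
  have sm1 : ∀ B : Set (ℕ → Ev), MeasurableSet B → treeLaw β γ μ {ω | ω (V1 x1 ω) ∈ B}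
      ≤ (Measure.infinitePi fun _ : ℕ => evLaw β γ μ) B := fun B hB =>
    strong_markov hβ hγ h1 μ 1 (V1 x1) (measurableSet_V1 x1) (fun _ => rfl)
      (fun _ _ _ h => V1_update h.ge) hB
  have sm2 : ∀ B : Set (ℕ → Ev), MeasurableSet B → treeLaw β γ μ {ω | ω (V2 x1 x2 ω) ∈ B}
      ≤ (Measure.infinitePi fun _ : ℕ => evLaw β γ μ) B := fun B hB =>
    strong_markov hβ hγ h1 μ 2 (V2 x1 x2) (measurableSet_V2 x1 x2) (fun _ => rfl)
      (fun _ _ _ h => V2_update h.ge) hB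
  refine le_trans (measure_mono hsub) ?_
  refine le_trans (measure_union_le _ _) ?_
  rw [hN0, add_zero]
  refine le_trans (measure_union_le _ _) (add_le_add ?_ ?_)
  · refine le_trans (measure_union_le _ _) (add_le_add ?_ ?_)
    · refine le_trans (measure_union_le _ _) (add_le_add ?_ ?_)
      · refine le_trans (measure_union_le _ _) (add_le_add ?_ ?_)
        · exact le_trans (sm0 B1 mB1) (not_good_meas hβ hγ h1 μ x1 K1).le
        · exact le_trans (sm0 B2 mB2) (age_tail hβ hγ0.le hγ h1 μ hx0 hs1 hK1)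
      · exact le_trans (sm1 B3 mB3) (not_good_meas hβ hγ h1 μ x2 K2).le
    · exact le_trans (sm1 B4 mB4) (age_tail hβ hγ0.le hγ h1 μ hx1 hs2 hK2)
  · exact le_trans (sm2 B5 mB5) (size_tail hβ hγ0 hγ h1 μ hx2 hs3 hy)

end Pool.Agent.RBP
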