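import Pool.Agent.H93.RBPLowFix
import Pool.Agent.H93.RBPAnalysis2

/-! # Assembly -/

open MeasureTheory ProbabilityTheory Filter Topology Set
open scoped ENNReal

noncomputable section

namespace Pool.Agent.RBP

/-- `(F0, ξ)` is the data of a reinforced branching process with parameters `β, γ, μ`: `F0` (the
fitness of the first family) has law `μ`, the event data `ξ u k` are independent with law
`evLaw β γ μ` (exponential clock, marks, fresh fitness), and they are independent of `F0`. -/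
structure IsRBP {Ω : Type*} [MeasurableSpace Ω] (P : Measure Ω) (β γ : ℝ) (μ : Measure ℝ)
    (F0 : Ω → ℝ) (ξ : List ℕ → ℕ → Ω → Ev) : Prop where
  meas0 : Measurable F0
  meas : ∀ u k, Measurable (ξ u k)
  law0 : P.map F0 = μ
  law : ∀ u k, P.map (ξ u k) = evLaw β γ μ
  indep : iIndepFun (fun p : List ℕ × ℕ => ξ p.1 p.2) P
  indep0 : IndepFun F0 (fun ω (p : List ℕ × ℕ) => ξ p.1 p.2 ω) P

/-- Population size at time `t` of the process with data `(F0, ξ)`. -/
def Npop {Ω : Type*} (F0 : Ω → ℝ) (ξ : List ℕ → ℕ → Ω → Ev) (t : ℝ) (ω : Ω) : ℝ≥0∞ :=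
  popSize (F0 ω) (fun u k => ξ u k ω) t

section

variable {Ω : Type*} [MeasurableSpace Ω] {P : Measure Ω} {β γ : ℝ} {μ : Measure ℝ}
  {F0 : Ω → ℝ} {ξ : List ℕ → ℕ → Ω → Ev}

lemma joint_law [IsProbabilityMeasure P] (hβ : β ≤ 1) (hγ : γ ≤ 1) (h1 : 1 ≤ β + γ)
    [IsProbabilityMeasure μ] (h : IsRBP P β γ μ F0 ξ) :
    P.map (fun ω => (F0 ω, fun u k => ξ u k ω)) = μ.prod (treeLaw β γ μ) := by
  have i3 := isProb_evLaw hβ hγ h1 μ
  have mξ : Measurable fun ω (p : List ℕ × ℕ) => ξ p.1 p.2 ω :=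
    measurable_pi_iff.2 fun p => h.meas p.1 p.2
  have e1 : P.map (fun ω (p : List ℕ × ℕ) => ξ p.1 p.2 ω)
      = Measure.infinitePi fun _ : List ℕ × ℕ => evLaw β γ μ := by
    have := h.indep.map_fun_eq_infinitePi_map (fun p : List ℕ × ℕ => h.meas p.1 p.2)
    rw [this]
    congr 1
    funext p
    exact h.law p.1 p.2
  have e2 : P.map (fun ω => (F0 ω, fun p : List ℕ × ℕ => ξ p.1 p.2 ω))
      = μ.prod (Measure.infinitePi fun _ : List ℕ × ℕ => evLaw β γ μ) := by
    have := (indepFun_iff_map_prod_eq_prod_map_map h.meas0.aemeasurable mξ.aemeasurable).1 h.indep0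
    rw [this, h.law0, e1]
  have e3 : (Measure.infinitePi fun _ : List ℕ × ℕ => evLaw β γ μ).map
      (MeasurableEquiv.curry (List ℕ) ℕ Ev) = treeLaw β γ μ :=
    Measure.infinitePi_map_curry (fun (_ : List ℕ) (_ : ℕ) => evLaw β γ μ)
  have e4 : (fun ω => (F0 ω, fun u k => ξ u k ω))
      = (Prod.map id (MeasurableEquiv.curry (List ℕ) ℕ Ev)) ∘
        (fun ω => (F0 ω, fun p : List ℕ × ℕ => ξ p.1 p.2 ω)) := by
    funext ω
    rfl
  rw [e4, ← Measure.map_map (by fun_prop) (h.meas0.prodMk mξ), e2,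
    ← Measure.map_prod_map _ _ measurable_id (MeasurableEquiv.measurable _), e3, Measure.map_id]

end

/-- Existence of the process (non-vacuity). -/
lemma exists_RBP {β γ : ℝ} (hβ : β ≤ 1) (hγ : γ ≤ 1) (h1 : 1 ≤ β + γ) (μ : Measure ℝ)
    [IsProbabilityMeasure μ] :
    ∃ (Ω : Type) (_ : MeasurableSpace Ω) (P : Measure Ω) (F0 : Ω → ℝ)
      (ξ : List ℕ → ℕ → Ω → Ev), IsProbabilityMeasure P ∧ IsRBP P β γ μ F0 ξ := by
  have i3 := isProb_evLaw hβ hγ h1 μ
  refine ⟨ℝ × (List ℕ × ℕ → Ev), inferInstance,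
    μ.prod (Measure.infinitePi fun _ : List ℕ × ℕ => evLaw β γ μ), Prod.fst,
    fun u k ω => ω.2 (u, k), inferInstance, ?_⟩
  have hsnd : (μ.prod (Measure.infinitePi fun _ : List ℕ × ℕ => evLaw β γ μ)).map Prod.snd
      = Measure.infinitePi fun _ : List ℕ × ℕ => evLaw β γ μ := by
    rw [Measure.map_snd_prod]; simp
  refine ⟨measurable_fst, fun u k => by fun_prop, ?_, ?_, ?_, ?_⟩
  · rw [Measure.map_fst_prod]; simp
  · intro u k
    have e : (fun ω : ℝ × (List ℕ × ℕ → Ev) => ω.2 (u, k))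
        = (fun s : List ℕ × ℕ → Ev => s (u, k)) ∘ Prod.snd := rfl
    rw [e, ← Measure.map_map (by fun_prop) measurable_snd, hsnd, Measure.infinitePi_map_eval]
  · rw [iIndepFun_iff_map_fun_eq_infinitePi_map (fun p => by fun_prop)]
    have e : (fun (ω : ℝ × (List ℕ × ℕ → Ev)) (i : List ℕ × ℕ) => ω.2 (i.1, i.2)) = Prod.snd := rfl
    rw [e, hsnd]
    congr 1
    funext p
    have e2 : (fun ω : ℝ × (List ℕ × ℕ → Ev) => ω.2 (p.1, p.2))
        = (fun s : List ℕ × ℕ → Ev => s p) ∘ Prod.snd := rfl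
    rw [e2, ← Measure.map_map (by fun_prop) measurable_snd, hsnd, Measure.infinitePi_map_eval]
  · have m2 : Measurable fun (ω : ℝ × (List ℕ × ℕ → Ev)) (p : List ℕ × ℕ) => ω.2 (p.1, p.2) := by
      fun_prop
    rw [indepFun_iff_map_prod_eq_prod_map_map measurable_fst.aemeasurable m2.aemeasurable]
    have e : (fun (ω : ℝ × (List ℕ × ℕ → Ev)) => (ω.1, fun p : List ℕ × ℕ => ω.2 (p.1, p.2)))
        = id := rfl
    have e' : (fun (ω : ℝ × (List ℕ × ℕ → Ev)) (i : List ℕ × ℕ) => ω.2 (i.1, i.2)) = Prod.snd := rfl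
    rw [e, e', hsnd, Measure.map_id, Measure.map_fst_prod]
    simp


lemma popSize_ge_one {x : ℝ} (ω : List ℕ → ℕ → Ev) {t : ℝ} (ht : 0 ≤ t) : 1 ≤ popSize x ω t := by
  unfold popSize
  refine le_trans ?_ (ENNReal.le_tsum [])
  simp [alive, birth, famSize, ht]

lemma cond_J {β γ : ℝ} {μ : Measure ℝ} [IsProbabilityMeasure μ] (hμ : μ (Ioo 0 1)ᶜ = 0)
    (hβ0 : 0 < β) (hγ0 : 0 < γ)
    (hcond : ∫⁻ x, ENNReal.ofReal (1 / (1 - x)) ∂μ < ENNReal.ofReal ((β + γ) / β)) :
    ∫⁻ x, ENNReal.ofReal (x / (1 - x)) ∂μ < ENNReal.ofReal (γ / β) := by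
  have hae : ∀ᵐ x ∂μ, x ∈ Ioo (0 : ℝ) 1 := hμ
  have e : ∫⁻ x, ENNReal.ofReal (1 / (1 - x)) ∂μ
      = 1 + ∫⁻ x, ENNReal.ofReal (x / (1 - x)) ∂μ := by
    have : ∫⁻ x, ENNReal.ofReal (1 / (1 - x)) ∂μ
        = ∫⁻ x, (1 + ENNReal.ofReal (x / (1 - x))) ∂μ := by
      refine lintegral_congr_ae ?_
      filter_upwards [hae] with x hx
      have h1 : 0 < 1 - x := by linarith [hx.2]
      rw [← ENNReal.ofReal_one, ← ENNReal.ofReal_add zero_le_one (div_nonneg hx.1.le h1.le)]
      congr 1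
      field_simp
      ring
    rw [this, lintegral_add_left measurable_const, lintegral_const, measure_univ, one_mul]
  have e2 : ENNReal.ofReal ((β + γ) / β) = 1 + ENNReal.ofReal (γ / β) := by
    rw [← ENNReal.ofReal_one, ← ENNReal.ofReal_add zero_le_one (by positivity)]
    congr 1
    field_simp
  rw [e, e2] at hcond
  exact (ENNReal.add_lt_add_iff_left ENNReal.one_ne_top).1 hcond

theorem expect_upper {β γ α : ℝ} (hβ0 : 0 < β) (hβ : β ≤ 1) (hγ0 : 0 < γ) (hγ : γ ≤ 1)
    (h1 : 1 ≤ β + γ) {μ : Measure ℝ} [IsProbabilityMeasure μ] (hμ : μ (Ioo 0 1)ᶜ = 0)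
    (hcond : ∫⁻ x, ENNReal.ofReal (1 / (1 - x)) ∂μ < ENNReal.ofReal ((β + γ) / β))
    {ℓ : ℝ → ℝ} (hℓ : SlowlyVaryingAtZero ℓ)
    (hRV : ∀ᶠ e in 𝓝[>] (0 : ℝ), tail μ e = e ^ α * ℓ e) {a : ℝ} (ha : 1 < a) (haα : a < α) :
    ∃ A : ℝ, 0 < A ∧ ∀ t : ℝ, 0 < t → ∫⁻ q, popSize q.1 q.2 t ∂(μ.prod (treeLaw β γ μ))
      ≤ ENNReal.ofReal (A * (Real.exp (γ * t) * t ^ (-a))) := by
  have i4 := isProb_treeLaw hβ hγ h1 μ
  obtain ⟨C, hC, hC'⟩ := tail_upper hℓ hRV (a := (a + α) / 2) (by linarith) (by linarith)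
  have hI := moment_finite hμ (p := a) (by linarith) (by linarith) hC hC'
  obtain ⟨A, L, hA, hL, hq⟩ := exists_super hβ0 hγ0 ha μ hμ (cond_J hμ hβ0 hγ0 hcond) hI
  refine ⟨A, hA, fun t ht => ?_⟩
  have hμ' : μ (Ioc 0 1)ᶜ = 0 :=
    measure_mono_null (compl_subset_compl.2 Ioo_subset_Ioc_self) hμ
  have mQ : Measurable fun s : ℝ => ENNReal.ofReal (A * Real.exp (γ * s) * (L + s) ^ (-a)) := by
    fun_prop
  have key := pop_expect hβ hγ0 hγ h1 μ hμ' mQ hq ht.le
  rw [lintegral_prod]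
  · refine le_trans key ?_
    apply ENNReal.ofReal_le_ofReal
    have : (L + t) ^ (-a) ≤ t ^ (-a) :=
      Real.rpow_le_rpow_of_nonpos ht (by linarith) (by linarith)
    rw [mul_assoc]
    apply mul_le_mul_of_nonneg_left _ hA.le
    exact mul_le_mul_of_nonneg_left this (Real.exp_pos _).le
  · exact (measurable_popSize.comp (measurable_id.prodMk measurable_const)).aemeasurable

section

variable {Ω : Type*} [MeasurableSpace Ω] {P : Measure Ω} {β γ : ℝ} {μ : Measure ℝ}
  {F0 : Ω → ℝ} {ξ : List ℕ → ℕ → Ω → Ev}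

lemma measurable_joint (h : IsRBP P β γ μ F0 ξ) :
    Measurable (fun ω => (F0 ω, fun u k => ξ u k ω)) := by
  refine h.meas0.prodMk ?_
  refine measurable_pi_iff.2 fun u => measurable_pi_iff.2 fun k => h.meas u k

lemma measurable_Npop (h : IsRBP P β γ μ F0 ξ) (t : ℝ) : Measurable (Npop F0 ξ t) := by
  have h2 : Measurable fun q : ℝ × (List ℕ → ℕ → Ev) => popSize q.1 q.2 t :=
    measurable_popSize.comp (measurable_id.prodMk measurable_const)
  exact h2.comp (measurable_joint h)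

/-- Main theorem: expansion in probability with `γ`. -/
theorem main_prob [IsProbabilityMeasure P] [IsProbabilityMeasure μ] {α : ℝ}
    (hβ0 : 0 < β) (hβ : β ≤ 1) (hγ0 : 0 < γ)
    (hγ : γ ≤ 1) (h1 : 1 ≤ β + γ) (hμ : μ (Ioo 0 1)ᶜ = 0)
    (hcond : ∫⁻ x, ENNReal.ofReal (1 / (1 - x)) ∂μ < ENNReal.ofReal ((β + γ) / β))
    (hα : 1 < α) {ℓ : ℝ → ℝ} (hℓ : SlowlyVaryingAtZero ℓ)
    (hRV : ∀ᶠ e in 𝓝[>] (0 : ℝ), tail μ e = e ^ α * ℓ e)
    (h : IsRBP P β γ μ F0 ξ) {ε : ℝ} (hε : 0 < ε) :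
    Tendsto (fun t : ℝ => P {ω | Npop F0 ξ t ω = ⊤ ∨
      ε < |(Real.log (Npop F0 ξ t ω).toReal - γ * t + α * Real.log t) / Real.log t|})
      atTop (𝓝 0) := by
  have i4 := isProb_treeLaw hβ hγ h1 μ
  have hμ' : μ (Ioc 0 1)ᶜ = 0 :=
    measure_mono_null (compl_subset_compl.2 Ioo_subset_Ioc_self) hμ
  -- exponent for the upper bound
  obtain ⟨a, ha1, haα, haε⟩ : ∃ a : ℝ, 1 < a ∧ a < α ∧ α - ε < a := by
    refine ⟨(max 1 (α - ε) + α) / 2, ?_, ?_, ?_⟩
    · have := le_max_left 1 (α - ε); linarith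
    · have : max 1 (α - ε) < α := max_lt hα (by linarith)
      linarith
    · have : α - ε ≤ max 1 (α - ε) := le_max_right _ _
      linarith
  obtain ⟨A, hA, hE⟩ := expect_upper hβ0 hβ hγ0 hγ h1 hμ hcond hℓ hRV ha1 haα
  set R := μ.prod (treeLaw β γ μ) with hR
  have hlaw := joint_law hβ hγ h1 h
  have mJ := measurable_joint h
  have mpop : ∀ t, Measurable fun q : ℝ × (List ℕ → ℕ → Ev) => popSize q.1 q.2 t := fun t =>
    measurable_popSize.comp (measurable_id.prodMk measurable_const)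
  set c : ℝ → ℝ := fun t => Real.exp (γ * t) * t ^ (-(α - ε)) with hc
  -- the two events
  have hbound : ∀ᶠ t : ℝ in atTop, P {ω | Npop F0 ξ t ω = ⊤ ∨
      ε < |(Real.log (Npop F0 ξ t ω).toReal - γ * t + α * Real.log t) / Real.log t|}
      ≤ ENNReal.ofReal (A * t ^ (-(a - (α - ε))))
        + ∫⁻ x0, (treeLaw β γ μ) {ω | popSize x0 ω t ≤ (⌈thr γ α ε t⌉₊ : ℝ≥0∞)} ∂μ := by
    filter_upwards [eventually_gt_atTop 1] with t ht1
    have ht0 : 0 < t := by linarith
    have hlog : 0 < Real.log t := Real.log_pos ht1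
    have hct : 0 < c t := by positivity
    set S1 : Set (ℝ × (List ℕ → ℕ → Ev)) := {q | ENNReal.ofReal (c t) ≤ popSize q.1 q.2 t} with hS1
    set S2 : Set (ℝ × (List ℕ → ℕ → Ev)) :=
      {q | popSize q.1 q.2 t ≤ (⌈thr γ α ε t⌉₊ : ℝ≥0∞)} with hS2
    have mS1 : MeasurableSet S1 := measurableSet_le measurable_const (mpop t)
    have mS2 : MeasurableSet S2 := measurableSet_le (mpop t) measurable_const
    have hsub : {ω | Npop F0 ξ t ω = ⊤ ∨
        ε < |(Real.log (Npop F0 ξ t ω).toReal - γ * t + α * Real.log t) / Real.log t|}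
        ⊆ (fun ω => (F0 ω, fun u k => ξ u k ω)) ⁻¹' (S1 ∪ S2) := by
      intro ω hω
      by_cases htop : Npop F0 ξ t ω = ⊤
      · left
        change ENNReal.ofReal (c t) ≤ Npop F0 ξ t ω
        rw [htop]; exact le_top
      have hω' : ε < |(Real.log (Npop F0 ξ t ω).toReal - γ * t + α * Real.log t) / Real.log t| :=
        hω.resolve_left htop
      rw [abs_div, abs_of_pos hlog, lt_div_iff₀ hlog] at hω'
      set Y := (Npop F0 ξ t ω).toReal with hY
      have hNY : Npop F0 ξ t ω = ENNReal.ofReal Y := (ENNReal.ofReal_toReal htop).symm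
      have hY1 : 1 ≤ Y := by
        have h2 : 1 ≤ Npop F0 ξ t ω := popSize_ge_one _ ht0.le
        rw [hNY, ← ENNReal.ofReal_one] at h2
        rwa [ENNReal.ofReal_le_ofReal_iff (by positivity)] at h2
      have hY0 : 0 < Y := by linarith
      rcases lt_abs.1 hω' with h3 | h3
      · left
        change ENNReal.ofReal (c t) ≤ Npop F0 ξ t ω
        rw [hNY]
        apply ENNReal.ofReal_le_ofReal
        have h4 : Real.log (c t) = γ * t - (α - ε) * Real.log t := by
          rw [hc]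
          simp only
          rw [Real.log_mul (Real.exp_pos _).ne' (by positivity), Real.log_exp,
            Real.log_rpow ht0]
          ring
        have h5 : Real.log (c t) < Real.log Y := by
          rw [h4]; nlinarith
        exact ((Real.log_lt_log_iff hct hY0).1 h5).le
      · right
        change Npop F0 ξ t ω ≤ (⌈thr γ α ε t⌉₊ : ℝ≥0∞)
        have hthr : 0 < thr γ α ε t := by unfold thr; positivity
        have h4 : Real.log (thr γ α ε t) = γ * t - (α + ε) * Real.log t := by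
          unfold thr
          rw [Real.log_mul (Real.exp_pos _).ne' (by positivity), Real.log_exp,
            Real.log_rpow ht0]
          ring
        have h5 : Real.log Y < Real.log (thr γ α ε t) := by
          rw [h4]; nlinarith
        have h6 : Y < thr γ α ε t := (Real.log_lt_log_iff hY0 hthr).1 h5
        rw [hNY]
        have h7 : Y ≤ (⌈thr γ α ε t⌉₊ : ℝ) := le_trans h6.le (Nat.le_ceil _)
        calc ENNReal.ofReal Y ≤ ENNReal.ofReal ((⌈thr γ α ε t⌉₊ : ℕ) : ℝ) :=
              ENNReal.ofReal_le_ofReal h7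
          _ = _ := ENNReal.ofReal_natCast _
    refine le_trans (measure_mono hsub) ?_
    rw [← Measure.map_apply mJ (mS1.union mS2), hlaw]
    refine le_trans (measure_union_le _ _) (add_le_add ?_ ?_)
    · have hm := meas_ge_le_lintegral_div (μ := R) (mpop t).aemeasurable
        (ε := ENNReal.ofReal (c t)) (by simpa using hct) ENNReal.ofReal_ne_top
      refine le_trans hm ?_
      refine le_trans (ENNReal.div_le_div_right (hE t ht0) _) ?_
      rw [← ENNReal.ofReal_div_of_pos hct]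
      apply ENNReal.ofReal_le_ofReal
      apply le_of_eq
      rw [hc]
      simp only
      have e5 : t ^ (-a) = t ^ (-(a - (α - ε))) * t ^ (-(α - ε)) := by
        rw [← Real.rpow_add ht0]; congr 1; ring
      rw [e5]
      have h8 : t ^ (-(α - ε)) ≠ 0 := by positivity
      have h9 : Real.exp (γ * t) ≠ 0 := (Real.exp_pos _).ne'
      field_simp
    · rw [Measure.prod_apply mS2]
      rfl
  have lim1 : Tendsto (fun t : ℝ => ENNReal.ofReal (A * t ^ (-(a - (α - ε))))) atTop (𝓝 0) :=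
    tendsto_ofReal_rpow_neg (by linarith) A
  have lim2 : Tendsto (fun t : ℝ => ∫⁻ x0, (treeLaw β γ μ)
      {ω | popSize x0 ω t ≤ (⌈thr γ α ε t⌉₊ : ℝ≥0∞)} ∂μ) atTop (𝓝 0) := by
    have := tendsto_lintegral_filter_of_dominated_convergence (μ := μ) (l := atTop)
      (F := fun (t : ℝ) (x0 : ℝ) => (treeLaw β γ μ)
        {ω | popSize x0 ω t ≤ (⌈thr γ α ε t⌉₊ : ℝ≥0∞)}) (f := fun _ => 0) (bound := fun _ => 1)
      ?_ ?_ ?_ ?_
    · simpa using this
    · refine Eventually.of_forall fun t => ?_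
      have mS2 : MeasurableSet {q : ℝ × (List ℕ → ℕ → Ev) |
          popSize q.1 q.2 t ≤ (⌈thr γ α ε t⌉₊ : ℝ≥0∞)} :=
        measurableSet_le (mpop t) measurable_const
      exact measurable_measure_prodMk_left mS2
    · exact Eventually.of_forall fun t => Eventually.of_forall fun x0 => prob_le_one
    · simp
    · have hae : ∀ᵐ x ∂μ, x ∈ Ioc (0 : ℝ) 1 := hμ'
      filter_upwards [hae] with x0 hx0
      exact lower_fixed hβ0 hβ hγ0 hγ h1 μ (by linarith) hε hℓ hRV hx0.1
  have lim := lim1.add lim2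
  rw [add_zero] at lim
  exact tendsto_of_tendsto_of_tendsto_of_le_of_le' tendsto_const_nhds lim
    (Eventually.of_forall fun t => zero_le) hbound

/-- Identification of the almost sure growth rate. -/
theorem growth_rate [IsProbabilityMeasure P] [IsProbabilityMeasure μ] {α : ℝ}
    (hβ0 : 0 < β) (hβ : β ≤ 1) (hγ0 : 0 < γ)
    (hγ : γ ≤ 1) (h1 : 1 ≤ β + γ) (hμ : μ (Ioo 0 1)ᶜ = 0)
    (hcond : ∫⁻ x, ENNReal.ofReal (1 / (1 - x)) ∂μ < ENNReal.ofReal ((β + γ) / β))
    (hα : 1 < α) {ℓ : ℝ → ℝ} (hℓ : SlowlyVaryingAtZero ℓ)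
    (hRV : ∀ᶠ e in 𝓝[>] (0 : ℝ), tail μ e = e ^ α * ℓ e)
    (h : IsRBP P β γ μ F0 ξ) {lam : ℝ}
    (hlam : ∀ᵐ ω ∂P, Tendsto (fun t : ℝ => Real.log (Npop F0 ξ t ω).toReal / t) atTop (𝓝 lam)) :
    lam = γ := by
  set f : ℕ → Ω → ℝ := fun n ω => Real.log (Npop F0 ξ n ω).toReal / n with hf
  have mf : ∀ n, Measurable (f n) := by
    intro n
    have := measurable_Npop h (n : ℝ)
    rw [hf]
    fun_prop
  have t1 : TendstoInMeasure P f atTop (fun _ => lam) := by
    refine tendstoInMeasure_of_tendsto_ae (fun n => (mf n).aestronglyMeasurable) ?_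
    filter_upwards [hlam] with ω hω
    exact hω.comp tendsto_natCast_atTop_atTop
  have t2 : TendstoInMeasure P f atTop (fun _ => γ) := by
    intro δ hδ
    by_cases hδt : δ = ⊤
    · refine tendsto_const_nhds.congr' ?_
      refine Eventually.of_forall fun n => ?_
      symm
      rw [hδt]
      have : {x | ⊤ ≤ edist (f n x) γ} = ∅ := by
        ext x
        simp only [Set.mem_ofPred_eq, Set.mem_empty_iff_false, iff_false, not_le]
        exact edist_lt_top _ _
      simp only [this, measure_empty]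
    set d := δ.toReal with hd
    have hd0 : 0 < d := ENNReal.toReal_pos hδ.ne' hδt
    have hmain := (main_prob hβ0 hβ hγ0 hγ h1 hμ hcond hα hℓ hRV h (ε := 1) one_pos).comp
      tendsto_natCast_atTop_atTop (α := ℕ)
    refine tendsto_of_tendsto_of_tendsto_of_le_of_le' tendsto_const_nhds hmain
      (Eventually.of_forall fun n => zero_le) ?_
    have ev : ∀ᶠ n : ℕ in atTop, (α + 1) * Real.log n < d * n := by
      have hlo := Real.isLittleO_log_id_atTop.bound (c := d / (2 * (α + 1))) (by positivity)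
      have hlo2 : ∀ᶠ t : ℝ in atTop, (α + 1) * Real.log t < d * t := by
        filter_upwards [hlo, eventually_gt_atTop 1] with t ht ht1
        have hlog : 0 < Real.log t := Real.log_pos ht1
        rw [Real.norm_of_nonneg hlog.le, id, Real.norm_of_nonneg (by linarith)] at ht
        have h9 : (α + 1) * Real.log t ≤ (α + 1) * (d / (2 * (α + 1)) * t) :=
          mul_le_mul_of_nonneg_left ht (by linarith)
        have h10 : (α + 1) * (d / (2 * (α + 1)) * t) = d * t / 2 := by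
          have : α + 1 ≠ 0 := by linarith
          field_simp
        have h11 : 0 < d * t := by positivity
        linarith
      exact tendsto_natCast_atTop_atTop.eventually hlo2
    filter_upwards [ev, eventually_gt_atTop 1] with n hn hn1
    refine measure_mono fun ω hω => ?_
    right
    have hn0 : (1 : ℝ) < n := by exact_mod_cast hn1
    have hlog : 0 < Real.log n := Real.log_pos hn0
    have h2 : d ≤ |f n ω - γ| := by
      have : δ ≤ edist (f n ω) γ := hω
      rw [edist_dist, ← ENNReal.ofReal_toReal hδt, ENNReal.ofReal_le_ofReal_iff dist_nonneg] at this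
      exact this
    rw [abs_div, abs_of_pos hlog, lt_div_iff₀ hlog, one_mul]
    have h3 : Real.log (Npop F0 ξ n ω).toReal - γ * n = n * (f n ω - γ) := by
      rw [hf]; field_simp
    have h4 : (n : ℝ) * d ≤ |Real.log (Npop F0 ξ n ω).toReal - γ * n| := by
      rw [h3, abs_mul, abs_of_pos (by linarith : (0 : ℝ) < n)]
      exact mul_le_mul_of_nonneg_left h2 (by linarith)
    have h5 : |Real.log (Npop F0 ξ n ω).toReal - γ * n| - |α * Real.log n|
        ≤ |Real.log (Npop F0 ξ n ω).toReal - γ * n + α * Real.log n| := by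
      have := abs_sub_abs_le_abs_sub (Real.log (Npop F0 ξ n ω).toReal - γ * n) (-(α * Real.log n))
      rw [abs_neg, sub_neg_eq_add] at this
      exact this
    have h6 : |α * Real.log n| = α * Real.log n := abs_of_pos (by positivity)
    rw [h6] at h5
    linarith
  have := tendstoInMeasure_ae_unique t1 t2
  obtain ⟨ω, hω⟩ := this.exists
  exact hω

end

end Pool.Agent.RBP
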