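import Mathlib

/-!
# Reinforced branching process: the model (Ulam-Harris construction)

Families are indexed by words `u : List ℕ` (the family `k :: u` is the one founded, if at all, at
the `k`-th birth event of the family `u`).  Each birth event `(u, k)` carries a clock, two marks
(`found`, `add`) and the fitness of the family founded at this event.
-/

open MeasureTheory ProbabilityTheory Filter Topology Set
open scoped ENNReal

noncomputable section

namespace Pool.Agent.RBP

/-- Data of one birth event: the clock, the marks (found, add), the fitness of the new family. -/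
abbrev Ev : Type := ℝ × (Bool × Bool) × ℝ

/-- exponential clock of the event -/
def clock (e : Ev) : ℝ := e.1
/-- does the event found a new family? -/
def found (e : Ev) : Bool := e.2.1.1
/-- does the event add one individual to its own family? -/
def add (e : Ev) : Bool := e.2.1.2
/-- fitness of the family founded at this event (if any) -/
def fit (e : Ev) : ℝ := e.2.2

/-- Law of the marks (found, add): both with probability `β + γ - 1`, only `found` with
probability `1 - γ`, only `add` with probability `1 - β`. -/
def markLaw (β γ : ℝ) : Measure (Bool × Bool) :=
  ENNReal.ofReal (β + γ - 1) • Measure.dirac (true, true)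
    + ENNReal.ofReal (1 - γ) • Measure.dirac (true, false)
    + ENNReal.ofReal (1 - β) • Measure.dirac (false, true)

/-- Law of the data of one birth event. -/
def evLaw (β γ : ℝ) (μ : Measure ℝ) : Measure Ev :=
  (expMeasure 1).prod ((markLaw β γ).prod μ)

/-- Size of a family with event data `s` just before its `k`-th birth event. -/
def size (s : ℕ → Ev) : ℕ → ℕ
  | 0 => 1
  | k + 1 => size s k + (if add (s k) then 1 else 0)

/-- `age x s k` is the age of a family of fitness `x` at which its first `k` birth events
have taken place: the waiting time for the next event is exponential of rate (fitness) × (size). -/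
def age (x : ℝ) (s : ℕ → Ev) (k : ℕ) : ℝ :=
  ∑ j ∈ Finset.range k, clock (s j) / (x * size s j)

/-- Fitness of the family `u`; the root family has fitness `x`. -/
def fitn (x : ℝ) (ω : List ℕ → ℕ → Ev) : List ℕ → ℝ
  | [] => x
  | k :: u => fit (ω u k)

/-- Time at which the family `u` is founded. -/
def birth (x : ℝ) (ω : List ℕ → ℕ → Ev) : List ℕ → ℝ
  | [] => 0
  | k :: u => birth x ω u + age (fitn x ω u) (ω u) (k + 1)

/-- Is the family `u` really founded? -/
def alive (ω : List ℕ → ℕ → Ev) : List ℕ → Bool
  | [] => true
  | k :: u => alive ω u && found (ω u k)

/-- Number of individuals, `r` units of time after its foundation, of a family of fitness `x`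
with event data `s` (`0` if `r < 0`). -/
def famSize (x : ℝ) (s : ℕ → Ev) (r : ℝ) : ℝ≥0∞ :=
  if 0 ≤ r then 1 + ∑' k : ℕ, (if add (s k) ∧ age x s (k + 1) ≤ r then 1 else 0) else 0

/-- Population size at time `t`. -/
def popSize (x : ℝ) (ω : List ℕ → ℕ → Ev) (t : ℝ) : ℝ≥0∞ :=
  ∑' u : List ℕ, if alive ω u then famSize (fitn x ω u) (ω u) (t - birth x ω u) else 0

/-! ### Measurability -/

@[fun_prop] lemma measurable_clock : Measurable clock := measurable_fst
@[fun_prop] lemma measurable_found : Measurable found := by unfold found; fun_prop
@[fun_prop] lemma measurable_add : Measurable add := by unfold add; fun_prop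
@[fun_prop] lemma measurable_fit : Measurable fit := by unfold fit; fun_prop

lemma size_pos (s : ℕ → Ev) (k : ℕ) : 1 ≤ size s k := by
  induction k with
  | zero => simp [size]
  | succ k ih => simp only [size]; omega

lemma size_le (s : ℕ → Ev) (k : ℕ) : size s k ≤ k + 1 := by
  induction k with
  | zero => simp [size]
  | succ k ih => simp only [size]; split_ifs <;> omega

lemma size_mono (s : ℕ → Ev) : Monotone (size s) :=
  monotone_nat_of_le_succ fun k => by simp [size]

lemma size_congr {s s' : ℕ → Ev} {k : ℕ} (h : ∀ j < k, s j = s' j) : size s k = size s' k := by
  induction k with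
  | zero => rfl
  | succ k ih =>
    simp only [size]
    rw [ih fun j hj => h j (by omega), h k (by omega)]

lemma age_congr {x : ℝ} {s s' : ℕ → Ev} {k : ℕ} (h : ∀ j < k, s j = s' j) :
    age x s k = age x s' k := by
  unfold age
  refine Finset.sum_congr rfl fun j hj => ?_
  have hj' := Finset.mem_range.1 hj
  rw [h j hj', size_congr fun i hi => h i (by omega)]

lemma age_zero (x : ℝ) (s : ℕ → Ev) : age x s 0 = 0 := by simp [age]

lemma age_succ (x : ℝ) (s : ℕ → Ev) (k : ℕ) :
    age x s (k + 1) = age x s k + clock (s k) / (x * size s k) := by
  simp [age, Finset.sum_range_succ]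

lemma measurable_size (k : ℕ) : Measurable fun s : ℕ → Ev => size s k := by
  induction k with
  | zero => exact measurable_const
  | succ k ih =>
    simp only [size]
    refine ih.add (Measurable.ite ?_ measurable_const measurable_const)
    exact (measurable_add.comp (measurable_pi_apply k)) (measurableSet_singleton true)

lemma measurable_age (k : ℕ) : Measurable fun p : ℝ × (ℕ → Ev) => age p.1 p.2 k := by
  unfold age
  refine Finset.measurable_sum _ fun j _ => ?_
  refine Measurable.div ?_ ?_
  · exact measurable_clock.comp ((measurable_pi_apply j).comp measurable_snd)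
  · refine measurable_fst.mul ?_
    exact measurable_from_top.comp ((measurable_size j).comp measurable_snd)

end Pool.Agent.RBP
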