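import Pool.Agent.H93.RBPFamily2

/-! # The tree: measurability, resampling, expectation -/

open MeasureTheory ProbabilityTheory Filter Topology Set
open scoped ENNReal

noncomputable section

namespace Pool.Agent.RBP

/-- law of the whole tree of event data -/
abbrev treeLaw (β γ : ℝ) (μ : Measure ℝ) : Measure (List ℕ → ℕ → Ev) :=
  Measure.infinitePi fun _ : List ℕ => Measure.infinitePi fun _ : ℕ => evLaw β γ μ

lemma measurable_fitn (u : List ℕ) :
    Measurable fun p : ℝ × (List ℕ → ℕ → Ev) => fitn p.1 p.2 u := by
  cases u with
  | nil => exact measurable_fst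
  | cons k u => simp only [fitn]; fun_prop

lemma measurable_birth (u : List ℕ) :
    Measurable fun p : ℝ × (List ℕ → ℕ → Ev) => birth p.1 p.2 u := by
  induction u with
  | nil => exact measurable_const
  | cons k u ih =>
    simp only [birth]
    refine ih.add ?_
    have h : Measurable fun p : ℝ × (List ℕ → ℕ → Ev) => (fitn p.1 p.2 u, p.2 u) :=
      (measurable_fitn u).prodMk (by fun_prop)
    exact (measurable_age (k + 1)).comp h

lemma measurable_alive (u : List ℕ) :
    Measurable fun ω : List ℕ → ℕ → Ev => alive ω u := by
  induction u with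
  | nil => exact measurable_const
  | cons k u ih =>
    simp only [alive]
    have h1 : Measurable fun p : Bool × Bool => (p.1 && p.2) := measurable_of_countable _
    have h2 : Measurable fun ω : List ℕ → ℕ → Ev => (alive ω u, found (ω u k)) :=
      ih.prodMk (by fun_prop)
    exact h1.comp h2

lemma measurableSet_alive (u : List ℕ) :
    MeasurableSet {ω : List ℕ → ℕ → Ev | alive ω u = true} :=
  measurable_alive u (measurableSet_singleton true)

lemma fitn_update {x : ℝ} {ω : List ℕ → ℕ → Ev} {u v : List ℕ} {s : ℕ → Ev}
    (h : v.length ≤ u.length) : fitn x (Function.update ω u s) v = fitn x ω v := by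
  cases v with
  | nil => rfl
  | cons k v =>
    simp only [fitn]
    rw [Function.update_of_ne]
    rintro rfl
    simp at h

lemma birth_update {x : ℝ} {ω : List ℕ → ℕ → Ev} {u v : List ℕ} {s : ℕ → Ev}
    (h : v.length ≤ u.length) : birth x (Function.update ω u s) v = birth x ω v := by
  induction v with
  | nil => rfl
  | cons k v ih =>
    simp only [birth]
    have hl : v.length < u.length := by simpa using h
    rw [ih hl.le, fitn_update hl.le, Function.update_of_ne]
    rintro rfl
    exact absurd hl (lt_irrefl _)

lemma alive_update {ω : List ℕ → ℕ → Ev} {u v : List ℕ} {s : ℕ → Ev}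
    (h : v.length ≤ u.length) : alive (Function.update ω u s) v = alive ω v := by
  induction v with
  | nil => rfl
  | cons k v ih =>
    simp only [alive]
    have hl : v.length < u.length := by simpa using h
    rw [ih hl.le, Function.update_of_ne]
    rintro rfl
    exact absurd hl (lt_irrefl _)

lemma tsum_list (f : List ℕ → ℝ≥0∞) :
    ∑' w, f w = f [] + ∑' u : List ℕ, ∑' k : ℕ, f (k :: u) := by
  classical
  rw [ENNReal.tsum_eq_add_tsum_ite []]
  congr 1
  have hinj : Function.Injective fun p : List ℕ × ℕ => p.2 :: p.1 := by
    rintro ⟨u, k⟩ ⟨v, l⟩ h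
    simp only [List.cons.injEq] at h
    simp [h.1, h.2]
  rw [← hinj.tsum_eq]
  · rw [← ENNReal.tsum_prod]
    refine tsum_congr fun p => ?_
    simp
  · intro w hw
    cases w with
    | nil => simp at hw
    | cons k u => exact ⟨(u, k), rfl⟩

/-- Combinatorial supersolution lemma on words. -/
lemma tsum_words_le (a b : List ℕ → ℝ≥0∞) (h : ∀ u, a u + ∑' k : ℕ, b (k :: u) ≤ b u) :
    ∑' u, a u ≤ b [] := by
  have key : ∀ n : ℕ, ∑' u : List ℕ, (if u.length < n then a u else 0)
      + ∑' u : List ℕ, (if u.length = n then b u else 0) ≤ b [] := by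
    intro n
    induction n with
    | zero =>
      simp only [not_lt_zero, if_false, tsum_zero, zero_add]
      rw [tsum_list]
      simp
    | succ n ih =>
      refine le_trans ?_ ih
      have e1 : ∀ u : List ℕ, (if u.length < n + 1 then a u else 0)
          = (if u.length < n then a u else 0) + (if u.length = n then a u else 0) := by
        intro u
        rcases lt_trichotomy u.length n with h1 | h1 | h1
        · rw [if_pos (by omega), if_pos h1, if_neg (by omega), add_zero]
        · rw [if_pos (by omega), if_neg (by omega), if_pos h1, zero_add]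
        · rw [if_neg (by omega), if_neg (by omega), if_neg (by omega), add_zero]
      simp_rw [e1]
      rw [ENNReal.tsum_add, add_assoc]
      refine add_le_add_right ?_ _
      rw [tsum_list (fun u : List ℕ => if u.length = n + 1 then b u else 0)]
      simp only [List.length_nil, List.length_cons, Nat.add_right_cancel_iff]
      rw [if_neg (by omega), zero_add, ← ENNReal.tsum_add]
      refine ENNReal.tsum_le_tsum fun u => ?_
      by_cases hu : u.length = n
      · simp only [hu, if_true]; exact h u
      · simp [hu]
  rw [ENNReal.tsum_eq_iSup_sum]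
  refine iSup_le fun F => ?_
  obtain ⟨n, hn⟩ : ∃ n, ∀ u ∈ F, u.length < n := by
    refine ⟨F.sup List.length + 1, fun u hu => ?_⟩
    exact Nat.lt_succ_of_le (Finset.le_sup (f := List.length) hu)
  refine le_trans ?_ (le_trans (le_add_right le_rfl) (key n))
  refine le_trans (le_of_eq ?_) (ENNReal.sum_le_tsum F)
  refine Finset.sum_congr rfl fun u hu => ?_
  rw [if_pos (hn u hu)]

end Pool.Agent.RBP
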