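import Pool.Agent.H93.RBPTree

/-! # Tree level: upper bound for the expectation -/

open MeasureTheory ProbabilityTheory Filter Topology Set
open scoped ENNReal

noncomputable section

namespace Pool.Agent.RBP

lemma fitn_cons (x : ℝ) (ω : List ℕ → ℕ → Ev) (k : ℕ) (u : List ℕ) :
    fitn x ω (k :: u) = fit (ω u k) := rfl

lemma birth_cons (x : ℝ) (ω : List ℕ → ℕ → Ev) (k : ℕ) (u : List ℕ) :
    birth x ω (k :: u) = birth x ω u + age (fitn x ω u) (ω u) (k + 1) := rfl

lemma alive_cons (ω : List ℕ → ℕ → Ev) (k : ℕ) (u : List ℕ) :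
    alive ω (k :: u) = (alive ω u && found (ω u k)) := rfl

lemma isProb_treeLaw {β γ : ℝ} (hβ : β ≤ 1) (hγ : γ ≤ 1) (h : 1 ≤ β + γ) (μ : Measure ℝ)
    [IsProbabilityMeasure μ] : IsProbabilityMeasure (treeLaw β γ μ) := by
  have := isProb_evLaw hβ hγ h μ
  infer_instance

lemma map_fit_evLaw {β γ : ℝ} (hβ : β ≤ 1) (hγ : γ ≤ 1) (h : 1 ≤ β + γ) (μ : Measure ℝ)
    [IsProbabilityMeasure μ] : (evLaw β γ μ).map fit = μ := by
  have i1 := isProb_markLaw hβ hγ h
  have i2 := isProbabilityMeasure_expMeasure (r := 1) one_pos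
  have e : fit = Prod.snd ∘ (Prod.snd : Ev → (Bool × Bool) × ℝ) := rfl
  rw [e, ← Measure.map_map measurable_snd measurable_snd]
  unfold evLaw
  rw [Measure.map_snd_prod]
  simp [Measure.map_snd_prod]

lemma map_eval_treeLaw {β γ : ℝ} (hβ : β ≤ 1) (hγ : γ ≤ 1) (h : 1 ≤ β + γ) (μ : Measure ℝ)
    [IsProbabilityMeasure μ] (v : List ℕ) (k : ℕ) :
    (treeLaw β γ μ).map (fun ω => ω v k) = evLaw β γ μ := by
  have i3 := isProb_evLaw hβ hγ h μ
  have e : (fun ω : List ℕ → ℕ → Ev => ω v k) = (fun s : ℕ → Ev => s k) ∘ (fun ω => ω v) := rfl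
  rw [e, ← Measure.map_map (by fun_prop) (by fun_prop)]
  unfold treeLaw
  rw [Measure.infinitePi_map_eval, Measure.infinitePi_map_eval]

lemma ae_fitn {β γ : ℝ} (hβ : β ≤ 1) (hγ : γ ≤ 1) (h : 1 ≤ β + γ) (μ : Measure ℝ)
    [IsProbabilityMeasure μ] {A : Set ℝ} (hA : MeasurableSet A) (hμ : μ Aᶜ = 0)
    {x : ℝ} (hx : x ∈ A) (u : List ℕ) :
    ∀ᵐ ω ∂(treeLaw β γ μ), fitn x ω u ∈ A := by
  cases u with
  | nil => exact Eventually.of_forall fun ω => hx
  | cons k v =>
    simp only [fitn]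
    have e1 : ∀ᵐ y ∂(evLaw β γ μ), fit y ∈ A := by
      have : ∀ᵐ z ∂((evLaw β γ μ).map fit), z ∈ A := by
        rw [map_fit_evLaw hβ hγ h μ]
        exact hμ
      exact ae_of_ae_map measurable_fit.aemeasurable this
    have e2 : ∀ᵐ y ∂((treeLaw β γ μ).map (fun ω => ω v k)), fit y ∈ A := by
      rw [map_eval_treeLaw hβ hγ h μ]; exact e1
    exact ae_of_ae_map (f := fun ω : List ℕ → ℕ → Ev => ω v k)
      (Measurable.aemeasurable (by fun_prop)) e2

lemma lintegral_mark_found {β γ : ℝ} (hβ : β ≤ 1) (hγ : γ ≤ 1) (h : 1 ≤ β + γ) (μ : Measure ℝ)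
    [IsProbabilityMeasure μ] {φ : ℝ → ℝ≥0∞} (hφ : Measurable φ) :
    ∫⁻ p : (Bool × Bool) × ℝ, (if p.1.1 = true then φ p.2 else 0) ∂((markLaw β γ).prod μ)
      = ENNReal.ofReal β * ∫⁻ x, φ x ∂μ := by
  have i1 := isProb_markLaw hβ hγ h
  rw [lintegral_prod]
  · have e : ∀ m : Bool × Bool, ∫⁻ y : ℝ, (if ((m, y) : (Bool × Bool) × ℝ).1.1 = true
        then φ ((m, y) : (Bool × Bool) × ℝ).2 else 0) ∂μ
        = if m.1 = true then ∫⁻ x, φ x ∂μ else 0 := by
      intro m
      by_cases hm : m.1 = true <;> simp [hm]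
    simp_rw [e]
    rw [lintegral_markLaw]
    simp only [if_true, Bool.false_eq_true, if_false, mul_zero, add_zero]
    have : ENNReal.ofReal β = ENNReal.ofReal (β + γ - 1) + ENNReal.ofReal (1 - γ) := by
      rw [← ENNReal.ofReal_add (by linarith) (by linarith)]; ring_nf
    rw [this]; ring
  · refine Measurable.aemeasurable (Measurable.ite ?_ (by fun_prop) measurable_const)
    have : Measurable fun p : (Bool × Bool) × ℝ => p.1.1 := by fun_prop
    exact this (measurableSet_singleton true)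

theorem tree_upper {β γ : ℝ} (hβ : β ≤ 1) (hγ0 : 0 < γ) (hγ : γ ≤ 1) (h1 : 1 ≤ β + γ)
    (μ : Measure ℝ) [IsProbabilityMeasure μ] (hμ : μ (Ioc 0 1)ᶜ = 0)
    (H G : ℝ → ℝ → ℝ≥0∞) (hH : Measurable fun p : ℝ × ℝ => H p.1 p.2)
    (hG : Measurable fun p : ℝ × ℝ => G p.1 p.2)
    (h : ∀ x, 0 < x → x ≤ 1 → ∀ τ,
      H x τ + W γ x (fun r => ENNReal.ofReal β * ∫⁻ x', G x' (τ + r) ∂μ) 0 ≤ G x τ)
    {x0 : ℝ} (hx0 : 0 < x0) (hx01 : x0 ≤ 1) :
    ∑' u, ∫⁻ ω, (if alive ω u = true then H (fitn x0 ω u) (birth x0 ω u) else 0)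
      ∂(treeLaw β γ μ) ≤ G x0 0 := by
  have i3 := isProb_evLaw hβ hγ h1 μ
  have i4 := isProb_treeLaw hβ hγ h1 μ
  set Q := treeLaw β γ μ with hQ
  have mfit : ∀ u, Measurable fun ω : List ℕ → ℕ → Ev => fitn x0 ω u := fun u =>
    (measurable_fitn u).comp (measurable_const.prodMk measurable_id)
  have mbirth : ∀ u, Measurable fun ω : List ℕ → ℕ → Ev => birth x0 ω u := fun u =>
    (measurable_birth u).comp (measurable_const.prodMk measurable_id)
  have ma : ∀ u, Measurable fun ω : List ℕ → ℕ → Ev =>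
      (if alive ω u = true then H (fitn x0 ω u) (birth x0 ω u) else 0) := fun u =>
    Measurable.ite (measurableSet_alive u) (hH.comp ((mfit u).prodMk (mbirth u))) measurable_const
  have mb : ∀ u, Measurable fun ω : List ℕ → ℕ → Ev =>
      (if alive ω u = true then G (fitn x0 ω u) (birth x0 ω u) else 0) := fun u =>
    Measurable.ite (measurableSet_alive u) (hG.comp ((mfit u).prodMk (mbirth u))) measurable_const
  have key := tsum_words_le
    (fun u => ∫⁻ ω, (if alive ω u = true then H (fitn x0 ω u) (birth x0 ω u) else 0) ∂Q)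
    (fun u => ∫⁻ ω, (if alive ω u = true then G (fitn x0 ω u) (birth x0 ω u) else 0) ∂Q) ?_
  · refine le_trans key (le_of_eq ?_)
    simp [alive, fitn, birth]
  intro u
  have e1 : ∀ k : ℕ, ∫⁻ ω, (if alive ω (k :: u) = true then
        G (fitn x0 ω (k :: u)) (birth x0 ω (k :: u)) else 0) ∂Q
      = ∫⁻ ω, ∫⁻ s, (if alive ω u = true ∧ found (s k) = true then
        G (fit (s k)) (birth x0 ω u + age (fitn x0 ω u) s (k + 1)) else 0)
          ∂(Measure.infinitePi fun _ : ℕ => evLaw β γ μ) ∂Q := by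
    intro k
    rw [hQ, treeLaw, lintegral_resample (fun _ : List ℕ => Measure.infinitePi fun _ : ℕ =>
      evLaw β γ μ) u (mb (k :: u))]
    refine lintegral_congr fun ω => lintegral_congr fun s => ?_
    simp only [alive_cons, fitn_cons, birth_cons, alive_update le_rfl, birth_update le_rfl,
      fitn_update le_rfl, Function.update_self, Bool.and_eq_true]
  simp_rw [e1]
  have minner : ∀ k : ℕ, Measurable fun q : (List ℕ → ℕ → Ev) × (ℕ → Ev) =>
      (if alive q.1 u = true ∧ found (q.2 k) = true then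
        G (fit (q.2 k)) (birth x0 q.1 u + age (fitn x0 q.1 u) q.2 (k + 1)) else 0) := by
    intro k
    refine Measurable.ite ?_ (hG.comp (Measurable.prodMk (by fun_prop) ?_)) measurable_const
    · refine MeasurableSet.inter (measurable_fst (measurableSet_alive u)) ?_
      have : Measurable fun q : (List ℕ → ℕ → Ev) × (ℕ → Ev) => found (q.2 k) := by fun_prop
      exact this (measurableSet_singleton true)
    · refine ((mbirth u).comp measurable_fst).add ?_
      exact (measurable_age (k + 1)).comp (((mfit u).comp measurable_fst).prodMk measurable_snd)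
  rw [← lintegral_tsum fun k => ((minner k).lintegral_prod_right').aemeasurable,
    ← lintegral_add_left (ma u)]
  refine lintegral_mono_ae ?_
  filter_upwards [ae_fitn hβ hγ h1 μ measurableSet_Ioc hμ ⟨hx0, hx01⟩ u] with ω hω
  by_cases hal : alive ω u = true
  swap
  · simp [hal]
  simp only [hal, if_true, true_and]
  refine le_trans ?_ (h _ hω.1 hω.2 _)
  refine add_le_add_right ?_ _
  have mg : Measurable fun q : ((Bool × Bool) × ℝ) × ℝ =>
      (if q.1.1.1 = true then G q.1.2 (birth x0 ω u + q.2) else 0) := by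
    refine Measurable.ite ?_ (hG.comp (Measurable.prodMk (by fun_prop) (by fun_prop)))
      measurable_const
    have : Measurable fun q : ((Bool × Bool) × ℝ) × ℝ => q.1.1.1 := by fun_prop
    exact this (measurableSet_singleton true)
  have := family_upper hβ hγ0.le hγ h1 μ hω.1
    (g := fun p r => if p.1.1 = true then G p.2 (birth x0 ω u + r) else 0) mg
  refine le_trans this (le_of_eq ?_)
  congr 1
  funext r
  exact lintegral_mark_found hβ hγ h1 μ (φ := fun x' => G x' (birth x0 ω u + r))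
    (hG.comp (measurable_id.prodMk measurable_const))

lemma measurable_popSize : Measurable fun p : (ℝ × (List ℕ → ℕ → Ev)) × ℝ =>
    popSize p.1.1 p.1.2 p.2 := by
  unfold popSize
  refine Measurable.ennreal_tsum fun u => ?_
  refine Measurable.ite ((measurable_snd.comp measurable_fst) (measurableSet_alive u)) ?_
    measurable_const
  have h1 : Measurable fun p : (ℝ × (List ℕ → ℕ → Ev)) × ℝ =>
      ((fitn p.1.1 p.1.2 u, p.1.2 u), p.2 - birth p.1.1 p.1.2 u) := by
    refine Measurable.prodMk (Measurable.prodMk ((measurable_fitn u).comp measurable_fst) ?_) ?_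
    · fun_prop
    · exact measurable_snd.sub ((measurable_birth u).comp measurable_fst)
  exact measurable_famSize.comp h1

theorem popSize_upper {β γ : ℝ} (hβ : β ≤ 1) (hγ0 : 0 < γ) (hγ : γ ≤ 1) (h1 : 1 ≤ β + γ)
    (μ : Measure ℝ) [IsProbabilityMeasure μ] (hμ : μ (Ioc 0 1)ᶜ = 0)
    {x0 : ℝ} (hx0 : 0 < x0) (hx01 : x0 ≤ 1) (t : ℝ) :
    ∫⁻ ω, popSize x0 ω t ∂(treeLaw β γ μ)
      ≤ ∑' u, ∫⁻ ω, (if alive ω u = true then
        (if birth x0 ω u ≤ t then
          ENNReal.ofReal (Real.exp (γ * fitn x0 ω u * (t - birth x0 ω u))) else 0) else 0)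
      ∂(treeLaw β γ μ) := by
  have i3 := isProb_evLaw hβ hγ h1 μ
  have i4 := isProb_treeLaw hβ hγ h1 μ
  set Q := treeLaw β γ μ with hQ
  have mfit : ∀ u, Measurable fun ω : List ℕ → ℕ → Ev => fitn x0 ω u := fun u =>
    (measurable_fitn u).comp (measurable_const.prodMk measurable_id)
  have mbirth : ∀ u, Measurable fun ω : List ℕ → ℕ → Ev => birth x0 ω u := fun u =>
    (measurable_birth u).comp (measurable_const.prodMk measurable_id)
  have mm : ∀ u, Measurable fun ω : List ℕ → ℕ → Ev =>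
      (if alive ω u = true then famSize (fitn x0 ω u) (ω u) (t - birth x0 ω u) else 0) := by
    intro u
    refine Measurable.ite (measurableSet_alive u) ?_ measurable_const
    have h2 : Measurable fun ω : List ℕ → ℕ → Ev =>
        ((fitn x0 ω u, ω u), t - birth x0 ω u) :=
      ((mfit u).prodMk (by fun_prop)).prodMk (measurable_const.sub (mbirth u))
    exact measurable_famSize.comp h2
  unfold popSize
  rw [lintegral_tsum fun u => (mm u).aemeasurable]
  refine ENNReal.tsum_le_tsum fun u => ?_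
  rw [hQ, treeLaw, lintegral_resample (fun _ : List ℕ => Measure.infinitePi fun _ : ℕ =>
      evLaw β γ μ) u (mm u)]
  refine lintegral_mono_ae ?_
  filter_upwards [ae_fitn hβ hγ h1 μ measurableSet_Ioc hμ ⟨hx0, hx01⟩ u] with ω hω
  simp only [alive_update le_rfl, birth_update le_rfl, fitn_update le_rfl, Function.update_self]
  by_cases hal : alive ω u = true
  · simp only [hal, if_true]
    refine le_trans (family_size hβ hγ0 hγ h1 μ hω.1 _) (le_of_eq ?_)
    simp only [sub_nonneg]
  · simp [hal]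

end Pool.Agent.RBP
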