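import Pool.Agent.H93.RBPUpper

/-! # Reduction of the expectation bound to a renewal inequality -/

open MeasureTheory ProbabilityTheory Filter Topology Set
open scoped ENNReal

noncomputable section

namespace Pool.Agent.RBP

/-- integrand of the supersolution -/
def Gam (β γ : ℝ) (Q : ℝ → ℝ≥0∞) (x r : ℝ) : ℝ≥0∞ :=
  ENNReal.ofReal (Real.exp (γ * x * r)) + ENNReal.ofReal β *
    ∫⁻ v, (if 0 < v ∧ v ≤ r then ENNReal.ofReal (x * Real.exp (γ * x * v)) * Q (r - v) else 0)

lemma measurable_Gam (β γ : ℝ) {Q : ℝ → ℝ≥0∞} (hQ : Measurable Q) :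
    Measurable fun p : ℝ × ℝ => Gam β γ Q p.1 p.2 := by
  unfold Gam
  have m0 : Measurable fun p : ℝ × ℝ => ENNReal.ofReal (Real.exp (γ * p.1 * p.2)) := by fun_prop
  refine Measurable.add m0 (measurable_const.mul ?_)
  refine Measurable.lintegral_prod_right' (f := fun q : (ℝ × ℝ) × ℝ =>
    (if 0 < q.2 ∧ q.2 ≤ q.1.2 then
      ENNReal.ofReal (q.1.1 * Real.exp (γ * q.1.1 * q.2)) * Q (q.1.2 - q.2) else 0)) ?_
  refine Measurable.ite ?_ (by fun_prop) measurable_const
  exact (measurableSet_lt measurable_const measurable_snd).inter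
    (measurableSet_le measurable_snd (measurable_snd.comp measurable_fst))

theorem pop_expect {β γ : ℝ} (hβ : β ≤ 1) (hγ0 : 0 < γ) (hγ : γ ≤ 1)
    (h1 : 1 ≤ β + γ) (μ : Measure ℝ) [IsProbabilityMeasure μ] (hμ : μ (Ioc 0 1)ᶜ = 0)
    {Q : ℝ → ℝ≥0∞} (hQ : Measurable Q)
    (hq : ∀ r, 0 ≤ r → ∫⁻ x, Gam β γ Q x r ∂μ ≤ Q r) {t : ℝ} (ht : 0 ≤ t) :
    ∫⁻ x0, ∫⁻ ω, popSize x0 ω t ∂(treeLaw β γ μ) ∂μ ≤ Q t := by
  refine le_trans ?_ (hq t ht)
  have mGam := measurable_Gam β γ hQ
  set G : ℝ → ℝ → ℝ≥0∞ := fun x τ => if τ ≤ t then Gam β γ Q x (t - τ) else 0 with hGdef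
  set H : ℝ → ℝ → ℝ≥0∞ := fun x τ => if τ ≤ t then
    ENNReal.ofReal (Real.exp (γ * x * (t - τ))) else 0 with hHdef
  have mG : Measurable fun p : ℝ × ℝ => G p.1 p.2 := by
    refine Measurable.ite (measurableSet_le measurable_snd measurable_const) ?_ measurable_const
    exact mGam.comp (measurable_fst.prodMk (by fun_prop))
  have mH : Measurable fun p : ℝ × ℝ => H p.1 p.2 := by
    refine Measurable.ite (measurableSet_le measurable_snd measurable_const) ?_ measurable_const
    fun_prop
  have hint : ∀ τ, ∫⁻ x', G x' τ ∂μ ≤ if τ ≤ t then Q (t - τ) else 0 := by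
    intro τ
    by_cases hτ : τ ≤ t
    · simp only [hGdef, hτ, if_true]
      exact hq _ (by linarith)
    · simp [hGdef, hτ]
  have hstep : ∀ x, 0 < x → x ≤ 1 → ∀ τ,
      H x τ + W γ x (fun r => ENNReal.ofReal β * ∫⁻ x', G x' (τ + r) ∂μ) 0 ≤ G x τ := by
    intro x hx hx1 τ
    by_cases hτ : τ ≤ t
    · simp only [hGdef, hHdef, hτ, if_true]
      unfold Gam
      refine add_le_add_right ?_ _
      unfold W
      rw [← lintegral_const_mul' _ _ ENNReal.ofReal_ne_top]
      refine lintegral_mono fun r => ?_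
      by_cases hr : 0 < r
      · have h2 := hint (τ + r)
        by_cases hr2 : τ + r ≤ t
        · rw [if_pos hr2] at h2
          rw [if_pos hr, if_pos ⟨hr, by linarith⟩, sub_zero]
          rw [mul_left_comm]
          refine mul_le_mul_right (mul_le_mul_right ?_ _) _
          have : t - τ - r = t - (τ + r) := by ring
          rw [this]
          exact h2
        · rw [if_neg hr2] at h2
          have : ∫⁻ x', G x' (τ + r) ∂μ = 0 := le_antisymm h2 zero_le
          change _ * (_ * ∫⁻ x', G x' (τ + r) ∂μ) ≤ _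
          rw [this, mul_zero, mul_zero]
          exact zero_le
      · rw [if_neg hr, zero_mul]; exact zero_le
    · simp only [hHdef, hτ, if_false, zero_add]
      unfold W
      refine le_trans (le_of_eq ?_) zero_le
      rw [lintegral_eq_zero_iff']
      · refine Eventually.of_forall fun r => ?_
        by_cases hr : 0 < r
        · have h2 := hint (τ + r)
          rw [if_neg (by linarith)] at h2
          have : ∫⁻ x', G x' (τ + r) ∂μ = 0 := le_antisymm h2 zero_le
          simp only [this, mul_zero, Pi.zero_apply]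
        · simp [hr]
      · refine Measurable.aemeasurable ?_
        refine Measurable.mul (Measurable.ite (measurableSet_lt measurable_const measurable_id)
          (by fun_prop) measurable_const) (measurable_const.mul ?_)
        have m3 : Measurable fun q : ℝ × ℝ => G q.2 (τ + q.1) :=
          mG.comp (measurable_snd.prodMk (by fun_prop))
        exact m3.lintegral_prod_right'
  refine lintegral_mono_ae ?_
  have hae : ∀ᵐ x ∂μ, x ∈ Ioc (0 : ℝ) 1 := hμ
  filter_upwards [hae] with x0 hx0
  refine le_trans (popSize_upper hβ hγ0 hγ h1 μ hμ hx0.1 hx0.2 t) ?_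
  have := tree_upper hβ hγ0 hγ h1 μ hμ H G mH mG hstep hx0.1 hx0.2
  refine le_trans this (le_of_eq ?_)
  simp [hGdef, ht]

end Pool.Agent.RBP
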