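import Mathlib
import Pool.Agent.H93.RHLimit

/-!
# Pointwise inequalities and the norm of `∏ (1 + s u_i / √N)`
-/

set_option autoImplicit false

open MeasureTheory Finset Filter Topology
open scoped ENNReal

namespace Pool.Agent.H93.RH

theorem rpow_le_mix {p t : ℝ} (hp1 : 1 ≤ p) (hp2 : p ≤ 2) (ht : 0 ≤ t) :
    t ^ p ≤ 1 + (p / 2) * (t ^ 2 - 1) - (1 - p / 2) * (t - 1) ^ 2 := by
  have h := Real.geom_mean_le_arith_mean2_weighted (w₁ := p - 1) (w₂ := 2 - p) (p₁ := t ^ 2)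
    (p₂ := t) (by linarith) (by linarith) (by positivity) ht (by ring)
  have e : (t ^ 2) ^ (p - 1) * t ^ (2 - p) = t ^ p := by
    rcases eq_or_lt_of_le ht with h0 | h0
    · subst h0
      rw [Real.zero_rpow (by linarith : p ≠ 0)]
      rcases eq_or_lt_of_le hp1 with h1 | h1
      · subst h1; norm_num
      · rw [show (0 : ℝ) ^ 2 = 0 by norm_num, Real.zero_rpow (by linarith : p - 1 ≠ 0), zero_mul]
    · rw [← Real.rpow_natCast t 2, ← Real.rpow_mul ht, ← Real.rpow_add h0]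
      congr 1
      push_cast
      ring
  rw [e] at h
  refine h.trans (le_of_eq ?_)
  ring

theorem sq_lower (z : ℂ) : (4 / 9) * (z.re ^ 2 - ‖z‖ ^ 3) ≤ (‖1 + z‖ - 1) ^ 2 := by
  set t := ‖1 + z‖ with ht
  set n := ‖z‖ with hn
  have ht0 : 0 ≤ t := norm_nonneg _
  have hn0 : 0 ≤ n := norm_nonneg _
  have ha : |z.re| ≤ n := Complex.abs_re_le_norm z
  have ha' := abs_le.1 ha
  have e : t ^ 2 = 1 + 2 * z.re + n ^ 2 := by
    rw [ht, hn, ← Complex.normSq_eq_norm_sq, ← Complex.normSq_eq_norm_sq, Complex.normSq_apply,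
      Complex.normSq_apply]
    simp
    ring
  rcases le_or_gt n 1 with h1 | h1
  · have ht2 : t ≤ 2 := by
      have := norm_add_le (1 : ℂ) z
      rw [norm_one] at this
      linarith
    -- (t-1)(t+1) = 2a + n²
    have e2 : (t - 1) * (t + 1) = 2 * z.re + n ^ 2 := by nlinarith
    have e3 : (2 * z.re + n ^ 2) ^ 2 ≤ 9 * (t - 1) ^ 2 := by
      rw [← e2, mul_pow]
      have : (t + 1) ^ 2 ≤ 9 := by nlinarith
      nlinarith [sq_nonneg (t - 1)]
    have e4 : 4 * z.re ^ 2 - 4 * n ^ 3 ≤ (2 * z.re + n ^ 2) ^ 2 := by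
      have : -(n * n ^ 2) ≤ z.re * n ^ 2 := by
        have := mul_le_mul_of_nonneg_right ha'.1 (sq_nonneg n)
        linarith
      nlinarith [sq_nonneg (n ^ 2)]
    linarith
  · have : z.re ^ 2 ≤ n ^ 2 := sq_le_sq' ha'.1 ha'.2
    have h3 : n ^ 2 ≤ n ^ 3 := by nlinarith [sq_nonneg n]
    nlinarith [sq_nonneg (t - 1)]

theorem pt_ineq {p : ℝ} (hp1 : 1 ≤ p) (hp2 : p ≤ 2) (z : ℂ) :
    ‖1 + z‖ ^ p ≤ 1 + p * z.re + (p / 2) * ‖z‖ ^ 2 -
      (1 - p / 2) * (4 / 9) * (z.re ^ 2 - ‖z‖ ^ 3) := by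
  have h1 := rpow_le_mix hp1 hp2 (norm_nonneg (1 + z))
  have h2 := sq_lower z
  have e : ‖1 + z‖ ^ 2 = 1 + 2 * z.re + ‖z‖ ^ 2 := by
    rw [← Complex.normSq_eq_norm_sq, ← Complex.normSq_eq_norm_sq, Complex.normSq_apply,
      Complex.normSq_apply]
    simp
    ring
  rw [e] at h1
  have h3 : 0 ≤ 1 - p / 2 := by linarith
  nlinarith [mul_le_mul_of_nonneg_left h2 h3]

variable {Ω : Type} [MeasurableSpace Ω]

/-- Standing assumptions on the alphabet. -/
structure Alph (μ : Measure Ω) (u : Ω → ℝ) : Prop where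
  meas : Measurable u
  int3 : Integrable (fun y => |u y| ^ 3) μ
  mean : ∫ y, u y ∂μ = 0
  var : ∫ y, u y ^ 2 ∂μ = 1

namespace Alph

variable {μ : Measure Ω} [IsProbabilityMeasure μ] {u : Ω → ℝ} (h : Alph μ u)

include h

theorem int1 : Integrable u μ := by
  refine Integrable.mono' ((integrable_const (1 : ℝ)).add h.int3) h.meas.aestronglyMeasurable
    (Eventually.of_forall fun y => ?_)
  rw [Real.norm_eq_abs]
  simp only [Pi.add_apply]
  have := abs_nonneg (u y)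
  rcases le_or_gt |u y| 1 with h1 | h1
  · have : 0 ≤ |u y| ^ 3 := by positivity
    linarith
  · nlinarith [pow_pos (zero_lt_one.trans h1) 2, pow_pos (zero_lt_one.trans h1) 3,
      mul_lt_mul_of_pos_left h1 (pow_pos (zero_lt_one.trans h1) 2)]

theorem int2 : Integrable (fun y => u y ^ 2) μ := by
  refine Integrable.mono' ((integrable_const (1 : ℝ)).add h.int3)
    (h.meas.pow_const 2).aestronglyMeasurable (Eventually.of_forall fun y => ?_)
  rw [Real.norm_eq_abs, abs_pow]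
  simp only [Pi.add_apply]
  have := abs_nonneg (u y)
  rcases le_or_gt |u y| 1 with h1 | h1
  · have : 0 ≤ |u y| ^ 3 := by positivity
    nlinarith
  · nlinarith [pow_pos (zero_lt_one.trans h1) 2]

/-- `E |1 + c u|^p ≤ 1 + (p/2)|c|² - η (Re c)² + η |c|³ E|u|³`. -/
theorem moment_le {p : ℝ} (hp1 : 1 ≤ p) (hp2 : p ≤ 2) (c : ℂ) :
    ∫ y, ‖1 + c * (u y : ℂ)‖ ^ p ∂μ ≤ 1 + (p / 2) * ‖c‖ ^ 2 -
      (1 - p / 2) * (4 / 9) * (c.re ^ 2 - ‖c‖ ^ 3 * ∫ y, |u y| ^ 3 ∂μ) := by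
  have hi : Integrable (fun y => 1 + p * (c.re * u y) + (p / 2) * (‖c‖ ^ 2 * u y ^ 2) -
      (1 - p / 2) * (4 / 9) * (c.re ^ 2 * u y ^ 2 - ‖c‖ ^ 3 * |u y| ^ 3)) μ := by
    have i1 := h.int1
    have i2 := h.int2
    have i3 := h.int3
    exact (((integrable_const _).add ((i1.const_mul _).const_mul _)).add
      ((i2.const_mul _).const_mul _)).sub (((i2.const_mul _).sub (i3.const_mul _)).const_mul _)
  have hle : ∀ y, ‖1 + c * (u y : ℂ)‖ ^ p ≤ 1 + p * (c.re * u y) +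
      (p / 2) * (‖c‖ ^ 2 * u y ^ 2) -
      (1 - p / 2) * (4 / 9) * (c.re ^ 2 * u y ^ 2 - ‖c‖ ^ 3 * |u y| ^ 3) := by
    intro y
    have h1 := pt_ineq hp1 hp2 (c * (u y : ℂ))
    have e1 : (c * (u y : ℂ)).re = c.re * u y := by simp
    have e2 : ‖c * (u y : ℂ)‖ = ‖c‖ * |u y| := by rw [norm_mul, Complex.norm_real, Real.norm_eq_abs]
    rw [e1, e2, mul_pow, mul_pow, mul_pow, sq_abs] at h1
    exact h1
  have h1 : ∫ y, ‖1 + c * (u y : ℂ)‖ ^ p ∂μ ≤ ∫ y, (1 + p * (c.re * u y) +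
      (p / 2) * (‖c‖ ^ 2 * u y ^ 2) -
      (1 - p / 2) * (4 / 9) * (c.re ^ 2 * u y ^ 2 - ‖c‖ ^ 3 * |u y| ^ 3)) ∂μ :=
    integral_mono_of_nonneg (Eventually.of_forall fun y => by positivity) hi
      (Eventually.of_forall hle)
  refine h1.trans (le_of_eq ?_)
  have i1 := h.int1
  have i2 := h.int2
  have i3 := h.int3
  have j1 : Integrable (fun y => p * (c.re * u y)) μ := (i1.const_mul _).const_mul _
  have j2 : Integrable (fun y => (p / 2) * (‖c‖ ^ 2 * u y ^ 2)) μ := (i2.const_mul _).const_mul _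
  have j3 : Integrable (fun y => c.re ^ 2 * u y ^ 2 - ‖c‖ ^ 3 * |u y| ^ 3) μ :=
    (i2.const_mul _).sub (i3.const_mul _)
  have j4 : Integrable (fun y => 1 + p * (c.re * u y)) μ := (integrable_const 1).add j1
  have j5 : Integrable (fun y => 1 + p * (c.re * u y) + (p / 2) * (‖c‖ ^ 2 * u y ^ 2)) μ :=
    j4.add j2
  rw [integral_sub j5 (j3.const_mul _), integral_add j4 j2, integral_add (integrable_const 1) j1,
    integral_const_mul, integral_const_mul, integral_const_mul, integral_const_mul,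
    integral_const_mul, integral_sub (i2.const_mul _) (i3.const_mul _), integral_const_mul,
    integral_const_mul, h.mean, h.var]
  simp

end Alph

end Pool.Agent.H93.RH
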