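import Mathlib

/-!
# Truncation of the Taylor series of a Banach space valued entire function
-/

set_option autoImplicit false

open Finset Filter Topology

namespace Pool.Agent.H93.RH

/-- `s ^ l * exp (τ s² / 2)` -/
noncomputable def phi (τ : ℝ) (l : ℕ) (s : ℂ) : ℂ := s ^ l * Complex.exp (τ * s ^ 2 / 2)

theorem phi_diff (τ : ℝ) (l : ℕ) : Differentiable ℂ (phi τ l) := by
  unfold phi
  fun_prop

/-- Taylor coefficients of `phi`. -/
noncomputable def kap (τ : ℝ) (l j : ℕ) : ℂ := (j.factorial : ℂ)⁻¹ * iteratedDeriv j (phi τ l) 0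

/-- truncated Taylor series of `phi` -/
noncomputable def tr (τ : ℝ) (l k : ℕ) (s : ℂ) : ℂ := ∑ j ∈ Finset.range (k + 1), s ^ j * kap τ l j

theorem kap_zero (τ : ℝ) {l j : ℕ} (h : j < l) : kap τ l j = 0 := by
  have key : ∀ R : ℝ, 0 < R → R ≤ 1 →
      ‖iteratedDeriv j (phi τ l) 0‖ ≤ (j.factorial * Real.exp (|τ| / 2)) * R := by
    intro R hR hR1
    have h1 := Complex.norm_iteratedDeriv_le_of_forall_mem_sphere_norm_le (c := 0) j hR
      ((phi_diff τ l).diffContOnCl) (C := R ^ l * Real.exp (|τ| / 2)) (by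
        intro z hz
        have hz' : ‖z‖ = R := by simpa using hz
        rw [phi, norm_mul, norm_pow, hz', Complex.norm_exp]
        gcongr
        refine (Complex.re_le_norm _).trans ?_
        rw [norm_div, norm_mul, norm_pow, hz', Complex.norm_real, Real.norm_eq_abs]
        norm_num
        have := abs_nonneg τ
        have hR2 : R ^ 2 ≤ 1 := pow_le_one₀ hR.le hR1
        nlinarith)
    refine h1.trans ?_
    rw [div_le_iff₀ (by positivity)]
    have h2 : R ^ l ≤ R * R ^ j := by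
      rw [← pow_succ']
      exact pow_le_pow_of_le_one hR.le hR1 h
    calc j.factorial * (R ^ l * Real.exp (|τ| / 2))
        ≤ j.factorial * ((R * R ^ j) * Real.exp (|τ| / 2)) := by gcongr
      _ = _ := by ring
  have h0 : iteratedDeriv j (phi τ l) 0 = 0 := by
    rw [← norm_le_zero_iff]
    have hlim : Tendsto (fun R : ℝ => (j.factorial * Real.exp (|τ| / 2)) * R) (𝓝[>] 0) (𝓝 0) := by
      have : Tendsto (fun R : ℝ => (j.factorial * Real.exp (|τ| / 2)) * R) (𝓝 0)
          (𝓝 ((j.factorial * Real.exp (|τ| / 2)) * 0)) := by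
        apply Continuous.tendsto
        fun_prop
      rw [mul_zero] at this
      exact this.mono_left nhdsWithin_le_nhds
    refine ge_of_tendsto hlim ?_
    filter_upwards [Ioc_mem_nhdsGT (zero_lt_one' ℝ)] with R hR
    exact key R hR.1 hR.2
  rw [kap, h0, mul_zero]

theorem tr_zero (τ : ℝ) {l k : ℕ} (h : k < l) (s : ℂ) : tr τ l k s = 0 := by
  refine Finset.sum_eq_zero fun j hj => ?_
  rw [kap_zero τ (by have := Finset.mem_range.1 hj; omega), mul_zero]

variable {V : Type*} [NormedAddCommGroup V] [NormedSpace ℂ V] [CompleteSpace V]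

theorem taylor_trunc {f : ℂ → V} (hf : Differentiable ℂ f) {A R : ℝ} (hR : 0 < R)
    (hA : ∀ z, ‖z‖ = R → ‖f z‖ ≤ A) (s : ℂ) (hs : ‖s‖ < R) (k : ℕ) :
    ‖f s - ∑ j ∈ Finset.range (k + 1), (j.factorial : ℂ)⁻¹ • s ^ j • iteratedDeriv j f 0‖ ≤
      A * (‖s‖ / R) ^ (k + 1) / (1 - ‖s‖ / R) := by
  have hsum := Complex.hasSum_taylorSeries_of_entire hf 0 s
  simp only [sub_zero] at hsum
  have hq0 : 0 ≤ ‖s‖ / R := by positivity
  have hq1 : ‖s‖ / R < 1 := (div_lt_one hR).2 hs
  have hbound : ∀ j : ℕ, ‖(j.factorial : ℂ)⁻¹ • s ^ j • iteratedDeriv j f 0‖ ≤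
      A * (‖s‖ / R) ^ j := by
    intro j
    have h1 := Complex.norm_iteratedDeriv_le_of_forall_mem_sphere_norm_le (c := 0) j hR
      (hf.diffContOnCl) (C := A) (by
        intro z hz
        exact hA z (by simpa using hz))
    rw [norm_smul, norm_smul, norm_inv, norm_pow, Complex.norm_natCast]
    have hj : (0 : ℝ) < j.factorial := by exact_mod_cast j.factorial_pos
    calc (j.factorial : ℝ)⁻¹ * (‖s‖ ^ j * ‖iteratedDeriv j f 0‖)
        ≤ (j.factorial : ℝ)⁻¹ * (‖s‖ ^ j * (j.factorial * A / R ^ j)) := by gcongr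
      _ = A * (‖s‖ / R) ^ j := by
        rw [div_pow]
        field_simp
  have htail := (hasSum_nat_add_iff' (k + 1)).2 hsum
  have hgeo : HasSum (fun j : ℕ => A * (‖s‖ / R) ^ (j + (k + 1)))
      (A * (‖s‖ / R) ^ (k + 1) / (1 - ‖s‖ / R)) := by
    have h2 := (hasSum_geometric_of_lt_one hq0 hq1).mul_left (A * (‖s‖ / R) ^ (k + 1))
    rw [← div_eq_mul_inv] at h2
    have e : (fun j : ℕ => A * (‖s‖ / R) ^ (j + (k + 1))) =
        fun j : ℕ => A * (‖s‖ / R) ^ (k + 1) * (‖s‖ / R) ^ j := by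
      ext j
      rw [pow_add]; ring
    rw [e]
    exact h2
  have h3 : ‖f s - ∑ j ∈ Finset.range (k + 1),
      (j.factorial : ℂ)⁻¹ • s ^ j • iteratedDeriv j f 0‖ ≤
      A * (‖s‖ / R) ^ (k + 1) / (1 - ‖s‖ / R) := by
    rw [← htail.tsum_eq, ← hgeo.tsum_eq]
    refine tsum_of_norm_bounded hgeo.summable.hasSum fun j => ?_
    exact hbound _
  exact h3

/-- The form used below. -/
theorem trunc_family {T : Type} [Fintype T] (τ : ℝ) (l : T → ℕ) (w : T → V) {A R : ℝ} (hR : 0 < R)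
    (hA : ∀ z : ℂ, ‖z‖ = R → ‖∑ i, phi τ (l i) z • w i‖ ≤ A) (s : ℂ) (hs : ‖s‖ < R) (k : ℕ) :
    ‖(∑ i, phi τ (l i) s • w i) - ∑ i, tr τ (l i) k s • w i‖ ≤
      A * (‖s‖ / R) ^ (k + 1) / (1 - ‖s‖ / R) := by
  have hd : Differentiable ℂ (fun z : ℂ => ∑ i, phi τ (l i) z • w i) := by
    refine Differentiable.fun_sum fun i _ => ?_
    exact (phi_diff τ (l i)).smul_const (w i)
  have h := taylor_trunc hd hR hA s hs k
  have e : ∑ j ∈ Finset.range (k + 1), (j.factorial : ℂ)⁻¹ • s ^ j •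
      iteratedDeriv j (fun z : ℂ => ∑ i, phi τ (l i) z • w i) 0 =
      ∑ i, tr τ (l i) k s • w i := by
    have h1 : ∀ j, iteratedDeriv j (fun z : ℂ => ∑ i, phi τ (l i) z • w i) 0 =
        ∑ i, iteratedDeriv j (phi τ (l i)) 0 • w i := by
      intro j
      have hc : ∀ i, ContDiffAt ℂ j (fun z : ℂ => phi τ (l i) z • w i) 0 := fun i =>
        (((phi_diff τ (l i)).smul_const (w i)).contDiff).contDiffAt
      rw [iteratedDeriv_fun_sum (fun i _ => hc i)]
      refine Finset.sum_congr rfl fun i _ => ?_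
      have h2 := iteratedDerivWithin_smul_const (𝕜 := ℂ) (s := Set.univ) (n := j)
        (x := 0) (Set.mem_univ _) uniqueDiffOn_univ (f := phi τ (l i))
        ((phi_diff τ (l i)).contDiff.contDiffAt.contDiffWithinAt) (w i)
      simpa only [iteratedDerivWithin_univ] using h2
    simp only [h1, tr, Finset.smul_sum, Finset.sum_smul]
    rw [Finset.sum_comm]
    refine Finset.sum_congr rfl fun i _ => Finset.sum_congr rfl fun j _ => ?_
    rw [smul_smul, smul_smul, kap]
    congr 1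
    ring
  rw [e] at h
  exact h

end Pool.Agent.H93.RH
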