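import Mathlib
import Pool.Agent.H93.RHPoint
import Pool.Agent.H93.RHTaylor

/-!
# Norm and truncation of `exp (τ s²/2) ∏ (1 + r s u_l / √N)`
-/

set_option autoImplicit false

open MeasureTheory Finset Filter Topology
open scoped ENNReal

namespace Pool.Agent.H93.RH

/-- `τ = (2/9)(2-p)/p` -/
noncomputable def tau (p : ℝ) : ℝ := (1 - p / 2) * (4 / 9) / p

variable {Ω : Type} [MeasurableSpace Ω]

/-- `exp (τ s²/2) ∏ (1 + r s u_l / √N)` -/
noncomputable def full (p : ℝ) (u : Ω → ℝ) (N : ℕ) (r : ℝ) (s : ℂ) (y : Fin N → Ω) : ℂ :=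
  Complex.exp (tau p * s ^ 2 / 2) * ∏ l, (1 + (r * s / (Real.sqrt N : ℝ)) * (u (y l) : ℂ))

/-- its truncation -/
noncomputable def trunc (p : ℝ) (u : Ω → ℝ) (N k : ℕ) (r : ℝ) (s : ℂ) (y : Fin N → Ω) : ℂ :=
  ∑ T : Finset (Fin N), tr (tau p) T.card k s * ((r : ℂ) ^ T.card *
    ∏ l ∈ T, ((u (y l) / Real.sqrt N : ℝ) : ℂ))

variable {μ : Measure Ω} [IsProbabilityMeasure μ] {u : Ω → ℝ}

theorem lpNorm_mono_of_le {α E : Type*} [MeasurableSpace α] [NormedAddCommGroup E] {f : α → E}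
    {ν : Measure α} {P Q : ℝ≥0∞} [IsProbabilityMeasure ν] (hPQ : P ≤ Q) (hf : MemLp f Q ν) :
    lpNorm f P ν ≤ lpNorm f Q ν := by
  rw [← toReal_eLpNorm hf.1, ← toReal_eLpNorm hf.1]
  exact ENNReal.toReal_mono hf.2.ne (eLpNorm_le_eLpNorm_of_exponent_le hPQ hf.1)

theorem Alph.memLp3 (h : Alph μ u) : MemLp u 3 μ := by
  rw [← integrable_norm_rpow_iff h.meas.aestronglyMeasurable (by norm_num) (by norm_num)]
  have := h.int3
  simpa using this

theorem Alph.memLp (h : Alph μ u) {p : ℝ} (hp : p ≤ 3) : MemLp u (ENNReal.ofReal p) μ := by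
  refine h.memLp3.mono_exponent ?_
  calc ENNReal.ofReal p ≤ ENNReal.ofReal 3 := ENNReal.ofReal_le_ofReal hp
    _ = 3 := by norm_num

theorem Alph.memLp_aff (h : Alph μ u) {p : ℝ} (hp : p ≤ 3) (c : ℂ) :
    MemLp (fun y => 1 + c * (u y : ℂ)) (ENNReal.ofReal p) μ := by
  have h1 : MemLp (fun y => (u y : ℂ)) (ENNReal.ofReal p) μ := (h.memLp hp).ofReal
  have h2 : MemLp (fun y => c * (u y : ℂ)) (ENNReal.ofReal p) μ := h1.const_mul c
  have h3 : MemLp (fun _ : Ω => (1 : ℂ)) (ENNReal.ofReal p) μ := memLp_const (1 : ℂ)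
  exact h3.add h2

theorem meas_aff (hu : Measurable u) (c : ℂ) : Measurable (fun y => 1 + c * (u y : ℂ)) := by
  fun_prop

theorem lpNorm_const_mulC {Ω' : Type} [MeasurableSpace Ω'] (c : ℂ) (f : Ω' → ℂ) (P : ℝ≥0∞)
    (ν : Measure Ω') : lpNorm (fun x => c * f x) P ν = ‖c‖ * lpNorm f P ν := by
  have := lpNorm_const_smul (p := P) c f ν
  simpa [Pi.smul_def, smul_eq_mul] using this

/-- Norm of one factor. -/
theorem Alph.aff_norm_le (h : Alph μ u) {p : ℝ} (hp1 : 1 ≤ p) (hp2 : p < 2) (c : ℂ) :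
    lpNorm (fun y => 1 + c * (u y : ℂ)) (ENNReal.ofReal p) μ ≤
      Real.exp (‖c‖ ^ 2 / 2 - tau p * (c.re ^ 2 - ‖c‖ ^ 3 * ∫ y, |u y| ^ 3 ∂μ)) := by
  have hp0 : 0 < p := by linarith
  rw [lpN hp0 (meas_aff h.meas c).aestronglyMeasurable]
  have h1 := h.moment_le hp1 hp2.le c
  set X : ℝ := (p / 2) * ‖c‖ ^ 2 -
      (1 - p / 2) * (4 / 9) * (c.re ^ 2 - ‖c‖ ^ 3 * ∫ y, |u y| ^ 3 ∂μ) with hX
  have h2 : ∫ y, ‖1 + c * (u y : ℂ)‖ ^ p ∂μ ≤ Real.exp X := by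
    refine h1.trans ?_
    have := Real.add_one_le_exp X
    linarith
  have h3 : (∫ y, ‖1 + c * (u y : ℂ)‖ ^ p ∂μ) ^ p⁻¹ ≤ (Real.exp X) ^ p⁻¹ :=
    Real.rpow_le_rpow (integral_nonneg fun y => by positivity) h2 (by positivity)
  refine h3.trans (le_of_eq ?_)
  rw [← Real.exp_mul]
  congr 1
  rw [hX, tau]
  field_simp

theorem full_eq (p : ℝ) (N : ℕ) (r : ℝ) (s : ℂ) (y : Fin N → Ω) :
    full p u N r s y = ∑ T : Finset (Fin N), phi (tau p) T.card s * ((r : ℂ) ^ T.card *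
      ∏ l ∈ T, ((u (y l) / Real.sqrt N : ℝ) : ℂ)) := by
  rw [full, Finset.prod_one_add, Finset.mul_sum, Finset.powerset_univ]
  refine Finset.sum_congr rfl fun T _ => ?_
  rw [phi]
  have : ∏ l ∈ T, ((r * s / (Real.sqrt N : ℝ)) * (u (y l) : ℂ)) =
      (r : ℂ) ^ T.card * s ^ T.card * ∏ l ∈ T, ((u (y l) / Real.sqrt N : ℝ) : ℂ) := by
    rw [← mul_pow, ← Finset.prod_const, ← Finset.prod_mul_distrib]
    refine Finset.prod_congr rfl fun l _ => ?_
    push_cast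
    ring
  rw [this]
  ring

theorem measurable_full (hu : Measurable u) (p : ℝ) (N : ℕ) (r : ℝ) (s : ℂ) :
    Measurable (full p u N r s) := by
  unfold full
  fun_prop

theorem measurable_trunc (hu : Measurable u) (p : ℝ) (N k : ℕ) (r : ℝ) (s : ℂ) :
    Measurable (trunc p u N k r s) := by
  unfold trunc
  fun_prop

/-- Norm of `full`. -/
theorem full_norm_le (h : Alph μ u) {p : ℝ} (hp1 : 1 ≤ p) (hp2 : p < 2) {N : ℕ} (hN : 0 < N)
    {r : ℝ} (hr : 1 ≤ r) (s : ℂ)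
    (hN2 : tau p * (r * ‖s‖) ^ 3 * (∫ y, |u y| ^ 3 ∂μ) ≤ Real.sqrt N) :
    lpNorm (full p u N r s) (ENNReal.ofReal p) (Measure.pi fun _ => μ) ≤
      Real.exp ((r ^ 2 - 1) * ‖s‖ ^ 2 / 2 + (1 - tau p) * ‖s‖ ^ 2 / 2 + 1) := by
  have hp0 : 0 < p := by linarith
  have hτ : 0 ≤ tau p := by
    rw [tau]
    have : 0 ≤ 1 - p / 2 := by linarith
    positivity
  have hsN : 0 < Real.sqrt N := Real.sqrt_pos.2 (by exact_mod_cast hN)
  have hsN2 : Real.sqrt N ^ 2 = N := Real.sq_sqrt (by positivity)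
  set ρ := ∫ y, |u y| ^ 3 ∂μ with hρ
  have hρ0 : 0 ≤ ρ := integral_nonneg fun y => by positivity
  set c : ℂ := r * s / (Real.sqrt N : ℝ) with hc
  have hcn : ‖c‖ = r * ‖s‖ / Real.sqrt N := by
    rw [hc, norm_div, norm_mul, Complex.norm_real, Complex.norm_real, Real.norm_of_nonneg hsN.le,
      Real.norm_of_nonneg (by linarith)]
  have hcr : c.re = r * s.re / Real.sqrt N := by
    rw [hc, Complex.div_ofReal_re, Complex.re_ofReal_mul]
  have e1 : full p u N r s = fun y => Complex.exp (tau p * s ^ 2 / 2) *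
      ∏ l, (1 + c * (u (y l) : ℂ)) := by
    ext y; rfl
  rw [e1, lpNorm_const_mulC,
    lpNorm_prod hp0 (g := fun (_ : Fin N) y => 1 + c * (u y : ℂ)) (fun _ => meas_aff h.meas c),
    Finset.prod_const, Finset.card_univ, Fintype.card_fin, Complex.norm_exp]
  have h1 := h.aff_norm_le hp1 hp2 c
  have h2 : lpNorm (fun y => 1 + c * (u y : ℂ)) (ENNReal.ofReal p) μ ^ N ≤
      Real.exp (N * (‖c‖ ^ 2 / 2 - tau p * (c.re ^ 2 - ‖c‖ ^ 3 * ρ))) := by
    rw [Real.exp_nat_mul]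
    exact pow_le_pow_left₀ lpNorm_nonneg h1 N
  refine (mul_le_mul_of_nonneg_left h2 (Real.exp_pos _).le).trans ?_
  rw [← Real.exp_add]
  refine Real.exp_le_exp.2 ?_
  -- the exponent
  have e2 : (tau p * s ^ 2 / 2 : ℂ).re = tau p * (s.re ^ 2 - s.im ^ 2) / 2 := by
    have : (tau p * s ^ 2 / 2 : ℂ) = ((tau p / 2 : ℝ) : ℂ) * s ^ 2 := by push_cast; ring
    rw [this, Complex.re_ofReal_mul, sq, Complex.mul_re]
    ring
  have e3 : ‖s‖ ^ 2 = s.re ^ 2 + s.im ^ 2 := by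
    rw [← Complex.normSq_eq_norm_sq, Complex.normSq_apply]; ring
  have e4 : (N : ℝ) * (‖c‖ ^ 2 / 2 - tau p * (c.re ^ 2 - ‖c‖ ^ 3 * ρ)) =
      r ^ 2 * ‖s‖ ^ 2 / 2 - tau p * (r ^ 2 * s.re ^ 2) +
        tau p * (r * ‖s‖) ^ 3 * ρ / Real.sqrt N := by
    rw [hcn, hcr]
    have hN' : (N : ℝ) = Real.sqrt N ^ 2 := hsN2.symm
    have hq := hsN
    generalize Real.sqrt N = q at hN' hq ⊢
    rw [hN']
    field_simp
    ring
  rw [e2, e4]
  have h3 : tau p * (r * ‖s‖) ^ 3 * ρ / Real.sqrt N ≤ 1 := (div_le_one hsN).2 hN2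
  have h4 : tau p * s.re ^ 2 ≤ tau p * (r ^ 2 * s.re ^ 2) := by
    have : 1 ≤ r ^ 2 := by nlinarith
    have h5 : s.re ^ 2 ≤ r ^ 2 * s.re ^ 2 := by nlinarith [sq_nonneg s.re]
    exact mul_le_mul_of_nonneg_left h5 hτ
  nlinarith [h3, h4, e3]

theorem memLp_piece (h : Alph μ u) {p : ℝ} (hp1 : 1 ≤ p) (hp2 : p < 2) {N : ℕ} (r : ℝ)
    (T : Finset (Fin N)) :
    MemLp (fun y : Fin N → Ω => ((r : ℂ) ^ T.card *
      ∏ l ∈ T, ((u (y l) / Real.sqrt N : ℝ) : ℂ))) (ENNReal.ofReal p)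
      (Measure.pi fun _ => μ) := by
  have hp0 : 0 < p := by linarith
  have hm : Measurable (fun y : Ω => ((u y / Real.sqrt N : ℝ) : ℂ)) := by
    have := h.meas
    fun_prop
  have h1 : MemLp (fun y : Ω => ((u y / Real.sqrt N : ℝ) : ℂ)) (ENNReal.ofReal p) μ := by
    have h2 : MemLp (fun y : Ω => u y / Real.sqrt N) (ENNReal.ofReal p) μ := by
      have := (h.memLp (by linarith : p ≤ 3)).const_mul (Real.sqrt N)⁻¹
      refine this.congr_norm ?_ ?_ |>.mono_exponent le_rfl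
      · have := h.meas
        exact (by fun_prop : Measurable fun y : Ω => u y / Real.sqrt N).aestronglyMeasurable
      · refine Eventually.of_forall fun y => ?_
        rw [div_eq_inv_mul]
    exact h2.ofReal
  exact (memLp_monomial hp0 hm h1 T).const_mul _

/-- Truncation error. -/
theorem trunc_error (h : Alph μ u) {p : ℝ} (hp1 : 1 ≤ p) (hp2 : p < 2) {N : ℕ} (hN : 0 < N)
    {r : ℝ} (hr : 1 ≤ r) {R : ℝ} (hR : 0 < R) (s : ℂ) (hs : ‖s‖ < R) (k : ℕ)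
    (hN2 : tau p * (r * R) ^ 3 * (∫ y, |u y| ^ 3 ∂μ) ≤ Real.sqrt N) :
    lpNorm (fun y => full p u N r s y - trunc p u N k r s y) (ENNReal.ofReal p)
      (Measure.pi fun _ => μ) ≤
      Real.exp ((r ^ 2 - 1) * R ^ 2 / 2 + (1 - tau p) * R ^ 2 / 2 + 1) *
        (‖s‖ / R) ^ (k + 1) / (1 - ‖s‖ / R) := by
  have hp0 : 0 < p := by linarith
  have hP : Fact (1 ≤ ENNReal.ofReal p) :=
    ⟨by rw [← ENNReal.ofReal_one]; exact ENNReal.ofReal_le_ofReal hp1⟩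
  let ν : Measure (Fin N → Ω) := Measure.pi fun _ => μ
  have hmem : ∀ T : Finset (Fin N), MemLp (fun y : Fin N → Ω => ((r : ℂ) ^ T.card *
      ∏ l ∈ T, ((u (y l) / Real.sqrt N : ℝ) : ℂ))) (ENNReal.ofReal p) ν :=
    fun T => memLp_piece h hp1 hp2 r T
  let w : Finset (Fin N) → Lp ℂ (ENNReal.ofReal p) ν := fun T => (hmem T).toLp
  have key : ∀ (c : Finset (Fin N) → ℂ), ‖∑ T, c T • w T‖ =
      lpNorm (fun y : Fin N → Ω => ∑ T : Finset (Fin N), c T * ((r : ℂ) ^ T.card *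
        ∏ l ∈ T, ((u (y l) / Real.sqrt N : ℝ) : ℂ))) (ENNReal.ofReal p) ν := by
    intro c
    have hm : MemLp (fun y : Fin N → Ω => ∑ T : Finset (Fin N), c T * ((r : ℂ) ^ T.card *
        ∏ l ∈ T, ((u (y l) / Real.sqrt N : ℝ) : ℂ))) (ENNReal.ofReal p) ν :=
      memLp_finsetSum _ fun T _ => (hmem T).const_mul (c T)
    have e : ∑ T, c T • w T = hm.toLp := by
      refine Lp.ext ?_
      have h1 : ∀ T : Finset (Fin N), (c T • w T : Lp ℂ (ENNReal.ofReal p) ν) =ᵐ[ν]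
          fun y => c T * ((r : ℂ) ^ T.card * ∏ l ∈ T, ((u (y l) / Real.sqrt N : ℝ) : ℂ)) := by
        intro T
        refine (Lp.coeFn_smul (c T) (w T)).trans ?_
        filter_upwards [(hmem T).coeFn_toLp] with y hy
        simp only [Pi.smul_apply, smul_eq_mul]
        rw [hy]
      refine (Lp.coeFn_finsetSum Finset.univ (fun T => c T • w T)).trans ?_
      refine EventuallyEq.trans ?_ hm.coeFn_toLp.symm
      have h2 : ∀ᵐ y ∂ν, ∀ T : Finset (Fin N), (c T • w T : Lp ℂ (ENNReal.ofReal p) ν) y =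
          c T * ((r : ℂ) ^ T.card * ∏ l ∈ T, ((u (y l) / Real.sqrt N : ℝ) : ℂ)) := by
        rw [ae_all_iff]
        exact h1
      filter_upwards [h2] with y hy
      rw [Finset.sum_apply]
      exact Finset.sum_congr rfl fun T _ => hy T
    rw [e, Lp.norm_toLp, toReal_eLpNorm hm.1]
  have hA : ∀ z : ℂ, ‖z‖ = R → ‖∑ T : Finset (Fin N), phi (tau p) T.card z • w T‖ ≤
      Real.exp ((r ^ 2 - 1) * R ^ 2 / 2 + (1 - tau p) * R ^ 2 / 2 + 1) := by
    intro z hz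
    rw [key]
    have := full_norm_le h hp1 hp2 hN hr z (by rw [hz]; exact hN2)
    rw [hz] at this
    refine le_trans (le_of_eq ?_) this
    congr 1
    ext y
    exact (full_eq p N r z y).symm
  have h3 := trunc_family (tau p) (fun T : Finset (Fin N) => T.card) w hR hA s hs k
  rw [← Finset.sum_sub_distrib] at h3
  simp only [← sub_smul] at h3
  rw [key] at h3
  refine le_trans (le_of_eq ?_) h3
  congr 1
  ext y
  rw [full_eq, trunc, ← Finset.sum_sub_distrib]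
  refine Finset.sum_congr rfl fun T _ => by ring

end Pool.Agent.H93.RH
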