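import Mathlib
import Pool.Agent.H93.RHGamma

/-!
# Limits as `N → ∞`
-/

set_option autoImplicit false

open MeasureTheory Finset Filter Topology
open scoped ENNReal

namespace Pool.Agent.H93.RH

/-- second order expansion of `exp (i z)` -/
theorem exp_taylor (z : ℝ) : ‖Complex.exp (Complex.I * z) - (1 + Complex.I * z - z ^ 2 / 2)‖ ≤
    4 * |z| ^ 3 := by
  rcases le_or_gt |z| 1 with h | h
  · have h1 := Complex.exp_bound (x := Complex.I * z) (by simpa using h) (n := 3) (by norm_num)
    have e : (∑ m ∈ Finset.range 3, (Complex.I * z) ^ m / (m.factorial : ℂ)) =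
        1 + Complex.I * z - z ^ 2 / 2 := by
      simp [Finset.sum_range_succ, Nat.factorial, mul_pow]
      ring
    rw [e] at h1
    refine h1.trans ?_
    have e2 : ‖Complex.I * (z : ℂ)‖ = |z| := by simp
    rw [e2]
    have h3 : (0 : ℝ) ≤ |z| ^ 3 := by positivity
    norm_num [Nat.factorial]
    nlinarith
  · have h1 : ‖Complex.exp (Complex.I * z)‖ = 1 := by
      rw [mul_comm, Complex.norm_exp_ofReal_mul_I]
    have h2 : ‖(1 + Complex.I * z - z ^ 2 / 2 : ℂ)‖ ≤ 1 + |z| + |z| ^ 2 / 2 := by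
      refine (norm_sub_le _ _).trans ?_
      have e1 : ‖(z ^ 2 / 2 : ℂ)‖ = |z| ^ 2 / 2 := by simp
      have e2 : ‖(1 + Complex.I * z : ℂ)‖ ≤ 1 + |z| := by
        refine (norm_add_le _ _).trans ?_
        simp
      rw [e1]; linarith
    refine (norm_sub_le _ _).trans ?_
    rw [h1]
    nlinarith [pow_pos (zero_lt_one.trans h) 2, pow_pos (zero_lt_one.trans h) 3,
      mul_lt_mul_of_pos_left h (pow_pos (zero_lt_one.trans h) 2)]

/-- second order expansion of `(1 + i z) exp (- i z)` -/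
theorem psi_taylor (z : ℝ) : ‖(1 + Complex.I * z) * Complex.exp (-(Complex.I * z)) -
    (1 + z ^ 2 / 2)‖ ≤ 10 * |z| ^ 3 := by
  rcases le_or_gt |z| 1 with h | h
  · have h1 := exp_taylor (-z)
    rw [abs_neg] at h1
    have e : (1 + Complex.I * z) * Complex.exp (-(Complex.I * z)) - (1 + z ^ 2 / 2) =
        (1 + Complex.I * z) * (Complex.exp (Complex.I * ((-z : ℝ) : ℂ)) -
          (1 + Complex.I * ((-z : ℝ) : ℂ) - ((-z : ℝ) : ℂ) ^ 2 / 2)) - Complex.I * z ^ 3 / 2 := by
      push_cast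
      rw [mul_neg]
      linear_combination (-(z : ℂ) ^ 2) * (Complex.I_sq)
    rw [e]
    refine (norm_sub_le _ _).trans ?_
    have e2 : ‖(1 + Complex.I * z : ℂ)‖ ≤ 2 := by
      refine (norm_add_le _ _).trans ?_
      simp
      linarith
    have e3 : ‖Complex.I * (z : ℂ) ^ 3 / 2‖ = |z| ^ 3 / 2 := by simp
    rw [norm_mul, e3]
    have h4 : 0 ≤ |z| ^ 3 := by positivity
    calc _ ≤ 2 * (4 * |z| ^ 3) + |z| ^ 3 / 2 := by gcongr
      _ ≤ _ := by linarith
  · have h1 : ‖Complex.exp (-(Complex.I * z))‖ = 1 := by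
      rw [Complex.norm_exp]; simp
    refine (norm_sub_le _ _).trans ?_
    rw [norm_mul, h1]
    have h2 : ‖(1 + z ^ 2 / 2 : ℂ)‖ ≤ 1 + |z| ^ 2 / 2 := by
      refine (norm_add_le _ _).trans ?_
      simp
    have e2 : ‖(1 + Complex.I * z : ℂ)‖ ≤ 1 + |z| := by
      refine (norm_add_le _ _).trans ?_
      simp
    nlinarith [pow_pos (zero_lt_one.trans h) 2, pow_pos (zero_lt_one.trans h) 3,
      mul_lt_mul_of_pos_left h (pow_pos (zero_lt_one.trans h) 2)]

variable {Ω : Type} [MeasurableSpace Ω] {μ : Measure Ω} [IsProbabilityMeasure μ] {u : Ω → ℝ}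

/-- Abstract limit: if `|g z - 1 - a z - b z²| ≤ C |z|³` then `(E g(x u/√N))^N → exp (b x²)`. -/
theorem tendsto_pow_of_taylor (h : Alph μ u) {g : ℝ → ℂ} (hg : Measurable g) {a b : ℂ} {C : ℝ}
    (hC : ∀ z : ℝ, ‖g z - (1 + a * z + b * z ^ 2)‖ ≤ C * |z| ^ 3) (x : ℝ) :
    Tendsto (fun N : ℕ => (∫ y, g (x * u y / Real.sqrt N) ∂μ) ^ N) atTop
      (𝓝 (Complex.exp (b * x ^ 2))) := by
  set ρ := ∫ y, |u y| ^ 3 ∂μ with hρ
  have i1 := h.int1
  have i2 := h.int2
  have i3 := h.int3
  have hC0 : 0 ≤ C := by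
    have := (norm_nonneg _).trans (hC 1)
    simpa using this
  -- the polynomial part
  have hpoly : ∀ c : ℝ, Integrable (fun y => (1 + a * ((c * u y : ℝ) : ℂ) +
      b * ((c * u y : ℝ) : ℂ) ^ 2)) μ ∧
      ∫ y, (1 + a * ((c * u y : ℝ) : ℂ) + b * ((c * u y : ℝ) : ℂ) ^ 2) ∂μ = 1 + b * c ^ 2 := by
    intro c
    have j1 : Integrable (fun y => a * ((c * u y : ℝ) : ℂ)) μ :=
      ((i1.const_mul c).ofReal).const_mul a
    have j2 : Integrable (fun y => b * ((c * u y : ℝ) : ℂ) ^ 2) μ := by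
      have : (fun y => b * ((c * u y : ℝ) : ℂ) ^ 2) =
          fun y => b * ((c ^ 2 * u y ^ 2 : ℝ) : ℂ) := by
        ext y; push_cast; ring
      rw [this]
      exact ((i2.const_mul (c ^ 2)).ofReal).const_mul b
    have j3 : Integrable (fun y => 1 + a * ((c * u y : ℝ) : ℂ)) μ := (integrable_const 1).add j1
    refine ⟨j3.add j2, ?_⟩
    rw [integral_add j3 j2, integral_add (integrable_const 1) j1]
    have e1 : ∫ y, a * ((c * u y : ℝ) : ℂ) ∂μ = 0 := by
      rw [integral_const_mul, integral_complex_ofReal, integral_const_mul, h.mean]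
      simp
    have e2 : ∫ y, b * ((c * u y : ℝ) : ℂ) ^ 2 ∂μ = b * c ^ 2 := by
      have : (fun y => b * ((c * u y : ℝ) : ℂ) ^ 2) =
          fun y => b * ((c ^ 2 * u y ^ 2 : ℝ) : ℂ) := by
        ext y; push_cast; ring
      rw [this, integral_const_mul, integral_complex_ofReal, integral_const_mul, h.var]
      simp
    rw [e1, e2]
    simp
  have hmain : ∀ c : ℝ, ‖∫ y, g (c * u y) ∂μ - (1 + b * c ^ 2)‖ ≤ C * |c| ^ 3 * ρ := by
    intro c
    have hmeas : Measurable (fun y => g (c * u y)) := hg.comp (h.meas.const_mul c)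
    have hbd : Integrable (fun y => C * |c * u y| ^ 3) μ := by
      have : (fun y => C * |c * u y| ^ 3) = fun y => C * (|c| ^ 3 * |u y| ^ 3) := by
        ext y; rw [abs_mul, mul_pow]
      rw [this]
      exact (i3.const_mul _).const_mul _
    have hdiff : Integrable (fun y => g (c * u y) - (1 + a * ((c * u y : ℝ) : ℂ) +
        b * ((c * u y : ℝ) : ℂ) ^ 2)) μ := by
      refine hbd.mono' (hmeas.aestronglyMeasurable.sub (hpoly c).1.1)
        (Eventually.of_forall fun y => hC _)
    have hgi : Integrable (fun y => g (c * u y)) μ := by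
      have := hdiff.add (hpoly c).1
      refine this.congr (Eventually.of_forall fun y => ?_)
      simp
    rw [← (hpoly c).2, ← integral_sub hgi (hpoly c).1]
    refine (norm_integral_le_integral_norm _).trans ?_
    refine (integral_mono hdiff.norm hbd fun y => hC _).trans (le_of_eq ?_)
    have : (fun y => C * |c * u y| ^ 3) = fun y => (C * |c| ^ 3) * |u y| ^ 3 := by
      ext y; rw [abs_mul, mul_pow]; ring
    rw [this, integral_const_mul]
  have hlim : Tendsto (fun N : ℕ => (N : ℂ) * (∫ y, g (x * u y / Real.sqrt N) ∂μ - 1)) atTop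
      (𝓝 (b * x ^ 2)) := by
    rw [tendsto_iff_norm_sub_tendsto_zero]
    have hb : ∀ᶠ N : ℕ in atTop, ‖(N : ℂ) * (∫ y, g (x * u y / Real.sqrt N) ∂μ - 1) -
        b * x ^ 2‖ ≤ (C * |x| ^ 3 * ρ) * (Real.sqrt N)⁻¹ := by
      filter_upwards [eventually_gt_atTop 0] with N hN
      have hsN : 0 < Real.sqrt N := Real.sqrt_pos.2 (by exact_mod_cast hN)
      have hsN2 : Real.sqrt N ^ 2 = N := Real.sq_sqrt (by positivity)
      have h1 := hmain (x / Real.sqrt N)
      have e1 : ∀ y, x / Real.sqrt N * u y = x * u y / Real.sqrt N := fun y => by ring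
      simp only [e1] at h1
      have e2 : (N : ℂ) * (∫ y, g (x * u y / Real.sqrt N) ∂μ - 1) - b * x ^ 2 =
          N * (∫ y, g (x * u y / Real.sqrt N) ∂μ - (1 + b * ((x / Real.sqrt N : ℝ) : ℂ) ^ 2)) := by
        have : (N : ℂ) * ((x / Real.sqrt N : ℝ) : ℂ) ^ 2 = x ^ 2 := by
          rw [← Complex.ofReal_pow, div_pow, hsN2]
          push_cast
          have : (N : ℂ) ≠ 0 := by exact_mod_cast hN.ne'
          field_simp
        linear_combination b * this
      rw [e2, norm_mul, Complex.norm_natCast]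
      calc (N : ℝ) * ‖∫ y, g (x * u y / Real.sqrt N) ∂μ -
            (1 + b * ((x / Real.sqrt N : ℝ) : ℂ) ^ 2)‖
          ≤ N * (C * |x / Real.sqrt N| ^ 3 * ρ) := by gcongr
        _ = (C * |x| ^ 3 * ρ) * (Real.sqrt N)⁻¹ := by
          rw [abs_div, abs_of_pos hsN]
          have hN' : (N : ℝ) = Real.sqrt N ^ 2 := hsN2.symm
          have hq := hsN
          generalize Real.sqrt N = q at hN' hq ⊢
          rw [hN']
          field_simp
    refine squeeze_zero' (Eventually.of_forall fun N => norm_nonneg _) hb ?_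
    have h3 : Tendsto (fun N : ℕ => (Real.sqrt N)⁻¹) atTop (𝓝 0) :=
      tendsto_inv_atTop_zero.comp
        (Real.tendsto_sqrt_atTop.comp tendsto_natCast_atTop_atTop)
    simpa using h3.const_mul (C * |x| ^ 3 * ρ)
  have h4 := Complex.tendsto_one_add_pow_exp_of_tendsto hlim
  simpa using h4

/-- the normalised sum -/
noncomputable def SN (u : Ω → ℝ) (N : ℕ) (y : Fin N → Ω) : ℝ := ∑ l, u (y l) / Real.sqrt N

theorem measurable_SN (hu : Measurable u) (N : ℕ) : Measurable (SN u N) := by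
  unfold SN
  fun_prop

/-- characteristic function of the normalised sum -/
theorem charfun_SN (N : ℕ) (x : ℝ) :
    ∫ y : Fin N → Ω, Complex.exp (Complex.I * (x * SN u N y : ℝ)) ∂(Measure.pi fun _ => μ) =
      (∫ y, Complex.exp (Complex.I * (x * u y / Real.sqrt N : ℝ)) ∂μ) ^ N := by
  have h1 := integral_fintype_prod_eq_pow (ι := Fin N) (μ := μ)
    (fun y : Ω => Complex.exp (Complex.I * (x * u y / Real.sqrt N : ℝ)))
  rw [Fintype.card_fin] at h1
  rw [← h1]
  congr 1
  ext y
  rw [← Complex.exp_sum]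
  congr 1
  rw [SN]
  push_cast
  simp only [Finset.mul_sum]
  refine Finset.sum_congr rfl fun l _ => by ring

theorem tendsto_charfun_SN (h : Alph μ u) (x : ℝ) :
    Tendsto (fun N : ℕ => ∫ y : Fin N → Ω, Complex.exp (Complex.I * (x * SN u N y : ℝ))
      ∂(Measure.pi fun _ => μ)) atTop (𝓝 (Complex.exp (-(x ^ 2 / 2)))) := by
  have h1 := tendsto_pow_of_taylor h (g := fun z : ℝ => Complex.exp (Complex.I * z))
    (by fun_prop) (a := Complex.I) (b := -(1 / 2)) (C := 4) (by
      intro z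
      have := exp_taylor z
      convert this using 3
      ring) x
  simp only [charfun_SN]
  convert h1 using 3
  ring

/-- `exp (-x²/2) ∏ (1 + i x u_l/√N)` -/
noncomputable def VN (u : Ω → ℝ) (N : ℕ) (x : ℝ) (y : Fin N → Ω) : ℂ :=
  Complex.exp (-(x ^ 2 / 2)) * ∏ l, (1 + (Complex.I * x / (Real.sqrt N : ℝ)) * (u (y l) : ℂ))

theorem measurable_VN (hu : Measurable u) (N : ℕ) (x : ℝ) : Measurable (VN u N x) := by
  unfold VN
  fun_prop

theorem VN_sq (h : Alph μ u) {N : ℕ} (hN : 0 < N) (x : ℝ) :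
    Integrable (fun y => ‖VN u N x y‖ ^ 2) (Measure.pi fun _ => μ) ∧
    ∫ y, ‖VN u N x y‖ ^ 2 ∂(Measure.pi fun _ => μ) ≤ 1 := by
  have hsN : 0 < Real.sqrt N := Real.sqrt_pos.2 (by exact_mod_cast hN)
  have hsN2 : Real.sqrt N ^ 2 = N := Real.sq_sqrt (by positivity)
  have e1 : ∀ z : ℝ, ‖1 + (Complex.I * x / (Real.sqrt N : ℝ)) * (z : ℂ)‖ ^ 2 =
      1 + (x ^ 2 / N) * z ^ 2 := by
    intro z
    have : 1 + (Complex.I * x / (Real.sqrt N : ℝ)) * (z : ℂ) =
        (1 : ℝ) + ((x / Real.sqrt N * z : ℝ) : ℂ) * Complex.I := by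
      push_cast; ring
    rw [this, ← Complex.normSq_eq_norm_sq, Complex.normSq_add_mul_I]
    have hN' : (N : ℝ) = Real.sqrt N ^ 2 := hsN2.symm
    generalize Real.sqrt N = q at hN' ⊢
    rw [hN']
    ring
  have e2 : (fun y : Fin N → Ω => ‖VN u N x y‖ ^ 2) = fun y =>
      Real.exp (-x ^ 2) * ∏ l, (1 + (x ^ 2 / N) * u (y l) ^ 2) := by
    ext y
    rw [VN, norm_mul, mul_pow, Complex.norm_exp, norm_prod, ← Finset.prod_pow]
    congr 1
    · rw [← Real.exp_nat_mul]
      congr 1
      have : (-(x ^ 2 / 2) : ℂ).re = -(x ^ 2 / 2) := by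
        have : (-(x ^ 2 / 2) : ℂ) = ((-(x ^ 2 / 2) : ℝ) : ℂ) := by push_cast; ring
        rw [this, Complex.ofReal_re]
      rw [this]; push_cast; ring
    · exact Finset.prod_congr rfl fun l _ => e1 _
  have i2 := h.int2
  have i3 : Integrable (fun y => 1 + (x ^ 2 / N) * u y ^ 2) μ :=
    (integrable_const 1).add (i2.const_mul _)
  rw [e2]
  refine ⟨(Integrable.fintype_prod (fun _ => i3)).const_mul _, ?_⟩
  rw [integral_const_mul, integral_fintype_prod_eq_pow (ι := Fin N)
    (fun y : Ω => 1 + (x ^ 2 / N) * u y ^ 2), Fintype.card_fin,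
    integral_add (integrable_const 1) (i2.const_mul _), integral_const_mul, h.var]
  have h3 : (1 + x ^ 2 / N) ^ N ≤ Real.exp (x ^ 2) := by
    have h4 : 1 + x ^ 2 / N ≤ Real.exp (x ^ 2 / N) := by
      have := Real.add_one_le_exp (x ^ 2 / N); linarith
    calc (1 + x ^ 2 / N) ^ N ≤ Real.exp (x ^ 2 / N) ^ N := pow_le_pow_left₀ (by positivity) h4 N
      _ = Real.exp (x ^ 2) := by
        rw [← Real.exp_nat_mul]
        congr 1
        have : (N : ℝ) ≠ 0 := by exact_mod_cast hN.ne'
        field_simp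
  calc Real.exp (-x ^ 2) * (∫ _, (1 : ℝ) ∂μ + x ^ 2 / N * 1) ^ N
      = Real.exp (-x ^ 2) * (1 + x ^ 2 / N) ^ N := by simp
    _ ≤ Real.exp (-x ^ 2) * Real.exp (x ^ 2) := by gcongr
    _ = 1 := by rw [← Real.exp_add]; simp

/-- `‖V_N(x) - exp (i x S_N)‖_{L²} → 0`. -/
theorem tendsto_VN (h : Alph μ u) (x : ℝ) :
    Tendsto (fun N : ℕ => lpNorm (fun y : Fin N → Ω => VN u N x y -
      Complex.exp (Complex.I * (x * SN u N y : ℝ))) 2 (Measure.pi fun _ => μ)) atTop (𝓝 0) := by
  -- the mixed term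
  have hmix : Tendsto (fun N : ℕ => ∫ y : Fin N → Ω, VN u N x y *
      Complex.exp (-(Complex.I * (x * SN u N y : ℝ))) ∂(Measure.pi fun _ => μ)) atTop (𝓝 1) := by
    have h1 := tendsto_pow_of_taylor h
      (g := fun z : ℝ => (1 + Complex.I * z) * Complex.exp (-(Complex.I * z)))
      (by fun_prop) (a := 0) (b := 1 / 2) (C := 10) (by
        intro z
        have := psi_taylor z
        convert this using 3
        ring) x
    have h2 := h1.const_mul (Complex.exp (-(x ^ 2 / 2)))
    have e0 : Complex.exp (-((x : ℂ) ^ 2 / 2)) * Complex.exp (1 / 2 * (x : ℂ) ^ 2) = 1 := by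
      rw [← Complex.exp_add]
      have : (-((x : ℂ) ^ 2 / 2) + 1 / 2 * (x : ℂ) ^ 2) = 0 := by ring
      rw [this, Complex.exp_zero]
    rw [e0] at h2
    refine h2.congr fun N => ?_
    have h3 := integral_fintype_prod_eq_pow (ι := Fin N) (μ := μ)
      (fun y : Ω => (1 + Complex.I * ((x * u y / Real.sqrt N : ℝ) : ℂ)) *
        Complex.exp (-(Complex.I * (x * u y / Real.sqrt N : ℝ))))
    rw [Fintype.card_fin] at h3
    rw [← h3, ← integral_const_mul]
    congr 1
    ext y
    rw [VN, Finset.prod_mul_distrib, ← Complex.exp_sum, mul_assoc]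
    congr 2
    · refine Finset.prod_congr rfl fun l _ => ?_
      push_cast
      ring
    · congr 1
      rw [SN]
      push_cast
      simp only [Finset.mul_sum, Finset.sum_neg_distrib]
      congr 1
      refine Finset.sum_congr rfl fun l _ => by ring
  -- squared norm
  have hsq : Tendsto (fun N : ℕ => ∫ y : Fin N → Ω, ‖VN u N x y -
      Complex.exp (Complex.I * (x * SN u N y : ℝ))‖ ^ 2 ∂(Measure.pi fun _ => μ)) atTop (𝓝 0) := by
    have hup : ∀ᶠ N : ℕ in atTop, ∫ y : Fin N → Ω, ‖VN u N x y -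
        Complex.exp (Complex.I * (x * SN u N y : ℝ))‖ ^ 2 ∂(Measure.pi fun _ => μ) ≤
        2 - 2 * (∫ y : Fin N → Ω, VN u N x y *
          Complex.exp (-(Complex.I * (x * SN u N y : ℝ))) ∂(Measure.pi fun _ => μ)).re := by
      filter_upwards [eventually_gt_atTop 0] with N hN
      obtain ⟨i1, b1⟩ := VN_sq h hN x
      have hmV := measurable_VN h.meas N x
      have hmS := measurable_SN h.meas N
      have hVL : MemLp (VN u N x) 2 (Measure.pi fun _ => μ) :=
        (memLp_two_iff_integrable_sq_norm hmV.aestronglyMeasurable).2 i1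
      have i2 : Integrable (fun y : Fin N → Ω => VN u N x y *
          Complex.exp (-(Complex.I * (x * SN u N y : ℝ)))) (Measure.pi fun _ => μ) := by
        refine (hVL.integrable (by norm_num)).mul_bdd (c := 1) ?_ ?_
        · fun_prop
        · refine Eventually.of_forall fun y => ?_
          rw [Complex.norm_exp]; simp
      have e3 : ∀ y : Fin N → Ω, ‖VN u N x y -
          Complex.exp (Complex.I * (x * SN u N y : ℝ))‖ ^ 2 =
          ‖VN u N x y‖ ^ 2 + 1 - 2 * (VN u N x y *
            Complex.exp (-(Complex.I * (x * SN u N y : ℝ)))).re := by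
        intro y
        have hn : Complex.normSq (Complex.exp (Complex.I * (x * SN u N y : ℝ))) = 1 := by
          rw [Complex.normSq_eq_norm_sq, Complex.norm_exp]; simp
        have hconj : (starRingEnd ℂ) (Complex.exp (Complex.I * (x * SN u N y : ℝ))) =
            Complex.exp (-(Complex.I * (x * SN u N y : ℝ))) := by
          rw [← Complex.exp_conj]
          congr 1
          simp
        rw [← Complex.normSq_eq_norm_sq, Complex.normSq_sub, hn, Complex.normSq_eq_norm_sq, hconj]
      simp only [e3]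
      have i3 : Integrable (fun y : Fin N → Ω => 2 * (VN u N x y *
          Complex.exp (-(Complex.I * (x * SN u N y : ℝ)))).re) (Measure.pi fun _ => μ) :=
        i2.re.const_mul 2
      have i4 : Integrable (fun y : Fin N → Ω => ‖VN u N x y‖ ^ 2 + 1) (Measure.pi fun _ => μ) :=
        i1.add (integrable_const 1)
      rw [integral_sub i4 i3, integral_add i1 (integrable_const 1), integral_const_mul]
      have e4 : ∫ y : Fin N → Ω, (VN u N x y *
          Complex.exp (-(Complex.I * (x * SN u N y : ℝ)))).re ∂(Measure.pi fun _ => μ) =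
          (∫ y : Fin N → Ω, VN u N x y *
          Complex.exp (-(Complex.I * (x * SN u N y : ℝ))) ∂(Measure.pi fun _ => μ)).re :=
        integral_re i2
      rw [e4]
      simp
      linarith
    have hlim : Tendsto (fun N : ℕ => 2 - 2 * (∫ y : Fin N → Ω, VN u N x y *
          Complex.exp (-(Complex.I * (x * SN u N y : ℝ))) ∂(Measure.pi fun _ => μ)).re)
          atTop (𝓝 0) := by
      have h5 := ((Complex.continuous_re.tendsto 1).comp hmix).const_mul 2 |>.const_sub 2
      simpa using h5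
    exact tendsto_of_tendsto_of_tendsto_of_le_of_le' tendsto_const_nhds hlim
      (Eventually.of_forall fun N => integral_nonneg fun y => by positivity) hup
  have hfin : ∀ N : ℕ, lpNorm (fun y : Fin N → Ω => VN u N x y -
      Complex.exp (Complex.I * (x * SN u N y : ℝ))) 2 (Measure.pi fun _ => μ) =
      (∫ y : Fin N → Ω, ‖VN u N x y -
        Complex.exp (Complex.I * (x * SN u N y : ℝ))‖ ^ 2 ∂(Measure.pi fun _ => μ)) ^
        (2 : ℝ)⁻¹ := by
    intro N
    have hmV := measurable_VN h.meas N x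
    have hmS := measurable_SN h.meas N
    rw [lpNorm_eq_integral_norm_rpow_toReal (by norm_num) (by norm_num)
      (by fun_prop : Measurable fun y : Fin N → Ω => VN u N x y -
        Complex.exp (Complex.I * (x * SN u N y : ℝ))).aestronglyMeasurable]
    simp
  simp only [hfin]
  have := hsq.rpow_const (p := (2 : ℝ)⁻¹) (Or.inr (by norm_num))
  simpa using this

end Pool.Agent.H93.RH
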