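import Mathlib
import Pool.Agent.H93.RHClt

/-!
# The gadget: a multilinear polynomial of low degree which is close to `√2 cos (ω S_N)`
-/

set_option autoImplicit false

open MeasureTheory Finset Filter Topology
open scoped ENNReal

namespace Pool.Agent.H93.RH

theorem tau_pos {p : ℝ} (hp1 : 1 ≤ p) (hp2 : p < 2) : 0 < tau p := by
  rw [tau]
  have : 0 < 1 - p / 2 := by linarith
  positivity

theorem tau_le {p : ℝ} (hp1 : 1 ≤ p) (hp2 : p < 2) : tau p ≤ 1 := by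
  rw [tau, div_le_one (by linarith)]
  nlinarith

/-- the gain: `λ = 1 - τ/2 < 1` -/
noncomputable def lam (p : ℝ) : ℝ := 1 - tau p / 2

/-- dilation parameter -/
noncomputable def rr (t ω : ℝ) : ℝ := Real.sqrt (1 + 2 * t / ω ^ 2)

theorem rr_sq {t ω : ℝ} (ht : 0 ≤ t) : rr t ω ^ 2 = 1 + 2 * t / ω ^ 2 :=
  Real.sq_sqrt (by positivity)

theorem one_le_rr {t ω : ℝ} (ht : 0 ≤ t) : 1 ≤ rr t ω := by
  rw [rr, Real.one_le_sqrt]
  have : 0 ≤ 2 * t / ω ^ 2 := by positivity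
  linarith

theorem rr_le_exp {t ω : ℝ} (ht : 0 ≤ t) : rr t ω ≤ Real.exp (t / ω ^ 2) := by
  rw [rr, Real.sqrt_le_left (Real.exp_pos _).le, ← Real.exp_nat_mul]
  have := Real.add_one_le_exp (2 * t / ω ^ 2)
  calc 1 + 2 * t / ω ^ 2 ≤ Real.exp (2 * t / ω ^ 2) := by linarith
    _ = _ := by congr 1; push_cast; ring

theorem rr_sub_le {t ω : ℝ} (ht : 0 ≤ t) (hω : 0 < ω) : (rr t ω - 1) * ω ≤ t / ω := by
  have h1 := one_le_rr (ω := ω) ht
  have h2 := rr_sq (ω := ω) ht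
  have h3 : rr t ω - 1 ≤ t / ω ^ 2 := by
    have e : 2 * t / ω ^ 2 = 2 * (t / ω ^ 2) := by ring
    rw [e] at h2
    nlinarith
  calc (rr t ω - 1) * ω ≤ (t / ω ^ 2) * ω := by gcongr
    _ = t / ω := by field_simp

variable {Ω : Type} [MeasurableSpace Ω] {μ : Measure Ω} [IsProbabilityMeasure μ] {u : Ω → ℝ}

/-- The size of the truncation error. -/
theorem trunc_small (h : Alph μ u) {p : ℝ} (hp1 : 1 ≤ p) (hp2 : p < 2) {t ω : ℝ} (ht : 0 ≤ t)
    (hω : 0 < ω) {N : ℕ} (hN : 0 < N)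
    (hN2 : tau p * (rr t ω * ((1 + tau p / 4) * ω)) ^ 3 * (∫ y, |u y| ^ 3 ∂μ) ≤ Real.sqrt N) :
    Real.exp (-((1 - tau p) * ω ^ 2 / 2)) *
      lpNorm (fun y => full p u N (rr t ω) (Complex.I * ω) y -
        trunc p u N ⌊lam p * ω ^ 2⌋₊ (rr t ω) (Complex.I * ω) y) (ENNReal.ofReal p)
        (Measure.pi fun _ => μ) ≤
      Real.exp (4 * t + 1) * ((1 + tau p / 4) / (tau p / 4)) *
        Real.exp (-(tau p ^ 2 / 16) * ω ^ 2) := by
  have hτ := tau_pos hp1 hp2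
  have hτ1 := tau_le hp1 hp2
  set τ := tau p with hτdef
  set x := τ / 4 with hx
  have hx0 : 0 < x := by positivity
  have hx1 : x ≤ 1 / 4 := by rw [hx]; linarith
  have hR : 0 < (1 + x) * ω := by positivity
  have hn : ‖Complex.I * (ω : ℂ)‖ = ω := by
    simp [abs_of_pos hω]
  have hs : ‖Complex.I * (ω : ℂ)‖ < (1 + x) * ω := by rw [hn]; nlinarith
  have h1 := trunc_error h hp1 hp2 hN (one_le_rr (ω := ω) ht) hR (Complex.I * ω) hs
    ⌊lam p * ω ^ 2⌋₊ hN2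
  rw [hn, rr_sq ht, ← hτdef] at h1
  have hq : ω / ((1 + x) * ω) = (1 + x)⁻¹ := by field_simp
  rw [hq] at h1
  -- bound of the power
  have hk : lam p * ω ^ 2 ≤ ((⌊lam p * ω ^ 2⌋₊ + 1 : ℕ) : ℝ) := by
    push_cast
    exact (Nat.lt_floor_add_one _).le
  have hlog : 2 * x / (x + 2) ≤ Real.log (1 + x) := Real.le_log_one_add_of_nonneg hx0.le
  have hlog0 : 0 ≤ Real.log (1 + x) := Real.log_nonneg (by linarith)
  have hpow : ((1 + x)⁻¹) ^ (⌊lam p * ω ^ 2⌋₊ + 1) ≤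
      Real.exp (-(lam p * ω ^ 2 * Real.log (1 + x))) := by
    rw [inv_pow, ← Real.exp_log (pow_pos (by linarith : 0 < 1 + x) _), ← Real.exp_neg,
      Real.log_pow]
    refine Real.exp_le_exp.2 (neg_le_neg ?_)
    exact mul_le_mul_of_nonneg_right hk hlog0
  have hden : 1 - (1 + x)⁻¹ = x / (1 + x) := by field_simp; ring
  rw [hden] at h1
  refine (mul_le_mul_of_nonneg_left h1 (Real.exp_pos _).le).trans ?_
  have e1 : Real.exp (-((1 - τ) * ω ^ 2 / 2)) *
      (Real.exp ((1 + 2 * t / ω ^ 2 - 1) * ((1 + x) * ω) ^ 2 / 2 +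
        (1 - τ) * ((1 + x) * ω) ^ 2 / 2 + 1) *
        ((1 + x)⁻¹) ^ (⌊lam p * ω ^ 2⌋₊ + 1) / (x / (1 + x))) ≤
      Real.exp (-((1 - τ) * ω ^ 2 / 2)) *
      (Real.exp ((1 + 2 * t / ω ^ 2 - 1) * ((1 + x) * ω) ^ 2 / 2 +
        (1 - τ) * ((1 + x) * ω) ^ 2 / 2 + 1) *
        Real.exp (-(lam p * ω ^ 2 * Real.log (1 + x))) / (x / (1 + x))) := by
    gcongr
  refine e1.trans ?_
  have e2 : Real.exp (-((1 - τ) * ω ^ 2 / 2)) *
      (Real.exp ((1 + 2 * t / ω ^ 2 - 1) * ((1 + x) * ω) ^ 2 / 2 +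
        (1 - τ) * ((1 + x) * ω) ^ 2 / 2 + 1) *
        Real.exp (-(lam p * ω ^ 2 * Real.log (1 + x))) / (x / (1 + x))) =
      ((1 + x) / x) * Real.exp (-((1 - τ) * ω ^ 2 / 2) +
        ((1 + 2 * t / ω ^ 2 - 1) * ((1 + x) * ω) ^ 2 / 2 +
        (1 - τ) * ((1 + x) * ω) ^ 2 / 2 + 1) + -(lam p * ω ^ 2 * Real.log (1 + x))) := by
    have gen : ∀ a b c : ℝ, Real.exp a * (Real.exp b * Real.exp c / (x / (1 + x))) =
        ((1 + x) / x) * Real.exp (a + b + c) := by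
      intro a b c
      rw [Real.exp_add (a + b) c, Real.exp_add a b]
      field_simp
    exact gen _ _ _
  rw [e2]
  have e3 : Real.exp (4 * t + 1) * ((1 + x) / x) * Real.exp (-(τ ^ 2 / 16) * ω ^ 2) =
      ((1 + x) / x) * Real.exp (4 * t + 1 + -(τ ^ 2 / 16) * ω ^ 2) := by
    rw [Real.exp_add (4 * t + 1)]; ring
  rw [e3]
  refine mul_le_mul_of_nonneg_left (Real.exp_le_exp.2 ?_) (by positivity)
  have e4 : (1 + 2 * t / ω ^ 2 - 1) * ((1 + x) * ω) ^ 2 / 2 = t * (1 + x) ^ 2 := by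
    field_simp
    ring
  rw [e4]
  have e5 : t * (1 + x) ^ 2 ≤ 4 * t := by
    have : (1 + x) ^ 2 ≤ 4 := by nlinarith
    nlinarith
  have hlam : lam p = 1 - 2 * x := by rw [lam, ← hτdef, hx]; ring
  have hτx : τ = 4 * x := by rw [hx]; ring
  have h2 : x - x ^ 2 / 2 ≤ Real.log (1 + x) := by
    refine le_trans ?_ hlog
    rw [le_div_iff₀ (by linarith)]
    nlinarith [pow_pos hx0 3]
  have hl0 : 0 ≤ lam p := by rw [hlam]; linarith
  have h3 : lam p * ω ^ 2 * (x - x ^ 2 / 2) ≤ lam p * ω ^ 2 * Real.log (1 + x) :=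
    mul_le_mul_of_nonneg_left h2 (by positivity)
  have h4 : -((1 - τ) * ω ^ 2 / 2) + (1 - τ) * ((1 + x) * ω) ^ 2 / 2 -
      lam p * ω ^ 2 * (x - x ^ 2 / 2) ≤ -(τ ^ 2 / 16) * ω ^ 2 := by
    rw [hlam, hτx]
    have : -((1 - 4 * x) * ω ^ 2 / 2) + (1 - 4 * x) * ((1 + x) * ω) ^ 2 / 2 -
      (1 - 2 * x) * ω ^ 2 * (x - x ^ 2 / 2) - (-((4 * x) ^ 2 / 16) * ω ^ 2) =
      ω ^ 2 * (-(3 * x ^ 3)) := by ring
    nlinarith [pow_pos hx0 3, sq_nonneg ω, mul_nonneg (sq_nonneg ω) (pow_pos hx0 3).le]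
  linarith

/-- `exp(-(1-τ)ω²/2) full = exp t V_N(r ω)` -/
theorem full_VN {p : ℝ} {t ω : ℝ} (ht : 0 ≤ t) (hω : 0 < ω) (N : ℕ) (y : Fin N → Ω) :
    ((Real.exp (-((1 - tau p) * ω ^ 2 / 2)) : ℝ) : ℂ) *
      full p u N (rr t ω) (Complex.I * ω) y = Complex.exp t * VN u N (rr t ω * ω) y := by
  have h2 := rr_sq (ω := ω) ht
  have h3 : (rr t ω * ω) ^ 2 = ω ^ 2 + 2 * t := by
    rw [mul_pow, h2]; field_simp
  have h4 : ((rr t ω * ω : ℝ) : ℂ) ^ 2 = (ω : ℂ) ^ 2 + 2 * t := by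
    rw [← Complex.ofReal_pow, h3]; push_cast; ring
  have h5 : ∏ l, (1 + (((rr t ω : ℝ) : ℂ) * (Complex.I * ω) / (Real.sqrt N : ℝ)) * (u (y l) : ℂ)) =
      ∏ l, (1 + (Complex.I * ((rr t ω * ω : ℝ) : ℂ) / (Real.sqrt N : ℝ)) * (u (y l) : ℂ)) := by
    refine Finset.prod_congr rfl fun l _ => ?_
    push_cast
    ring
  have h6 : Complex.exp (((-((1 - tau p) * ω ^ 2 / 2) : ℝ) : ℂ)) *
      Complex.exp (tau p * (Complex.I * ω) ^ 2 / 2) =
      Complex.exp t * Complex.exp (-(((rr t ω * ω : ℝ) : ℂ) ^ 2 / 2)) := by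
    rw [← Complex.exp_add, ← Complex.exp_add, h4]
    congr 1
    push_cast
    linear_combination ((tau p : ℂ) * ω ^ 2 / 2) * Complex.I_sq
  rw [full, VN, Complex.ofReal_exp, h5]
  linear_combination (∏ l, (1 + (Complex.I * ((rr t ω * ω : ℝ) : ℂ) / (Real.sqrt N : ℝ)) *
    (u (y l) : ℂ))) * h6

/-- coefficients of the gadget -/
noncomputable def bb (p : ℝ) (N k : ℕ) (ω : ℝ) (T : Finset (Fin N)) : ℝ :=
  Real.sqrt 2 * (((Real.exp (-((1 - tau p) * ω ^ 2 / 2)) : ℝ) : ℂ) *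
    tr (tau p) T.card k (Complex.I * ω)).re / Real.sqrt N ^ T.card

theorem bb_zero (p : ℝ) (N k : ℕ) (ω : ℝ) (T : Finset (Fin N)) (hT : k < T.card) :
    bb p N k ω T = 0 := by
  rw [bb, tr_zero _ hT]
  simp

theorem ml_bb (p : ℝ) (N k : ℕ) (ω r : ℝ) (y : Fin N → Ω) :
    ml (bb p N k ω) (fun l => r * u (y l)) =
      Real.sqrt 2 * (((Real.exp (-((1 - tau p) * ω ^ 2 / 2)) : ℝ) : ℂ) *
        trunc p u N k r (Complex.I * ω) y).re := by
  rw [ml, trunc, Finset.mul_sum, Complex.re_sum, Finset.mul_sum]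
  refine Finset.sum_congr rfl fun T _ => ?_
  have e : ((Real.exp (-((1 - tau p) * ω ^ 2 / 2)) : ℝ) : ℂ) *
      (tr (tau p) T.card k (Complex.I * ω) * ((r : ℂ) ^ T.card *
        ∏ l ∈ T, ((u (y l) / Real.sqrt N : ℝ) : ℂ))) =
      (((Real.exp (-((1 - tau p) * ω ^ 2 / 2)) : ℝ) : ℂ) *
      tr (tau p) T.card k (Complex.I * ω)) *
        ((r ^ T.card * ∏ l ∈ T, (u (y l) / Real.sqrt N) : ℝ) : ℂ) := by
    push_cast
    ring
  rw [e, Complex.re_mul_ofReal, bb, Finset.prod_div_distrib, Finset.prod_mul_distrib,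
    Finset.prod_const, Finset.prod_const]
  ring

/-- error of the gadget -/
theorem gadget_error (h : Alph μ u) {p : ℝ} (hp1 : 1 ≤ p) (hp2 : p < 2) {t ω : ℝ} (ht : 0 ≤ t)
    (hω : 0 < ω) {N : ℕ} (hN : 0 < N)
    (hN2 : tau p * (rr t ω * ((1 + tau p / 4) * ω)) ^ 3 * (∫ y, |u y| ^ 3 ∂μ) ≤ Real.sqrt N) :
    lpNorm (fun y : Fin N → Ω => ml (bb p N ⌊lam p * ω ^ 2⌋₊ ω) (fun l => rr t ω * u (y l)) -
      Real.exp t * (Real.sqrt 2 * Real.cos (ω * SN u N y))) (ENNReal.ofReal p)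
      (Measure.pi fun _ => μ) ≤
      Real.sqrt 2 * (Real.exp (4 * t + 1) * ((1 + tau p / 4) / (tau p / 4)) *
        Real.exp (-(tau p ^ 2 / 16) * ω ^ 2) +
        Real.exp t * lpNorm (fun y : Fin N → Ω => VN u N (rr t ω * ω) y -
          Complex.exp (Complex.I * (rr t ω * ω * SN u N y : ℝ))) 2 (Measure.pi fun _ => μ) +
        Real.exp t * lpNorm (fun y : Fin N → Ω =>
          Complex.exp (Complex.I * (rr t ω * ω * SN u N y : ℝ)) -
          Complex.exp (Complex.I * (ω * SN u N y : ℝ))) 2 (Measure.pi fun _ => μ)) := by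
  have hP1 : 1 ≤ ENNReal.ofReal p := by
    rw [← ENNReal.ofReal_one]; exact ENNReal.ofReal_le_ofReal hp1
  have hP2 : ENNReal.ofReal p ≤ 2 := by
    calc ENNReal.ofReal p ≤ ENNReal.ofReal 2 := ENNReal.ofReal_le_ofReal hp2.le
      _ = 2 := by norm_num
  set k := ⌊lam p * ω ^ 2⌋₊ with hk
  set r := rr t ω with hr
  set E : ℝ := Real.exp (-((1 - tau p) * ω ^ 2 / 2)) with hE
  have hE0 : 0 < E := Real.exp_pos _
  let ν : Measure (Fin N → Ω) := Measure.pi fun _ => μ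
  have hmS := measurable_SN h.meas N
  have hmV := measurable_VN h.meas N (r * ω)
  have hmF := measurable_full h.meas p N r (Complex.I * ω)
  have hmT := measurable_trunc h.meas p N k r (Complex.I * ω)
  -- the three pieces
  let g1 : (Fin N → Ω) → ℂ := fun y => full p u N r (Complex.I * ω) y -
    trunc p u N k r (Complex.I * ω) y
  let g2 : (Fin N → Ω) → ℂ := fun y => VN u N (r * ω) y -
    Complex.exp (Complex.I * (r * ω * SN u N y : ℝ))
  let g3 : (Fin N → Ω) → ℂ := fun y => Complex.exp (Complex.I * (r * ω * SN u N y : ℝ)) -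
    Complex.exp (Complex.I * (ω * SN u N y : ℝ))
  have hm1 : Measurable g1 := hmF.sub hmT
  have hm2 : Measurable g2 := by fun_prop
  have hm3 : Measurable g3 := by fun_prop
  have hexpL : ∀ c : ℝ, MemLp (fun y : Fin N → Ω => Complex.exp (Complex.I * (c * SN u N y : ℝ)))
      2 ν := by
    intro c
    refine MemLp.of_bound (by fun_prop : Measurable fun y : Fin N → Ω =>
      Complex.exp (Complex.I * (c * SN u N y : ℝ))).aestronglyMeasurable 1
      (Eventually.of_forall fun y => ?_)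
    rw [Complex.norm_exp]; simp
  have hVL : MemLp (VN u N (r * ω)) 2 ν :=
    (memLp_two_iff_integrable_sq_norm hmV.aestronglyMeasurable).2 (VN_sq h hN (r * ω)).1
  have hL2 : MemLp g2 2 ν := hVL.sub (hexpL (r * ω))
  have hL3 : MemLp g3 2 ν := (hexpL (r * ω)).sub (hexpL ω)
  have hFT : MemLp (fun y : Fin N → Ω => full p u N r (Complex.I * ω) y) (ENNReal.ofReal p) ν := by
    have e : (fun y : Fin N → Ω => full p u N r (Complex.I * ω) y) = fun y =>
        ∑ T : Finset (Fin N), phi (tau p) T.card (Complex.I * ω) * ((r : ℂ) ^ T.card *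
      ∏ l ∈ T, ((u (y l) / Real.sqrt N : ℝ) : ℂ)) := by
      ext y; exact full_eq p N r _ y
    rw [e]
    exact memLp_finsetSum _ fun T _ => (memLp_piece h hp1 hp2 r T).const_mul _
  have hTT : MemLp (fun y : Fin N → Ω => trunc p u N k r (Complex.I * ω) y)
      (ENNReal.ofReal p) ν := by
    unfold trunc
    exact memLp_finsetSum _ fun T _ => (memLp_piece h hp1 hp2 r T).const_mul _
  have hL1 : MemLp g1 (ENNReal.ofReal p) ν := hFT.sub hTT
  have hL2' : MemLp g2 (ENNReal.ofReal p) ν := hL2.mono_exponent hP2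
  have hL3' : MemLp g3 (ENNReal.ofReal p) ν := hL3.mono_exponent hP2
  -- pointwise bound
  let G : (Fin N → Ω) → ℝ := (fun y => (Real.sqrt 2 * E) * ‖g1 y‖) +
    ((fun y => (Real.sqrt 2 * Real.exp t) * ‖g2 y‖) + (fun y => (Real.sqrt 2 * Real.exp t) * ‖g3 y‖))
  have hG1 : MemLp (fun y => (Real.sqrt 2 * E) * ‖g1 y‖) (ENNReal.ofReal p) ν :=
    hL1.norm.const_mul _
  have hG2 : MemLp (fun y => (Real.sqrt 2 * Real.exp t) * ‖g2 y‖) (ENNReal.ofReal p) ν :=
    hL2'.norm.const_mul _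
  have hG3 : MemLp (fun y => (Real.sqrt 2 * Real.exp t) * ‖g3 y‖) (ENNReal.ofReal p) ν :=
    hL3'.norm.const_mul _
  have hpt : ∀ y, ‖ml (bb p N k ω) (fun l => r * u (y l)) -
      Real.exp t * (Real.sqrt 2 * Real.cos (ω * SN u N y))‖ ≤ G y := by
    intro y
    have e1 : Real.cos (ω * SN u N y) =
        (Complex.exp (Complex.I * (ω * SN u N y : ℝ))).re := by
      rw [mul_comm Complex.I, Complex.exp_ofReal_mul_I_re]
    have e2 : ml (bb p N k ω) (fun l => r * u (y l)) -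
        Real.exp t * (Real.sqrt 2 * Real.cos (ω * SN u N y)) =
        Real.sqrt 2 * ((E : ℂ) * trunc p u N k r (Complex.I * ω) y -
          (Real.exp t : ℂ) * Complex.exp (Complex.I * (ω * SN u N y : ℝ))).re := by
      rw [ml_bb, e1, Complex.sub_re, Complex.re_ofReal_mul (Real.exp t), ← hE]
      ring
    have e3 : (E : ℂ) * trunc p u N k r (Complex.I * ω) y -
          (Real.exp t : ℂ) * Complex.exp (Complex.I * (ω * SN u N y : ℝ)) =
        -((E : ℂ) * g1 y) + ((Real.exp t : ℂ) * g2 y + (Real.exp t : ℂ) * g3 y) := by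
      have h5 := full_VN (p := p) (u := u) ht hω N y
      rw [← hE, ← hr] at h5
      simp only [g1, g2, g3]
      rw [Complex.ofReal_exp t]
      linear_combination h5
    rw [e2, Real.norm_eq_abs, abs_mul, abs_of_nonneg (Real.sqrt_nonneg 2)]
    have h6 := Complex.abs_re_le_norm ((E : ℂ) * trunc p u N k r (Complex.I * ω) y -
          (Real.exp t : ℂ) * Complex.exp (Complex.I * (ω * SN u N y : ℝ)))
    have h7 : ‖(E : ℂ) * trunc p u N k r (Complex.I * ω) y -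
          (Real.exp t : ℂ) * Complex.exp (Complex.I * (ω * SN u N y : ℝ))‖ ≤
        E * ‖g1 y‖ + (Real.exp t * ‖g2 y‖ + Real.exp t * ‖g3 y‖) := by
      rw [e3]
      refine (norm_add_le _ _).trans ?_
      refine add_le_add ?_ ((norm_add_le _ _).trans ?_)
      · rw [norm_neg, norm_mul, Complex.norm_real, Real.norm_of_nonneg hE0.le]
      · rw [norm_mul, norm_mul, Complex.norm_real, Real.norm_of_nonneg (Real.exp_pos t).le]
    calc Real.sqrt 2 * |_| ≤ Real.sqrt 2 * (E * ‖g1 y‖ + (Real.exp t * ‖g2 y‖ +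
          Real.exp t * ‖g3 y‖)) := by
          refine mul_le_mul_of_nonneg_left (h6.trans h7) (Real.sqrt_nonneg 2)
      _ = G y := by simp only [G, Pi.add_apply]; ring
  have hGL : MemLp G (ENNReal.ofReal p) ν := hG1.add (hG2.add hG3)
  refine (lpNorm_mono_real hGL hpt).trans ?_
  have h8 : lpNorm G (ENNReal.ofReal p) ν ≤
      (Real.sqrt 2 * E) * lpNorm g1 (ENNReal.ofReal p) ν +
      ((Real.sqrt 2 * Real.exp t) * lpNorm g2 (ENNReal.ofReal p) ν +
        (Real.sqrt 2 * Real.exp t) * lpNorm g3 (ENNReal.ofReal p) ν) := by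
    refine (lpNorm_add_le hG1 hP1).trans (add_le_add ?_ ((lpNorm_add_le hG2 hP1).trans
      (add_le_add ?_ ?_)))
    · rw [lpNorm_const_mul', lpNorm_norm hm1.aestronglyMeasurable, abs_of_nonneg (by positivity)]
    · rw [lpNorm_const_mul', lpNorm_norm hm2.aestronglyMeasurable, abs_of_nonneg (by positivity)]
    · rw [lpNorm_const_mul', lpNorm_norm hm3.aestronglyMeasurable, abs_of_nonneg (by positivity)]
  refine h8.trans ?_
  have h9 := trunc_small h hp1 hp2 ht hω hN hN2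
  have h10 : lpNorm g2 (ENNReal.ofReal p) ν ≤ lpNorm g2 2 ν := lpNorm_mono_of_le hP2 hL2
  have h11 : lpNorm g3 (ENNReal.ofReal p) ν ≤ lpNorm g3 2 ν := lpNorm_mono_of_le hP2 hL3
  have h12 : E * lpNorm g1 (ENNReal.ofReal p) ν ≤ Real.exp (4 * t + 1) *
      ((1 + tau p / 4) / (tau p / 4)) * Real.exp (-(tau p ^ 2 / 16) * ω ^ 2) := h9
  have hs2 := Real.sqrt_nonneg 2
  have het := (Real.exp_pos t).le
  calc (Real.sqrt 2 * E) * lpNorm g1 (ENNReal.ofReal p) ν +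
      ((Real.sqrt 2 * Real.exp t) * lpNorm g2 (ENNReal.ofReal p) ν +
        (Real.sqrt 2 * Real.exp t) * lpNorm g3 (ENNReal.ofReal p) ν)
      = Real.sqrt 2 * (E * lpNorm g1 (ENNReal.ofReal p) ν +
        Real.exp t * lpNorm g2 (ENNReal.ofReal p) ν +
        Real.exp t * lpNorm g3 (ENNReal.ofReal p) ν) := by ring
    _ ≤ _ := by gcongr

end Pool.Agent.H93.RH
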