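import Mathlib
import Pool.Agent.H93.RHGadget

/-!
# The gadget works for large `ω` and `N`
-/

set_option autoImplicit false

open MeasureTheory Finset Filter Topology
open scoped ENNReal

namespace Pool.Agent.H93.RH

variable {Ω : Type} [MeasurableSpace Ω] {μ : Measure Ω} [IsProbabilityMeasure μ] {u : Ω → ℝ}

/-- `‖exp(i a S_N) - exp(i b S_N)‖_{L²}` converges. -/
theorem tendsto_phase (h : Alph μ u) (a b : ℝ) :
    Tendsto (fun N : ℕ => lpNorm (fun y : Fin N → Ω =>
      Complex.exp (Complex.I * (a * SN u N y : ℝ)) - Complex.exp (Complex.I * (b * SN u N y : ℝ)))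
      2 (Measure.pi fun _ => μ)) atTop
      (𝓝 ((2 - 2 * Real.exp (-((a - b) ^ 2 / 2))) ^ (2 : ℝ)⁻¹)) := by
  have hfin : ∀ N : ℕ, lpNorm (fun y : Fin N → Ω =>
      Complex.exp (Complex.I * (a * SN u N y : ℝ)) - Complex.exp (Complex.I * (b * SN u N y : ℝ)))
      2 (Measure.pi fun _ => μ) =
      (2 - 2 * (∫ y : Fin N → Ω, Complex.exp (Complex.I * ((a - b) * SN u N y : ℝ))
        ∂(Measure.pi fun _ => μ)).re) ^ (2 : ℝ)⁻¹ := by
    intro N
    have hmS := measurable_SN h.meas N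
    rw [lpNorm_eq_integral_norm_rpow_toReal (by norm_num) (by norm_num)
      (by fun_prop : Measurable fun y : Fin N → Ω => Complex.exp (Complex.I * (a * SN u N y : ℝ)) -
        Complex.exp (Complex.I * (b * SN u N y : ℝ))).aestronglyMeasurable]
    have e1 : ∀ y : Fin N → Ω, ‖Complex.exp (Complex.I * (a * SN u N y : ℝ)) -
        Complex.exp (Complex.I * (b * SN u N y : ℝ))‖ ^ (ENNReal.toReal 2) =
        2 - 2 * (Complex.exp (Complex.I * ((a - b) * SN u N y : ℝ))).re := by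
      intro y
      have hn : ∀ c : ℝ, Complex.normSq (Complex.exp (Complex.I * (c * SN u N y : ℝ))) = 1 := by
        intro c
        rw [Complex.normSq_eq_norm_sq, Complex.norm_exp]; simp
      have hconj : Complex.exp (Complex.I * (a * SN u N y : ℝ)) *
          (starRingEnd ℂ) (Complex.exp (Complex.I * (b * SN u N y : ℝ))) =
          Complex.exp (Complex.I * ((a - b) * SN u N y : ℝ)) := by
        rw [← Complex.exp_conj, ← Complex.exp_add]
        congr 1
        simp
        ring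
      have e2 : (ENNReal.toReal 2) = ((2 : ℕ) : ℝ) := by simp
      rw [e2, Real.rpow_natCast, ← Complex.normSq_eq_norm_sq, Complex.normSq_sub, hn, hn, hconj]
      ring
    simp only [e1]
    have i2 : Integrable (fun y : Fin N → Ω => Complex.exp (Complex.I * ((a - b) * SN u N y : ℝ)))
        (Measure.pi fun _ => μ) := by
      refine Integrable.of_bound (by fun_prop : Measurable fun y : Fin N → Ω =>
        Complex.exp (Complex.I * ((a - b) * SN u N y : ℝ))).aestronglyMeasurable 1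
        (Eventually.of_forall fun y => ?_)
      rw [Complex.norm_exp]; simp
    have i3 : Integrable (fun y : Fin N → Ω =>
        2 * (Complex.exp (Complex.I * ((a - b) * SN u N y : ℝ))).re) (Measure.pi fun _ => μ) :=
      i2.re.const_mul 2
    rw [integral_sub (integrable_const 2) i3, integral_const_mul]
    have e4 : ∫ y : Fin N → Ω, (Complex.exp (Complex.I * ((a - b) * SN u N y : ℝ))).re
        ∂(Measure.pi fun _ => μ) = (∫ y : Fin N → Ω,
          Complex.exp (Complex.I * ((a - b) * SN u N y : ℝ)) ∂(Measure.pi fun _ => μ)).re :=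
      integral_re i2
    rw [e4]
    simp
  simp only [hfin]
  refine Tendsto.rpow_const ?_ (Or.inr (by norm_num))
  have h1 := tendsto_charfun_SN h (a - b)
  have h2 := ((Complex.continuous_re.tendsto _).comp h1).const_mul 2 |>.const_sub 2
  have e : (Complex.exp (-(((a - b : ℝ) : ℂ) ^ 2 / 2))).re = Real.exp (-((a - b) ^ 2 / 2)) := by
    have : (-(((a - b : ℝ) : ℂ) ^ 2 / 2)) = ((-((a - b) ^ 2 / 2) : ℝ) : ℂ) := by push_cast; ring
    rw [this, Complex.exp_ofReal_re]
  rw [e] at h2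
  exact h2

theorem phase_bound (x : ℝ) (hx : 0 ≤ x) :
    (2 - 2 * Real.exp (-(x ^ 2 / 2))) ^ (2 : ℝ)⁻¹ ≤ x := by
  have h1 : 2 - 2 * Real.exp (-(x ^ 2 / 2)) ≤ x ^ 2 := by
    have := Real.add_one_le_exp (-(x ^ 2 / 2))
    linarith
  have h0 : 0 ≤ 2 - 2 * Real.exp (-(x ^ 2 / 2)) := by
    have : Real.exp (-(x ^ 2 / 2)) ≤ 1 := Real.exp_le_one_iff.2 (by nlinarith [sq_nonneg x])
    linarith
  calc (2 - 2 * Real.exp (-(x ^ 2 / 2))) ^ (2 : ℝ)⁻¹ ≤ (x ^ 2) ^ (2 : ℝ)⁻¹ :=
        Real.rpow_le_rpow h0 h1 (by norm_num)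
    _ = x := by
        rw [← Real.rpow_natCast x 2, ← Real.rpow_mul hx]; norm_num

theorem gadget_event (h : Alph μ u) {p : ℝ} (hp1 : 1 ≤ p) (hp2 : p < 2) {t : ℝ} (ht : 0 ≤ t)
    {ε : ℝ} (hε : 0 < ε) : ∀ᶠ ω : ℝ in atTop, ∀ᶠ N : ℕ in atTop,
    lpNorm (fun y : Fin N → Ω => ml (bb p N ⌊lam p * ω ^ 2⌋₊ ω) (fun l => rr t ω * u (y l)) -
      Real.exp t * (Real.sqrt 2 * Real.cos (ω * SN u N y))) (ENNReal.ofReal p)
      (Measure.pi fun _ => μ) ≤ ε := by
  have hτ := tau_pos hp1 hp2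
  set C : ℝ := Real.exp (4 * t + 1) * ((1 + tau p / 4) / (tau p / 4)) with hC
  set K : ℝ := Real.sqrt 2 * Real.exp t with hK
  have hK0 : 0 < K := by positivity
  have l1 : Tendsto (fun ω : ℝ => Real.sqrt 2 * (C * Real.exp (-(tau p ^ 2 / 16) * ω ^ 2))) atTop
      (𝓝 0) := by
    have h1 : Tendsto (fun ω : ℝ => -(tau p ^ 2 / 16) * ω ^ 2) atTop atBot := by
      have h2 : Tendsto (fun ω : ℝ => ω ^ 2) atTop atTop := tendsto_pow_atTop (by norm_num)
      exact h2.const_mul_atTop_of_neg (by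
        have : 0 < tau p ^ 2 / 16 := by positivity
        linarith)
    have h3 := ((Real.tendsto_exp_atBot.comp h1).const_mul C).const_mul (Real.sqrt 2)
    simpa using h3
  have l2 : Tendsto (fun ω : ℝ => K * (t / ω)) atTop (𝓝 0) := by
    have h3 := (tendsto_inv_atTop_zero (𝕜 := ℝ)).const_mul (K * t)
    rw [mul_zero] at h3
    refine h3.congr fun ω => ?_
    rw [div_eq_mul_inv]; ring
  filter_upwards [l1.eventually_le_const (show (0 : ℝ) < ε / 4 by linarith),
    l2.eventually_le_const (show (0 : ℝ) < ε / 4 by linarith), eventually_gt_atTop 0]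
    with ω h1 h2 hω
  -- limits in N
  have l3 := (tendsto_VN h (rr t ω * ω)).const_mul K
  rw [mul_zero] at l3
  have l4 := (tendsto_phase h (rr t ω * ω) ω)
  have hx : rr t ω * ω - ω = (rr t ω - 1) * ω := by ring
  have hx0 : 0 ≤ (rr t ω - 1) * ω := mul_nonneg (by linarith [one_le_rr (ω := ω) ht]) hω.le
  have hlt : (2 - 2 * Real.exp (-((rr t ω * ω - ω) ^ 2 / 2))) ^ (2 : ℝ)⁻¹ < t / ω + ε / (4 * K) := by
    rw [hx]
    refine (phase_bound _ hx0).trans_lt ((rr_sub_le ht hω).trans_lt ?_)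
    have : 0 < ε / (4 * K) := by positivity
    linarith
  have l5 : Tendsto (fun N : ℕ => Real.sqrt N) atTop atTop :=
    Real.tendsto_sqrt_atTop.comp tendsto_natCast_atTop_atTop
  filter_upwards [l3.eventually_le_const (show (0 : ℝ) < ε / 4 by linarith),
    l4.eventually_lt_const hlt, l5.eventually_ge_atTop
      (tau p * (rr t ω * ((1 + tau p / 4) * ω)) ^ 3 * (∫ y, |u y| ^ 3 ∂μ)),
    eventually_gt_atTop 0] with N h3 h4 h5 hN
  have h6 := gadget_error h hp1 hp2 ht hω hN h5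
  refine h6.trans ?_
  rw [← hC]
  have h7 : Real.sqrt 2 * (Real.exp t * lpNorm (fun y : Fin N → Ω =>
          Complex.exp (Complex.I * (rr t ω * ω * SN u N y : ℝ)) -
          Complex.exp (Complex.I * (ω * SN u N y : ℝ))) 2 (Measure.pi fun _ => μ)) ≤
      ε / 4 + ε / 4 := by
    have h8 := mul_le_mul_of_nonneg_left h4.le hK0.le
    have h9 : K * (t / ω + ε / (4 * K)) = K * (t / ω) + ε / 4 := by
      field_simp
    rw [h9] at h8
    calc _ = K * lpNorm (fun y : Fin N → Ω =>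
          Complex.exp (Complex.I * (rr t ω * ω * SN u N y : ℝ)) -
          Complex.exp (Complex.I * (ω * SN u N y : ℝ))) 2 (Measure.pi fun _ => μ) := by
            rw [hK]; ring
      _ ≤ _ := by linarith
  have h10 : Real.sqrt 2 * (Real.exp t * lpNorm (fun y : Fin N → Ω => VN u N (rr t ω * ω) y -
          Complex.exp (Complex.I * (rr t ω * ω * SN u N y : ℝ))) 2 (Measure.pi fun _ => μ)) ≤
      ε / 4 := by
    refine le_trans (le_of_eq ?_) h3
    rw [hK]
    ring
  rw [mul_add, mul_add]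
  linarith

/-- characteristic functions become small -/
theorem charfun_event (h : Alph μ u) {ε : ℝ} (hε : 0 < ε) (M : ℕ) :
    ∀ᶠ ω : ℝ in atTop, ∀ᶠ N : ℕ in atTop, ∀ m ∈ (Finset.Icc (-(M : ℤ)) M).erase 0,
    ‖∫ y : Fin N → Ω, Complex.exp (Complex.I * (m * (ω * SN u N y) : ℝ))
      ∂(Measure.pi fun _ => μ)‖ ≤ ε := by
  have l1 : Tendsto (fun ω : ℝ => Real.exp (-(ω ^ 2 / 2))) atTop (𝓝 0) := by
    have h1 : Tendsto (fun ω : ℝ => -(ω ^ 2 / 2)) atTop atBot := by
      have h2 : Tendsto (fun ω : ℝ => ω ^ 2) atTop atTop := tendsto_pow_atTop (by norm_num)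
      have h3 := h2.const_mul_atTop_of_neg (show (-(1 / 2) : ℝ) < 0 by norm_num)
      refine h3.congr fun ω => by ring
    exact Real.tendsto_exp_atBot.comp h1
  filter_upwards [l1.eventually_lt_const hε] with ω h1
  rw [Filter.eventually_all_finset]
  intro m hm
  have hm0 : m ≠ 0 := (Finset.mem_erase.1 hm).1
  have h2 := (tendsto_charfun_SN h (m * ω)).norm
  have e : ‖Complex.exp (-(((m * ω : ℝ) : ℂ) ^ 2 / 2))‖ = Real.exp (-((m * ω) ^ 2 / 2)) := by
    have : (-(((m * ω : ℝ) : ℂ) ^ 2 / 2)) = ((-((m * ω) ^ 2 / 2) : ℝ) : ℂ) := by push_cast; ring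
    rw [this, Complex.norm_exp, Complex.ofReal_re]
  rw [e] at h2
  have h3 : Real.exp (-((m * ω) ^ 2 / 2)) < ε := by
    refine lt_of_le_of_lt (Real.exp_le_exp.2 ?_) h1
    have h4 : (1 : ℝ) ≤ (m : ℝ) ^ 2 := by
      have : (1 : ℤ) ≤ m ^ 2 := by
        have := Int.one_le_abs hm0
        nlinarith [sq_abs m]
      exact_mod_cast this
    rw [mul_pow]
    nlinarith [sq_nonneg ω]
  filter_upwards [h2.eventually_lt_const h3] with N h5
  have e2 : ∀ y : Fin N → Ω, (m * (ω * SN u N y) : ℝ) = m * ω * SN u N y := fun y => by ring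
  simp only [e2]
  exact h5.le

end Pool.Agent.H93.RH
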