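import Mathlib
import Pool.Agent.H93.RHLimit

/-!
# Convergence of moments and of norms of multilinear polynomials
-/

set_option autoImplicit false

open MeasureTheory Finset Filter Topology
open scoped ENNReal

namespace Pool.Agent.H93.RH

/-- bound of a multilinear polynomial on a cube -/
theorem abs_ml_le {ι : Type} [Fintype ι] (a : Finset ι → ℝ) {w : ι → ℝ} {B : ℝ}
    (hw : ∀ i, |w i| ≤ B) : |ml a w| ≤ ∑ S, |a S| * B ^ S.card := by
  unfold ml
  refine (Finset.abs_sum_le_sum_abs _ _).trans (Finset.sum_le_sum fun S _ => ?_)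
  rw [abs_mul, Finset.abs_prod]
  refine mul_le_mul_of_nonneg_left ?_ (abs_nonneg _)
  calc ∏ i ∈ S, |w i| ≤ ∏ _i ∈ S, B := Finset.prod_le_prod (fun i _ => abs_nonneg _) fun i _ => hw i
    _ = B ^ S.card := by rw [Finset.prod_const]

/-- Integral of a polynomial in independent variables. -/
theorem integral_mvPoly {Ω : Type} [MeasurableSpace Ω] {ι : Type} [Fintype ι] {μ : Measure Ω}
    [IsProbabilityMeasure μ] {U : Ω → ℝ} (hU : Measurable U) {B : ℝ} (hB : ∀ x, |U x| ≤ B)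
    (Q : MvPolynomial ι ℝ) :
    ∫ x : ι → Ω, MvPolynomial.eval (fun i => U (x i)) Q ∂(Measure.pi fun _ => μ) =
      ∑ m ∈ Q.support, Q.coeff m * ∏ i, ∫ y, U y ^ m i ∂μ := by
  simp only [MvPolynomial.eval_eq']
  have hint : ∀ m : ι →₀ ℕ, Integrable (fun x : ι → Ω => ∏ i, U (x i) ^ m i)
      (Measure.pi fun _ => μ) := by
    intro m
    refine Integrable.fintype_prod (f := fun (i : ι) (y : Ω) => U y ^ m i) fun i => ?_
    refine Integrable.of_bound (hU.pow_const _).aestronglyMeasurable (B ^ m i)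
      (Eventually.of_forall fun x => ?_)
    rw [norm_pow, Real.norm_eq_abs]
    exact pow_le_pow_left₀ (abs_nonneg _) (hB x) _
  rw [integral_finsetSum _ fun m _ => (hint m).const_mul _]
  refine Finset.sum_congr rfl fun m _ => ?_
  rw [integral_const_mul]
  congr 1
  exact integral_fintype_prod_eq_prod (fun (i : ι) (y : Ω) => U y ^ m i)

theorem tendsto_mvPoly {Ω : ℕ → Type} [∀ n, MeasurableSpace (Ω n)] {μ : ∀ n, Measure (Ω n)}
    [∀ n, IsProbabilityMeasure (μ n)] {U : ∀ n, Ω n → ℝ} (hU : ∀ n, Measurable (U n)) {B : ℝ}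
    (hB : ∀ n x, |U n x| ≤ B) {Ω₁ : Type} [MeasurableSpace Ω₁] {μ₁ : Measure Ω₁}
    [IsProbabilityMeasure μ₁] {u₁ : Ω₁ → ℝ} (hu₁ : Measurable u₁) (hB₁ : ∀ x, |u₁ x| ≤ B)
    (hmom : ∀ m : ℕ, Tendsto (fun n => ∫ y, U n y ^ m ∂(μ n)) atTop (𝓝 (∫ y, u₁ y ^ m ∂μ₁)))
    {ι : Type} [Fintype ι] (Q : MvPolynomial ι ℝ) :
    Tendsto (fun n => ∫ x : ι → Ω n, MvPolynomial.eval (fun i => U n (x i)) Q
      ∂(Measure.pi fun _ => μ n)) atTop
      (𝓝 (∫ x : ι → Ω₁, MvPolynomial.eval (fun i => u₁ (x i)) Q ∂(Measure.pi fun _ => μ₁))) := by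
  rw [integral_mvPoly hu₁ hB₁]
  have : ∀ n, ∫ x : ι → Ω n, MvPolynomial.eval (fun i => U n (x i)) Q
      ∂(Measure.pi fun _ => μ n) = _ := fun n => integral_mvPoly (hU n) (hB n) Q
  simp only [this]
  refine tendsto_finsetSum _ fun m _ => ?_
  refine Tendsto.const_mul _ ?_
  exact tendsto_finsetProd _ fun i _ => hmom (m i)

/-- Convergence of the norms. -/
theorem tendsto_ml {Ω : ℕ → Type} [∀ n, MeasurableSpace (Ω n)] {μ : ∀ n, Measure (Ω n)}
    [∀ n, IsProbabilityMeasure (μ n)] {U : ∀ n, Ω n → ℝ} (hU : ∀ n, Measurable (U n)) {B : ℝ}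
    (hB : ∀ n x, |U n x| ≤ B) {Ω₁ : Type} [MeasurableSpace Ω₁] {μ₁ : Measure Ω₁}
    [IsProbabilityMeasure μ₁] {u₁ : Ω₁ → ℝ} (hu₁ : Measurable u₁) (hB₁ : ∀ x, |u₁ x| ≤ B)
    (hmom : ∀ m : ℕ, Tendsto (fun n => ∫ y, U n y ^ m ∂(μ n)) atTop (𝓝 (∫ y, u₁ y ^ m ∂μ₁)))
    {ι : Type} [Fintype ι] (a : Finset ι → ℝ) {p : ℝ} (hp : 0 < p) :
    Tendsto (fun n => lpNorm (fun x : ι → Ω n => ml a (fun i => U n (x i))) (ENNReal.ofReal p)
      (Measure.pi fun _ => μ n)) atTop
      (𝓝 (lpNorm (fun x : ι → Ω₁ => ml a (fun i => u₁ (x i))) (ENNReal.ofReal p)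
        (Measure.pi fun _ => μ₁))) := by
  rw [lpN hp (measurable_ml a hu₁).aestronglyMeasurable]
  have : ∀ n, lpNorm (fun x : ι → Ω n => ml a (fun i => U n (x i))) (ENNReal.ofReal p)
      (Measure.pi fun _ => μ n) = _ := fun n => lpN hp (measurable_ml a (hU n)).aestronglyMeasurable
  simp only [this]
  refine Tendsto.rpow_const ?_ (Or.inr (by positivity))
  -- polynomial approximation
  set Y : ℝ := ∑ S, |a S| * B ^ S.card with hY
  rw [Metric.tendsto_atTop]
  intro ε hε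
  obtain ⟨q, hq⟩ := exists_polynomial_near_of_continuousOn (-Y) Y (fun y => |y| ^ p)
    (by
      refine Continuous.continuousOn ?_
      exact continuous_abs.rpow_const fun x => Or.inr hp.le) (ε / 4) (by linarith)
  let F : MvPolynomial ι ℝ := ∑ S : Finset ι, MvPolynomial.C (a S) * ∏ i ∈ S, MvPolynomial.X i
  have hF : ∀ w : ι → ℝ, MvPolynomial.eval w F = ml a w := by
    intro w
    simp [F, ml]
  let Q : MvPolynomial ι ℝ := Polynomial.aeval F q
  have hQ : ∀ w : ι → ℝ, MvPolynomial.eval w Q = q.eval (ml a w) := by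
    intro w
    rw [← hF w]
    simp only [Q]
    rw [Polynomial.aeval_def, Polynomial.hom_eval₂, Polynomial.eval]
    congr 1
    ext x
    simp [MvPolynomial.algebraMap_eq]
  have hlim := tendsto_mvPoly hU hB hu₁ hB₁ hmom Q
  rw [Metric.tendsto_atTop] at hlim
  obtain ⟨N, hN⟩ := hlim (ε / 4) (by linarith)
  refine ⟨N, fun n hn => ?_⟩
  have h1 := hN n hn
  -- approximation on both spaces
  have key : ∀ {Ω' : Type} [MeasurableSpace Ω'] (ν : Measure Ω') [IsProbabilityMeasure ν]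
      (U' : Ω' → ℝ), Measurable U' → (∀ x, |U' x| ≤ B) →
      |∫ x : ι → Ω', ‖ml a (fun i => U' (x i))‖ ^ p ∂(Measure.pi fun _ => ν) -
        ∫ x : ι → Ω', MvPolynomial.eval (fun i => U' (x i)) Q ∂(Measure.pi fun _ => ν)| ≤
        ε / 4 := by
    intro Ω' _ ν _ U' hU' hB'
    have hm := measurable_ml a hU'
    have hb : ∀ x : ι → Ω', |ml a (fun i => U' (x i))| ≤ Y := fun x =>
      abs_ml_le a fun i => hB' (x i)
    have hY0 : 0 ≤ Y ∨ IsEmpty (ι → Ω') := by
      by_cases h : Nonempty (ι → Ω')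
      · obtain ⟨x⟩ := h
        exact Or.inl ((abs_nonneg _).trans (hb x))
      · exact Or.inr (not_nonempty_iff.1 h)
    have hi1 : Integrable (fun x : ι → Ω' => ‖ml a (fun i => U' (x i))‖ ^ p)
        (Measure.pi fun _ => ν) := by
      refine Integrable.of_bound (hm.norm.pow_const p).aestronglyMeasurable (Y ^ p)
        (Eventually.of_forall fun x => ?_)
      rw [Real.norm_of_nonneg (by positivity)]
      exact Real.rpow_le_rpow (norm_nonneg _) (hb x) hp.le
    have hqq : ∀ x : ι → Ω', |q.eval (ml a (fun i => U' (x i))) -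
        ‖ml a (fun i => U' (x i))‖ ^ p| ≤ ε / 4 := fun x =>
      (hq _ ⟨(abs_le.1 (hb x)).1, (abs_le.1 (hb x)).2⟩).le
    have hi2 : Integrable (fun x : ι → Ω' => q.eval (ml a (fun i => U' (x i))))
        (Measure.pi fun _ => ν) := by
      refine Integrable.of_bound (q.continuous.measurable.comp hm).aestronglyMeasurable
        (Y ^ p + ε / 4) (Eventually.of_forall fun x => ?_)
      rw [Real.norm_eq_abs]
      have h3 := hqq x
      have h4 : ‖ml a (fun i => U' (x i))‖ ^ p ≤ Y ^ p :=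
        Real.rpow_le_rpow (norm_nonneg _) (hb x) hp.le
      have h5 : 0 ≤ ‖ml a (fun i => U' (x i))‖ ^ p := by positivity
      rw [abs_le] at h3 ⊢
      constructor <;> linarith [h3.1, h3.2]
    simp only [hQ]
    rw [← integral_sub hi1 hi2, ← Real.norm_eq_abs]
    refine (norm_integral_le_of_norm_le_const (C := ε / 4)
      (Eventually.of_forall fun x => ?_)).trans ?_
    · rw [Real.norm_eq_abs, abs_sub_comm]
      exact hqq x
    · simp
  have k1 := key (μ n) (U n) (hU n) (hB n)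
  have k2 := key μ₁ u₁ hu₁ hB₁
  rw [Real.dist_eq] at h1 ⊢
  rw [abs_le] at k1 k2
  rw [abs_lt] at h1 ⊢
  constructor <;> linarith [h1.1, h1.2, k1.1, k1.2, k2.1, k2.2]

end Pool.Agent.H93.RH
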