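import Mathlib
import Pool.Agent.H93.RHMoment
import Pool.Agent.H93.RHEvent
import Pool.Agent.H22.RH.Law

/-!
# The transfer lemma and the contradiction
-/

set_option autoImplicit false

open MeasureTheory Finset Filter Topology
open scoped ENNReal

namespace Pool.Agent.H93.RH

open Pool.Agent.H22.RH

variable {Ω : Type} [MeasurableSpace Ω] {μ : Measure Ω} [IsProbabilityMeasure μ] {u : Ω → ℝ}

theorem ml_dilate {ι : Type} [Fintype ι] (a : Finset ι → ℝ) (R : ℝ) (w : ι → ℝ) :
    ml a (fun i => R * w i) = ml (fun S => a S * R ^ S.card) w := by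
  unfold ml
  refine Finset.sum_congr rfl fun S _ => ?_
  rw [Finset.prod_mul_distrib, Finset.prod_const]
  ring

/-- one step with explicit errors -/
theorem one_step (h : Alph μ u) {p : ℝ} (hp1 : 1 ≤ p) (hp2 : p < 2) {c : ℝ} (hc : 0 ≤ c)
    (hI : ∀ r : ℝ, 1 ≤ r → Good μ (ENNReal.ofReal p) u (fun y => r * u y) (r ^ c))
    {t : ℝ} (ht : 0 ≤ t) {δ : ℝ} (hδ : 0 < δ) (M : ℕ) {ι : Type} [Fintype ι] (d : ℕ)
    (a : Finset ι → ℝ) (ha : ∀ S, d < S.card → a S = 0) :
    ∃ (N : ℕ) (Θ : (Fin N → Ω) → ℝ), Measurable Θ ∧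
      (∀ m ∈ (Finset.Icc (-(M : ℤ)) M).erase 0, ‖∫ y : Fin N → Ω,
        Complex.exp (Complex.I * (m * Θ y : ℝ)) ∂(Measure.pi fun _ => μ)‖ ≤ δ) ∧
      lpNorm (fun x : ι → (Fin N → Ω) => ml a (fun i =>
          Real.exp t * (Real.sqrt 2 * Real.cos (Θ (x i))))) (ENNReal.ofReal p)
          (Measure.pi fun _ => Measure.pi fun _ => μ) ≤
        (Real.exp (lam p * c * t)) ^ d *
          (lpNorm (fun x : ι → (Fin N → Ω) => ml a (fun i =>
            (Real.sqrt 2 * Real.cos (Θ (x i))))) (ENNReal.ofReal p)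
            (Measure.pi fun _ => Measure.pi fun _ => μ) +
            ∑ S : Finset ι, |a S| * ((δ + 2) ^ S.card - 2 ^ S.card)) +
          ∑ S : Finset ι, |a S| * ((δ + 2 * Real.exp t) ^ S.card -
            (2 * Real.exp t) ^ S.card) := by
  have hp0 : 0 < p := by linarith
  have hP : 1 ≤ ENNReal.ofReal p := by
    rw [← ENNReal.ofReal_one]; exact ENNReal.ofReal_le_ofReal hp1
  obtain ⟨ω, ⟨h1, h2, h3⟩, hω⟩ := ((((gadget_event h hp1 hp2 le_rfl hδ).and
    ((gadget_event h hp1 hp2 ht hδ).and (charfun_event h hδ M))).and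
      (eventually_gt_atTop (0 : ℝ)))).exists
  obtain ⟨N, h1, h2, h3⟩ := (h1.and (h2.and h3)).exists
  set k := ⌊lam p * ω ^ 2⌋₊ with hk
  set r := rr t ω with hr
  have hr1 : 1 ≤ r := one_le_rr ht
  have hmS := measurable_SN h.meas N
  refine ⟨N, fun y => ω * SN u N y, by fun_prop, h3, ?_⟩
  let ν : Measure (Fin N → Ω) := Measure.pi fun _ => μ
  have hu := h.meas
  -- the functions
  let v : (Fin N → Ω) → ℝ := fun y => ml (bb p N k ω) (fun l => u (y l))
  let v' : (Fin N → Ω) → ℝ := fun y => ml (bb p N k ω) (fun l => r * u (y l))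
  let U : (Fin N → Ω) → ℝ := fun y => Real.sqrt 2 * Real.cos (ω * SN u N y)
  have hvm : Measurable v := measurable_ml _ hu
  have hv'm : Measurable v' := measurable_ml (Ω := Ω) (ι := Fin N) (bb p N k ω)
    (v := fun y => r * u y) (hu.const_mul r)
  have hUm : Measurable U := by fun_prop
  have hLu : MemLp u (ENNReal.ofReal p) μ := h.memLp (by linarith)
  have hvL : MemLp v (ENNReal.ofReal p) ν := memLp_ml hp0 hu hLu _
  have hv'L : MemLp v' (ENNReal.ofReal p) ν :=
    memLp_ml hp0 (v := fun y => r * u y) (hu.const_mul r) (hLu.const_mul r) _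
  have hs2 : Real.sqrt 2 ≤ 2 := by
    rw [Real.sqrt_le_left (by norm_num)]; norm_num
  have hUb : ∀ y, ‖U y‖ ≤ 2 := by
    intro y
    simp only [U]
    rw [norm_mul, Real.norm_eq_abs, Real.norm_eq_abs, abs_of_nonneg (Real.sqrt_nonneg 2)]
    have := Real.abs_cos_le_one (ω * SN u N y)
    nlinarith [abs_nonneg (Real.cos (ω * SN u N y)), Real.sqrt_nonneg 2]
  have hUL : MemLp U (ENNReal.ofReal p) ν :=
    MemLp.of_bound hUm.aestronglyMeasurable 2 (Eventually.of_forall hUb)
  have hUn : lpNorm U (ENNReal.ofReal p) ν ≤ 2 := by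
    have := lpNorm_mono_real (f := U) (g := fun _ => (2 : ℝ)) (μ := ν) (p := ENNReal.ofReal p)
      (memLp_const 2) hUb
    refine this.trans (le_of_eq ?_)
    rw [lpNorm_const' (by simpa using hp0) ENNReal.ofReal_ne_top]
    simp
  have hrr0 : rr 0 ω = 1 := by simp [rr]
  rw [hrr0] at h1
  have e1 : lpNorm (fun y => v y - U y) (ENNReal.ofReal p) ν ≤ δ := by
    refine le_trans (le_of_eq ?_) h1
    congr 1
    ext y
    simp [v, U]
  have e2 : lpNorm (fun y => v' y - Real.exp t * U y) (ENNReal.ofReal p) ν ≤ δ := h2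
  have hRU : lpNorm (fun y => Real.exp t * U y) (ENNReal.ofReal p) ν ≤ 2 * Real.exp t := by
    rw [lpNorm_const_mul', abs_of_pos (Real.exp_pos t)]
    nlinarith [Real.exp_pos t]
  -- the inequality for the gadget
  have hG := Good.comp (μ := μ) (P := ENNReal.ofReal p) (v := u) (v' := fun y => r * u y)
    (K := r ^ c) hu (hu.const_mul r) (hI r hr1) (k := k) (bb p N k ω)
    (fun S hS => bb_zero p N k ω S hS) ι d a ha
  -- constants
  have hlam : 0 ≤ lam p := by
    have := tau_le hp1 hp2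
    rw [lam]; linarith
  have hKc : (r ^ c) ^ k ≤ Real.exp (lam p * c * t) := by
    have h4 : r ^ c ≤ Real.exp (c * (t / ω ^ 2)) := by
      calc r ^ c ≤ (Real.exp (t / ω ^ 2)) ^ c :=
            Real.rpow_le_rpow (by linarith) (rr_le_exp ht) hc
        _ = _ := by rw [← Real.exp_mul]; ring_nf
    have h5 : (k : ℝ) ≤ lam p * ω ^ 2 := Nat.floor_le (by positivity)
    calc (r ^ c) ^ k ≤ (Real.exp (c * (t / ω ^ 2))) ^ k :=
          pow_le_pow_left₀ (Real.rpow_nonneg (by linarith) _) h4 k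
      _ = Real.exp (k * (c * (t / ω ^ 2))) := by rw [← Real.exp_nat_mul]
      _ ≤ Real.exp ((lam p * ω ^ 2) * (c * (t / ω ^ 2))) := by
          refine Real.exp_le_exp.2 (mul_le_mul_of_nonneg_right h5 (by positivity))
      _ = _ := by
          congr 1
          field_simp
  have hK0 : 0 ≤ (r ^ c) ^ k := by positivity
  -- Minkowski
  have m1 := ml_sub_le hp1 hvm hvL hUm hUL e1 hUn a
  have m2 := ml_sub_le hp1 hv'm hv'L (hUm.const_mul (Real.exp t)) (hUL.const_mul (Real.exp t))
    e2 hRU a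
  have n1 : lpNorm (fun x : ι → (Fin N → Ω) => ml a (fun i => v (x i))) (ENNReal.ofReal p)
      (Measure.pi fun _ => ν) ≤ lpNorm (fun x : ι → (Fin N → Ω) => ml a (fun i => U (x i)))
        (ENNReal.ofReal p) (Measure.pi fun _ => ν) +
        ∑ S : Finset ι, |a S| * ((δ + 2) ^ S.card - 2 ^ S.card) := by
    refine (lpNorm_le_lpNorm_add_lpNorm_sub' (memLp_ml hp0 hUm hUL a) hP).trans ?_
    exact add_le_add le_rfl m1
  have n2 : lpNorm (fun x : ι → (Fin N → Ω) => ml a (fun i => Real.exp t * U (x i)))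
      (ENNReal.ofReal p) (Measure.pi fun _ => ν) ≤
      lpNorm (fun x : ι → (Fin N → Ω) => ml a (fun i => v' (x i))) (ENNReal.ofReal p)
      (Measure.pi fun _ => ν) +
        ∑ S : Finset ι, |a S| * ((δ + 2 * Real.exp t) ^ S.card - (2 * Real.exp t) ^ S.card) := by
    refine (lpNorm_le_lpNorm_add_lpNorm_sub (memLp_ml hp0 hv'm hv'L a) hP).trans ?_
    exact add_le_add le_rfl m2
  have hsum0 : 0 ≤ ∑ S : Finset ι, |a S| * ((δ + 2) ^ S.card - 2 ^ S.card) := by
    refine Finset.sum_nonneg fun S _ => mul_nonneg (abs_nonneg _) ?_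
    have : (2 : ℝ) ^ S.card ≤ (δ + 2) ^ S.card := by gcongr; linarith
    linarith
  refine n2.trans (add_le_add ?_ le_rfl)
  refine hG.trans ?_
  refine mul_le_mul (pow_le_pow_left₀ hK0 hKc d) n1 lpNorm_nonneg (by positivity)

/-- **Transfer lemma.** -/
theorem transfer (h : Alph μ u) {p : ℝ} (hp1 : 1 ≤ p) (hp2 : p < 2) {c : ℝ} (hc : 0 ≤ c)
    (hI : ∀ r : ℝ, 1 ≤ r → Good μ (ENNReal.ofReal p) u (fun y => r * u y) (r ^ c)) :
    ∀ r : ℝ, 1 ≤ r → Good muC (ENNReal.ofReal p) uC (fun y => r * uC y) (r ^ (lam p * c)) := by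
  intro R hR ι _ d a ha
  have hp0 : 0 < p := by linarith
  obtain ⟨t, ht, rfl⟩ : ∃ t : ℝ, 0 ≤ t ∧ R = Real.exp t :=
    ⟨Real.log R, Real.log_nonneg hR, (Real.exp_log (by linarith)).symm⟩
  have hd : ∀ n : ℕ, (0 : ℝ) < 1 / ((n : ℝ) + 1) := fun n => by positivity
  choose N Θ hΘ hchar hineq using fun n : ℕ =>
    one_step h hp1 hp2 hc hI ht (hd n) n d a ha
  have hcl : ∀ m : ℤ, m ≠ 0 → Tendsto (fun n => ∫ y : Fin (N n) → Ω,
      Complex.exp (Complex.I * (m * Θ n y : ℝ)) ∂(Measure.pi fun _ => μ)) atTop (𝓝 0) := by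
    intro m hm
    rw [tendsto_zero_iff_norm_tendsto_zero]
    refine squeeze_zero' (Eventually.of_forall fun n => norm_nonneg _) ?_
      tendsto_one_div_add_atTop_nhds_zero_nat
    filter_upwards [eventually_ge_atTop m.natAbs] with n hn
    refine hchar n m ?_
    rw [Finset.mem_erase, Finset.mem_Icc]
    refine ⟨hm, ?_, ?_⟩ <;> omega
  have hmom : ∀ m : ℕ, Tendsto (fun n => ∫ y : Fin (N n) → Ω,
      (Real.sqrt 2 * Real.cos (Θ n y)) ^ m ∂(Measure.pi fun _ => μ)) atTop
      (𝓝 (∫ y, uC y ^ m ∂muC)) := fun m =>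
    moments_tendsto (Ω := fun n => Fin (N n) → Ω) (μ := fun n => Measure.pi fun _ => μ) hΘ hcl m
  have hs2 : Real.sqrt 2 ≤ 2 := by
    rw [Real.sqrt_le_left (by norm_num)]; norm_num
  have hb : ∀ θ : ℝ, |Real.sqrt 2 * Real.cos θ| ≤ 2 := by
    intro θ
    rw [abs_mul, abs_of_nonneg (Real.sqrt_nonneg 2)]
    have := Real.abs_cos_le_one θ
    nlinarith [abs_nonneg (Real.cos θ), Real.sqrt_nonneg 2]
  have hUm : ∀ n, Measurable (fun y : Fin (N n) → Ω => Real.sqrt 2 * Real.cos (Θ n y)) := by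
    intro n
    have := hΘ n
    fun_prop
  have huC : Measurable uC := alphC.meas
  have lim : ∀ b : Finset ι → ℝ, Tendsto (fun n => lpNorm (fun x : ι → (Fin (N n) → Ω) =>
      ml b (fun i => Real.sqrt 2 * Real.cos (Θ n (x i)))) (ENNReal.ofReal p)
      (Measure.pi fun _ => Measure.pi fun _ => μ)) atTop
      (𝓝 (lpNorm (fun x : ι → ℝ => ml b (fun i => uC (x i))) (ENNReal.ofReal p)
        (Measure.pi fun _ => muC))) := fun b =>
    tendsto_ml (Ω := fun n => Fin (N n) → Ω) (μ := fun n => Measure.pi fun _ => μ)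
      (U := fun n y => Real.sqrt 2 * Real.cos (Θ n y)) hUm (B := 2) (fun n y => hb _) huC
      (fun x => hb x) hmom b hp0
  -- limits of the error terms
  have herr : ∀ B : ℝ, Tendsto (fun n : ℕ => ∑ S : Finset ι, |a S| *
      ((1 / ((n : ℝ) + 1) + B) ^ S.card - B ^ S.card)) atTop (𝓝 0) := by
    intro B
    have h1 : Tendsto (fun n : ℕ => ∑ S : Finset ι, |a S| *
      ((1 / ((n : ℝ) + 1) + B) ^ S.card - B ^ S.card)) atTop
      (𝓝 (∑ S : Finset ι, |a S| * ((0 + B) ^ S.card - B ^ S.card))) := by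
      refine tendsto_finsetSum _ fun S _ => ?_
      refine Tendsto.const_mul _ (Tendsto.sub_const ?_ _)
      exact (tendsto_one_div_add_atTop_nhds_zero_nat.add_const B).pow _
    simpa using h1
  have l1 : Tendsto (fun n => lpNorm (fun x : ι → (Fin (N n) → Ω) => ml a (fun i =>
      Real.exp t * (Real.sqrt 2 * Real.cos (Θ n (x i))))) (ENNReal.ofReal p)
      (Measure.pi fun _ => Measure.pi fun _ => μ)) atTop
      (𝓝 (lpNorm (fun x : ι → ℝ => ml a (fun i => Real.exp t * uC (x i))) (ENNReal.ofReal p)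
        (Measure.pi fun _ => muC))) := by
    have := lim (fun S => a S * Real.exp t ^ S.card)
    simp only [← ml_dilate a (Real.exp t)] at this
    exact this
  have l2 := (((lim a).add (herr 2)).const_mul ((Real.exp (lam p * c * t)) ^ d)).add
    (herr (2 * Real.exp t))
  have hfin := le_of_tendsto_of_tendsto' l1 l2 hineq
  rw [add_zero, add_zero] at hfin
  refine hfin.trans (le_of_eq ?_)
  rw [← Real.exp_mul, mul_comm t]

/-- The inequality fails for every alphabet. -/
theorem not_good (h : Alph μ u) {p : ℝ} (hp1 : 1 ≤ p) (hp2 : p < 2) {c : ℝ} (hc : 0 ≤ c)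
    (hI : ∀ r : ℝ, 1 ≤ r → Good μ (ENNReal.ofReal p) u (fun y => r * u y) (r ^ c)) : False := by
  have hp0 : 0 < p := by linarith
  have hτ := tau_pos hp1 hp2
  have hτ1 := tau_le hp1 hp2
  have hlam0 : 0 ≤ lam p := by rw [lam]; linarith
  have hlam1 : lam p < 1 := by rw [lam]; linarith
  have iter : ∀ j : ℕ, ∀ r : ℝ, 1 ≤ r →
      Good muC (ENNReal.ofReal p) uC (fun y => r * uC y) (r ^ (lam p ^ (j + 1) * c)) := by
    intro j
    induction j with
    | zero => simpa using transfer h hp1 hp2 hc hI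
    | succ j ih =>
      have := transfer alphC hp1 hp2 (by positivity) ih
      rw [pow_succ' (lam p) (j + 1), mul_assoc]
      exact this
  have huC : Measurable uC := alphC.meas
  have hone : ∀ j : ℕ, 1 ≤ lam p ^ (j + 1) * c := by
    intro j
    have h1 := iter j (Real.exp 1) (Real.one_le_exp (by norm_num)) Unit 1
      (fun S => if S = Finset.univ then 1 else 0) (by
        intro S hS
        exfalso
        have := Finset.card_le_univ S
        simp at this
        omega)
    have e : ∀ w : Unit → ℝ, ml (fun S : Finset Unit => if S = Finset.univ then (1 : ℝ) else 0) w =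
        w () := by
      intro w
      simp [ml]
    simp only [e] at h1
    have e2 : ∀ g : ℝ → ℝ, Measurable g → lpNorm (fun x : Unit → ℝ => g (x ()))
        (ENNReal.ofReal p) (Measure.pi fun _ => muC) = lpNorm g (ENNReal.ofReal p) muC := by
      intro g hg
      have := lpNorm_prod (μ := muC) (ι := Unit) hp0 (g := fun _ => g) (fun _ => hg)
      simpa using this
    have e3 := e2 (fun y => Real.exp 1 * uC y) (huC.const_mul _)
    have e4 := e2 uC huC
    rw [e3, e4, lpNorm_const_mul', abs_of_pos (Real.exp_pos 1), pow_one] at h1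
    -- positivity of the norm
    have hpos : 0 < lpNorm uC (ENNReal.ofReal p) muC := by
      refine lt_of_le_of_ne lpNorm_nonneg (fun h0 => ?_)
      have hL : MemLp uC (ENNReal.ofReal p) muC := alphC.memLp (by linarith)
      have h2 := (lpNorm_eq_zero hL (by simpa using hp0)).1 h0.symm
      have h3 : ∫ y, uC y ^ 2 ∂muC = 0 := by
        have : (fun y => uC y ^ 2) =ᵐ[muC] 0 := by
          filter_upwards [h2] with y hy
          simp [hy]
        rw [integral_congr_ae this]
        simp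
      rw [alphC.var] at h3
      exact one_ne_zero h3
    have h4 := le_of_mul_le_mul_right h1 hpos
    rw [← Real.exp_mul, one_mul] at h4
    exact Real.exp_le_exp.1 h4
  have hlim : Tendsto (fun j : ℕ => lam p ^ (j + 1) * c) atTop (𝓝 0) := by
    have := ((tendsto_pow_atTop_nhds_zero_of_lt_one hlam0 hlam1).comp
      (tendsto_add_atTop_nat 1)).mul_const c
    simpa using this
  obtain ⟨j, hj⟩ := (hlim.eventually_lt_const (zero_lt_one' ℝ)).exists
  linarith [hone j]

end Pool.Agent.H93.RH
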