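import Mathlib
import Pool.Agent.H93.RHTransfer

/-!
# From the inequality for the number operator to the dilation inequality; Gauss space
-/

set_option autoImplicit false

open MeasureTheory Finset Filter Topology ProbabilityTheory
open scoped ENNReal

namespace Pool.Agent.H93.RH

variable {Ω : Type} [MeasurableSpace Ω] {μ : Measure Ω} [IsProbabilityMeasure μ] {u : Ω → ℝ}

theorem tendsto_ml_coeff {p : ℝ} (hp : 1 ≤ p) (hu : Measurable u)
    (huL : MemLp u (ENNReal.ofReal p) μ) {ι : Type} [Fintype ι] {b : ℕ → Finset ι → ℝ}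
    {b₀ : Finset ι → ℝ} (hb : ∀ S, Tendsto (fun K => b K S) atTop (𝓝 (b₀ S))) :
    Tendsto (fun K => lpNorm (fun x : ι → Ω => ml (b K) (fun i => u (x i))) (ENNReal.ofReal p)
      (Measure.pi fun _ => μ)) atTop
      (𝓝 (lpNorm (fun x : ι → Ω => ml b₀ (fun i => u (x i))) (ENNReal.ofReal p)
      (Measure.pi fun _ => μ))) := by
  have hp0 : 0 < p := by linarith
  have hP : 1 ≤ ENNReal.ofReal p := by
    rw [← ENNReal.ofReal_one]; exact ENNReal.ofReal_le_ofReal hp
  let ν : Measure (ι → Ω) := Measure.pi fun _ => μ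
  have hm : ∀ c : Finset ι → ℝ, MemLp (fun x : ι → Ω => ml c (fun i => u (x i)))
      (ENNReal.ofReal p) ν := fun c => memLp_ml hp0 hu huL c
  have hdiff : ∀ c c' : Finset ι → ℝ, lpNorm ((fun x : ι → Ω => ml c (fun i => u (x i))) -
      (fun x : ι → Ω => ml c' (fun i => u (x i)))) (ENNReal.ofReal p) ν ≤
      ∑ S, |c S - c' S| * lpNorm (fun x : ι → Ω => ∏ i ∈ S, u (x i)) (ENNReal.ofReal p) ν := by
    intro c c'
    have e : ((fun x : ι → Ω => ml c (fun i => u (x i))) -
      (fun x : ι → Ω => ml c' (fun i => u (x i)))) =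
        ∑ S : Finset ι, fun x : ι → Ω => (c S - c' S) * ∏ i ∈ S, u (x i) := by
      ext x
      rw [Finset.sum_apply, Pi.sub_apply]
      unfold ml
      rw [← Finset.sum_sub_distrib]
      refine Finset.sum_congr rfl fun S _ => by ring
    rw [e]
    have h1 := lpNorm_sum_le (s := (Finset.univ : Finset (Finset ι))) (μ := ν)
      (f := fun S => fun x : ι → Ω => (c S - c' S) * ∏ i ∈ S, u (x i))
      (fun S _ => (memLp_monomial hp0 hu huL S).const_mul (c S - c' S)) hP
    refine h1.trans (le_of_eq (Finset.sum_congr rfl fun S _ => ?_))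
    exact lpNorm_const_mul' _ _ _ _
  rw [tendsto_iff_norm_sub_tendsto_zero]
  have hbound : ∀ K, ‖lpNorm (fun x : ι → Ω => ml (b K) (fun i => u (x i))) (ENNReal.ofReal p) ν -
      lpNorm (fun x : ι → Ω => ml b₀ (fun i => u (x i))) (ENNReal.ofReal p) ν‖ ≤
      ∑ S, |b K S - b₀ S| * lpNorm (fun x : ι → Ω => ∏ i ∈ S, u (x i)) (ENNReal.ofReal p) ν := by
    intro K
    rw [Real.norm_eq_abs, abs_le]
    have h1 := lpNorm_le_lpNorm_add_lpNorm_sub' (f := fun x : ι → Ω => ml (b K) (fun i => u (x i)))
      (hm b₀) hP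
    have h2 := lpNorm_le_lpNorm_add_lpNorm_sub (f := fun x : ι → Ω => ml b₀ (fun i => u (x i)))
      (hm (b K)) hP
    have h3 := hdiff (b K) b₀
    constructor <;> linarith
  refine squeeze_zero (fun K => norm_nonneg _) hbound ?_
  have h4 : Tendsto (fun K => ∑ S, |b K S - b₀ S| *
      lpNorm (fun x : ι → Ω => ∏ i ∈ S, u (x i)) (ENNReal.ofReal p) ν) atTop
      (𝓝 (∑ S, |b₀ S - b₀ S| *
        lpNorm (fun x : ι → Ω => ∏ i ∈ S, u (x i)) (ENNReal.ofReal p) ν)) := by
    refine tendsto_finsetSum _ fun S _ => Tendsto.mul_const _ ?_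
    exact ((hb S).sub_const _).abs
  simpa using h4

/-- the inequality for the number operator -/
def Lap (μ : Measure Ω) (u : Ω → ℝ) (p c : ℝ) : Prop :=
  ∀ n d : ℕ, 1 ≤ n → 1 ≤ d → ∀ a : Finset (Fin n) → ℝ, (∀ S, d < S.card → a S = 0) →
    lpNorm (fun x : Fin n → Ω => ml (fun S => (S.card : ℝ) * a S) (fun i => u (x i)))
      (ENNReal.ofReal p) (Measure.pi fun _ => μ) ≤
    c * d * lpNorm (fun x : Fin n → Ω => ml a (fun i => u (x i))) (ENNReal.ofReal p)
      (Measure.pi fun _ => μ)

theorem lap_pow {p c : ℝ} (hc : 0 ≤ c) (h : Lap μ u p c) {n d : ℕ} (hn : 1 ≤ n)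
    (hd : 1 ≤ d) (a : Finset (Fin n) → ℝ) (ha : ∀ S, d < S.card → a S = 0) (k : ℕ) :
    lpNorm (fun x : Fin n → Ω => ml (fun S => (S.card : ℝ) ^ k * a S) (fun i => u (x i)))
      (ENNReal.ofReal p) (Measure.pi fun _ => μ) ≤
    (c * d) ^ k * lpNorm (fun x : Fin n → Ω => ml a (fun i => u (x i))) (ENNReal.ofReal p)
      (Measure.pi fun _ => μ) := by
  induction k with
  | zero => simp
  | succ k ih =>
    have h1 := h n d hn hd (fun S => (S.card : ℝ) ^ k * a S) (fun S hS => by simp [ha S hS])
    have e : (fun S : Finset (Fin n) => (S.card : ℝ) * ((S.card : ℝ) ^ k * a S)) =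
        fun S => (S.card : ℝ) ^ (k + 1) * a S := by
      ext S; ring
    rw [e] at h1
    refine h1.trans ?_
    calc c * d * _ ≤ c * d * ((c * d) ^ k * _) := mul_le_mul_of_nonneg_left ih (by positivity)
      _ = _ := by ring

theorem lap_exp {p c : ℝ} (hp : 1 ≤ p) (hc : 0 ≤ c) (hu : Measurable u)
    (huL : MemLp u (ENNReal.ofReal p) μ) (h : Lap μ u p c) {n d : ℕ} (hn : 1 ≤ n)
    (hd : 1 ≤ d) (a : Finset (Fin n) → ℝ) (ha : ∀ S, d < S.card → a S = 0) {t : ℝ} (ht : 0 ≤ t) :
    lpNorm (fun x : Fin n → Ω => ml (fun S => Real.exp (t * S.card) * a S) (fun i => u (x i)))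
      (ENNReal.ofReal p) (Measure.pi fun _ => μ) ≤
    Real.exp (t * (c * d)) * lpNorm (fun x : Fin n → Ω => ml a (fun i => u (x i)))
      (ENNReal.ofReal p) (Measure.pi fun _ => μ) := by
  have hp0 : 0 < p := by linarith
  have hP : 1 ≤ ENNReal.ofReal p := by
    rw [← ENNReal.ofReal_one]; exact ENNReal.ofReal_le_ofReal hp
  set N := lpNorm (fun x : Fin n → Ω => ml a (fun i => u (x i))) (ENNReal.ofReal p)
      (Measure.pi fun _ => μ) with hN
  have hN0 : 0 ≤ N := lpNorm_nonneg
  have hmem : ∀ b : Finset (Fin n) → ℝ, MemLp (fun x : Fin n → Ω => ml b (fun i => u (x i)))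
      (ENNReal.ofReal p) (Measure.pi fun _ => μ) := fun b => memLp_ml hp0 hu huL b
  -- partial sums
  have key : ∀ K : ℕ, lpNorm (fun x : Fin n → Ω =>
      ml (fun S => (∑ k ∈ range K, (t * S.card) ^ k / k.factorial) * a S) (fun i => u (x i)))
      (ENNReal.ofReal p) (Measure.pi fun _ => μ) ≤ Real.exp (t * (c * d)) * N := by
    intro K
    have e : (fun x : Fin n → Ω =>
        ml (fun S => (∑ k ∈ range K, (t * S.card) ^ k / k.factorial) * a S) (fun i => u (x i))) =
        ∑ k ∈ range K, fun x : Fin n → Ω => (t ^ k / k.factorial) *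
          ml (fun S => (S.card : ℝ) ^ k * a S) (fun i => u (x i)) := by
      ext x
      rw [Finset.sum_apply]
      unfold ml
      simp_rw [Finset.mul_sum, Finset.sum_mul]
      rw [Finset.sum_comm]
      apply Finset.sum_congr rfl
      intro k _
      apply Finset.sum_congr rfl
      intro S _
      rw [mul_pow]
      ring
    rw [e]
    have h0 := lpNorm_sum_le (s := range K) (μ := (Measure.pi fun _ : Fin n => μ))
      (f := fun k => fun x : Fin n → Ω => (t ^ k / k.factorial) *
          ml (fun S => (S.card : ℝ) ^ k * a S) (fun i => u (x i)))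
      (fun k _ => (hmem _).const_mul _) hP
    refine h0.trans ?_
    calc ∑ k ∈ range K, lpNorm (fun x : Fin n → Ω => (t ^ k / k.factorial) *
          ml (fun S => (S.card : ℝ) ^ k * a S) (fun i => u (x i))) (ENNReal.ofReal p)
          (Measure.pi fun _ => μ)
        ≤ ∑ k ∈ range K, (t * (c * d)) ^ k / k.factorial * N := by
          apply Finset.sum_le_sum
          intro k _
          rw [lpNorm_const_mul', abs_of_nonneg (by positivity)]
          have h1 := lap_pow hc h hn hd a ha k
          calc t ^ k / k.factorial * _ ≤ t ^ k / k.factorial * ((c * d) ^ k * N) :=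
                mul_le_mul_of_nonneg_left h1 (by positivity)
            _ = _ := by rw [mul_pow]; ring
      _ = (∑ k ∈ range K, (t * (c * d)) ^ k / k.factorial) * N := by rw [Finset.sum_mul]
      _ ≤ _ := mul_le_mul_of_nonneg_right (Real.sum_le_exp_of_nonneg (by positivity) K) hN0
  -- limit
  have hexp : ∀ z : ℝ, Tendsto (fun K : ℕ => ∑ k ∈ range K, z ^ k / k.factorial) atTop
      (nhds (Real.exp z)) := by
    intro z
    have h1 := NormedSpace.expSeries_div_hasSum_exp (𝔸 := ℝ) z
    rw [← Real.exp_eq_exp_ℝ] at h1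
    exact h1.tendsto_sum_nat
  have hlim := tendsto_ml_coeff (μ := μ) hp hu huL (ι := Fin n)
    (b := fun K S => (∑ k ∈ range K, (t * S.card) ^ k / k.factorial) * a S)
    (b₀ := fun S => Real.exp (t * S.card) * a S) (fun S => (hexp _).mul_const _)
  exact le_of_tendsto hlim (Eventually.of_forall key)

theorem good_of_lap {p c : ℝ} (hp : 1 ≤ p) (hc : 0 ≤ c) (hu : Measurable u)
    (huL : MemLp u (ENNReal.ofReal p) μ) (h : Lap μ u p c) :
    ∀ r : ℝ, 1 ≤ r → Good μ (ENNReal.ofReal p) u (fun y => r * u y) (r ^ c) := by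
  intro r hr ι _ d a ha
  have hp0 : 0 < p := by linarith
  have hr0 : 0 < r := by linarith
  have hKd : 1 ≤ (r ^ c) ^ d := one_le_pow₀ (Real.one_le_rpow hr hc)
  have e1 : ∀ x : ι → Ω, ml a (fun i => r * u (x i)) =
      ml (fun S => r ^ S.card * a S) (fun i => u (x i)) := by
    intro x
    rw [ml_dilate]
    congr 1
    ext S; ring
  simp_rw [e1]
  rcases Nat.eq_zero_or_pos d with hd | hd
  · subst hd
    have e2 : (fun S : Finset ι => r ^ S.card * a S) = a := by
      ext S
      rcases Nat.eq_zero_or_pos S.card with h0 | h0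
      · rw [h0]; simp
      · rw [ha S h0]; simp
    rw [e2, pow_zero, one_mul]
  rcases Nat.eq_zero_or_pos (Fintype.card ι) with hn | hn
  · have e2 : (fun S : Finset ι => r ^ S.card * a S) = a := by
      ext S
      have h0 : S.card = 0 := by
        have := S.card_le_univ
        omega
      rw [h0]; simp
    rw [e2]
    exact le_mul_of_one_le_left lpNorm_nonneg hKd
  · set n := Fintype.card ι with hnd
    let e : ι ≃ Fin n := Fintype.equivFin ι
    have hmp := measurePreserving_piCongrLeft (fun _ : ι => μ) e.symm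
    have e3 : ∀ b : Finset ι → ℝ, lpNorm (fun x : ι → Ω => ml b (fun i => u (x i)))
        (ENNReal.ofReal p) (Measure.pi fun _ => μ) =
        lpNorm (fun y : Fin n → Ω => ml (fun S : Finset (Fin n) => b (S.map e.symm.toEmbedding))
          (fun i => u (y i))) (ENNReal.ofReal p) (Measure.pi fun _ => μ) := by
      intro b
      rw [← lpNorm_comp_mp (measurable_ml b hu).aestronglyMeasurable hmp]
      congr 1
      ext y
      have := Pool.Agent.H22.RH.ml_reindex e b (fun j => u (y j))
      rw [← this]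
      simp only [Function.comp_apply]
      congr 1
      ext i
      congr 1
      have h7 := MeasurableEquiv.piCongrLeft_apply_apply (β := fun _ : ι => Ω) e.symm y (e i)
      rwa [Equiv.symm_apply_apply] at h7
    rw [e3, e3]
    have h1 := lap_exp hp hc hu huL h (n := n) (d := d) hn hd
      (fun S : Finset (Fin n) => a (S.map e.symm.toEmbedding)) (fun S hS => ha _ (by
        rw [Finset.card_map]; exact hS)) (t := Real.log r) (Real.log_nonneg hr)
    have e4 : ∀ S : Finset (Fin n), r ^ (S.map e.symm.toEmbedding).card =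
        Real.exp (Real.log r * S.card) := by
      intro S
      rw [Finset.card_map, mul_comm, Real.exp_nat_mul, Real.exp_log hr0]
    have e5 : (r ^ c) ^ d = Real.exp (Real.log r * (c * d)) := by
      rw [Real.rpow_def_of_pos hr0, ← Real.exp_nat_mul]
      congr 1
      ring
    simp_rw [e4]
    rw [e5]
    exact h1

/-- the standard Gaussian is an alphabet -/
theorem alphG : Alph (gaussianReal 0 1) (id : ℝ → ℝ) where
  meas := measurable_id
  int3 := by
    have h : MemLp (id : ℝ → ℝ) 3 (gaussianReal 0 1) := memLp_id_gaussianReal (μ := 0) (v := 1) 3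
    have h2 := (integrable_norm_rpow_iff h.1 (by norm_num) (by norm_num)).2 h
    simpa using h2
  mean := by
    have := integral_id_gaussianReal (μ := 0) (v := 1)
    simpa using this
  var := by
    have h := variance_id_gaussianReal (μ := 0) (v := 1)
    have h2 : MemLp (id : ℝ → ℝ) 2 (gaussianReal 0 1) := memLp_id_gaussianReal (μ := 0) (v := 1) 2
    have h3 := variance_eq_sub h2
    have h4 := integral_id_gaussianReal (μ := 0) (v := 1)
    rw [h] at h3
    simp only [id] at h3 ⊢
    simp only [Pi.pow_apply] at h3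
    rw [h4] at h3
    simp at h3
    exact h3.symm

open MvPolynomial in
theorem pderiv_prod {n : ℕ} (i : Fin n) (S : Finset (Fin n)) :
    pderiv i (∏ j ∈ S, X j : MvPolynomial (Fin n) ℝ) =
      if i ∈ S then ∏ j ∈ S.erase i, X j else 0 := by
  induction S using Finset.induction_on with
  | empty => simp
  | insert j S hj ih =>
    rw [Finset.prod_insert hj, Derivation.leibniz, ih, pderiv_X]
    by_cases h : i = j
    · subst h
      simp [hj]
    · have hji : j ≠ i := fun h' => h h'.symm
      by_cases h2 : i ∈ S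
      · have e : (insert j S).erase i = insert j (S.erase i) := by
          rw [Finset.erase_insert_of_ne hji]
        have hj2 : j ∉ S.erase i := fun h' => hj (Finset.mem_of_mem_erase h')
        simp [h, h2, e, Finset.prod_insert hj2, Pi.single_apply]
      · simp [h, h2, Pi.single_apply]

open MvPolynomial in
/-- the multilinear polynomial as an `MvPolynomial` -/
noncomputable def mlP {n : ℕ} (a : Finset (Fin n) → ℝ) : MvPolynomial (Fin n) ℝ :=
  ∑ S : Finset (Fin n), C (a S) * ∏ i ∈ S, X i

open MvPolynomial in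
theorem eval_mlP {n : ℕ} (a : Finset (Fin n) → ℝ) (x : Fin n → ℝ) :
    eval x (mlP a) = ml a x := by
  simp [mlP, ml]

open MvPolynomial in
theorem degree_mlP {n d : ℕ} (a : Finset (Fin n) → ℝ) (ha : ∀ S, d < S.card → a S = 0) :
    (mlP a).totalDegree ≤ d := by
  refine totalDegree_finsetSum_le fun S _ => ?_
  by_cases hS : d < S.card
  · rw [ha S hS]; simp
  · refine (totalDegree_mul _ _).trans ?_
    rw [totalDegree_C, zero_add]
    refine (totalDegree_finsetProd _ _).trans ?_
    simp only [totalDegree_X, Finset.sum_const, smul_eq_mul, mul_one]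
    exact not_lt.1 hS

open MvPolynomial in
/-- Ornstein-Uhlenbeck operator on multilinear polynomials -/
theorem ou_mlP {n : ℕ} (a : Finset (Fin n) → ℝ) (x : Fin n → ℝ) :
    ∑ i, (eval x (pderiv i (pderiv i (mlP a))) - x i * eval x (pderiv i (mlP a))) =
      -ml (fun S => (S.card : ℝ) * a S) x := by
  have h1 : ∀ i, pderiv i (mlP a) = ∑ S : Finset (Fin n),
      C (a S) * (if i ∈ S then ∏ j ∈ S.erase i, X j else 0) := by
    intro i
    rw [mlP, map_sum]
    refine Finset.sum_congr rfl fun S _ => ?_
    rw [pderiv_C_mul, pderiv_prod]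
  have h2 : ∀ i, pderiv i (pderiv i (mlP a)) = 0 := by
    intro i
    rw [h1, map_sum]
    refine Finset.sum_eq_zero fun S _ => ?_
    rw [pderiv_C_mul]
    split_ifs with h
    · rw [pderiv_prod]; simp
    · simp
  have h3 : ∀ i, x i * eval x (pderiv i (mlP a)) = ∑ S : Finset (Fin n),
      (if i ∈ S then a S * ∏ j ∈ S, x j else 0) := by
    intro i
    rw [h1, map_sum, Finset.mul_sum]
    refine Finset.sum_congr rfl fun S _ => ?_
    split_ifs with h
    · rw [map_mul, eval_C, map_prod]
      simp only [eval_X]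
      rw [← Finset.mul_prod_erase S x h]
      ring
    · simp
  simp only [h2, h3, map_zero, zero_sub, Finset.sum_neg_distrib]
  congr 1
  rw [Finset.sum_comm, ml]
  refine Finset.sum_congr rfl fun S _ => ?_
  rw [← Finset.sum_filter, Finset.sum_const, nsmul_eq_mul]
  have : (Finset.univ.filter (fun i => i ∈ S)).card = S.card := by
    congr 1; ext i; simp
  rw [this]; ring

end Pool.Agent.H93.RH
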