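import Mathlib

/-!
# Robin gap counterexample, part A: one-dimensional lemmas and iterated box integrals
-/

namespace Pool.Agent.H93.Robin

open MeasureTheory intervalIntegral Set

/-! ### One-dimensional lemmas -/

/-- 1D Riccati lemma. -/
theorem riccati {a b : ℝ} (hab : a ≤ b) {w w' F F' D R : ℝ → ℝ}
    (hw : ∀ x, HasDerivAt w (w' x) x) (hw' : Continuous w')
    (hF : ∀ x, HasDerivAt F (F' x) x) (hF' : Continuous F')
    (hD : Continuous D) (hR : Continuous R)
    (hpos : ∀ x ∈ Icc a b, 0 < D x)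
    (hineq : ∀ x ∈ Icc a b, F x ^ 2 ≤ D x * (R x + F' x)) :
    0 ≤ (∫ x in a..b, (D x * w' x ^ 2 + R x * w x ^ 2)) + (F b * w b ^ 2 - F a * w a ^ 2) := by
  have cw : Continuous w := continuous_iff_continuousAt.2 fun x => (hw x).continuousAt
  have cF : Continuous F := continuous_iff_continuousAt.2 fun x => (hF x).continuousAt
  have h1 : ∫ x in a..b, (F' x * w x ^ 2 + F x * (2 * w x * w' x))
      = F b * w b ^ 2 - F a * w a ^ 2 := by
    have := integral_eq_sub_of_hasDerivAt (a := a) (b := b) (f := fun x => F x * w x ^ 2)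
      (f' := fun x => F' x * w x ^ 2 + F x * (2 * w x * w' x)) ?_ ?_
    · exact this
    · intro x _
      have h2 : HasDerivAt (fun x => F x * w x ^ 2) _ x := (hF x).mul ((hw x).pow 2)
      refine h2.congr_deriv ?_
      norm_num [Pi.pow_apply]
    · apply Continuous.intervalIntegrable
      fun_prop
  rw [← h1, ← intervalIntegral.integral_add]
  · apply intervalIntegral.integral_nonneg hab
    intro x hx
    have hd := hpos x hx
    have hi := hineq x hx
    have key : 0 ≤ D x * (D x * w' x ^ 2 + R x * w x ^ 2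
        + (F' x * w x ^ 2 + F x * (2 * w x * w' x))) := by
      have e : D x * (D x * w' x ^ 2 + R x * w x ^ 2
        + (F' x * w x ^ 2 + F x * (2 * w x * w' x)))
        = (D x * w' x + F x * w x) ^ 2 + (D x * (R x + F' x) - F x ^ 2) * w x ^ 2 := by ring
      rw [e]
      have := mul_nonneg (sub_nonneg.2 hi) (sq_nonneg (w x))
      positivity
    exact nonneg_of_mul_nonneg_right key hd
  · apply Continuous.intervalIntegrable
    fun_prop
  · apply Continuous.intervalIntegrable
    fun_prop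

/-- elementary Cauchy–Schwarz estimate for increments -/
theorem sq_sub_le {a b x : ℝ} (hx : x ∈ Icc a b) {w w' : ℝ → ℝ}
    (hw : ∀ x, HasDerivAt w (w' x) x) (hw' : Continuous w') :
    (w x - w a) ^ 2 ≤ (x - a) * ∫ r in a..b, w' r ^ 2 := by
  obtain ⟨hax, hxb⟩ := hx
  have hmono : ∫ r in a..x, w' r ^ 2 ≤ ∫ r in a..b, w' r ^ 2 := by
    rw [← intervalIntegral.integral_add_adjacent_intervals (a := a) (b := x) (c := b)]
    · have : 0 ≤ ∫ r in x..b, w' r ^ 2 :=
        intervalIntegral.integral_nonneg hxb fun r _ => sq_nonneg _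
      linarith
    · exact (hw'.pow 2).intervalIntegrable _ _
    · exact (hw'.pow 2).intervalIntegrable _ _
  have hfund : ∫ r in a..x, w' r = w x - w a :=
    integral_eq_sub_of_hasDerivAt (fun x _ => hw x) (hw'.intervalIntegrable _ _)
  rcases eq_or_lt_of_le hax with h | h
  · subst h; simp
  have key : ∀ k : ℝ, 0 ≤ (∫ r in a..x, w' r ^ 2) - 2 * k * (w x - w a) + k ^ 2 * (x - a) := by
    intro k
    have h0 : 0 ≤ ∫ r in a..x, (w' r - k) ^ 2 :=
      intervalIntegral.integral_nonneg hax fun r _ => sq_nonneg _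
    have h1 : ∫ r in a..x, (w' r - k) ^ 2
        = (∫ r in a..x, w' r ^ 2) - 2 * k * (∫ r in a..x, w' r) + k ^ 2 * (x - a) := by
      have : ∀ r, (w' r - k) ^ 2 = w' r ^ 2 - (2 * k) * w' r + k ^ 2 := fun r => by ring
      simp_rw [this]
      rw [intervalIntegral.integral_add, intervalIntegral.integral_sub,
        intervalIntegral.integral_const_mul, intervalIntegral.integral_const]
      · simp [mul_comm]
      · exact (hw'.pow 2).intervalIntegrable _ _
      · exact (continuous_const.mul hw').intervalIntegrable _ _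
      · exact ((hw'.pow 2).sub (continuous_const.mul hw')).intervalIntegrable _ _
      · exact continuous_const.intervalIntegrable _ _
    rw [h1, hfund] at h0
    exact h0
  have hx0 : 0 < x - a := by linarith
  have := key ((w x - w a) / (x - a))
  have h2 : (w x - w a) ^ 2 ≤ (x - a) * ∫ r in a..x, w' r ^ 2 := by
    have e : (x - a) * ((∫ r in a..x, w' r ^ 2) - 2 * ((w x - w a) / (x - a)) * (w x - w a)
        + ((w x - w a) / (x - a)) ^ 2 * (x - a))
        = (x - a) * (∫ r in a..x, w' r ^ 2) - (w x - w a) ^ 2 := by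
      field_simp
      ring
    have := mul_nonneg hx0.le this
    rw [e] at this
    linarith
  exact h2.trans (mul_le_mul_of_nonneg_left hmono hx0.le)

/-- `∫ (w - w a)² ≤ (b-a)²/2 ∫ w'²` -/
theorem int_sq_sub_le {a b : ℝ} (hab : a ≤ b) {w w' : ℝ → ℝ}
    (hw : ∀ x, HasDerivAt w (w' x) x) (hw' : Continuous w') :
    ∫ x in a..b, (w x - w a) ^ 2 ≤ (b - a) ^ 2 / 2 * ∫ r in a..b, w' r ^ 2 := by
  have cw : Continuous w := continuous_iff_continuousAt.2 fun x => (hw x).continuousAt
  have h1 : ∫ x in a..b, (w x - w a) ^ 2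
      ≤ ∫ x in a..b, (x - a) * ∫ r in a..b, w' r ^ 2 := by
    apply intervalIntegral.integral_mono_on hab
    · exact ((cw.sub continuous_const).pow 2).intervalIntegrable _ _
    · exact ((continuous_id.sub continuous_const).mul continuous_const).intervalIntegrable _ _
    · intro x hx
      exact sq_sub_le hx hw hw'
  rw [intervalIntegral.integral_mul_const] at h1
  have h2 : ∫ x in a..b, (x - a) = (b - a) ^ 2 / 2 := by
    rw [intervalIntegral.integral_sub (by exact continuous_id.intervalIntegrable _ _)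
      (by exact continuous_const.intervalIntegrable _ _)]
    simp
    ring
  rw [h2] at h1
  exact h1

/-- symmetric version around `0` on `[-1,1]` -/
theorem int_sq_sub_zero_le {w w' : ℝ → ℝ}
    (hw : ∀ x, HasDerivAt w (w' x) x) (hw' : Continuous w') :
    ∫ x in (-1:ℝ)..1, (w x - w 0) ^ 2 ≤ 1 / 2 * ∫ r in (-1:ℝ)..1, w' r ^ 2 := by
  have cw : Continuous w := continuous_iff_continuousAt.2 fun x => (hw x).continuousAt
  have h1 := int_sq_sub_le (a := 0) (b := 1) zero_le_one hw hw'
  have hw2 : ∀ x, HasDerivAt (fun x => w (-x)) (-w' (-x)) x := by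
    intro x
    have := (hw (-x)).comp x (hasDerivAt_neg x)
    have e : w' (-x) * (-1) = -w' (-x) := by ring
    rw [e] at this
    exact this
  have h2 := int_sq_sub_le (a := 0) (b := 1) zero_le_one hw2 (by fun_prop)
  have e1 : ∫ x in (0:ℝ)..1, (w (-x) - w (-0)) ^ 2 = ∫ x in (-1:ℝ)..0, (w x - w 0) ^ 2 := by
    have := intervalIntegral.integral_comp_neg (a := 0) (b := 1) (fun x => (w x - w 0) ^ 2)
    simp only [neg_zero] at this ⊢
    exact this
  have e2 : ∫ x in (0:ℝ)..1, (-w' (-x)) ^ 2 = ∫ x in (-1:ℝ)..0, (w' x) ^ 2 := by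
    have := intervalIntegral.integral_comp_neg (a := 0) (b := 1) (fun x => (w' x) ^ 2)
    simp only [neg_zero] at this
    rw [← this]
    apply intervalIntegral.integral_congr
    intro x _
    simp
  have h2' : ∫ x in (-1:ℝ)..0, (w x - w 0) ^ 2 ≤ (1 - 0) ^ 2 / 2 * ∫ x in (-1:ℝ)..0, (w' x) ^ 2 := by
    rw [← e1, ← e2]; exact h2
  rw [← intervalIntegral.integral_add_adjacent_intervals (a := -1) (b := 0) (c := 1),
    ← intervalIntegral.integral_add_adjacent_intervals (a := -1) (b := 0) (c := 1)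
      (f := fun r => w' r ^ 2)]
  · norm_num at h1 h2' ⊢
    linarith
  · exact (hw'.pow 2).intervalIntegrable _ _
  · exact (hw'.pow 2).intervalIntegrable _ _
  · exact ((cw.sub continuous_const).pow 2).intervalIntegrable _ _
  · exact ((cw.sub continuous_const).pow 2).intervalIntegrable _ _

/-- Jensen on `[0,1]`. -/
theorem sq_int_le {f : ℝ → ℝ} (hf : Continuous f) :
    (∫ t in (0:ℝ)..1, f t) ^ 2 ≤ ∫ t in (0:ℝ)..1, f t ^ 2 := by
  have h0 : 0 ≤ ∫ r in (0:ℝ)..1, (f r - ∫ t in (0:ℝ)..1, f t) ^ 2 :=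
    intervalIntegral.integral_nonneg zero_le_one fun r _ => sq_nonneg _
  have h1 : ∀ k : ℝ, ∫ r in (0:ℝ)..1, (f r - k) ^ 2
      = (∫ r in (0:ℝ)..1, f r ^ 2) - 2 * k * (∫ r in (0:ℝ)..1, f r) + k ^ 2 := by
    intro k
    have : ∀ r, (f r - k) ^ 2 = f r ^ 2 - (2 * k) * f r + k ^ 2 := fun r => by ring
    simp_rw [this]
    rw [intervalIntegral.integral_add, intervalIntegral.integral_sub,
      intervalIntegral.integral_const_mul, intervalIntegral.integral_const]
    · simp
    · exact (hf.pow 2).intervalIntegrable _ _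
    · exact (continuous_const.mul hf).intervalIntegrable _ _
    · exact ((hf.pow 2).sub (continuous_const.mul hf)).intervalIntegrable _ _
    · exact continuous_const.intervalIntegrable _ _
  rw [h1] at h0
  nlinarith [h0]

/-- variance bound on `[0,1]` -/
theorem var_le {f : ℝ → ℝ} (hf : Continuous f) (k : ℝ) :
    (∫ t in (0:ℝ)..1, f t ^ 2) ≤ (∫ t in (0:ℝ)..1, f t) ^ 2
      + ∫ t in (0:ℝ)..1, (f t - k) ^ 2 := by
  have h1 : ∫ r in (0:ℝ)..1, (f r - k) ^ 2
      = (∫ r in (0:ℝ)..1, f r ^ 2) - 2 * k * (∫ r in (0:ℝ)..1, f r) + k ^ 2 := by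
    have : ∀ r, (f r - k) ^ 2 = f r ^ 2 - (2 * k) * f r + k ^ 2 := fun r => by ring
    simp_rw [this]
    rw [intervalIntegral.integral_add, intervalIntegral.integral_sub,
      intervalIntegral.integral_const_mul, intervalIntegral.integral_const]
    · simp
    · exact (hf.pow 2).intervalIntegrable _ _
    · exact (continuous_const.mul hf).intervalIntegrable _ _
    · exact ((hf.pow 2).sub (continuous_const.mul hf)).intervalIntegrable _ _
    · exact continuous_const.intervalIntegrable _ _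
  rw [h1]
  nlinarith [sq_nonneg ((∫ t in (0:ℝ)..1, f t) - k)]

/-! ### Iterated integrals -/

/-- joint continuity of a function of three variables -/
def C3 (G : ℝ → ℝ → ℝ → ℝ) : Prop := Continuous (fun x : ℝ × ℝ × ℝ => G x.1 x.2.1 x.2.2)

/-- integral over the box `[-1,1]×[0,1]×[0,1]` -/
noncomputable def I3 (G : ℝ → ℝ → ℝ → ℝ) : ℝ :=
  ∫ s in (-1:ℝ)..1, ∫ q in (0:ℝ)..1, ∫ t in (0:ℝ)..1, G s q t

theorem swap_cont {F : ℝ → ℝ → ℝ} (hF : Continuous F.uncurry) (a b c d : ℝ) :
    ∫ x in a..b, ∫ y in c..d, F x y = ∫ y in c..d, ∫ x in a..b, F x y := by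
  apply intervalIntegral_intervalIntegral_swap
  apply (hF.continuousOn.integrableOn_compact (isCompact_uIcc.prod isCompact_uIcc)).mono_set
  exact Set.prod_mono uIoc_subset_uIcc uIoc_subset_uIcc

section
variable {G G₁ G₂ : ℝ → ℝ → ℝ → ℝ}

theorem C3.t (h : C3 G) (s q : ℝ) : Continuous (fun t => G s q t) := by
  exact h.comp (f := fun t : ℝ => (s, q, t)) (by fun_prop)

theorem C3.q (h : C3 G) (s t : ℝ) : Continuous (fun q => G s q t) := by
  exact h.comp (f := fun q : ℝ => (s, q, t)) (by fun_prop)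

theorem C3.s (h : C3 G) (q t : ℝ) : Continuous (fun s => G s q t) := by
  exact h.comp (f := fun s : ℝ => (s, q, t)) (by fun_prop)

theorem C3.int_t (h : C3 G) : Continuous (Function.uncurry fun s q => ∫ t in (0:ℝ)..1, G s q t) := by
  apply continuous_parametric_intervalIntegral_of_continuous' (X := ℝ × ℝ)
    (f := fun p t => G p.1 p.2 t)
  exact h.comp (f := fun x : (ℝ × ℝ) × ℝ => (x.1.1, x.1.2, x.2)) (by fun_prop)

theorem C3.int_q (h : C3 G) : Continuous (Function.uncurry fun s t => ∫ q in (0:ℝ)..1, G s q t) := by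
  apply continuous_parametric_intervalIntegral_of_continuous' (X := ℝ × ℝ)
    (f := fun p q => G p.1 q p.2)
  exact h.comp (f := fun x : (ℝ × ℝ) × ℝ => (x.1.1, x.2, x.1.2)) (by fun_prop)

theorem C3.int_s (h : C3 G) : Continuous (Function.uncurry fun q t => ∫ s in (-1:ℝ)..1, G s q t) := by
  apply continuous_parametric_intervalIntegral_of_continuous' (X := ℝ × ℝ)
    (f := fun p s => G s p.1 p.2)
  exact h.comp (f := fun x : (ℝ × ℝ) × ℝ => (x.2, x.1.1, x.1.2)) (by fun_prop)

theorem C3.int_qt (h : C3 G) : Continuous (fun s => ∫ q in (0:ℝ)..1, ∫ t in (0:ℝ)..1, G s q t) := by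
  exact continuous_parametric_intervalIntegral_of_continuous' h.int_t 0 1

theorem cont_row {F : ℝ → ℝ → ℝ} (hF : Continuous F.uncurry) (x : ℝ) : Continuous (F x) := by
  exact hF.comp (f := fun y : ℝ => (x, y)) (by fun_prop)

theorem I3_swap_q (h : C3 G) :
    I3 G = ∫ s in (-1:ℝ)..1, ∫ t in (0:ℝ)..1, ∫ q in (0:ℝ)..1, G s q t := by
  unfold I3
  apply intervalIntegral.integral_congr
  intro s _
  apply swap_cont
  exact h.comp (f := fun x : ℝ × ℝ => (s, x.1, x.2)) (by fun_prop)

theorem I3_swap_s (h : C3 G) :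
    I3 G = ∫ q in (0:ℝ)..1, ∫ t in (0:ℝ)..1, ∫ s in (-1:ℝ)..1, G s q t := by
  unfold I3
  rw [swap_cont h.int_t]
  apply intervalIntegral.integral_congr
  intro q _
  apply swap_cont
  exact h.comp (f := fun x : ℝ × ℝ => (x.1, q, x.2)) (by fun_prop)

theorem I3_nonneg_t (h : ∀ s ∈ Icc (-1:ℝ) 1, ∀ q ∈ Icc (0:ℝ) 1, 0 ≤ ∫ t in (0:ℝ)..1, G s q t) :
    0 ≤ I3 G := by
  apply intervalIntegral.integral_nonneg (by norm_num)
  intro s hs
  apply intervalIntegral.integral_nonneg (by norm_num)
  intro q hq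
  exact h s hs q hq

theorem I3_nonneg_q (hG : C3 G)
    (h : ∀ s ∈ Icc (-1:ℝ) 1, ∀ t ∈ Icc (0:ℝ) 1, 0 ≤ ∫ q in (0:ℝ)..1, G s q t) :
    0 ≤ I3 G := by
  rw [I3_swap_q hG]
  apply intervalIntegral.integral_nonneg (by norm_num)
  intro s hs
  apply intervalIntegral.integral_nonneg (by norm_num)
  intro q hq
  exact h s hs q hq

theorem I3_nonneg_s (hG : C3 G)
    (h : ∀ q ∈ Icc (0:ℝ) 1, ∀ t ∈ Icc (0:ℝ) 1, 0 ≤ ∫ s in (-1:ℝ)..1, G s q t) :
    0 ≤ I3 G := by
  rw [I3_swap_s hG]
  apply intervalIntegral.integral_nonneg (by norm_num)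
  intro s hs
  apply intervalIntegral.integral_nonneg (by norm_num)
  intro q hq
  exact h s hs q hq

theorem I3_add (h₁ : C3 G₁) (h₂ : C3 G₂) :
    I3 (fun s q t => G₁ s q t + G₂ s q t) = I3 G₁ + I3 G₂ := by
  unfold I3
  rw [← intervalIntegral.integral_add (h₁.int_qt.intervalIntegrable _ _)
    (h₂.int_qt.intervalIntegrable _ _)]
  apply intervalIntegral.integral_congr
  intro s _
  dsimp only
  rw [← intervalIntegral.integral_add ((cont_row h₁.int_t s).intervalIntegrable _ _)
    ((cont_row h₂.int_t s).intervalIntegrable _ _)]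
  apply intervalIntegral.integral_congr
  intro q _
  dsimp only
  rw [← intervalIntegral.integral_add ((h₁.t s q).intervalIntegrable _ _)
    ((h₂.t s q).intervalIntegrable _ _)]

theorem I3_const_mul (c : ℝ) :
    I3 (fun s q t => c * G s q t) = c * I3 G := by
  unfold I3
  simp_rw [intervalIntegral.integral_const_mul]

theorem I3_mono (h₁ : C3 G₁) (h₂ : C3 G₂)
    (h : ∀ s ∈ Icc (-1:ℝ) 1, ∀ q ∈ Icc (0:ℝ) 1, ∀ t ∈ Icc (0:ℝ) 1, G₁ s q t ≤ G₂ s q t) :
    I3 G₁ ≤ I3 G₂ := by
  unfold I3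
  apply intervalIntegral.integral_mono_on (by norm_num) (h₁.int_qt.intervalIntegrable _ _)
    (h₂.int_qt.intervalIntegrable _ _)
  intro s hs
  apply intervalIntegral.integral_mono_on (by norm_num)
    ((cont_row h₁.int_t s).intervalIntegrable _ _)
    ((cont_row h₂.int_t s).intervalIntegrable _ _)
  intro q hq
  apply intervalIntegral.integral_mono_on (by norm_num) ((h₁.t s q).intervalIntegrable _ _)
    ((h₂.t s q).intervalIntegrable _ _)
  intro t ht
  exact h s hs q hq t ht

/-- functions not depending on `t` -/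
theorem I3_indep_t (F : ℝ → ℝ → ℝ) :
    I3 (fun s q _ => F s q) = ∫ s in (-1:ℝ)..1, ∫ q in (0:ℝ)..1, F s q := by
  unfold I3
  simp

end

end Pool.Agent.H93.Robin
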