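import Pool.Agent.H93.RobinA

/-!
# Robin gap counterexample, part B: Fubini on Euclidean space and the volume integral
-/

namespace Pool.Agent.H93.Robin

open MeasureTheory intervalIntegral Set

abbrev E2 := EuclideanSpace ℝ (Fin 2)
abbrev E3 := EuclideanSpace ℝ (Fin 3)

/-! ### Fubini in coordinates -/

noncomputable def e3 : E3 ≃ᵐ ℝ × ℝ × ℝ :=
  (MeasurableEquiv.toLp 2 (Fin 3 → ℝ)).symm.trans
    ((MeasurableEquiv.piFinSuccAbove (fun _ : Fin 3 => ℝ) 0).trans
      (MeasurableEquiv.prodCongr (MeasurableEquiv.refl ℝ) MeasurableEquiv.finTwoArrow))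

theorem e3_mp : MeasurePreserving e3 := by
  have h1 := EuclideanSpace.volume_preserving_symm_measurableEquiv_toLp (Fin 3)
  have h2 := volume_preserving_piFinSuccAbove (fun _ : Fin 3 => ℝ) 0
  have h3 : MeasurePreserving (MeasurableEquiv.prodCongr (MeasurableEquiv.refl ℝ)
      (MeasurableEquiv.finTwoArrow (α := ℝ))) := by
    exact (MeasurePreserving.id volume).prod (volume_preserving_finTwoArrow ℝ)
  exact (h3.comp h2).comp h1

theorem e3_apply (x : E3) : e3 x = (x 0, x 1, x 2) := rfl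

theorem e3_symm_apply (z : ℝ × ℝ × ℝ) : e3.symm z = !₂[z.1, z.2.1, z.2.2] := by
  rw [MeasurableEquiv.symm_apply_eq, e3_apply]
  simp

theorem integral_E3 (F : E3 → ℝ) : ∫ x, F x = ∫ z : ℝ × ℝ × ℝ, F !₂[z.1, z.2.1, z.2.2] := by
  rw [← e3_mp.integral_comp' (fun z : ℝ × ℝ × ℝ => F !₂[z.1, z.2.1, z.2.2])]
  congr 1
  ext x
  rw [← e3_symm_apply, MeasurableEquiv.symm_apply_apply]

theorem integrable_E3 {F : E3 → ℝ} (h : Integrable F) :
    Integrable (fun z : ℝ × ℝ × ℝ => F !₂[z.1, z.2.1, z.2.2]) := by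
  have := (e3_mp.symm.integrable_comp_emb e3.symm.measurableEmbedding (g := F)).2 h
  refine this.congr (Filter.Eventually.of_forall fun z => ?_)
  simp only [Function.comp]
  rw [e3_symm_apply]

noncomputable def e2 : E2 ≃ᵐ ℝ × ℝ :=
  (MeasurableEquiv.toLp 2 (Fin 2 → ℝ)).symm.trans MeasurableEquiv.finTwoArrow

theorem e2_mp : MeasurePreserving e2 := by
  have h1 := EuclideanSpace.volume_preserving_symm_measurableEquiv_toLp (Fin 2)
  exact (volume_preserving_finTwoArrow ℝ).comp h1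

theorem e2_apply (x : E2) : e2 x = (x 0, x 1) := rfl

theorem e2_symm_apply (z : ℝ × ℝ) : e2.symm z = !₂[z.1, z.2] := by
  rw [MeasurableEquiv.symm_apply_eq, e2_apply]
  simp

theorem integral_E2 (F : E2 → ℝ) : ∫ x, F x = ∫ z : ℝ × ℝ, F !₂[z.1, z.2] := by
  rw [← e2_mp.integral_comp' (fun z : ℝ × ℝ => F !₂[z.1, z.2])]
  congr 1
  ext x
  rw [← e2_symm_apply, MeasurableEquiv.symm_apply_apply]

theorem integrable_E2 {F : E2 → ℝ} (h : Integrable F) :
    Integrable (fun z : ℝ × ℝ => F !₂[z.1, z.2]) := by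
  have := (e2_mp.symm.integrable_comp_emb e2.symm.measurableEmbedding (g := F)).2 h
  refine this.congr (Filter.Eventually.of_forall fun z => ?_)
  simp only [Function.comp]
  rw [e2_symm_apply]

/-- one-dimensional scaling -/
theorem scale1 (b : ℝ) (f : ℝ → ℝ) : ∫ x in (0:ℝ)..b, f x = ∫ t in (0:ℝ)..1, b * f (b * t) := by
  rw [intervalIntegral.integral_const_mul]
  have := intervalIntegral.mul_integral_comp_mul_left (a := 0) (b := 1) (f := f) b
  rw [this]
  simp

theorem int_ind_Ioo {a b : ℝ} (hab : a ≤ b) (f : ℝ → ℝ) :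
    ∫ x, (Ioo a b).indicator f x = ∫ x in a..b, f x := by
  rw [MeasureTheory.integral_indicator measurableSet_Ioo, intervalIntegral.integral_of_le hab,
    integral_Ioc_eq_integral_Ioo]

/-! ### The domain -/

/-- The counterexample domain: a thin wedge-like plate. -/
def Om (γ δ c ε : ℝ) : Set E3 :=
  {x | |x 0| < 1 ∧ (0 < x 1 ∧ x 1 < δ * (1 - γ * x 0 ^ 2)) ∧
    (0 < x 2 ∧ x 2 < ε * (1 - c / δ * x 1))}

/-- Admissible parameters. -/
structure Adm (γ δ c ε : ℝ) : Prop where
  γ0 : 0 < γ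
  γ1 : γ ≤ 1 / 10
  δ0 : 0 < δ
  δ1 : δ ≤ 1
  c0 : 0 < c
  c1 : c ≤ 1 / 10
  ε0 : 0 < ε
  ε1 : ε ≤ 1

variable {γ δ c ε : ℝ}

theorem mem_Om {x : E3} : x ∈ Om γ δ c ε ↔ |x 0| < 1 ∧ (0 < x 1 ∧ x 1 < δ * (1 - γ * x 0 ^ 2)) ∧
    (0 < x 2 ∧ x 2 < ε * (1 - c / δ * x 1)) := Iff.rfl

theorem cont_coord (i : Fin 3) : Continuous (fun x : E3 => x i) := by
  exact (PiLp.continuous_apply 2 (fun _ : Fin 3 => ℝ) i)

theorem isOpen_Om : IsOpen (Om γ δ c ε) := by
  have c0 := cont_coord 0
  have c1 := cont_coord 1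
  have c2 := cont_coord 2
  have h1 : IsOpen {x : E3 | |x 0| < 1} := isOpen_lt (by fun_prop) (by fun_prop)
  have h2 : IsOpen {x : E3 | 0 < x 1} := isOpen_lt (by fun_prop) (by fun_prop)
  have h3 : IsOpen {x : E3 | x 1 < δ * (1 - γ * x 0 ^ 2)} := isOpen_lt (by fun_prop) (by fun_prop)
  have h4 : IsOpen {x : E3 | 0 < x 2} := isOpen_lt (by fun_prop) (by fun_prop)
  have h5 : IsOpen {x : E3 | x 2 < ε * (1 - c / δ * x 1)} := isOpen_lt (by fun_prop) (by fun_prop)
  exact h1.inter ((h2.inter h3).inter (h4.inter h5))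

theorem comb_pos {P Q a b : ℝ} (hP : 0 < P) (hQ : 0 < Q) (ha : 0 ≤ a) (hb : 0 ≤ b)
    (hab : a + b = 1) : 0 < a * P + b * Q := by
  rcases eq_or_lt_of_le ha with h | h
  · have : b = 1 := by linarith
    rw [← h, this]; linarith
  · have := mul_pos h hP
    have := mul_nonneg hb hQ.le
    linarith

theorem convex_Om (h : Adm γ δ c ε) : Convex ℝ (Om γ δ c ε) := by
  intro x hx y hy a b ha hb hab
  obtain ⟨hx0, ⟨hx1, hx2⟩, hx3, hx4⟩ := hx
  obtain ⟨hy0, ⟨hy1, hy2⟩, hy3, hy4⟩ := hy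
  have e : ∀ i : Fin 3, (a • x + b • y) i = a * x i + b * y i := fun i => by simp
  rw [mem_Om]
  simp only [e]
  rw [abs_lt] at hx0 hy0
  refine ⟨?_, ⟨comb_pos hx1 hy1 ha hb hab, ?_⟩, comb_pos hx3 hy3 ha hb hab, ?_⟩
  · rw [abs_lt]
    have h1 := comb_pos (P := x 0 + 1) (Q := y 0 + 1) (by linarith) (by linarith) ha hb hab
    have h2 := comb_pos (P := 1 - x 0) (Q := 1 - y 0) (by linarith) (by linarith) ha hb hab
    constructor <;> nlinarith
  · have h1 := comb_pos (sub_pos.2 hx2) (sub_pos.2 hy2) ha hb hab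
    have h2 : (a * x 0 + b * y 0) ^ 2 ≤ a * x 0 ^ 2 + b * y 0 ^ 2 := by
      have : b = 1 - a := by linarith
      subst this
      have := mul_nonneg (mul_nonneg ha hb) (sq_nonneg (x 0 - y 0))
      nlinarith [this]
    have h3 : δ * γ * (a * x 0 + b * y 0) ^ 2 ≤ δ * γ * (a * x 0 ^ 2 + b * y 0 ^ 2) :=
      mul_le_mul_of_nonneg_left h2 (mul_pos h.δ0 h.γ0).le
    have h4 : δ = a * δ + b * δ := by rw [← add_mul, hab, one_mul]
    nlinarith [h1, h3, h4]
  · have h1 := comb_pos (sub_pos.2 hx4) (sub_pos.2 hy4) ha hb hab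
    have h4 : ε = a * ε + b * ε := by rw [← add_mul, hab, one_mul]
    have e5 : ε * (1 - c / δ * (a * x 1 + b * y 1)) - (a * x 2 + b * y 2)
      = a * (ε * (1 - c / δ * x 1) - x 2) + b * (ε * (1 - c / δ * y 1) - y 2)
        + (ε - (a * ε + b * ε)) := by ring
    linarith

theorem isBounded_Om (h : Adm γ δ c ε) : Bornology.IsBounded (Om γ δ c ε) := by
  rw [isBounded_iff_forall_norm_le]
  refine ⟨3, fun x hx => ?_⟩
  obtain ⟨hx0, ⟨hx1, hx2⟩, hx3, hx4⟩ := hx
  have hδ := h.δ0
  have hc : 0 < c / δ := div_pos h.c0 h.δ0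
  have b1 : x 1 ≤ 1 := by
    have : δ * (1 - γ * x 0 ^ 2) ≤ 1 * 1 := by
      apply mul_le_mul h.δ1 _ _ zero_le_one
      · have := mul_nonneg h.γ0.le (sq_nonneg (x 0)); linarith
      · have h1 : x 0 ^ 2 ≤ 1 := by
          rw [← sq_abs]; have := abs_nonneg (x 0); nlinarith
        have := h.γ1
        have := h.γ0
        nlinarith
    linarith
  have b2 : x 2 ≤ 1 := by
    have : ε * (1 - c / δ * x 1) ≤ ε * 1 := by
      apply mul_le_mul_of_nonneg_left _ h.ε0.le
      have := mul_pos hc hx1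
      linarith
    have := h.ε1
    linarith
  rw [EuclideanSpace.norm_eq, Fin.sum_univ_three]
  rw [Real.sqrt_le_left (by norm_num)]
  simp only [Real.norm_eq_abs, sq_abs]
  have h1 : x 0 ^ 2 ≤ 1 := by
    rw [← sq_abs]; have := abs_nonneg (x 0); nlinarith
  nlinarith

theorem half_mem_Om (h : Adm γ δ c ε) : !₂[0, δ / 2, ε / 2] ∈ Om γ δ c ε := by
  rw [mem_Om]
  have hδ := h.δ0
  have hε := h.ε0
  have e : c / δ * (δ / 2) = c / 2 := by field_simp
  simp only [Matrix.cons_val_zero, Matrix.cons_val_one, Matrix.cons_val]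
  rw [e]
  have := h.c1
  refine ⟨by norm_num, ⟨by linarith, by nlinarith⟩, by linarith, by nlinarith⟩

theorem nonempty_Om (h : Adm γ δ c ε) : (Om γ δ c ε).Nonempty := ⟨_, half_mem_Om h⟩

theorem integrableOn_Om (h : Adm γ δ c ε) {F : E3 → ℝ} (hF : Continuous F) :
    IntegrableOn F (Om γ δ c ε) :=
  (hF.continuousOn.integrableOn_compact (isBounded_Om h).isCompact_closure).mono_set
    subset_closure

/-- The volume integral in box coordinates. -/
theorem vol_integral (h : Adm γ δ c ε) {F : E3 → ℝ} (hF : Continuous F) :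
    ∫ x in Om γ δ c ε, F x = δ * ε * I3 (fun s q t => (1 - γ * s ^ 2) *
      (1 - c * (1 - γ * s ^ 2) * q) *
        F !₂[s, δ * (1 - γ * s ^ 2) * q, ε * (1 - c * (1 - γ * s ^ 2) * q) * t]) := by
  have hδ := h.δ0
  have hc1 := h.c1
  have hγ1 := h.γ1
  have hγ0 := h.γ0
  have hc0 := h.c0
  have hm : MeasurableSet (Om γ δ c ε) := isOpen_Om.measurableSet
  have hint : Integrable ((Om γ δ c ε).indicator F) :=
    (integrableOn_Om h hF).integrable_indicator hm
  have hint' := integrable_E3 hint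
  rw [← MeasureTheory.integral_indicator hm, integral_E3]
  have hv : (volume : Measure (ℝ × ℝ × ℝ)) = (volume : Measure ℝ).prod volume :=
    Measure.volume_eq_prod _ _
  rw [hv] at hint' ⊢
  rw [integral_prod _ hint']
  have step : ∀ᵐ s : ℝ, ∫ w : ℝ × ℝ, (Om γ δ c ε).indicator F !₂[s, w.1, w.2]
      = (Ioo (-1:ℝ) 1).indicator (fun s => ∫ p in (0:ℝ)..(δ * (1 - γ * s ^ 2)),
          ∫ y in (0:ℝ)..(ε * (1 - c / δ * p)), F !₂[s, p, y]) s := by
    filter_upwards [hint'.prod_right_ae] with s hs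
    rw [Measure.volume_eq_prod] at hs ⊢
    rw [integral_prod _ hs]
    by_cases h1 : s ∈ Ioo (-1:ℝ) 1
    · rw [indicator_of_mem h1]
      have hs2 : s ^ 2 ≤ 1 := by nlinarith [h1.1, h1.2]
      have hg : 0 < 1 - γ * s ^ 2 := by nlinarith
      rw [← int_ind_Ioo (by positivity)]
      congr 1
      ext p
      by_cases h2 : p ∈ Ioo 0 (δ * (1 - γ * s ^ 2))
      · rw [indicator_of_mem h2]
        have hp : 0 ≤ 1 - c / δ * p := by
          have : c / δ * p ≤ c / δ * δ := by
            apply mul_le_mul_of_nonneg_left _ (by positivity)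
            have := h2.2
            nlinarith [mul_nonneg hγ0.le (sq_nonneg s)]
          rw [div_mul_cancel₀ _ hδ.ne'] at this
          linarith
        rw [← int_ind_Ioo (mul_nonneg h.ε0.le hp)]
        congr 1
        ext y
        by_cases h3 : y ∈ Ioo 0 (ε * (1 - c / δ * p))
        · rw [indicator_of_mem h3, indicator_of_mem]
          rw [mem_Om]
          simp only [Matrix.cons_val_zero, Matrix.cons_val_one, Matrix.cons_val]
          exact ⟨abs_lt.2 h1, ⟨h2.1, h2.2⟩, h3.1, h3.2⟩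
        · rw [indicator_of_notMem h3, indicator_of_notMem]
          rw [mem_Om]
          simp only [Matrix.cons_val_zero, Matrix.cons_val_one, Matrix.cons_val]
          rintro ⟨_, _, h4, h5⟩
          exact h3 ⟨h4, h5⟩
      · rw [indicator_of_notMem h2]
        rw [← integral_zero ℝ ℝ]
        congr 1
        ext y
        rw [indicator_of_notMem]
        rw [mem_Om]
        simp only [Matrix.cons_val_zero, Matrix.cons_val_one, Matrix.cons_val]
        rintro ⟨_, ⟨h4, h5⟩, _⟩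
        exact h2 ⟨h4, h5⟩
    · rw [indicator_of_notMem h1]
      have : ∀ p y : ℝ, (Om γ δ c ε).indicator F !₂[s, p, y] = 0 := by
        intro p y
        rw [indicator_of_notMem]
        rw [mem_Om]
        simp only [Matrix.cons_val_zero, Matrix.cons_val_one, Matrix.cons_val]
        rintro ⟨h4, _⟩
        exact h1 (abs_lt.1 h4)
      simp [this]
  rw [integral_congr_ae step, int_ind_Ioo (by norm_num)]
  unfold I3
  rw [← intervalIntegral.integral_const_mul]
  apply intervalIntegral.integral_congr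
  intro s hs
  dsimp only
  rw [scale1, ← intervalIntegral.integral_const_mul]
  apply intervalIntegral.integral_congr
  intro q hq
  dsimp only
  have e : c / δ * (δ * (1 - γ * s ^ 2) * q) = c * (1 - γ * s ^ 2) * q := by
    field_simp
  rw [e, scale1, ← intervalIntegral.integral_const_mul, ← intervalIntegral.integral_const_mul]
  apply intervalIntegral.integral_congr
  intro t ht
  dsimp only
  ring

end Pool.Agent.H93.Robin
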