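import Pool.Agent.H93.RobinB

/-!
# Robin gap counterexample, part C: chain rule, gradient bounds
-/

namespace Pool.Agent.H93.Robin

open MeasureTheory intervalIntegral Set

/-- partial derivatives -/
noncomputable def pd (v : E3 → ℝ) (i : Fin 3) (x : E3) : ℝ :=
  fderiv ℝ v x (EuclideanSpace.single i 1)

theorem norm_fderiv_sq (v : E3 → ℝ) (x : E3) :
    ‖fderiv ℝ v x‖ ^ 2 = pd v 0 x ^ 2 + pd v 1 x ^ 2 + pd v 2 x ^ 2 := by
  set ℓ := fderiv ℝ v x with hℓ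
  set w := (InnerProductSpace.toDual ℝ E3).symm ℓ with hw
  have h1 : ‖w‖ = ‖ℓ‖ := by rw [hw]; exact LinearIsometryEquiv.norm_map _ _
  have h2 : ∀ i, w i = pd v i x := by
    intro i
    have : inner ℝ w (EuclideanSpace.single i 1) = ℓ (EuclideanSpace.single i 1) := by
      rw [hw, InnerProductSpace.toDual_symm_apply]
    rw [pd, ← hℓ, ← this]
    simp [EuclideanSpace.inner_single_right]
  rw [← h1, EuclideanSpace.norm_eq, Real.sq_sqrt (by positivity), Fin.sum_univ_three, h2, h2, h2]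
  simp [sq_abs]

theorem pd_cont {v : E3 → ℝ} (hv : ContDiff ℝ 1 v) (i : Fin 3) : Continuous (pd v i) := by
  have := hv.continuous_fderiv (by norm_num)
  exact this.clm_apply continuous_const

theorem chain {v : E3 → ℝ} (hv : ContDiff ℝ 1 v) {a b d : ℝ → ℝ} {a' b' d' x : ℝ}
    (ha : HasDerivAt a a' x) (hb : HasDerivAt b b' x) (hd : HasDerivAt d d' x) :
    HasDerivAt (fun x => v !₂[a x, b x, d x])
      (a' * pd v 0 !₂[a x, b x, d x] + b' * pd v 1 !₂[a x, b x, d x]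
        + d' * pd v 2 !₂[a x, b x, d x]) x := by
  have h1 : HasFDerivAt v (fderiv ℝ v !₂[a x, b x, d x]) !₂[a x, b x, d x] :=
    (hv.differentiable (by norm_num) _).hasFDerivAt
  have e : ∀ a b c : ℝ, (!₂[a, b, c] : E3) = a • EuclideanSpace.single 0 1
      + b • EuclideanSpace.single 1 1 + c • EuclideanSpace.single 2 1 := by
    intro a b c
    ext i
    fin_cases i <;> simp
  have h2 : HasDerivAt (fun x => (!₂[a x, b x, d x] : E3)) (a' • EuclideanSpace.single 0 1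
      + b' • EuclideanSpace.single 1 1 + d' • EuclideanSpace.single 2 1) x := by
    simp_rw [e]
    exact ((ha.smul_const _).add (hb.smul_const _)).add (hd.smul_const _)
  have h3 := h1.comp_hasDerivAt x h2
  refine h3.congr_deriv ?_
  simp [pd]

/-- the parametrisation of the domain -/
noncomputable def PP (γ δ c ε : ℝ) (s q t : ℝ) : E3 :=
  !₂[s, δ * (1 - γ * s ^ 2) * q, ε * (1 - c * (1 - γ * s ^ 2) * q) * t]

theorem cont_PP (γ δ c ε : ℝ) : Continuous (fun x : ℝ × ℝ × ℝ => PP γ δ c ε x.1 x.2.1 x.2.2) := by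
  unfold PP
  apply (PiLp.continuous_toLp 2 (fun _ : Fin 3 => ℝ)).comp
  apply continuous_pi
  intro i
  fin_cases i <;> simp <;> fun_prop

theorem C3_comp {F : E3 → ℝ} (hF : Continuous F) (γ δ c ε : ℝ) :
    C3 (fun s q t => F (PP γ δ c ε s q t)) := hF.comp (cont_PP γ δ c ε)

noncomputable def WW (γ δ c ε : ℝ) (v : E3 → ℝ) (s q t : ℝ) : ℝ := v (PP γ δ c ε s q t)

noncomputable def YY (γ δ c ε : ℝ) (v : E3 → ℝ) (s q t : ℝ) : ℝ := pd v 2 (PP γ δ c ε s q t)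

noncomputable def QQ (γ δ c ε : ℝ) (v : E3 → ℝ) (s q t : ℝ) : ℝ :=
  δ * (1 - γ * s ^ 2) * pd v 1 (PP γ δ c ε s q t)
    - ε * c * (1 - γ * s ^ 2) * t * pd v 2 (PP γ δ c ε s q t)

noncomputable def SS (γ δ c ε : ℝ) (v : E3 → ℝ) (s q t : ℝ) : ℝ :=
  pd v 0 (PP γ δ c ε s q t) + δ * (-(2 * γ * s)) * q * pd v 1 (PP γ δ c ε s q t)
    + ε * (c * (2 * γ * s) * q) * t * pd v 2 (PP γ δ c ε s q t)

section
variable {v : E3 → ℝ} (hv : ContDiff ℝ 1 v) (γ δ c ε : ℝ)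
include hv

theorem cWW : C3 (WW γ δ c ε v) := C3_comp hv.continuous γ δ c ε
theorem cYY : C3 (YY γ δ c ε v) := C3_comp (pd_cont hv 2) γ δ c ε
theorem cQQ : C3 (QQ γ δ c ε v) := by
  have h1 := C3_comp (pd_cont hv 1) γ δ c ε
  have h2 := C3_comp (pd_cont hv 2) γ δ c ε
  unfold QQ C3 at *
  fun_prop
theorem cSS : C3 (SS γ δ c ε v) := by
  have h0 := C3_comp (pd_cont hv 0) γ δ c ε
  have h1 := C3_comp (pd_cont hv 1) γ δ c ε
  have h2 := C3_comp (pd_cont hv 2) γ δ c ε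
  unfold SS C3 at *
  fun_prop

theorem dWt (s q t : ℝ) : HasDerivAt (fun t => WW γ δ c ε v s q t)
    (ε * (1 - c * (1 - γ * s ^ 2) * q) * YY γ δ c ε v s q t) t := by
  have := chain hv (hasDerivAt_const t s) (hasDerivAt_const t (δ * (1 - γ * s ^ 2) * q))
    ((hasDerivAt_id t).const_mul (ε * (1 - c * (1 - γ * s ^ 2) * q)))
  refine this.congr_deriv ?_
  simp [YY, PP]

theorem dWq (s q t : ℝ) : HasDerivAt (fun q => WW γ δ c ε v s q t) (QQ γ δ c ε v s q t) q := by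
  have h1 : HasDerivAt (fun q => ε * (1 - c * (1 - γ * s ^ 2) * q) * t)
      (-(ε * c * (1 - γ * s ^ 2) * t)) q := by
    have := ((((hasDerivAt_id q).const_mul (c * (1 - γ * s ^ 2))).const_sub 1).const_mul ε).mul_const t
    refine this.congr_deriv ?_
    ring
  have := chain hv (hasDerivAt_const q s) ((hasDerivAt_id q).const_mul (δ * (1 - γ * s ^ 2))) h1
  refine this.congr_deriv ?_
  simp [QQ, PP]
  ring

theorem dWs (s q t : ℝ) : HasDerivAt (fun s => WW γ δ c ε v s q t) (SS γ δ c ε v s q t) s := by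
  have h0 : HasDerivAt (fun s : ℝ => 1 - γ * s ^ 2) (-(2 * γ * s)) s := by
    have := ((hasDerivAt_pow 2 s).const_mul γ).const_sub 1
    refine this.congr_deriv ?_
    norm_num
    ring
  have h1 : HasDerivAt (fun s => δ * (1 - γ * s ^ 2) * q) (δ * (-(2 * γ * s)) * q) s :=
    (h0.const_mul δ).mul_const q
  have h2 : HasDerivAt (fun s => ε * (1 - c * (1 - γ * s ^ 2) * q) * t)
      (ε * (c * (2 * γ * s) * q) * t) s := by
    have := ((((h0.const_mul c).mul_const q).const_sub 1).const_mul ε).mul_const t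
    refine this.congr_deriv ?_
    ring
  have := chain hv (hasDerivAt_id s) h1 h2
  refine this.congr_deriv ?_
  simp [SS, PP]

end

theorem young (η a b : ℝ) (h : 0 < η) : (1 - η) * (a + b) ^ 2 ≤ a ^ 2 + b ^ 2 / η := by
  have e : a ^ 2 + b ^ 2 / η - (1 - η) * (a + b) ^ 2 = ((η * a - (1 - η) * b) ^ 2 + η * b ^ 2) / η := by
    field_simp
    ring
  have : 0 ≤ ((η * a - (1 - η) * b) ^ 2 + η * b ^ 2) / η := by positivity
  linarith

/-- pointwise gradient bound -/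
theorem grad_lower {γ δ c ε η : ℝ} (v : E3 → ℝ) (h : Adm γ δ c ε) (hη0 : 0 < η)
    (hη : 36 * γ ^ 2 * δ ^ 2 ≤ η) (hεc : 2 * ε ^ 2 * c ^ 2 ≤ δ ^ 2)
    {s q t : ℝ} (hs : s ∈ Icc (-1:ℝ) 1) (hq : q ∈ Icc (0:ℝ) 1) (ht : t ∈ Icc (0:ℝ) 1) :
    (1 - η) * SS γ δ c ε v s q t ^ 2 + QQ γ δ c ε v s q t ^ 2 / (4 * δ ^ 2)
      + YY γ δ c ε v s q t ^ 2 / 2 ≤ ‖fderiv ℝ v (PP γ δ c ε s q t)‖ ^ 2 := by
  rw [norm_fderiv_sq]
  set x := PP γ δ c ε s q t with hx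
  set vs := pd v 0 x
  set vp := pd v 1 x
  set vy := pd v 2 x
  have hγ0 := h.γ0
  have hγ1 := h.γ1
  have hδ0 := h.δ0
  have hc0 := h.c0
  have hε0 := h.ε0
  have hs2 : s ^ 2 ≤ 1 := by nlinarith [hs.1, hs.2]
  set g := 1 - γ * s ^ 2 with hg
  have g0 : 9 / 10 ≤ g := by nlinarith [sq_nonneg s]
  have g1 : g ≤ 1 := by nlinarith [mul_nonneg hγ0.le (sq_nonneg s)]
  set ρ := -(2 * γ * s) / g * q with hρ
  set Q := QQ γ δ c ε v s q t with hQ
  have eQ : Q = δ * g * vp - ε * c * g * t * vy := rfl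
  have eS : SS γ δ c ε v s q t = vs + ρ * Q := by
    have : SS γ δ c ε v s q t = vs + δ * (-(2 * γ * s)) * q * vp
      + ε * (c * (2 * γ * s) * q) * t * vy := rfl
    rw [this, eQ, hρ]
    field_simp
    ring
  have eY : YY γ δ c ε v s q t = vy := rfl
  rw [eS, eY]
  have y1 := young η vs (ρ * Q) hη0
  have hρ2 : ρ ^ 2 ≤ 9 * γ ^ 2 := by
    have e : ρ ^ 2 = (2 * γ * s * q) ^ 2 / g ^ 2 := by rw [hρ]; field_simp
    rw [e, div_le_iff₀ (by positivity)]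
    have h1 : (s * q) ^ 2 ≤ 1 := by
      have : q ^ 2 ≤ 1 := by nlinarith [hq.1, hq.2]
      have := mul_le_mul hs2 this (sq_nonneg q) (by norm_num)
      nlinarith
    have h2 : 81 / 100 ≤ g ^ 2 := by nlinarith
    have h3 : (2 * γ * s * q) ^ 2 ≤ 4 * γ ^ 2 * 1 := by
      have : (2 * γ * s * q) ^ 2 = 4 * γ ^ 2 * (s * q) ^ 2 := by ring
      rw [this]
      exact mul_le_mul_of_nonneg_left h1 (by positivity)
    have h4 : 9 * γ ^ 2 * (81 / 100) ≤ 9 * γ ^ 2 * g ^ 2 :=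
      mul_le_mul_of_nonneg_left h2 (by positivity)
    nlinarith [sq_nonneg γ]
  have y2 : (ρ * Q) ^ 2 / η ≤ Q ^ 2 / (4 * δ ^ 2) := by
    rw [div_le_div_iff₀ hη0 (by positivity)]
    have e1 : ρ ^ 2 * (4 * δ ^ 2) ≤ η := by
      have := mul_le_mul_of_nonneg_right hρ2 (by positivity : 0 ≤ 4 * δ ^ 2)
      linarith
    have := mul_le_mul_of_nonneg_left e1 (sq_nonneg Q)
    nlinarith
  have y3 : Q ^ 2 / (2 * δ ^ 2) ≤ vp ^ 2 + vy ^ 2 / 2 := by
    rw [div_le_iff₀ (by positivity), eQ]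
    have e0 : g ^ 2 ≤ 1 := by nlinarith
    have e1 : (δ * g * vp - ε * c * g * t * vy) ^ 2 ≤ 2 * (δ * g * vp) ^ 2
      + 2 * (ε * c * g * t * vy) ^ 2 := by nlinarith [sq_nonneg (δ * g * vp + ε * c * g * t * vy)]
    have e2 : (δ * g * vp) ^ 2 ≤ δ ^ 2 * vp ^ 2 := by
      have : (δ * g * vp) ^ 2 = g ^ 2 * (δ ^ 2 * vp ^ 2) := by ring
      rw [this]
      have := mul_le_mul_of_nonneg_right e0 (by positivity : 0 ≤ δ ^ 2 * vp ^ 2)
      linarith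
    have e3 : 2 * (ε * c * g * t * vy) ^ 2 ≤ δ ^ 2 * vy ^ 2 := by
      have : 2 * (ε * c * g * t * vy) ^ 2 = g ^ 2 * t ^ 2 * (2 * ε ^ 2 * c ^ 2 * vy ^ 2) := by ring
      rw [this]
      have ht2 : t ^ 2 ≤ 1 := by nlinarith [ht.1, ht.2]
      have h1 : g ^ 2 * t ^ 2 ≤ 1 := by
        have := mul_le_mul e0 ht2 (sq_nonneg t) (by norm_num)
        linarith
      have h2 := mul_le_mul_of_nonneg_right h1 (by positivity : 0 ≤ 2 * ε ^ 2 * c ^ 2 * vy ^ 2)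
      have h3 := mul_le_mul_of_nonneg_right hεc (sq_nonneg vy)
      linarith
    nlinarith
  have e4 : Q ^ 2 / (2 * δ ^ 2) = Q ^ 2 / (4 * δ ^ 2) + Q ^ 2 / (4 * δ ^ 2) := by
    ring
  linarith

theorem int_sq {γ δ c ε : ℝ} (h : Adm γ δ c ε) {v : E3 → ℝ} (hv : ContDiff ℝ 1 v) :
    ∫ x in Om γ δ c ε, v x ^ 2 = δ * ε * I3 (fun s q t => (1 - γ * s ^ 2) *
      (1 - c * (1 - γ * s ^ 2) * q) * WW γ δ c ε v s q t ^ 2) :=
  vol_integral h (hv.continuous.pow 2)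

theorem energy_lower {γ δ c ε η : ℝ} (h : Adm γ δ c ε) {v : E3 → ℝ} (hv : ContDiff ℝ 1 v)
    (hη0 : 0 < η) (hη : 36 * γ ^ 2 * δ ^ 2 ≤ η) (hεc : 2 * ε ^ 2 * c ^ 2 ≤ δ ^ 2) :
    δ * ε * I3 (fun s q t => (1 - γ * s ^ 2) * (1 - c * (1 - γ * s ^ 2) * q) *
      ((1 - η) * SS γ δ c ε v s q t ^ 2 + QQ γ δ c ε v s q t ^ 2 / (4 * δ ^ 2)
        + YY γ δ c ε v s q t ^ 2 / 2)) ≤ ∫ x in Om γ δ c ε, ‖fderiv ℝ v x‖ ^ 2 := by
  have hcont : Continuous (fun x => ‖fderiv ℝ v x‖ ^ 2) :=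
    (hv.continuous_fderiv (by norm_num)).norm.pow 2
  rw [vol_integral h hcont]
  have hδ0 := h.δ0
  have hε0 := h.ε0
  have hγ0 := h.γ0
  have hγ1 := h.γ1
  have hc0 := h.c0
  have hc1 := h.c1
  apply mul_le_mul_of_nonneg_left _ (by positivity)
  have c1 := cSS hv γ δ c ε
  have c2 := cQQ hv γ δ c ε
  have c3 := cYY hv γ δ c ε
  have c4 := C3_comp hcont γ δ c ε
  apply I3_mono
  · unfold C3 at *; fun_prop
  · change C3 (fun s q t => (1 - γ * s ^ 2) * (1 - c * (1 - γ * s ^ 2) * q) *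
      ‖fderiv ℝ v (PP γ δ c ε s q t)‖ ^ 2)
    unfold C3 at *
    fun_prop
  · intro s hs q hq t ht
    change (1 - γ * s ^ 2) * (1 - c * (1 - γ * s ^ 2) * q) * _ ≤
      (1 - γ * s ^ 2) * (1 - c * (1 - γ * s ^ 2) * q) * ‖fderiv ℝ v (PP γ δ c ε s q t)‖ ^ 2
    have hs2 : s ^ 2 ≤ 1 := by nlinarith [hs.1, hs.2]
    have g0 : 9 / 10 ≤ 1 - γ * s ^ 2 := by nlinarith [sq_nonneg s]
    have g1 : 1 - γ * s ^ 2 ≤ 1 := by nlinarith [mul_nonneg hγ0.le (sq_nonneg s)]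
    have k1 : c * (1 - γ * s ^ 2) * q ≤ c * 1 * 1 :=
      mul_le_mul (mul_le_mul le_rfl g1 (by linarith) hc0.le) hq.2 hq.1 (by linarith)
    apply mul_le_mul_of_nonneg_left (grad_lower v h hη0 hη hεc hs hq ht)
    apply mul_nonneg <;> linarith

end Pool.Agent.H93.Robin
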