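import Pool.Agent.H93.RobinA

/-!
# Robin gap counterexample, part D: the two lower bounds in box coordinates
-/

namespace Pool.Agent.H93.Robin

open MeasureTheory intervalIntegral Set

variable {G₁ G₂ : ℝ → ℝ → ℝ → ℝ}

theorem I3_le_qt (h₁ : C3 G₁) (h₂ : C3 G₂)
    (h : ∀ s ∈ Icc (-1:ℝ) 1, ∫ q in (0:ℝ)..1, ∫ t in (0:ℝ)..1, G₁ s q t
      ≤ ∫ q in (0:ℝ)..1, ∫ t in (0:ℝ)..1, G₂ s q t) : I3 G₁ ≤ I3 G₂ :=
  intervalIntegral.integral_mono_on (by norm_num) (h₁.int_qt.intervalIntegrable _ _)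
    (h₂.int_qt.intervalIntegrable _ _) h

theorem I3_le_t (h₁ : C3 G₁) (h₂ : C3 G₂)
    (h : ∀ s ∈ Icc (-1:ℝ) 1, ∀ q ∈ Icc (0:ℝ) 1, ∫ t in (0:ℝ)..1, G₁ s q t
      ≤ ∫ t in (0:ℝ)..1, G₂ s q t) : I3 G₁ ≤ I3 G₂ :=
  I3_le_qt h₁ h₂ fun s hs => intervalIntegral.integral_mono_on (by norm_num)
    ((cont_row h₁.int_t s).intervalIntegrable _ _)
    ((cont_row h₂.int_t s).intervalIntegrable _ _) fun q hq => h s hs q hq

theorem swap_qt {G : ℝ → ℝ → ℝ → ℝ} (h : C3 G) (s : ℝ) :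
    ∫ q in (0:ℝ)..1, ∫ t in (0:ℝ)..1, G s q t = ∫ t in (0:ℝ)..1, ∫ q in (0:ℝ)..1, G s q t := by
  apply swap_cont
  exact h.comp (f := fun x : ℝ × ℝ => (s, x.1, x.2)) (by fun_prop)

theorem le_qt_of_q (h₁ : C3 G₁) (h₂ : C3 G₂) (s : ℝ)
    (h : ∀ t ∈ Icc (0:ℝ) 1, ∫ q in (0:ℝ)..1, G₁ s q t
      ≤ ∫ q in (0:ℝ)..1, G₂ s q t) : ∫ q in (0:ℝ)..1, ∫ t in (0:ℝ)..1, G₁ s q t
      ≤ ∫ q in (0:ℝ)..1, ∫ t in (0:ℝ)..1, G₂ s q t := by
  rw [swap_qt h₁, swap_qt h₂]
  exact intervalIntegral.integral_mono_on (by norm_num)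
    ((cont_row h₁.int_q s).intervalIntegrable _ _)
    ((cont_row h₂.int_q s).intervalIntegrable _ _) fun q hq => h q hq

theorem I3_le_s (h₁ : C3 G₁) (h₂ : C3 G₂)
    (h : ∀ q ∈ Icc (0:ℝ) 1, ∀ t ∈ Icc (0:ℝ) 1, ∫ s in (-1:ℝ)..1, G₁ s q t
      ≤ ∫ s in (-1:ℝ)..1, G₂ s q t) : I3 G₁ ≤ I3 G₂ := by
  rw [I3_swap_s h₁, I3_swap_s h₂]
  apply intervalIntegral.integral_mono_on (by norm_num)
  · exact (continuous_parametric_intervalIntegral_of_continuous' h₁.int_s 0 1).intervalIntegrable _ _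
  · exact (continuous_parametric_intervalIntegral_of_continuous' h₂.int_s 0 1).intervalIntegrable _ _
  intro q hq
  exact intervalIntegral.integral_mono_on (by norm_num)
    ((cont_row h₁.int_s q).intervalIntegrable _ _)
    ((cont_row h₂.int_s q).intervalIntegrable _ _) fun t ht => h q hq t ht

/-- Poincaré inequality on the box. -/
theorem poincare {W S Q T : ℝ → ℝ → ℝ → ℝ} (cW : C3 W) (cS : C3 S) (cQ : C3 Q) (cT : C3 T)
    (hs : ∀ s q t, HasDerivAt (fun s => W s q t) (S s q t) s)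
    (hq : ∀ s q t, HasDerivAt (fun q => W s q t) (Q s q t) q)
    (ht : ∀ s q t, HasDerivAt (fun t => W s q t) (T s q t) t)
    (h0 : ∫ q in (0:ℝ)..1, ∫ t in (0:ℝ)..1, W 0 q t = 0) :
    I3 (fun s q t => W s q t ^ 2) ≤ 1 / 2 * I3 (fun s q t => S s q t ^ 2)
      + 1 / 2 * I3 (fun s q t => Q s q t ^ 2) + 1 / 2 * I3 (fun s q t => T s q t ^ 2) := by
  have cW2 : C3 (fun s q t => W s q t ^ 2) := by unfold C3 at *; fun_prop
  have cS2 : C3 (fun s q t => S s q t ^ 2) := by unfold C3 at *; fun_prop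
  have cQ2 : C3 (fun s q t => Q s q t ^ 2) := by unfold C3 at *; fun_prop
  have cT2 : C3 (fun s q t => T s q t ^ 2) := by unfold C3 at *; fun_prop
  set φ : ℝ → ℝ → ℝ := fun s q => ∫ t in (0:ℝ)..1, W s q t with hφ
  have cφ : Continuous φ.uncurry := cW.int_t
  have cφ2 : C3 (fun s q _ => φ s q ^ 2) := by
    exact (cφ.comp (g := φ.uncurry) (f := fun x : ℝ × ℝ × ℝ => (x.1, x.2.1)) (by fun_prop)).pow 2
  set m : ℝ → ℝ := fun s => ∫ q in (0:ℝ)..1, φ s q with hm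
  have cm : Continuous m := cW.int_qt
  have cm2 : C3 (fun s _ _ => m s ^ 2) := by
    exact (cm.comp (f := fun x : ℝ × ℝ × ℝ => x.1) (by fun_prop)).pow 2
  have cW0 : C3 (fun _ q t => W 0 q t) := by
    exact cW.comp (f := fun x : ℝ × ℝ × ℝ => ((0:ℝ), x.2.1, x.2.2)) (by fun_prop)
  have cWq0 : C3 (fun s _ t => W s 0 t) := by
    exact cW.comp (f := fun x : ℝ × ℝ × ℝ => (x.1, (0:ℝ), x.2.2)) (by fun_prop)
  have cD : C3 (fun s q t => (W s q t - W 0 q t) ^ 2) := by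
    unfold C3 at *; fun_prop
  have cDq : C3 (fun s q t => (W s q t - W s 0 t) ^ 2) := by
    unfold C3 at *; fun_prop
  -- step 1
  have s1 : I3 (fun s q t => W s q t ^ 2) ≤ I3 (fun s q t => φ s q ^ 2 + 1 / 2 * T s q t ^ 2) := by
    apply I3_le_t cW2 (by unfold C3 at *; fun_prop)
    intro s _ q _
    rw [intervalIntegral.integral_add (by simp) (by
        exact (continuous_const.mul (cT2.t s q)).intervalIntegrable _ _),
      intervalIntegral.integral_const_mul]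
    have h1 := var_le (cW.t s q) (W s q 0)
    have h2 := int_sq_sub_le (a := 0) (b := 1) zero_le_one (ht s q) (cT.t s q)
    have h3 : ∫ x in (0:ℝ)..1, φ s q ^ 2 = φ s q ^ 2 := by simp
    rw [h3]
    norm_num at h2
    rw [hφ]
    dsimp only
    linarith
  -- step 2
  have s2 : I3 (fun s q _ => φ s q ^ 2) ≤ I3 (fun s q t => m s ^ 2 + 1 / 2 * Q s q t ^ 2) := by
    apply I3_le_qt cφ2 (by unfold C3 at *; fun_prop)
    intro s _
    have cφs : Continuous (φ s) := cont_row cφ s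
    have h1 := var_le cφs (φ s 0)
    have h2 : ∫ q in (0:ℝ)..1, (φ s q - φ s 0) ^ 2
        ≤ ∫ q in (0:ℝ)..1, ∫ t in (0:ℝ)..1, (W s q t - W s 0 t) ^ 2 := by
      apply intervalIntegral.integral_mono_on (by norm_num)
      · exact ((cφs.sub continuous_const).pow 2).intervalIntegrable _ _
      · exact (cont_row cDq.int_t s).intervalIntegrable _ _
      intro q _
      have e : φ s q - φ s 0 = ∫ t in (0:ℝ)..1, (W s q t - W s 0 t) := by
        rw [intervalIntegral.integral_sub ((cW.t s q).intervalIntegrable _ _)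
          ((cW.t s 0).intervalIntegrable _ _)]
      rw [e]
      exact sq_int_le ((cW.t s q).sub (cW.t s 0))
    have h3 : ∫ q in (0:ℝ)..1, ∫ t in (0:ℝ)..1, (W s q t - W s 0 t) ^ 2
        ≤ ∫ q in (0:ℝ)..1, ∫ t in (0:ℝ)..1, 1 / 2 * Q s q t ^ 2 := by
      apply le_qt_of_q (G₁ := fun s q t => (W s q t - W s 0 t) ^ 2)
        (G₂ := fun s q t => 1 / 2 * Q s q t ^ 2) cDq (by unfold C3 at *; fun_prop)
      intro t _
      have := int_sq_sub_le (a := 0) (b := 1) zero_le_one (fun q => hq s q t) (cQ.q s t)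
      rw [intervalIntegral.integral_const_mul]
      norm_num at this ⊢
      exact this
    have h4 : ∫ q in (0:ℝ)..1, ∫ t in (0:ℝ)..1, φ s q ^ 2 = ∫ q in (0:ℝ)..1, φ s q ^ 2 := by simp
    have h5 : ∫ q in (0:ℝ)..1, ∫ t in (0:ℝ)..1, (m s ^ 2 + 1 / 2 * Q s q t ^ 2)
        = m s ^ 2 + ∫ q in (0:ℝ)..1, ∫ t in (0:ℝ)..1, 1 / 2 * Q s q t ^ 2 := by
      have : ∀ q, ∫ t in (0:ℝ)..1, (m s ^ 2 + 1 / 2 * Q s q t ^ 2)
          = m s ^ 2 + ∫ t in (0:ℝ)..1, 1 / 2 * Q s q t ^ 2 := by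
        intro q
        rw [intervalIntegral.integral_add (by simp) (by
          exact (continuous_const.mul (cQ2.t s q)).intervalIntegrable _ _)]
        simp
      simp_rw [this]
      rw [intervalIntegral.integral_add (by simp)]
      · simp
      · have cQh : C3 (fun s q t => 1 / 2 * Q s q t ^ 2) := by unfold C3 at *; fun_prop
        exact (cont_row cQh.int_t s).intervalIntegrable _ _
    rw [h4, h5]
    linarith
  -- step 3
  have s3 : I3 (fun s _ _ => m s ^ 2) ≤ I3 (fun s q t => (W s q t - W 0 q t) ^ 2) := by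
    apply I3_le_qt cm2 cD
    intro s _
    have cφs : Continuous (φ s) := cont_row cφ s
    have cφ0 : Continuous (φ 0) := cont_row cφ 0
    have h4 : ∫ q in (0:ℝ)..1, ∫ t in (0:ℝ)..1, m s ^ 2 = m s ^ 2 := by simp
    rw [h4]
    have e : m s = ∫ q in (0:ℝ)..1, (φ s q - φ 0 q) := by
      rw [intervalIntegral.integral_sub (cφs.intervalIntegrable _ _)
          (cφ0.intervalIntegrable _ _)]
      have : ∫ q in (0:ℝ)..1, φ 0 q = 0 := h0
      rw [this, sub_zero]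
    rw [e]
    refine (sq_int_le (cφs.sub cφ0)).trans ?_
    apply intervalIntegral.integral_mono_on (by norm_num)
    · exact ((cφs.sub cφ0).pow 2).intervalIntegrable _ _
    · exact (cont_row cD.int_t s).intervalIntegrable _ _
    intro q _
    have e : φ s q - φ 0 q = ∫ t in (0:ℝ)..1, (W s q t - W 0 q t) := by
      rw [intervalIntegral.integral_sub ((cW.t s q).intervalIntegrable _ _)
        ((cW.t 0 q).intervalIntegrable _ _)]
    change (φ s q - φ 0 q) ^ 2 ≤ _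
    rw [e]
    exact sq_int_le ((cW.t s q).sub (cW.t 0 q))
  have s4 : I3 (fun s q t => (W s q t - W 0 q t) ^ 2) ≤ I3 (fun s q t => 1 / 2 * S s q t ^ 2) := by
    apply I3_le_s cD (by unfold C3 at *; fun_prop)
    intro q _ t _
    rw [intervalIntegral.integral_const_mul]
    exact int_sq_sub_zero_le (fun s => hs s q t) (cS.s q t)
  rw [I3_const_mul] at s4
  rw [I3_add cm2 (by unfold C3 at *; fun_prop), I3_const_mul] at s2
  rw [I3_add cφ2 (by unfold C3 at *; fun_prop), I3_const_mul] at s1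
  linarith

/-- Upper-level lower bound (M) in box coordinates. -/
theorem lowerM {W S Q Y : ℝ → ℝ → ℝ → ℝ} (cW : C3 W) (cS : C3 S) (cQ : C3 Q) (cY : C3 Y)
    {γ δ c ε η M : ℝ}
    (hs : ∀ s q t, HasDerivAt (fun s => W s q t) (S s q t) s)
    (hq : ∀ s q t, HasDerivAt (fun q => W s q t) (Q s q t) q)
    (ht : ∀ s q t, HasDerivAt (fun t => W s q t)
      (ε * (1 - c * (1 - γ * s ^ 2) * q) * Y s q t) t)
    (h0 : ∫ q in (0:ℝ)..1, ∫ t in (0:ℝ)..1, W 0 q t = 0)
    (hγ0 : 0 ≤ γ) (hγ1 : γ ≤ 1 / 10) (hc0 : 0 ≤ c) (hc1 : c ≤ 1 / 10) (hη0 : 0 ≤ η) (hη1 : η ≤ 1)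
    (hδ0 : 0 < δ) (hδ1 : δ ≤ 1 / 2) (hε0 : 0 < ε) (hε1 : ε ≤ 1 / 2)
    (hM0 : 0 ≤ M) (hM : M ≤ 2 * (1 - γ) * (1 - c) * (1 - η)) :
    M * I3 (fun s q t => (1 - γ * s ^ 2) * (1 - c * (1 - γ * s ^ 2) * q) * W s q t ^ 2)
      ≤ I3 (fun s q t => (1 - γ * s ^ 2) * (1 - c * (1 - γ * s ^ 2) * q) *
        ((1 - η) * S s q t ^ 2 + Q s q t ^ 2 / (4 * δ ^ 2) + Y s q t ^ 2 / 2)) := by
  set T : ℝ → ℝ → ℝ → ℝ := fun s q t => ε * (1 - c * (1 - γ * s ^ 2) * q) * Y s q t with hT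
  have cT : C3 T := by unfold C3 at *; fun_prop
  have cW2 : C3 (fun s q t => W s q t ^ 2) := by unfold C3 at *; fun_prop
  have cS2 : C3 (fun s q t => S s q t ^ 2) := by unfold C3 at *; fun_prop
  have cQ2 : C3 (fun s q t => Q s q t ^ 2) := by unfold C3 at *; fun_prop
  have cT2 : C3 (fun s q t => T s q t ^ 2) := by unfold C3 at *; fun_prop
  have hP := poincare cW cS cQ cT hs hq ht h0
  have h1 : I3 (fun s q t => (1 - γ * s ^ 2) * (1 - c * (1 - γ * s ^ 2) * q) * W s q t ^ 2)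
      ≤ I3 (fun s q t => W s q t ^ 2) := by
    apply I3_mono (by unfold C3 at *; fun_prop) cW2
    intro s hs q hq t _
    have hs2 : s ^ 2 ≤ 1 := by nlinarith [hs.1, hs.2]
    have g0 : 0 ≤ 1 - γ * s ^ 2 := by nlinarith [sq_nonneg s]
    have g1 : 1 - γ * s ^ 2 ≤ 1 := by nlinarith [mul_nonneg hγ0 (sq_nonneg s)]
    have k0 : 0 ≤ c * (1 - γ * s ^ 2) * q := mul_nonneg (mul_nonneg hc0 g0) hq.1
    have k1 : c * (1 - γ * s ^ 2) * q ≤ 1 := by
      have : c * (1 - γ * s ^ 2) * q ≤ 1 * 1 * 1 :=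
        mul_le_mul (mul_le_mul (by linarith) g1 g0 (by norm_num)) hq.2 hq.1 (by norm_num)
      linarith
    have : (1 - γ * s ^ 2) * (1 - c * (1 - γ * s ^ 2) * q) ≤ 1 * 1 :=
      mul_le_mul g1 (by linarith) (by linarith) (by norm_num)
    have := mul_le_mul_of_nonneg_right this (sq_nonneg (W s q t))
    linarith
  have h2 : (1 - γ) * (1 - c) * (1 - η) * I3 (fun s q t => (S s q t ^ 2 + Q s q t ^ 2) + T s q t ^ 2)
      ≤ I3 (fun s q t => (1 - γ * s ^ 2) * (1 - c * (1 - γ * s ^ 2) * q) *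
        ((1 - η) * S s q t ^ 2 + Q s q t ^ 2 / (4 * δ ^ 2) + Y s q t ^ 2 / 2)) := by
    rw [← I3_const_mul]
    apply I3_mono (by unfold C3 at *; fun_prop) (by unfold C3 at *; fun_prop)
    intro s hs q hq t _
    have hs2 : s ^ 2 ≤ 1 := by nlinarith [hs.1, hs.2]
    have g0 : 1 - γ ≤ 1 - γ * s ^ 2 := by nlinarith [sq_nonneg s]
    have g1 : 1 - γ * s ^ 2 ≤ 1 := by nlinarith [mul_nonneg hγ0 (sq_nonneg s)]
    have k0 : 0 ≤ c * (1 - γ * s ^ 2) * q := mul_nonneg (mul_nonneg hc0 (by linarith)) hq.1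
    have k1 : c * (1 - γ * s ^ 2) * q ≤ c := by
      have : c * (1 - γ * s ^ 2) * q ≤ c * 1 * 1 :=
        mul_le_mul (mul_le_mul le_rfl g1 (by linarith) hc0) hq.2 hq.1 (by linarith)
      linarith
    set hh := 1 - c * (1 - γ * s ^ 2) * q with hhh
    have hh0 : 1 - c ≤ hh := by linarith
    have hh1 : hh ≤ 1 := by linarith
    have b1 : (1 - η) * T s q t ^ 2 ≤ Y s q t ^ 2 / 2 := by
      have e : T s q t ^ 2 = ε ^ 2 * hh ^ 2 * Y s q t ^ 2 := by rw [hT]; ring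
      rw [e]
      have e1 : ε ^ 2 ≤ 1 / 2 := by nlinarith
      have e2 : hh ^ 2 ≤ 1 := by nlinarith
      have e3 : (1 - η) * (ε ^ 2 * hh ^ 2) ≤ 1 * (1 / 2 * 1) :=
        mul_le_mul (by linarith) (mul_le_mul e1 e2 (sq_nonneg _) (by norm_num))
          (by positivity) (by norm_num)
      have := mul_le_mul_of_nonneg_right e3 (sq_nonneg (Y s q t))
      linarith
    have b2 : (1 - η) * Q s q t ^ 2 ≤ Q s q t ^ 2 / (4 * δ ^ 2) := by
      have e1 : 4 * δ ^ 2 ≤ 1 := by nlinarith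
      have e2 : Q s q t ^ 2 ≤ Q s q t ^ 2 / (4 * δ ^ 2) := by
        rw [le_div_iff₀ (by positivity)]
        have := mul_le_mul_of_nonneg_left e1 (sq_nonneg (Q s q t))
        linarith
      have e3 := mul_nonneg hη0 (sq_nonneg (Q s q t))
      linarith
    have b3 : (1 - γ) * (1 - c) ≤ (1 - γ * s ^ 2) * hh :=
      mul_le_mul g0 hh0 (by linarith) (by linarith)
    have b4 : 0 ≤ (1 - η) * S s q t ^ 2 + (1 - η) * Q s q t ^ 2 + (1 - η) * T s q t ^ 2 := by
      have : 0 ≤ 1 - η := by linarith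
      positivity
    calc (1 - γ) * (1 - c) * (1 - η) * (S s q t ^ 2 + Q s q t ^ 2 + T s q t ^ 2)
        = (1 - γ) * (1 - c) *
          ((1 - η) * S s q t ^ 2 + (1 - η) * Q s q t ^ 2 + (1 - η) * T s q t ^ 2) := by ring
      _ ≤ (1 - γ * s ^ 2) * hh *
          ((1 - η) * S s q t ^ 2 + (1 - η) * Q s q t ^ 2 + (1 - η) * T s q t ^ 2) :=
        mul_le_mul_of_nonneg_right b3 b4
      _ ≤ _ := by
        apply mul_le_mul_of_nonneg_left _ (by
          apply mul_nonneg <;> linarith)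
        linarith
  rw [I3_add (by unfold C3 at *; fun_prop) cT2, I3_add cS2 cQ2] at h2
  have hW0 : 0 ≤ I3 (fun s q t => W s q t ^ 2) :=
    I3_nonneg_t fun s _ q _ => intervalIntegral.integral_nonneg (by norm_num) fun t _ => sq_nonneg _
  have hk : 0 ≤ (1 - γ) * (1 - c) * (1 - η) :=
    mul_nonneg (mul_nonneg (by linarith) (by linarith)) (by linarith)
  calc M * I3 (fun s q t => (1 - γ * s ^ 2) * (1 - c * (1 - γ * s ^ 2) * q) * W s q t ^ 2)
      ≤ M * I3 (fun s q t => W s q t ^ 2) := mul_le_mul_of_nonneg_left h1 hM0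
    _ ≤ 2 * (1 - γ) * (1 - c) * (1 - η) * I3 (fun s q t => W s q t ^ 2) :=
        mul_le_mul_of_nonneg_right hM hW0
    _ = (1 - γ) * (1 - c) * (1 - η) * (2 * I3 (fun s q t => W s q t ^ 2)) := by ring
    _ ≤ (1 - γ) * (1 - c) * (1 - η) * (I3 (fun s q t => S s q t ^ 2)
        + I3 (fun s q t => Q s q t ^ 2) + I3 (fun s q t => T s q t ^ 2)) := by
        apply mul_le_mul_of_nonneg_left _ hk
        linarith
    _ ≤ _ := h2

/-- Lower bound (L) in box coordinates. -/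
theorem lowerL {W S Q Y : ℝ → ℝ → ℝ → ℝ} (cW : C3 W) (cS : C3 S) (cQ : C3 Q) (cY : C3 Y)
    {γ δ c ε η a A B D' Dq err θ L : ℝ}
    (hs : ∀ s q t, HasDerivAt (fun s => W s q t) (S s q t) s)
    (hq : ∀ s q t, HasDerivAt (fun q => W s q t) (Q s q t) q)
    (ht : ∀ s q t, HasDerivAt (fun t => W s q t)
      (ε * (1 - c * (1 - γ * s ^ 2) * q) * Y s q t) t)
    (hγ0 : 0 ≤ γ) (hγ1 : γ ≤ 1 / 10) (hc0 : 0 ≤ c) (hc1 : c ≤ 1 / 10)
    (hδ0 : 0 < δ) (hε0 : 0 < ε) (ha0 : 0 ≤ a)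
    (hA : A = 2 * a * c) (hB : B = A * γ / 2)
    (hη1 : η ≤ 1)
    (hD'0 : 0 < D') (hD' : D' ≤ (1 - c) * (1 - η))
    (hDq0 : 0 < Dq) (hDq : Dq * (4 * δ ^ 2) ≤ 1 - c)
    (herr : A ^ 2 / 64 ≤ Dq * err)
    (hθ0 : 0 ≤ θ) (hθ : 4 * B ^ 2 / 243 ≤ D' * (A / 2 - B / 3 - err - θ))
    (hL : L + 2 * ε ^ 2 * a ^ 2 ≤ 2 * a + θ) :
    L * I3 (fun s q t => (1 - γ * s ^ 2) * (1 - c * (1 - γ * s ^ 2) * q) * W s q t ^ 2)
      ≤ I3 (fun s q t => (1 - γ * s ^ 2) * (1 - c * (1 - γ * s ^ 2) * q) *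
        ((1 - η) * S s q t ^ 2 + Q s q t ^ 2 / (4 * δ ^ 2) + Y s q t ^ 2 / 2)
        + a * ((1 - γ * s ^ 2) * (W s q 0 ^ 2 + W s q 1 ^ 2))) := by
  have cW0 : C3 (fun s q _ => W s q 0) := by
    exact cW.comp (f := fun x : ℝ × ℝ × ℝ => (x.1, x.2.1, (0:ℝ))) (by fun_prop)
  have cW1 : C3 (fun s q _ => W s q 1) := by
    exact cW.comp (f := fun x : ℝ × ℝ × ℝ => (x.1, x.2.1, (1:ℝ))) (by fun_prop)
  set Gt : ℝ → ℝ → ℝ → ℝ := fun s q t => (1 - γ * s ^ 2) *
    (((1 - c * (1 - γ * s ^ 2) * q) / 2 * Y s q t ^ 2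
      - (2 * a - 2 * ε ^ 2 * a ^ 2 * (1 - c * (1 - γ * s ^ 2) * q)) * W s q t ^ 2)
      + a * (W s q 0 ^ 2 + W s q 1 ^ 2)) with hGt
  set Gq : ℝ → ℝ → ℝ → ℝ := fun s q t => (1 - γ * s ^ 2) *
    (Dq * Q s q t ^ 2 + (A * (1 - γ * s ^ 2) * q - A * (1 - γ * s ^ 2) / 2 + err)
      * W s q t ^ 2) with hGq
  set Gs : ℝ → ℝ → ℝ → ℝ := fun s q t => (1 - γ * s ^ 2) * D' * S s q t ^ 2
    + (1 - γ * s ^ 2) * (A * (1 - γ * s ^ 2) / 2 - err - θ) * W s q t ^ 2 with hGs
  have cGt : C3 Gt := by unfold C3 at *; fun_prop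
  have cGq : C3 Gq := by unfold C3 at *; fun_prop
  have cGs : C3 Gs := by unfold C3 at *; fun_prop
  have hA0 : 0 ≤ A := by rw [hA]; positivity
  have hB0 : 0 ≤ B := by rw [hB]; positivity
  -- elementary facts
  have fact : ∀ s ∈ Icc (-1:ℝ) 1, 9 / 10 ≤ 1 - γ * s ^ 2 ∧ 1 - γ * s ^ 2 ≤ 1 := by
    intro s hs
    have hs2 : s ^ 2 ≤ 1 := by nlinarith [hs.1, hs.2]
    constructor <;> nlinarith [sq_nonneg s]
  have fact2 : ∀ s ∈ Icc (-1:ℝ) 1, ∀ q ∈ Icc (0:ℝ) 1,
      1 - c ≤ 1 - c * (1 - γ * s ^ 2) * q ∧ 1 - c * (1 - γ * s ^ 2) * q ≤ 1 := by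
    intro s hs q hq
    obtain ⟨g0, g1⟩ := fact s hs
    have k0 : 0 ≤ c * (1 - γ * s ^ 2) * q := mul_nonneg (mul_nonneg hc0 (by linarith)) hq.1
    have k1 : c * (1 - γ * s ^ 2) * q ≤ c * 1 * 1 :=
        mul_le_mul (mul_le_mul le_rfl g1 (by linarith) hc0) hq.2 hq.1 (by linarith)
    constructor <;> linarith
  have nt : 0 ≤ I3 Gt := by
    apply I3_nonneg_t
    intro s hs q hq
    obtain ⟨g0, g1⟩ := fact s hs
    obtain ⟨k0, k1⟩ := fact2 s hs q hq
    set h := 1 - c * (1 - γ * s ^ 2) * q with hh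
    have hpos : 0 < h := by linarith
    rw [hGt]
    dsimp only
    rw [← hh, intervalIntegral.integral_const_mul]
    apply mul_nonneg (by linarith)
    have cw := cW.t s q
    have cy := cY.t s q
    rw [intervalIntegral.integral_add
      (by apply Continuous.intervalIntegrable; fun_prop) (by simp)]
    have h3 : ∫ x in (0:ℝ)..1, a * (W s q 0 ^ 2 + W s q 1 ^ 2) = a * (W s q 0 ^ 2 + W s q 1 ^ 2) := by
      simp
    rw [h3]
    have key := riccati (a := 0) (b := 1) zero_le_one (w := fun t => W s q t)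
      (w' := fun t => ε * h * Y s q t) (F := fun t => a * (2 * t - 1)) (F' := fun _ => 2 * a)
      (D := fun _ => 1 / (2 * ε ^ 2 * h)) (R := fun _ => - (2 * a - 2 * ε ^ 2 * a ^ 2 * h))
      (fun t => ht s q t) (by fun_prop) ?_ (by fun_prop) (by fun_prop) (by fun_prop) ?_ ?_
    · have e : ∀ t, 1 / (2 * ε ^ 2 * h) * (ε * h * Y s q t) ^ 2
          + -(2 * a - 2 * ε ^ 2 * a ^ 2 * h) * W s q t ^ 2
          = h / 2 * Y s q t ^ 2 - (2 * a - 2 * ε ^ 2 * a ^ 2 * h) * W s q t ^ 2 := by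
        intro t
        field_simp
        ring
      simp_rw [e] at key
      norm_num at key ⊢
      linarith
    · intro x
      have := (((hasDerivAt_id x).const_mul 2).sub_const 1).const_mul a
      simpa [mul_comm] using this
    · intro x _
      positivity
    · intro x hx
      have e : 1 / (2 * ε ^ 2 * h) * (-(2 * a - 2 * ε ^ 2 * a ^ 2 * h) + 2 * a) = a ^ 2 := by
        field_simp
        ring
      rw [e]
      have : (2 * x - 1) ^ 2 ≤ 1 := by nlinarith [hx.1, hx.2]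
      have := mul_le_mul_of_nonneg_left this (sq_nonneg a)
      nlinarith
  have nq : 0 ≤ I3 Gq := by
    apply I3_nonneg_q cGq
    intro s hs t ht'
    obtain ⟨g0, g1⟩ := fact s hs
    rw [hGq]
    dsimp only
    rw [intervalIntegral.integral_const_mul]
    apply mul_nonneg (by linarith)
    set g := 1 - γ * s ^ 2 with hg
    have cw := cW.q s t
    have cy := cQ.q s t
    have key := riccati (a := 0) (b := 1) zero_le_one (w := fun q => W s q t)
      (w' := fun q => Q s q t) (F := fun q => A * g / 2 * (q * (1 - q)))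
      (F' := fun q => A * g / 2 * (1 - 2 * q))
      (D := fun _ => Dq) (R := fun q => A * g * q - A * g / 2 + err)
      (fun q => hq s q t) (by fun_prop) ?_ (by fun_prop) (by fun_prop) (by fun_prop) ?_ ?_
    · norm_num at key
      exact key
    · intro x
      have := ((hasDerivAt_id x).mul ((hasDerivAt_id x).const_sub 1)).const_mul (A * g / 2)
      refine this.congr_deriv ?_
      change A * g / 2 * (1 * (1 - x) + x * -1) = _
      ring
    · intro x _
      exact hDq0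
    · intro x hx
      have e : Dq * (A * g * x - A * g / 2 + err + A * g / 2 * (1 - 2 * x)) = Dq * err := by ring
      rw [e]
      refine le_trans ?_ herr
      have e1 : x * (1 - x) ≤ 1 / 4 := by nlinarith [sq_nonneg (x - 1 / 2)]
      have e2 : 0 ≤ x * (1 - x) := mul_nonneg hx.1 (by linarith [hx.2])
      have e3 : A * g / 2 * (x * (1 - x)) ≤ A / 8 := by
        have : A * g ≤ A * 1 := mul_le_mul_of_nonneg_left g1 hA0
        have : A * g / 2 * (x * (1 - x)) ≤ A / 2 * (1 / 4) :=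
          mul_le_mul (by linarith) e1 e2 (by linarith)
        linarith
      have e4 : 0 ≤ A * g / 2 * (x * (1 - x)) := by
        apply mul_nonneg _ e2
        have := mul_nonneg hA0 (by linarith : 0 ≤ g)
        linarith
      calc (A * g / 2 * (x * (1 - x))) ^ 2 ≤ (A / 8) ^ 2 := by gcongr
        _ = A ^ 2 / 64 := by ring
  have ns : 0 ≤ I3 Gs := by
    apply I3_nonneg_s cGs
    intro q hq' t ht'
    rw [hGs]
    dsimp only
    have cw := cW.s q t
    have cy := cS.s q t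
    have key := riccati (a := -1) (b := 1) (by norm_num) (w := fun s => W s q t)
      (w' := fun s => S s q t)
      (F := fun s => - ((1 - γ * s ^ 2) * (B / 3 * (s * (1 - s ^ 2)))))
      (F' := fun s => 2 * γ * s * (B / 3 * (s * (1 - s ^ 2)))
        - (1 - γ * s ^ 2) * (B / 3 * (1 - 3 * s ^ 2)))
      (D := fun s => (1 - γ * s ^ 2) * D')
      (R := fun s => (1 - γ * s ^ 2) * (A * (1 - γ * s ^ 2) / 2 - err - θ))
      (fun s => hs s q t) (by fun_prop) ?_ (by fun_prop) (by fun_prop) (by fun_prop) ?_ ?_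
    · norm_num at key
      exact key
    · intro x
      have h1 : HasDerivAt (fun s : ℝ => 1 - γ * s ^ 2) (-(2 * γ * x)) x := by
        have := ((hasDerivAt_pow 2 x).const_mul γ).const_sub 1
        refine this.congr_deriv ?_
        norm_num
        ring
      have h2 : HasDerivAt (fun s : ℝ => B / 3 * (s * (1 - s ^ 2))) (B / 3 * (1 - 3 * x ^ 2)) x := by
        have := ((hasDerivAt_id x).mul ((hasDerivAt_pow 2 x).const_sub 1)).const_mul (B / 3)
        refine this.congr_deriv ?_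
        norm_num
        left
        ring
      have := (h1.mul h2).neg
      refine this.congr_deriv ?_
      ring
    · intro x hx
      obtain ⟨g0, g1⟩ := fact x hx
      have : 0 < 1 - γ * x ^ 2 := by linarith
      positivity
    · intro x hx
      obtain ⟨g0, g1⟩ := fact x hx
      set g := 1 - γ * x ^ 2 with hg
      have hx2 : x ^ 2 ≤ 1 := by nlinarith [hx.1, hx.2]
      have e1 : g * (A * g / 2 - err - θ) + (2 * γ * x * (B / 3 * (x * (1 - x ^ 2)))
        - g * (B / 3 * (1 - 3 * x ^ 2))) = g * (A / 2 - B / 3 - err - θ)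
          + 2 * γ * (B / 3) * (x ^ 2 * (1 - x ^ 2)) := by
        have : A * g / 2 = A / 2 - B * x ^ 2 := by rw [hg, hB]; ring
        rw [this]; ring
      rw [e1]
      have e2 : 0 ≤ 2 * γ * (B / 3) * (x ^ 2 * (1 - x ^ 2)) := by
        have : 0 ≤ 1 - x ^ 2 := by linarith
        positivity
      have e3 : (x * (1 - x ^ 2)) ^ 2 ≤ 4 / 27 := by
        have : 4 / 27 - (x * (1 - x ^ 2)) ^ 2 = (x ^ 2 - 1 / 3) ^ 2 * (4 / 3 - x ^ 2) := by ring
        have h4 : 0 ≤ (x ^ 2 - 1 / 3) ^ 2 * (4 / 3 - x ^ 2) :=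
          mul_nonneg (sq_nonneg _) (by linarith)
        linarith
      calc (-(g * (B / 3 * (x * (1 - x ^ 2))))) ^ 2
          = g ^ 2 * (B ^ 2 / 9) * (x * (1 - x ^ 2)) ^ 2 := by ring
        _ ≤ g ^ 2 * (B ^ 2 / 9) * (4 / 27) := by gcongr
        _ = g ^ 2 * (4 * B ^ 2 / 243) := by ring
        _ ≤ g ^ 2 * (D' * (A / 2 - B / 3 - err - θ)) := by gcongr
        _ = g * D' * (g * (A / 2 - B / 3 - err - θ)) := by ring
        _ ≤ _ := by
          apply mul_le_mul_of_nonneg_left _ (by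
            apply mul_nonneg _ hD'0.le
            linarith)
          linarith
  have main : I3 (fun s q t => L * ((1 - γ * s ^ 2) * (1 - c * (1 - γ * s ^ 2) * q) * W s q t ^ 2)
      + ((Gt s q t + Gq s q t) + Gs s q t))
      ≤ I3 (fun s q t => (1 - γ * s ^ 2) * (1 - c * (1 - γ * s ^ 2) * q) *
        ((1 - η) * S s q t ^ 2 + Q s q t ^ 2 / (4 * δ ^ 2) + Y s q t ^ 2 / 2)
        + a * ((1 - γ * s ^ 2) * (W s q 0 ^ 2 + W s q 1 ^ 2))) := by
    apply I3_mono (by unfold C3 at *; fun_prop) (by unfold C3 at *; fun_prop)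
    intro s hs q hq t _
    obtain ⟨g0, g1⟩ := fact s hs
    obtain ⟨k0, k1⟩ := fact2 s hs q hq
    rw [hGt, hGq, hGs]
    dsimp only
    set g := 1 - γ * s ^ 2 with hg
    set h := 1 - c * g * q with hh
    have b1 : g * D' * S s q t ^ 2 ≤ g * h * ((1 - η) * S s q t ^ 2) := by
      have : D' ≤ h * (1 - η) := hD'.trans (mul_le_mul_of_nonneg_right k0 (by linarith))
      have := mul_le_mul_of_nonneg_left (mul_le_mul_of_nonneg_right this (sq_nonneg (S s q t)))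
        (by linarith : 0 ≤ g)
      nlinarith
    have b2 : g * (Dq * Q s q t ^ 2) ≤ g * h * (Q s q t ^ 2 / (4 * δ ^ 2)) := by
      have : Dq ≤ h / (4 * δ ^ 2) := by
        rw [le_div_iff₀ (by positivity)]
        linarith
      have := mul_le_mul_of_nonneg_left (mul_le_mul_of_nonneg_right this (sq_nonneg (Q s q t)))
        (by linarith : 0 ≤ g)
      have e : g * h * (Q s q t ^ 2 / (4 * δ ^ 2)) = g * (h / (4 * δ ^ 2) * Q s q t ^ 2) := by ring
      rw [e]; exact this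
    have b3 : (L * h - (2 * a - 2 * ε ^ 2 * a ^ 2 * h) + (A * g * q - A * g / 2 + err)
        + (A * g / 2 - err - θ)) ≤ 0 := by
      have e1 : (L + 2 * ε ^ 2 * a ^ 2) * h ≤ (2 * a + θ) * h :=
        mul_le_mul_of_nonneg_right hL (by linarith)
      have e2 : (2 * a + θ) * h = 2 * a + θ - A * g * q - θ * (c * g * q) := by
        rw [hh, hA]; ring
      have e3 : 0 ≤ θ * (c * g * q) := by
        apply mul_nonneg hθ0 (mul_nonneg (mul_nonneg hc0 (by linarith)) hq.1)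
      linarith
    have b4 := mul_le_mul_of_nonneg_left b3 (mul_nonneg (by linarith : 0 ≤ g) (sq_nonneg (W s q t)))
    nlinarith [b1, b2, b4]
  rw [I3_add (by unfold C3 at *; fun_prop) (by unfold C3 at *; fun_prop),
    I3_add (by unfold C3 at *; fun_prop) cGs, I3_add cGt cGq, I3_const_mul] at main
  linarith

end Pool.Agent.H93.Robin
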