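import Pool.Agent.H93.RobinB

/-!
# Robin gap counterexample, part E: Hausdorff measure on the boundary
-/

namespace Pool.Agent.H93.Robin

open MeasureTheory intervalIntegral Set Filter Topology
open scoped NNReal ENNReal

/-! ### area integral over the base -/

/-- open base -/
def Dop (γ δ : ℝ) : Set E2 := {x | |x 0| < 1 ∧ (0 < x 1 ∧ x 1 < δ * (1 - γ * x 0 ^ 2))}

/-- closed base -/
def Dcl (γ δ : ℝ) : Set E2 := {x | |x 0| ≤ 1 ∧ (0 ≤ x 1 ∧ x 1 ≤ δ * (1 - γ * x 0 ^ 2))}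

theorem cont_coord2 (i : Fin 2) : Continuous (fun x : E2 => x i) := by
  exact (PiLp.continuous_apply 2 (fun _ : Fin 2 => ℝ) i)

variable {γ δ c ε : ℝ}

theorem isOpen_Dop : IsOpen (Dop γ δ) := by
  have c0 := cont_coord2 0
  have c1 := cont_coord2 1
  have h1 : IsOpen {x : E2 | |x 0| < 1} := isOpen_lt (by fun_prop) (by fun_prop)
  have h2 : IsOpen {x : E2 | 0 < x 1} := isOpen_lt (by fun_prop) (by fun_prop)
  have h3 : IsOpen {x : E2 | x 1 < δ * (1 - γ * x 0 ^ 2)} := isOpen_lt (by fun_prop) (by fun_prop)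
  exact h1.inter (h2.inter h3)

theorem isClosed_Dcl : IsClosed (Dcl γ δ) := by
  have c0 := cont_coord2 0
  have c1 := cont_coord2 1
  have h1 : IsClosed {x : E2 | |x 0| ≤ 1} := isClosed_le (by fun_prop) (by fun_prop)
  have h2 : IsClosed {x : E2 | 0 ≤ x 1} := isClosed_le (by fun_prop) (by fun_prop)
  have h3 : IsClosed {x : E2 | x 1 ≤ δ * (1 - γ * x 0 ^ 2)} := isClosed_le (by fun_prop) (by fun_prop)
  exact h1.inter (h2.inter h3)

theorem isCompact_Dcl (h : Adm γ δ c ε) : IsCompact (Dcl γ δ) := by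
  apply Metric.isCompact_of_isClosed_isBounded isClosed_Dcl
  rw [isBounded_iff_forall_norm_le]
  refine ⟨3, fun x hx => ?_⟩
  obtain ⟨hx0, hx1, hx2⟩ := hx
  have hδ := h.δ0
  have hx02 : x 0 ^ 2 ≤ 1 := by rw [← sq_abs]; have := abs_nonneg (x 0); nlinarith
  have b1 : x 1 ≤ 1 := by
    have : δ * (1 - γ * x 0 ^ 2) ≤ 1 * 1 := by
      apply mul_le_mul h.δ1 _ _ zero_le_one
      · have := mul_nonneg h.γ0.le (sq_nonneg (x 0)); linarith
      · have := h.γ1
        have := h.γ0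
        nlinarith
    linarith
  rw [EuclideanSpace.norm_eq, Fin.sum_univ_two]
  rw [Real.sqrt_le_left (by norm_num)]
  simp only [Real.norm_eq_abs, sq_abs]
  nlinarith

theorem area_integral (h : Adm γ δ c ε) {D : Set E2} (hD : MeasurableSet D)
    (h1 : Dop γ δ ⊆ D) (h2 : D ⊆ Dcl γ δ) {F : E2 → ℝ} (hF : Continuous F) :
    ∫ x in D, F x = δ * ∫ s in (-1:ℝ)..1, ∫ q in (0:ℝ)..1,
      (1 - γ * s ^ 2) * F !₂[s, δ * (1 - γ * s ^ 2) * q] := by
  have hδ := h.δ0
  have hγ1 := h.γ1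
  have hγ0 := h.γ0
  have hint : Integrable (D.indicator F) :=
    ((hF.continuousOn.integrableOn_compact (isCompact_Dcl h)).mono_set h2).integrable_indicator hD
  have hint' := integrable_E2 hint
  rw [← MeasureTheory.integral_indicator hD, integral_E2]
  have hv : (volume : Measure (ℝ × ℝ)) = (volume : Measure ℝ).prod volume :=
    Measure.volume_eq_prod _ _
  rw [hv] at hint' ⊢
  rw [integral_prod _ hint']
  have ae1 : ∀ᵐ s : ℝ, s ∉ ({-1, 1} : Set ℝ) :=
    (Set.Finite.countable (by simp)).ae_notMem _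
  have step : ∀ᵐ s : ℝ, ∫ p : ℝ, D.indicator F !₂[s, p]
      = (Ioo (-1:ℝ) 1).indicator (fun s => ∫ p in (0:ℝ)..(δ * (1 - γ * s ^ 2)), F !₂[s, p]) s := by
    filter_upwards [ae1] with s hs
    simp only [mem_insert_iff, mem_singleton_iff, not_or] at hs
    by_cases h3 : s ∈ Ioo (-1:ℝ) 1
    · rw [indicator_of_mem h3]
      have hs2 : s ^ 2 ≤ 1 := by nlinarith [h3.1, h3.2]
      have hg : 0 < 1 - γ * s ^ 2 := by nlinarith
      rw [← int_ind_Ioo (by positivity)]
      have ae2 : ∀ᵐ p : ℝ, p ∉ ({0, δ * (1 - γ * s ^ 2)} : Set ℝ) :=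
        (Set.Finite.countable (by simp)).ae_notMem _
      apply MeasureTheory.integral_congr_ae
      filter_upwards [ae2] with p hp
      simp only [mem_insert_iff, mem_singleton_iff, not_or] at hp
      by_cases h4 : p ∈ Ioo 0 (δ * (1 - γ * s ^ 2))
      · rw [indicator_of_mem h4, indicator_of_mem]
        apply h1
        change |(!₂[s, p] : E2) 0| < 1 ∧ (0 < (!₂[s, p] : E2) 1 ∧ (!₂[s, p] : E2) 1
          < δ * (1 - γ * (!₂[s, p] : E2) 0 ^ 2))
        simp only [Matrix.cons_val_zero, Matrix.cons_val_one]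
        exact ⟨abs_lt.2 h3, h4.1, h4.2⟩
      · rw [indicator_of_notMem h4, indicator_of_notMem]
        intro h5
        obtain ⟨_, h6, h7⟩ := h2 h5
        simp only [Matrix.cons_val_zero, Matrix.cons_val_one] at h6 h7
        exact h4 ⟨lt_of_le_of_ne h6 (Ne.symm hp.1), lt_of_le_of_ne h7 hp.2⟩
    · rw [indicator_of_notMem h3]
      have : ∀ p : ℝ, D.indicator F !₂[s, p] = 0 := by
        intro p
        rw [indicator_of_notMem]
        intro h5
        obtain ⟨h6, _⟩ := h2 h5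
        simp only [Matrix.cons_val_zero] at h6
        rw [abs_le] at h6
        exact h3 ⟨lt_of_le_of_ne h6.1 (Ne.symm hs.1), lt_of_le_of_ne h6.2 hs.2⟩
      simp [this]
  rw [integral_congr_ae step, int_ind_Ioo (by norm_num)]
  rw [← intervalIntegral.integral_const_mul]
  apply intervalIntegral.integral_congr
  intro s hs
  dsimp only
  rw [scale1, ← intervalIntegral.integral_const_mul]
  apply intervalIntegral.integral_congr
  intro q hq
  dsimp only
  ring

/-! ### Hausdorff measure -/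

/-- the normalisation constant of the two-dimensional Hausdorff measure -/
noncomputable def cH : ℝ≥0 := Measure.addHaarScalarFactor (μH[((2:ℕ):ℝ)] : Measure E2) volume

theorem hausdorff_E2 : (μH[(2:ℝ)] : Measure E2) = cH • (volume : Measure E2) := by
  have := Measure.isAddLeftInvariant_eq_smul (μH[((2:ℕ):ℝ)] : Measure E2) volume
  rw [← cH] at this
  rw [← this]
  norm_num

theorem cH_pos : 0 < cH :=
  Measure.addHaarScalarFactor_pos_of_isAddHaarMeasure _ _

/-- projection to the first two coordinates -/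
noncomputable def pr (x : E3) : E2 := !₂[x 0, x 1]

theorem dist_le_of_sq {x y : E2} {a b : E3} {K : ℝ} (hK : 0 ≤ K)
    (h : (a 0 - b 0) ^ 2 + (a 1 - b 1) ^ 2 + (a 2 - b 2) ^ 2
      ≤ K ^ 2 * ((x 0 - y 0) ^ 2 + (x 1 - y 1) ^ 2)) : dist a b ≤ K * dist x y := by
  rw [EuclideanSpace.dist_eq, EuclideanSpace.dist_eq, Fin.sum_univ_three, Fin.sum_univ_two]
  simp only [Real.dist_eq, sq_abs]
  have e : K * √((x 0 - y 0) ^ 2 + (x 1 - y 1) ^ 2)
      = √(K ^ 2 * ((x 0 - y 0) ^ 2 + (x 1 - y 1) ^ 2)) := by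
    rw [Real.sqrt_mul (sq_nonneg K), Real.sqrt_sq hK]
  rw [e]
  exact Real.sqrt_le_sqrt h

theorem lip_pr : LipschitzWith 1 pr := by
  apply LipschitzWith.of_dist_le_mul
  intro a b
  rw [EuclideanSpace.dist_eq, EuclideanSpace.dist_eq, Fin.sum_univ_three, Fin.sum_univ_two]
  simp only [Real.dist_eq, sq_abs, NNReal.coe_one, one_mul, pr]
  apply Real.sqrt_le_sqrt
  simp only [Matrix.cons_val_zero, Matrix.cons_val_one]
  nlinarith [sq_nonneg (a 2 - b 2)]

theorem face_ge {σ : E2 → E3} (hσ : Continuous σ) (hpr : ∀ x, pr (σ x) = x) {D : Set E2}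
    {Fc : Set E3} (hFc : ∀ x ∈ D, σ x ∈ Fc) :
    Measure.map σ ((μH[(2:ℝ)] : Measure E2).restrict D) ≤ (μH[(2:ℝ)] : Measure E3).restrict Fc := by
  rw [Measure.le_iff]
  intro A hA
  rw [Measure.map_apply hσ.measurable hA, Measure.restrict_apply (hσ.measurable hA),
    Measure.restrict_apply hA]
  have h1 : σ ⁻¹' A ∩ D ⊆ pr '' (A ∩ Fc) := by
    rintro x ⟨hxA, hxD⟩
    exact ⟨σ x, ⟨hxA, hFc x hxD⟩, hpr x⟩
  refine (measure_mono h1).trans ?_
  have := lip_pr.hausdorffMeasure_image_le (d := 2) (by norm_num) (A ∩ Fc)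
  simpa using this

theorem face_le {σ : E2 → E3} (hσ : Continuous σ) {K : ℝ≥0} {D : Set E2}
    (hK : LipschitzOnWith K σ D) {Fc : Set E3} (hFc : Fc ⊆ σ '' D) :
    (μH[(2:ℝ)] : Measure E3).restrict Fc
      ≤ (K ^ 2) • Measure.map σ ((μH[(2:ℝ)] : Measure E2).restrict D) := by
  rw [Measure.le_iff]
  intro A hA
  rw [Measure.smul_apply, Measure.map_apply hσ.measurable hA,
    Measure.restrict_apply (hσ.measurable hA), Measure.restrict_apply hA]
  have h1 : A ∩ Fc ⊆ σ '' (σ ⁻¹' A ∩ D) := by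
    rintro x ⟨hxA, hxF⟩
    obtain ⟨y, hyD, rfl⟩ := hFc hxF
    exact ⟨y, ⟨hxA, hyD⟩, rfl⟩
  refine (measure_mono h1).trans ?_
  have := (hK.mono (inter_subset_right (s := σ ⁻¹' A) (t := D))).hausdorffMeasure_image_le
    (d := 2) (by norm_num)
  refine this.trans (le_of_eq ?_)
  rw [ENNReal.smul_def]
  simp

/-! ### the faces -/

/-- bottom parametrisation -/
noncomputable def σb (x : E2) : E3 := !₂[x 0, x 1, 0]
/-- top parametrisation -/
noncomputable def σt (δ c ε : ℝ) (x : E2) : E3 := !₂[x 0, x 1, ε * (1 - c / δ * x 1)]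
/-- lateral parametrisations -/
noncomputable def σ1 (x : E2) : E3 := !₂[x 0, 0, x 1]
noncomputable def σ2 (γ δ : ℝ) (x : E2) : E3 := !₂[x 0, δ * (1 - γ * x 0 ^ 2), x 1]
noncomputable def σ3 (k : ℝ) (x : E2) : E3 := !₂[k, x 0, x 1]

theorem cont_mk3 {X : Type*} [TopologicalSpace X] {a b d : X → ℝ} (ha : Continuous a)
    (hb : Continuous b) (hd : Continuous d) : Continuous (fun x => (!₂[a x, b x, d x] : E3)) := by
  apply (PiLp.continuous_toLp 2 (fun _ : Fin 3 => ℝ)).comp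
  apply continuous_pi
  intro i
  fin_cases i <;> simp <;> assumption

theorem cont_σb : Continuous σb := cont_mk3 (cont_coord2 0) (cont_coord2 1) continuous_const
theorem cont_σt : Continuous (σt δ c ε) :=
  cont_mk3 (cont_coord2 0) (cont_coord2 1) (by have := cont_coord2 1; fun_prop)
theorem cont_σ1 : Continuous σ1 := cont_mk3 (cont_coord2 0) continuous_const (cont_coord2 1)
theorem cont_σ2 : Continuous (σ2 γ δ) :=
  cont_mk3 (cont_coord2 0) (by have := cont_coord2 0; fun_prop) (cont_coord2 1)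
theorem cont_σ3 (k : ℝ) : Continuous (σ3 k) :=
  cont_mk3 continuous_const (cont_coord2 0) (cont_coord2 1)

theorem ext2 {x y : E2} (h0 : x 0 = y 0) (h1 : x 1 = y 1) : x = y := by
  ext i
  fin_cases i <;> assumption

theorem ext3 {x y : E3} (h0 : x 0 = y 0) (h1 : x 1 = y 1) (h2 : x 2 = y 2) : x = y := by
  ext i
  fin_cases i <;> assumption

theorem pr_σb (x : E2) : pr (σb x) = x := ext2 (by simp [pr, σb]) (by simp [pr, σb])
theorem pr_σt (x : E2) : pr (σt δ c ε x) = x := ext2 (by simp [pr, σt]) (by simp [pr, σt])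

/-- rectangle `[-1,1] × [0,ε]` -/
def Rc (ε : ℝ) : Set E2 := {x | |x 0| ≤ 1 ∧ (0 ≤ x 1 ∧ x 1 ≤ ε)}

theorem isClosed_Rc : IsClosed (Rc ε) := by
  have c0 := cont_coord2 0
  have c1 := cont_coord2 1
  have h1 : IsClosed {x : E2 | |x 0| ≤ 1} := isClosed_le (by fun_prop) (by fun_prop)
  have h2 : IsClosed {x : E2 | 0 ≤ x 1} := isClosed_le (by fun_prop) (by fun_prop)
  have h3 : IsClosed {x : E2 | x 1 ≤ ε} := isClosed_le (by fun_prop) (by fun_prop)
  exact h1.inter (h2.inter h3)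

theorem volume_Rc (ε : ℝ) : volume (Rc ε) = ENNReal.ofReal (2 * ε) := by
  have h1 : Rc ε = e2 ⁻¹' (Icc (-1) 1 ×ˢ Icc 0 ε) := by
    ext x
    simp only [Rc, mem_ofPred_eq, mem_preimage, e2_apply, mem_prod, mem_Icc, abs_le]
  rw [h1, e2_mp.measure_preimage ((measurableSet_Icc.prod measurableSet_Icc).nullMeasurableSet),
    Measure.volume_eq_prod, Measure.prod_prod, Real.volume_Icc, Real.volume_Icc,
    ← ENNReal.ofReal_mul (by norm_num)]
  congr 1
  ring

/-- closure of the domain -/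
theorem closure_Om : closure (Om γ δ c ε) ⊆ {x : E3 | |x 0| ≤ 1 ∧
    (0 ≤ x 1 ∧ x 1 ≤ δ * (1 - γ * x 0 ^ 2)) ∧ (0 ≤ x 2 ∧ x 2 ≤ ε * (1 - c / δ * x 1))} := by
  apply closure_minimal
  · rintro x ⟨h1, ⟨h2, h3⟩, h4, h5⟩
    exact ⟨h1.le, ⟨h2.le, h3.le⟩, h4.le, h5.le⟩
  · have c0 := cont_coord 0
    have c1 := cont_coord 1
    have c2 := cont_coord 2
    have h1 : IsClosed {x : E3 | |x 0| ≤ 1} := isClosed_le (by fun_prop) (by fun_prop)
    have h2 : IsClosed {x : E3 | 0 ≤ x 1} := isClosed_le (by fun_prop) (by fun_prop)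
    have h3 : IsClosed {x : E3 | x 1 ≤ δ * (1 - γ * x 0 ^ 2)} :=
      isClosed_le (by fun_prop) (by fun_prop)
    have h4 : IsClosed {x : E3 | 0 ≤ x 2} := isClosed_le (by fun_prop) (by fun_prop)
    have h5 : IsClosed {x : E3 | x 2 ≤ ε * (1 - c / δ * x 1)} :=
      isClosed_le (by fun_prop) (by fun_prop)
    exact h1.inter ((h2.inter h3).inter (h4.inter h5))

theorem frontier_Om (h : Adm γ δ c ε) : frontier (Om γ δ c ε) ⊆
    (((σb '' Dcl γ δ ∪ σt δ c ε '' Dcl γ δ) ∪ (σ1 '' Rc ε ∪ σ2 γ δ '' Rc ε))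
      ∪ (σ3 1 '' Rc ε ∪ σ3 (-1) '' Rc ε)) := by
  rw [isOpen_Om.frontier_eq]
  rintro x ⟨hx, hx'⟩
  obtain ⟨h0, ⟨h1, h2⟩, h3, h4⟩ := closure_Om hx
  have hγ0 := h.γ0
  have hδ0 := h.δ0
  have hc0 := h.c0
  have hε0 := h.ε0
  have hcδ : 0 < c / δ := by positivity
  have hx1 : x 1 ≤ 1 := by
    have h5 : δ * (1 - γ * x 0 ^ 2) ≤ δ * 1 := by
      apply mul_le_mul_of_nonneg_left _ hδ0.le
      have := mul_nonneg hγ0.le (sq_nonneg (x 0))
      linarith
    have := h.δ1
    linarith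
  have hx2 : x 2 ≤ ε := by
    have h5 : ε * (1 - c / δ * x 1) ≤ ε * 1 := by
      apply mul_le_mul_of_nonneg_left _ hε0.le
      have := mul_nonneg hcδ.le h1
      linarith
    linarith
  rcases eq_or_lt_of_le h0 with e | h0'
  · right
    rcases eq_or_eq_neg_of_abs_eq e with e | e
    · left
      refine ⟨!₂[x 1, x 2], ⟨?_, ?_, ?_⟩, ?_⟩
      · simp only [Matrix.cons_val_zero]; rw [abs_le]; constructor <;> linarith
      · simp only [Matrix.cons_val_one]; exact h3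
      · simp only [Matrix.cons_val_one]; exact hx2
      · apply ext3 <;> simp [σ3, e]
    · right
      refine ⟨!₂[x 1, x 2], ⟨?_, ?_, ?_⟩, ?_⟩
      · simp only [Matrix.cons_val_zero]; rw [abs_le]; constructor <;> linarith
      · simp only [Matrix.cons_val_one]; exact h3
      · simp only [Matrix.cons_val_one]; exact hx2
      · apply ext3 <;> simp [σ3, e]
  rcases eq_or_lt_of_le h1 with e | h1'
  · left; right; left
    refine ⟨!₂[x 0, x 2], ⟨?_, ?_, ?_⟩, ?_⟩
    · simpa using h0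
    · simpa using h3
    · simpa using hx2
    · apply ext3 <;> simp [σ1, ← e]
  rcases eq_or_lt_of_le h2 with e | h2'
  · left; right; right
    refine ⟨!₂[x 0, x 2], ⟨?_, ?_, ?_⟩, ?_⟩
    · simpa using h0
    · simpa using h3
    · simpa using hx2
    · apply ext3 <;> simp [σ2, e]
  rcases eq_or_lt_of_le h3 with e | h3'
  · left; left; left
    refine ⟨!₂[x 0, x 1], ⟨?_, ?_, ?_⟩, ?_⟩
    · simpa using h0
    · simpa using h1
    · simpa using h2
    · apply ext3 <;> simp [σb, ← e]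
  rcases eq_or_lt_of_le h4 with e | h4'
  · left; left; right
    refine ⟨!₂[x 0, x 1], ⟨?_, ?_, ?_⟩, ?_⟩
    · simpa using h0
    · simpa using h1
    · simpa using h2
    · apply ext3 <;> simp [σt, e]
  exact absurd ⟨h0', ⟨h1', h2'⟩, h3', h4'⟩ hx'

theorem top_pos (h : Adm γ δ c ε) {x : E2} (hx : x ∈ Dop γ δ) : 0 < ε * (1 - c / δ * x 1) := by
  obtain ⟨h0, h1, h2⟩ := hx
  have hγ0 := h.γ0
  have hδ0 := h.δ0
  have hc0 := h.c0
  apply mul_pos h.ε0
  have h5 : c / δ * x 1 ≤ c / δ * δ := by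
    apply mul_le_mul_of_nonneg_left _ (by positivity)
    have h6 : δ * (1 - γ * x 0 ^ 2) ≤ δ * 1 := by
      apply mul_le_mul_of_nonneg_left _ hδ0.le
      have := mul_nonneg hγ0.le (sq_nonneg (x 0))
      linarith
    linarith
  rw [div_mul_cancel₀ _ hδ0.ne'] at h5
  have := h.c1
  linarith

theorem tendsto_mk3 (a b d : ℝ) (l : Filter ℝ) (hl : l ≤ 𝓝 d) :
    Tendsto (fun τ : ℝ => (!₂[a, b, τ] : E3)) l (𝓝 !₂[a, b, d]) := by
  have : Continuous (fun τ : ℝ => (!₂[a, b, τ] : E3)) :=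
    cont_mk3 continuous_const continuous_const continuous_id
  exact (this.tendsto d).mono_left hl

theorem bottom_frontier (h : Adm γ δ c ε) {x : E2} (hx : x ∈ Dop γ δ) :
    σb x ∈ frontier (Om γ δ c ε) := by
  have ht := top_pos h hx
  rw [isOpen_Om.frontier_eq]
  constructor
  · apply mem_closure_of_tendsto (tendsto_mk3 (x 0) (x 1) 0 (𝓝[>] 0) nhdsWithin_le_nhds)
    filter_upwards [Ioo_mem_nhdsGT ht] with τ hτ
    rw [mem_Om]
    simp only [Matrix.cons_val_zero, Matrix.cons_val_one, Matrix.cons_val]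
    exact ⟨hx.1, hx.2, hτ.1, hτ.2⟩
  · intro hx'
    obtain ⟨_, _, h3, _⟩ := hx'
    simp [σb] at h3

theorem top_frontier (h : Adm γ δ c ε) {x : E2} (hx : x ∈ Dop γ δ) :
    σt δ c ε x ∈ frontier (Om γ δ c ε) := by
  have ht := top_pos h hx
  rw [isOpen_Om.frontier_eq]
  constructor
  · apply mem_closure_of_tendsto (tendsto_mk3 (x 0) (x 1) (ε * (1 - c / δ * x 1))
      (𝓝[<] (ε * (1 - c / δ * x 1))) nhdsWithin_le_nhds)
    filter_upwards [Ioo_mem_nhdsLT ht] with τ hτ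
    rw [mem_Om]
    simp only [Matrix.cons_val_zero, Matrix.cons_val_one, Matrix.cons_val]
    exact ⟨hx.1, hx.2, hτ.1, hτ.2⟩
  · intro hx'
    obtain ⟨_, _, _, h3⟩ := hx'
    simp [σt] at h3

end Pool.Agent.H93.Robin
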