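import Pool.Agent.H93.RobinE

/-!
# Robin gap counterexample, part F: bounds for the boundary integral
-/

namespace Pool.Agent.H93.Robin

open MeasureTheory intervalIntegral Set Filter Topology
open scoped NNReal ENNReal

variable {γ δ c ε : ℝ}

/-! ### Lipschitz constants -/

theorem lip_σb (D : Set E2) : LipschitzOnWith 1 σb D := by
  apply LipschitzOnWith.of_dist_le_mul
  intro x _ y _
  apply dist_le_of_sq (by norm_num)
  simp [σb]

theorem lip_σt (h : Adm γ δ c ε) (D : Set E2) :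
    LipschitzOnWith (Real.toNNReal (1 + ε * c / δ)) (σt δ c ε) D := by
  have hδ0 := h.δ0
  have hc0 := h.c0
  have hε0 := h.ε0
  apply LipschitzOnWith.of_dist_le_mul
  intro x _ y _
  rw [Real.coe_toNNReal _ (by positivity)]
  apply dist_le_of_sq (by positivity)
  simp only [σt, Matrix.cons_val_zero, Matrix.cons_val_one, Matrix.cons_val]
  have e : ε * (1 - c / δ * x 1) - ε * (1 - c / δ * y 1) = - (ε * c / δ) * (x 1 - y 1) := by ring
  rw [e]
  have hk : 0 ≤ ε * c / δ := by positivity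
  set k := ε * c / δ
  nlinarith [mul_nonneg hk (sq_nonneg (x 0 - y 0)), mul_nonneg hk (sq_nonneg (x 1 - y 1)),
    mul_nonneg (mul_nonneg hk hk) (sq_nonneg (x 0 - y 0)), sq_nonneg (x 0 - y 0),
    sq_nonneg (x 1 - y 1)]

theorem lip_σ1 (D : Set E2) : LipschitzOnWith 2 σ1 D := by
  apply LipschitzOnWith.of_dist_le_mul
  intro x _ y _
  apply dist_le_of_sq (by norm_num)
  simp only [σ1, Matrix.cons_val_zero, Matrix.cons_val_one, Matrix.cons_val]
  norm_num
  nlinarith [sq_nonneg (x 0 - y 0), sq_nonneg (x 1 - y 1)]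

theorem lip_σ3 (k : ℝ) (D : Set E2) : LipschitzOnWith 2 (σ3 k) D := by
  apply LipschitzOnWith.of_dist_le_mul
  intro x _ y _
  apply dist_le_of_sq (by norm_num)
  simp only [σ3, Matrix.cons_val_zero, Matrix.cons_val_one, Matrix.cons_val]
  norm_num
  nlinarith [sq_nonneg (x 0 - y 0), sq_nonneg (x 1 - y 1)]

theorem lip_σ2 (h : Adm γ δ c ε) : LipschitzOnWith 2 (σ2 γ δ) (Rc ε) := by
  have hδ0 := h.δ0
  have hδ1 := h.δ1
  have hγ0 := h.γ0
  have hγ1 := h.γ1
  apply LipschitzOnWith.of_dist_le_mul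
  intro x hx y hy
  have hx0 := abs_le.1 hx.1
  have hy0 := abs_le.1 hy.1
  apply dist_le_of_sq (by norm_num)
  simp only [σ2, Matrix.cons_val_zero, Matrix.cons_val_one, Matrix.cons_val]
  have e : (δ * (1 - γ * x 0 ^ 2) - δ * (1 - γ * y 0 ^ 2)) ^ 2
    = (δ * γ * (x 0 + y 0)) ^ 2 * (x 0 - y 0) ^ 2 := by ring
  rw [e]
  have e1 : (δ * γ * (x 0 + y 0)) ^ 2 ≤ 1 := by
    have h1 : δ * γ ≤ 1 * (1 / 10) := mul_le_mul hδ1 hγ1 hγ0.le (by norm_num)
    have h2 : 0 ≤ δ * γ := by positivity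
    have h3 : (δ * γ) ^ 2 ≤ (1 / 10) ^ 2 := by nlinarith
    have h4 : (x 0 + y 0) ^ 2 ≤ 4 := by nlinarith
    have h5 : (δ * γ * (x 0 + y 0)) ^ 2 = (δ * γ) ^ 2 * (x 0 + y 0) ^ 2 := by ring
    rw [h5]
    have := mul_le_mul h3 h4 (sq_nonneg _) (by norm_num)
    linarith
  have e2 := mul_le_mul_of_nonneg_right e1 (sq_nonneg (x 0 - y 0))
  norm_num
  nlinarith [sq_nonneg (x 0 - y 0), sq_nonneg (x 1 - y 1)]

/-! ### lower bound -/

theorem isCompact_frontier (h : Adm γ δ c ε) : IsCompact (frontier (Om γ δ c ε)) :=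
  (isBounded_Om h).isCompact_closure.of_isClosed_subset isClosed_frontier frontier_subset_closure

theorem integrable_frontier (h : Adm γ δ c ε)
    (hfin : (μH[(2:ℝ)] : Measure E3) (frontier (Om γ δ c ε)) ≠ ∞)
    {f : E3 → ℝ} (hf : Continuous f) :
    IntegrableOn f (frontier (Om γ δ c ε)) (μH[(2:ℝ)] : Measure E3) := by
  obtain ⟨M, hM⟩ := (isCompact_frontier h).exists_bound_of_continuousOn hf.continuousOn
  exact Measure.integrableOn_of_bounded (M := M) hfin hf.aestronglyMeasurable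
    ((ae_restrict_iff' isClosed_frontier.measurableSet).2 (Eventually.of_forall hM))

theorem integral_E2_hausdorff (D : Set E2) (f : E2 → ℝ) :
    ∫ x in D, f x ∂(μH[(2:ℝ)] : Measure E2) = cH * ∫ x in D, f x := by
  rw [hausdorff_E2, Measure.restrict_smul, integral_smul_nnreal_measure, NNReal.smul_def,
    smul_eq_mul]

theorem integrableOn_E2_hausdorff {D : Set E2} (hD : IsCompact D) {f : E2 → ℝ}
    (hf : Continuous f) : IntegrableOn f D (μH[(2:ℝ)] : Measure E2) := by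
  rw [hausdorff_E2]
  rw [IntegrableOn, Measure.restrict_smul]
  exact (hf.continuousOn.integrableOn_compact hD).smul_measure_nnreal

theorem frontier_lower (h : Adm γ δ c ε)
    (hfin : (μH[(2:ℝ)] : Measure E3) (frontier (Om γ δ c ε)) ≠ ∞)
    {f : E3 → ℝ} (hf : Continuous f) (h0 : ∀ x, 0 ≤ f x) :
    cH * (∫ x in Dop γ δ, f (σb x)) + cH * (∫ x in Dop γ δ, f (σt δ c ε x))
      ≤ ∫ x in frontier (Om γ δ c ε), f x ∂(μH[(2:ℝ)] : Measure E3) := by
  have hA : MeasurableSet {x : E3 | x 2 = 0} :=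
    (isClosed_eq (cont_coord 2) continuous_const).measurableSet
  have hm := Measure.restrict_inter_add_sdiff (μ := (μH[(2:ℝ)] : Measure E3))
    (frontier (Om γ δ c ε)) hA
  have hb := face_ge cont_σb pr_σb (D := Dop γ δ)
    (Fc := frontier (Om γ δ c ε) ∩ {x : E3 | x 2 = 0}) (fun x hx =>
      ⟨bottom_frontier h hx, by simp [σb]⟩)
  have ht := face_ge (cont_σt (δ := δ) (c := c) (ε := ε)) pr_σt (D := Dop γ δ)
    (Fc := frontier (Om γ δ c ε) \ {x : E3 | x 2 = 0}) (fun x hx =>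
      ⟨top_frontier h hx, by
        have := top_pos h hx
        simp only [σt, mem_ofPred_eq, Matrix.cons_val]
        exact this.ne'⟩)
  have hle : Measure.map σb ((μH[(2:ℝ)] : Measure E2).restrict (Dop γ δ))
      + Measure.map (σt δ c ε) ((μH[(2:ℝ)] : Measure E2).restrict (Dop γ δ))
      ≤ (μH[(2:ℝ)] : Measure E3).restrict (frontier (Om γ δ c ε)) := by
    rw [← hm]
    exact add_le_add hb ht
  have hI := integrable_frontier h hfin hf
  have h1 := integral_mono_measure hle (Eventually.of_forall h0) hI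
  have hsub : Dop γ δ ⊆ Dcl γ δ := fun x hx => ⟨hx.1.le, hx.2.1.le, hx.2.2.le⟩
  have i1 : Integrable f (Measure.map σb ((μH[(2:ℝ)] : Measure E2).restrict (Dop γ δ))) := by
    rw [integrable_map_measure hf.aestronglyMeasurable cont_σb.aemeasurable]
    exact (integrableOn_E2_hausdorff (isCompact_Dcl h) (hf.comp cont_σb)).mono_set hsub
  have i2 : Integrable f (Measure.map (σt δ c ε)
      ((μH[(2:ℝ)] : Measure E2).restrict (Dop γ δ))) := by
    rw [integrable_map_measure hf.aestronglyMeasurable cont_σt.aemeasurable]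
    exact (integrableOn_E2_hausdorff (isCompact_Dcl h) (hf.comp cont_σt)).mono_set hsub
  rw [integral_add_measure i1 i2, integral_map cont_σb.aemeasurable hf.aestronglyMeasurable,
    integral_map cont_σt.aemeasurable hf.aestronglyMeasurable, integral_E2_hausdorff,
    integral_E2_hausdorff] at h1
  exact h1

/-! ### upper bound -/

theorem face_lint {σ : E2 → E3} (hσ : Continuous σ) {K : ℝ≥0} {D : Set E2} (hD : IsCompact D)
    (hK : LipschitzOnWith K σ D) {f : E3 → ℝ} (hf : Continuous f) (h0 : ∀ x, 0 ≤ f x) :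
    ∫⁻ x in σ '' D, ENNReal.ofReal (f x) ∂(μH[(2:ℝ)] : Measure E3)
      ≤ ENNReal.ofReal (K ^ 2 * (cH * ∫ x in D, f (σ x))) := by
  have h1 := face_le hσ hK (Fc := σ '' D) le_rfl
  refine (lintegral_mono' h1 le_rfl).trans (le_of_eq ?_)
  have hm : Measurable (fun x => ENNReal.ofReal (f x)) := hf.measurable.ennreal_ofReal
  rw [lintegral_smul_measure, lintegral_map hm hσ.measurable, hausdorff_E2,
    Measure.restrict_smul, lintegral_smul_measure,
    ← ofReal_integral_eq_lintegral_ofReal (f := fun x => f (σ x))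
      ((hf.comp hσ).continuousOn.integrableOn_compact hD)
      (Eventually.of_forall fun x => h0 (σ x)),
    ENNReal.ofReal_mul (by positivity), ENNReal.ofReal_mul (by positivity)]
  rw [ENNReal.smul_def, ENNReal.smul_def, smul_eq_mul, smul_eq_mul, ENNReal.ofReal_coe_nnreal]
  congr 1
  rw [ENNReal.ofReal_pow (by positivity), ENNReal.ofReal_coe_nnreal]
  simp

theorem isCompact_Rc (h : Adm γ δ c ε) : IsCompact (Rc ε) := by
  apply Metric.isCompact_of_isClosed_isBounded isClosed_Rc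
  rw [isBounded_iff_forall_norm_le]
  refine ⟨3, fun x hx => ?_⟩
  obtain ⟨hx0, hx1, hx2⟩ := hx
  have := h.ε1
  have hx02 : x 0 ^ 2 ≤ 1 := by rw [← sq_abs]; have := abs_nonneg (x 0); nlinarith
  rw [EuclideanSpace.norm_eq, Fin.sum_univ_two]
  rw [Real.sqrt_le_left (by norm_num)]
  simp only [Real.norm_eq_abs, sq_abs]
  nlinarith

theorem lateral_lint (h : Adm γ δ c ε) {σ : E2 → E3} (hσ : Continuous σ)
    (hK : LipschitzOnWith 2 σ (Rc ε)) {f : E3 → ℝ} (hf : Continuous f) (h0 : ∀ x, 0 ≤ f x)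
    (h1 : ∀ x ∈ Rc ε, f (σ x) ≤ 1) :
    ∫⁻ x in σ '' Rc ε, ENNReal.ofReal (f x) ∂(μH[(2:ℝ)] : Measure E3)
      ≤ ENNReal.ofReal (8 * (cH * ε)) := by
  refine (face_lint hσ (isCompact_Rc h) hK hf h0).trans ?_
  apply ENNReal.ofReal_le_ofReal
  have hc : 0 ≤ (cH : ℝ) := cH.2
  have h2 : ∫ x in Rc ε, f (σ x) ≤ 2 * ε := by
    have hvol : (volume : Measure E2) (Rc ε) = ENNReal.ofReal (2 * ε) := volume_Rc ε
    have hfin : (volume : Measure E2) (Rc ε) ≠ ∞ := by rw [hvol]; exact ENNReal.ofReal_ne_top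
    have : ∫ x in Rc ε, f (σ x) ≤ ∫ x in Rc ε, (1:ℝ) := by
      apply setIntegral_mono_on
      · exact (hf.comp hσ).continuousOn.integrableOn_compact (isCompact_Rc h)
      · exact integrableOn_const hfin
      · exact isClosed_Rc.measurableSet
      · exact h1
    refine this.trans ?_
    rw [setIntegral_const, measureReal_def, hvol,
      ENNReal.toReal_ofReal (by have := h.ε0; positivity)]
    simp
  have h3 := mul_le_mul_of_nonneg_left h2 hc
  push_cast
  nlinarith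

theorem frontier_lint (h : Adm γ δ c ε) {φ : ℝ → ℝ} (hφ : Continuous φ) (h0 : ∀ x, 0 ≤ φ x)
    (h1 : ∀ x ∈ Icc (-1:ℝ) 1, φ x ≤ 1) :
    ∫⁻ x in frontier (Om γ δ c ε), ENNReal.ofReal (φ (x 0)) ∂(μH[(2:ℝ)] : Measure E3)
      ≤ ENNReal.ofReal (cH * (δ * (1 + (1 + ε * c / δ) ^ 2) *
        (∫ s in (-1:ℝ)..1, (1 - γ * s ^ 2) * φ s) + 32 * ε)) := by
  have hδ0 := h.δ0
  have hc0 := h.c0
  have hε0 := h.ε0
  have hf : Continuous (fun x : E3 => φ (x 0)) := hφ.comp (cont_coord 0)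
  have hf0 : ∀ x : E3, 0 ≤ φ (x 0) := fun x => h0 _
  have hcomp := isCompact_Dcl h
  have hsub : Dop γ δ ⊆ Dcl γ δ := fun x hx => ⟨hx.1.le, hx.2.1.le, hx.2.2.le⟩
  have area : ∫ x in Dcl γ δ, φ (x 0) = δ * ∫ s in (-1:ℝ)..1, (1 - γ * s ^ 2) * φ s := by
    rw [area_integral h isClosed_Dcl.measurableSet hsub le_rfl (F := fun x : E2 => φ (x 0))
      (hφ.comp (cont_coord2 0))]
    simp
  have fb := face_lint cont_σb hcomp (lip_σb _) hf hf0
  have ft := face_lint cont_σt hcomp (lip_σt h _) hf hf0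
  have f1 := lateral_lint h cont_σ1 (lip_σ1 _) hf hf0 (fun x hx => h1 _ (by
    simp only [σ1, Matrix.cons_val_zero]; exact abs_le.1 hx.1))
  have f2 := lateral_lint h cont_σ2 (lip_σ2 h) hf hf0 (fun x hx => h1 _ (by
    simp only [σ2, Matrix.cons_val_zero]; exact abs_le.1 hx.1))
  have f3 := lateral_lint h (cont_σ3 1) (lip_σ3 1 _) hf hf0 (fun x hx => h1 _ (by
    simp only [σ3, Matrix.cons_val_zero]; constructor <;> norm_num))
  have f4 := lateral_lint h (cont_σ3 (-1)) (lip_σ3 (-1) _) hf hf0 (fun x hx => h1 _ (by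
    simp only [σ3, Matrix.cons_val_zero]; constructor <;> norm_num))
  have e1 : ∀ x : E2, (σb x) 0 = x 0 := fun x => by simp [σb]
  have e2 : ∀ x : E2, (σt δ c ε x) 0 = x 0 := fun x => by simp [σt]
  simp only [e1] at fb
  simp only [e2] at ft
  rw [area] at fb ft
  set I := ∫ s in (-1:ℝ)..1, (1 - γ * s ^ 2) * φ s with hI
  have hI0 : 0 ≤ δ * I := by
    rw [← area]
    exact setIntegral_nonneg isClosed_Dcl.measurableSet fun x _ => h0 _
  have hsum := (lintegral_mono_set (μ := (μH[(2:ℝ)] : Measure E3)) (frontier_Om h)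
    (f := fun x : E3 => ENNReal.ofReal (φ (x 0))))
  refine hsum.trans ?_
  refine (lintegral_union_le _ _ _).trans ?_
  refine (add_le_add (lintegral_union_le _ _ _) (lintegral_union_le _ _ _)).trans ?_
  refine (add_le_add (add_le_add (lintegral_union_le _ _ _) (lintegral_union_le _ _ _))
    le_rfl).trans ?_
  refine (add_le_add (add_le_add (add_le_add fb ft) (add_le_add f1 f2))
    (add_le_add f3 f4)).trans ?_
  have hc : 0 ≤ (cH : ℝ) := cH.2
  rw [Real.coe_toNNReal _ (by positivity)]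
  have p8 : 0 ≤ 8 * ((cH:ℝ) * ε) := by positivity
  have pa : 0 ≤ (((1:ℝ≥0):ℝ) ^ 2 * ((cH:ℝ) * (δ * I))) := by positivity
  have pb : 0 ≤ ((1 + ε * c / δ) ^ 2 * ((cH:ℝ) * (δ * I))) := by positivity
  rw [← ENNReal.ofReal_add pa pb, ← ENNReal.ofReal_add p8 p8,
    ← ENNReal.ofReal_add (add_nonneg pa pb) (add_nonneg p8 p8),
    ← ENNReal.ofReal_add (add_nonneg (add_nonneg pa pb) (add_nonneg p8 p8)) (add_nonneg p8 p8)]
  apply ENNReal.ofReal_le_ofReal
  apply le_of_eq
  push_cast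
  ring

theorem frontier_finite (h : Adm γ δ c ε) :
    (μH[(2:ℝ)] : Measure E3) (frontier (Om γ δ c ε)) ≠ ∞ := by
  have := frontier_lint h (φ := fun _ => 1) continuous_const (fun _ => zero_le_one)
    (fun _ _ => le_rfl)
  simp only [ENNReal.ofReal_one, lintegral_const, one_mul, Measure.restrict_apply_univ] at this
  exact (this.trans_lt ENNReal.ofReal_lt_top).ne

theorem frontier_upper (h : Adm γ δ c ε) {φ : ℝ → ℝ} (hφ : Continuous φ) (h0 : ∀ x, 0 ≤ φ x)
    (h1 : ∀ x ∈ Icc (-1:ℝ) 1, φ x ≤ 1) :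
    ∫ x in frontier (Om γ δ c ε), φ (x 0) ∂(μH[(2:ℝ)] : Measure E3)
      ≤ cH * (δ * (1 + (1 + ε * c / δ) ^ 2) *
        (∫ s in (-1:ℝ)..1, (1 - γ * s ^ 2) * φ s) + 32 * ε) := by
  have hf : Continuous (fun x : E3 => φ (x 0)) := hφ.comp (cont_coord 0)
  rw [integral_eq_lintegral_of_nonneg_ae (Eventually.of_forall fun x => h0 _)
    hf.aestronglyMeasurable]
  apply ENNReal.toReal_le_of_le_ofReal _ (frontier_lint h hφ h0 h1)
  have hδ0 := h.δ0
  have hc0 := h.c0
  have hε0 := h.ε0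
  have hI : 0 ≤ ∫ s in (-1:ℝ)..1, (1 - γ * s ^ 2) * φ s := by
    apply intervalIntegral.integral_nonneg (by norm_num)
    intro s hs
    have hs2 : s ^ 2 ≤ 1 := by nlinarith [hs.1, hs.2]
    have := h.γ0
    have := h.γ1
    apply mul_nonneg _ (h0 s)
    nlinarith [sq_nonneg s]
  have hc : 0 ≤ (cH : ℝ) := cH.2
  positivity

/-! ### reflection -/

noncomputable def refl0 (x : E3) : E3 := !₂[-(x 0), x 1, x 2]

theorem refl0_refl0 (x : E3) : refl0 (refl0 x) = x := by
  apply ext3 <;> simp [refl0]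

noncomputable def reflI : E3 ≃ᵢ E3 where
  toFun := refl0
  invFun := refl0
  left_inv := refl0_refl0
  right_inv := refl0_refl0
  isometry_toFun := by
    apply Isometry.of_dist_eq
    intro x y
    rw [EuclideanSpace.dist_eq, EuclideanSpace.dist_eq, Fin.sum_univ_three, Fin.sum_univ_three]
    simp only [Real.dist_eq, sq_abs, refl0, Matrix.cons_val_zero, Matrix.cons_val_one,
      Matrix.cons_val]
    congr 1
    ring

theorem refl_Om : reflI ⁻¹' (Om γ δ c ε) = Om γ δ c ε := by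
  ext x
  change |(refl0 x) 0| < 1 ∧ (0 < (refl0 x) 1 ∧ (refl0 x) 1 < δ * (1 - γ * (refl0 x) 0 ^ 2)) ∧
    (0 < (refl0 x) 2 ∧ (refl0 x) 2 < ε * (1 - c / δ * (refl0 x) 1)) ↔ _
  rw [mem_Om]
  simp only [refl0, Matrix.cons_val_zero, Matrix.cons_val_one, Matrix.cons_val, abs_neg,
    even_two, Even.neg_pow]

theorem refl_frontier : reflI ⁻¹' (frontier (Om γ δ c ε)) = frontier (Om γ δ c ε) := by
  have := reflI.toHomeomorph.preimage_frontier (Om γ δ c ε)
  have h2 : reflI.toHomeomorph ⁻¹' (Om γ δ c ε) = Om γ δ c ε := refl_Om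
  rw [h2] at this
  exact this

theorem frontier_odd {φ : ℝ → ℝ} (hodd : ∀ x, φ (-x) = - φ x) :
    ∫ x in frontier (Om γ δ c ε), φ (x 0) ∂(μH[(2:ℝ)] : Measure E3) = 0 := by
  have h1 := (reflI.measurePreserving_hausdorffMeasure 2).setIntegral_preimage_emb
    reflI.toHomeomorph.measurableEmbedding (fun x : E3 => φ (x 0)) (frontier (Om γ δ c ε))
  rw [refl_frontier] at h1
  have h2 : ∀ x : E3, φ ((reflI x) 0) = - φ (x 0) := by
    intro x
    change φ ((refl0 x) 0) = _
    simp [refl0, hodd]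
  simp only [h2, MeasureTheory.integral_neg] at h1
  linarith

end Pool.Agent.H93.Robin
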