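import Pool.Agent.H93.RobinC
import Pool.Agent.H93.RobinD
import Pool.Agent.H93.RobinF

/-!
# Robin gap counterexample, part G: the three estimates
-/

namespace Pool.Agent.H93.Robin

open MeasureTheory intervalIntegral Set Filter Topology
open scoped NNReal ENNReal

variable {γ δ c ε : ℝ}

/-- mass -/
noncomputable def Nf (γ δ c ε : ℝ) (v : E3 → ℝ) : ℝ := ∫ x in Om γ δ c ε, v x ^ 2
/-- gradient energy -/
noncomputable def Gf (γ δ c ε : ℝ) (v : E3 → ℝ) : ℝ := ∫ x in Om γ δ c ε, ‖fderiv ℝ v x‖ ^ 2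
/-- boundary energy -/
noncomputable def Bf (γ δ c ε : ℝ) (v : E3 → ℝ) : ℝ :=
  ∫ x in frontier (Om γ δ c ε), v x ^ 2 ∂(μH[(2:ℝ)] : Measure E3)

theorem σb_PP (s q : ℝ) : σb !₂[s, δ * (1 - γ * s ^ 2) * q] = PP γ δ c ε s q 0 := by
  apply ext3 <;> simp [σb, PP]

theorem σt_PP (hδ : δ ≠ 0) (s q : ℝ) :
    σt δ c ε !₂[s, δ * (1 - γ * s ^ 2) * q] = PP γ δ c ε s q 1 := by
  apply ext3
  · simp [σt, PP]
  · simp [σt, PP]
  · simp only [σt, PP, Matrix.cons_val]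
    field_simp

/-- Lower bound for the boundary energy in box coordinates. -/
theorem Bf_lower (h : Adm γ δ c ε) {v : E3 → ℝ} (hv : ContDiff ℝ 1 v) :
    cH * δ * I3 (fun s q _ => (1 - γ * s ^ 2) * (WW γ δ c ε v s q 0 ^ 2 + WW γ δ c ε v s q 1 ^ 2))
      ≤ Bf γ δ c ε v := by
  have h1 := frontier_lower h (frontier_finite h) (f := fun x => v x ^ 2) (hv.continuous.pow 2)
    (fun x => sq_nonneg _)
  have hsub : Dop γ δ ⊆ Dcl γ δ := fun x hx => ⟨hx.1.le, hx.2.1.le, hx.2.2.le⟩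
  rw [area_integral h isOpen_Dop.measurableSet le_rfl hsub (F := fun x => v (σb x) ^ 2)
      ((hv.continuous.comp cont_σb).pow 2),
    area_integral h isOpen_Dop.measurableSet le_rfl hsub (F := fun x => v (σt δ c ε x) ^ 2)
      ((hv.continuous.comp cont_σt).pow 2)] at h1
  simp only [σb_PP (c := c) (ε := ε), σt_PP h.δ0.ne'] at h1
  refine le_trans (le_of_eq ?_) h1
  have cW := cWW hv γ δ c ε
  have cW0 : C3 (fun s q _ => WW γ δ c ε v s q 0) := by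
    exact cW.comp (f := fun x : ℝ × ℝ × ℝ => (x.1, x.2.1, (0:ℝ))) (by fun_prop)
  have cW1 : C3 (fun s q _ => WW γ δ c ε v s q 1) := by
    exact cW.comp (f := fun x : ℝ × ℝ × ℝ => (x.1, x.2.1, (1:ℝ))) (by fun_prop)
  have c0 : C3 (fun s q _ => (1 - γ * s ^ 2) * WW γ δ c ε v s q 0 ^ 2) := by
    unfold C3 at *; fun_prop
  have c1 : C3 (fun s q _ => (1 - γ * s ^ 2) * WW γ δ c ε v s q 1 ^ 2) := by
    unfold C3 at *; fun_prop
  have e : I3 (fun s q _ => (1 - γ * s ^ 2) * (WW γ δ c ε v s q 0 ^ 2 + WW γ δ c ε v s q 1 ^ 2))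
      = I3 (fun s q _ => (1 - γ * s ^ 2) * WW γ δ c ε v s q 0 ^ 2)
        + I3 (fun s q _ => (1 - γ * s ^ 2) * WW γ δ c ε v s q 1 ^ 2) := by
    rw [← I3_add c0 c1]
    congr 1
    ext s q t
    ring
  rw [e, I3_indep_t, I3_indep_t]
  unfold WW
  ring

/-- estimate (L) -/
theorem robin_L {η a A B D' Dq err θ L β : ℝ} (h : Adm γ δ c ε) {v : E3 → ℝ}
    (hv : ContDiff ℝ 1 v) (hη0 : 0 < η) (hη : 36 * γ ^ 2 * δ ^ 2 ≤ η)
    (hεc : 2 * ε ^ 2 * c ^ 2 ≤ δ ^ 2) (ha0 : 0 ≤ a)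
    (hA : A = 2 * a * c) (hB : B = A * γ / 2)
    (hη1 : η ≤ 1)
    (hD'0 : 0 < D') (hD' : D' ≤ (1 - c) * (1 - η))
    (hDq0 : 0 < Dq) (hDq : Dq * (4 * δ ^ 2) ≤ 1 - c)
    (herr : A ^ 2 / 64 ≤ Dq * err)
    (hθ0 : 0 ≤ θ) (hθ : 4 * B ^ 2 / 243 ≤ D' * (A / 2 - B / 3 - err - θ))
    (hL : L + 2 * ε ^ 2 * a ^ 2 ≤ 2 * a + θ)
    (hβ0 : 0 ≤ β) (hβ : β * cH = ε * a) :
    L * Nf γ δ c ε v ≤ Gf γ δ c ε v + β * Bf γ δ c ε v := by
  have h1 := energy_lower h hv hη0 hη hεc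
  have h2 := mul_le_mul_of_nonneg_left (Bf_lower h hv) hβ0
  have cW := cWW hv γ δ c ε
  have cS := cSS hv γ δ c ε
  have cQ := cQQ hv γ δ c ε
  have cY := cYY hv γ δ c ε
  have h3 := lowerL cW cS cQ cY (dWs hv γ δ c ε) (dWq hv γ δ c ε) (dWt hv γ δ c ε)
    h.γ0.le h.γ1 h.c0.le h.c1 h.δ0 h.ε0 ha0 hA hB hη1 hD'0 hD' hDq0 hDq herr hθ0 hθ hL
  have cW0 : C3 (fun s q _ => WW γ δ c ε v s q 0) := by
    exact cW.comp (f := fun x : ℝ × ℝ × ℝ => (x.1, x.2.1, (0:ℝ))) (by fun_prop)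
  have cW1 : C3 (fun s q _ => WW γ δ c ε v s q 1) := by
    exact cW.comp (f := fun x : ℝ × ℝ × ℝ => (x.1, x.2.1, (1:ℝ))) (by fun_prop)
  rw [I3_add (by unfold C3 at *; fun_prop) (by unfold C3 at *; fun_prop), I3_const_mul] at h3
  unfold Nf Gf
  rw [int_sq h hv]
  have hδε : 0 ≤ δ * ε := mul_nonneg h.δ0.le h.ε0.le
  have h4 := mul_le_mul_of_nonneg_left h3 hδε
  have e : β * (cH * δ * I3 (fun s q _ => (1 - γ * s ^ 2) *
      (WW γ δ c ε v s q 0 ^ 2 + WW γ δ c ε v s q 1 ^ 2)))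
      = δ * ε * (a * I3 (fun s q _ => (1 - γ * s ^ 2) *
      (WW γ δ c ε v s q 0 ^ 2 + WW γ δ c ε v s q 1 ^ 2))) := by
    have : β * (cH * δ * I3 (fun s q _ => (1 - γ * s ^ 2) *
      (WW γ δ c ε v s q 0 ^ 2 + WW γ δ c ε v s q 1 ^ 2))) = (β * cH) * (δ * I3 (fun s q _ =>
        (1 - γ * s ^ 2) * (WW γ δ c ε v s q 0 ^ 2 + WW γ δ c ε v s q 1 ^ 2))) := by ring
    rw [this, hβ]
    ring
  rw [e] at h2
  linarith

/-- the linear functional used for (M) -/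
noncomputable def ell (γ δ c ε : ℝ) (v : E3 → ℝ) : ℝ :=
  ∫ q in (0:ℝ)..1, ∫ t in (0:ℝ)..1, WW γ δ c ε v 0 q t

/-- estimate (M) -/
theorem robin_M {η M : ℝ} (h : Adm γ δ c ε) {v : E3 → ℝ}
    (hv : ContDiff ℝ 1 v) (hη0 : 0 < η) (hη1 : η ≤ 1) (hη : 36 * γ ^ 2 * δ ^ 2 ≤ η)
    (hεc : 2 * ε ^ 2 * c ^ 2 ≤ δ ^ 2) (hδ : δ ≤ 1 / 2) (hε : ε ≤ 1 / 2)
    (hM0 : 0 ≤ M) (hM : M ≤ 2 * (1 - γ) * (1 - c) * (1 - η)) (h0 : ell γ δ c ε v = 0) :
    M * Nf γ δ c ε v ≤ Gf γ δ c ε v := by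
  have h1 := energy_lower h hv hη0 hη hεc
  have cW := cWW hv γ δ c ε
  have cS := cSS hv γ δ c ε
  have cQ := cQQ hv γ δ c ε
  have cY := cYY hv γ δ c ε
  have h3 := lowerM cW cS cQ cY (dWs hv γ δ c ε) (dWq hv γ δ c ε) (dWt hv γ δ c ε) h0
    h.γ0.le h.γ1 h.c0.le h.c1 hη0.le hη1 h.δ0 hδ h.ε0 hε hM0 hM
  unfold Nf Gf
  rw [int_sq h hv]
  have hδε : 0 ≤ δ * ε := mul_nonneg h.δ0.le h.ε0.le
  have h4 := mul_le_mul_of_nonneg_left h3 hδε
  linarith

/-! ### test functions depending on `x 0` only -/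

theorem vol_x0 (h : Adm γ δ c ε) {ψ : ℝ → ℝ} (hψ : Continuous ψ) :
    ∫ x in Om γ δ c ε, ψ (x 0)
      = δ * ε * ∫ s in (-1:ℝ)..1, (1 - γ * s ^ 2) * (1 - c * (1 - γ * s ^ 2) / 2) * ψ s := by
  rw [vol_integral h (F := fun x => ψ (x 0)) (hψ.comp (cont_coord 0))]
  congr 1
  unfold I3
  apply intervalIntegral.integral_congr
  intro s _
  simp only [Matrix.cons_val_zero]
  set g := 1 - γ * s ^ 2
  have e1 : ∀ q : ℝ, ∫ t in (0:ℝ)..1, g * (1 - c * g * q) * ψ s = g * ψ s - g * ψ s * (c * g) * q := by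
    intro q
    simp
    ring
  have e2 : ∫ q in (0:ℝ)..1, (g * ψ s - g * ψ s * (c * g) * q)
      = g * ψ s - g * ψ s * (c * g) * (1 / 2) := by
    rw [intervalIntegral.integral_sub (by simp) (by
      apply Continuous.intervalIntegrable; fun_prop)]
    have e3 : ∫ q in (0:ℝ)..1, g * ψ s * (c * g) * q = g * ψ s * (c * g) * (1 / 2) := by
      rw [intervalIntegral.integral_const_mul, integral_id]
      norm_num
    rw [e3]
    simp
  simp_rw [e1]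
  rw [e2]
  ring

/-- the odd test profile -/
noncomputable def φ0 (s : ℝ) : ℝ := s - s ^ 3 / 3

theorem cont_φ0 : Continuous φ0 := by unfold φ0; fun_prop

theorem int_φ0_sq : ∫ s in (-1:ℝ)..1, φ0 s ^ 2 = 136 / 315 := by
  have : ∀ s : ℝ, φ0 s ^ 2 = s ^ 2 - 2 / 3 * s ^ 4 + 1 / 9 * s ^ 6 := by
    intro s; unfold φ0; ring
  simp_rw [this]
  rw [intervalIntegral.integral_add, intervalIntegral.integral_sub,
    intervalIntegral.integral_const_mul, intervalIntegral.integral_const_mul,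
    integral_pow, integral_pow, integral_pow]
  · norm_num
  all_goals apply Continuous.intervalIntegrable; fun_prop

theorem int_s2_φ0_sq : ∫ s in (-1:ℝ)..1, s ^ 2 * φ0 s ^ 2 = 664 / 2835 := by
  have : ∀ s : ℝ, s ^ 2 * φ0 s ^ 2 = s ^ 4 - 2 / 3 * s ^ 6 + 1 / 9 * s ^ 8 := by
    intro s; unfold φ0; ring
  simp_rw [this]
  rw [intervalIntegral.integral_add, intervalIntegral.integral_sub,
    intervalIntegral.integral_const_mul, intervalIntegral.integral_const_mul,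
    integral_pow, integral_pow, integral_pow]
  · norm_num
  all_goals apply Continuous.intervalIntegrable; fun_prop

theorem int_dφ0_sq : ∫ s in (-1:ℝ)..1, (1 - s ^ 2) ^ 2 = 16 / 15 := by
  have : ∀ s : ℝ, (1 - s ^ 2) ^ 2 = 1 - 2 * s ^ 2 + s ^ 4 := by
    intro s; ring
  simp_rw [this]
  rw [intervalIntegral.integral_add, intervalIntegral.integral_sub,
    intervalIntegral.integral_const_mul, intervalIntegral.integral_const,
    integral_pow, integral_pow]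
  · norm_num
  all_goals apply Continuous.intervalIntegrable; fun_prop

/-- The key inequality for test functions depending on `x 0`. -/
theorem upper_key {a A B U' e : ℝ} (h : Adm γ δ c ε) (ha0 : 0 ≤ a) (hA : A = 2 * a * c)
    (hB : B = A * γ / 2) (hU0 : U' ≤ 0) (hκ : ε * c / δ ≤ 1) {ψ : ℝ → ℝ} (hψ : Continuous ψ)
    (h0 : ∀ x, 0 ≤ ψ x) (h1 : ∫ s in (-1:ℝ)..1, ψ s ≤ 2)
    (hkey : e + 2 * (3 * a * (ε * c / δ) + A * c / 4) + 32 * a * ε / δ
      ≤ B * (1 - γ) * (∫ s in (-1:ℝ)..1, s ^ 2 * ψ s) + U' * (∫ s in (-1:ℝ)..1, ψ s)) :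
    e + (a * (1 + (1 + ε * c / δ) ^ 2) * (∫ s in (-1:ℝ)..1, (1 - γ * s ^ 2) * ψ s)
      + 32 * a * ε / δ)
    ≤ (2 * a + A / 2 + U') *
      ∫ s in (-1:ℝ)..1, (1 - γ * s ^ 2) * (1 - c * (1 - γ * s ^ 2) / 2) * ψ s := by
  have hγ0 := h.γ0
  have hγ1 := h.γ1
  have hδ0 := h.δ0
  have hc0 := h.c0
  have hc1 := h.c1
  have hε0 := h.ε0
  have hA0 : 0 ≤ A := by rw [hA]; positivity
  have hB0 : 0 ≤ B := by rw [hB]; positivity
  set κ := ε * c / δ with hκd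
  have hκ0 : 0 ≤ κ := by positivity
  -- pointwise inequality
  have pw : ∀ s ∈ Icc (-1:ℝ) 1,
      B * (1 - γ) * (s ^ 2 * ψ s) + U' * ψ s - (3 * a * κ + A * c / 4) * ψ s
      ≤ (2 * a + A / 2 + U') * ((1 - γ * s ^ 2) * (1 - c * (1 - γ * s ^ 2) / 2) * ψ s)
        - a * (1 + (1 + κ) ^ 2) * ((1 - γ * s ^ 2) * ψ s) := by
    intro s hs
    have hs2 : s ^ 2 ≤ 1 := by nlinarith [hs.1, hs.2]
    have g0 : 1 - γ ≤ 1 - γ * s ^ 2 := by nlinarith [sq_nonneg s]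
    have g1 : 1 - γ * s ^ 2 ≤ 1 := by nlinarith [mul_nonneg hγ0.le (sq_nonneg s)]
    have hBg : A / 2 * (1 - (1 - γ * s ^ 2)) = B * s ^ 2 := by rw [hB]; ring
    set g := 1 - γ * s ^ 2 with hg
    have gpos : 0 ≤ g := by linarith
    have e1 : (2 * a + A / 2 + U') * (g * (1 - c * g / 2)) - a * (1 + (1 + κ) ^ 2) * g
        = g * (B * s ^ 2) + g * U' - (A / 2 + U') * (c / 2) * g ^ 2
          - a * (2 * κ + κ ^ 2) * g := by
      rw [← hBg, hA]
      ring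
    have e2 : B * (1 - γ) * s ^ 2 ≤ g * (B * s ^ 2) := by
      have := mul_le_mul_of_nonneg_right g0 (mul_nonneg hB0 (sq_nonneg s))
      linarith
    have e3 : U' ≤ g * U' := by nlinarith
    have e4 : (A / 2 + U') * (c / 2) * g ^ 2 ≤ A * c / 4 := by
      have g2 : g ^ 2 ≤ 1 := by nlinarith
      have t1 : (A / 2 + U') * (c / 2) * g ^ 2 ≤ A / 2 * (c / 2) * g ^ 2 := by
        have : 0 ≤ c / 2 * g ^ 2 := by positivity
        nlinarith
      have t2 : A / 2 * (c / 2) * g ^ 2 ≤ A / 2 * (c / 2) * 1 :=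
        mul_le_mul_of_nonneg_left g2 (by positivity)
      linarith
    have e5 : a * (2 * κ + κ ^ 2) * g ≤ 3 * a * κ := by
      have t1 : 2 * κ + κ ^ 2 ≤ 3 * κ := by nlinarith
      have t2 : (2 * κ + κ ^ 2) * g ≤ 3 * κ * 1 :=
        mul_le_mul t1 g1 gpos (by positivity)
      have := mul_le_mul_of_nonneg_left t2 ha0
      linarith
    have e6 : B * (1 - γ) * s ^ 2 + U' - (3 * a * κ + A * c / 4)
        ≤ (2 * a + A / 2 + U') * (g * (1 - c * g / 2)) - a * (1 + (1 + κ) ^ 2) * g := by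
      rw [e1]; linarith
    have := mul_le_mul_of_nonneg_right e6 (h0 s)
    linarith
  have hint := intervalIntegral.integral_mono_on (μ := volume) (a := -1) (b := 1)
    (by norm_num) (by apply Continuous.intervalIntegrable; fun_prop)
    (by apply Continuous.intervalIntegrable; fun_prop) pw
  rw [intervalIntegral.integral_sub (by apply Continuous.intervalIntegrable; fun_prop)
      (by apply Continuous.intervalIntegrable; fun_prop),
    intervalIntegral.integral_add (by apply Continuous.intervalIntegrable; fun_prop)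
      (by apply Continuous.intervalIntegrable; fun_prop),
    intervalIntegral.integral_sub (by apply Continuous.intervalIntegrable; fun_prop)
      (by apply Continuous.intervalIntegrable; fun_prop)] at hint
  simp only [intervalIntegral.integral_const_mul] at hint
  have h5 : (3 * a * κ + A * c / 4) * (∫ s in (-1:ℝ)..1, ψ s) ≤ (3 * a * κ + A * c / 4) * 2 :=
    mul_le_mul_of_nonneg_left h1 (by positivity)
  linarith

end Pool.Agent.H93.Robin
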