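import Pool.Agent.H93.RobinG

/-!
# Robin gap counterexample, part H: quadratic forms, test space, min-max bookkeeping
-/

namespace Pool.Agent.H93.Robin

open MeasureTheory intervalIntegral Set Filter Topology
open scoped NNReal ENNReal

variable {γ δ c ε : ℝ}

/-! ### quadratic form facts -/

theorem Nf_comb (h : Adm γ δ c ε) {v w : E3 → ℝ} (hv : Continuous v) (hw : Continuous w)
    (a b : ℝ) : Nf γ δ c ε (a • v + b • w) = a ^ 2 * Nf γ δ c ε v
      + 2 * a * b * (∫ x in Om γ δ c ε, v x * w x) + b ^ 2 * Nf γ δ c ε w := by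
  unfold Nf
  have e : ∀ x, (a • v + b • w) x ^ 2 = a ^ 2 * v x ^ 2 + 2 * a * b * (v x * w x)
      + b ^ 2 * w x ^ 2 := by
    intro x
    simp only [Pi.add_apply, Pi.smul_apply, smul_eq_mul]
    ring
  simp_rw [e]
  rw [MeasureTheory.integral_add, MeasureTheory.integral_add, MeasureTheory.integral_const_mul,
    MeasureTheory.integral_const_mul, MeasureTheory.integral_const_mul]
  all_goals exact integrableOn_Om h (by fun_prop)

theorem Bf_comb (h : Adm γ δ c ε) {v w : E3 → ℝ} (hv : Continuous v) (hw : Continuous w)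
    (a b : ℝ) : Bf γ δ c ε (a • v + b • w) = a ^ 2 * Bf γ δ c ε v
      + 2 * a * b * (∫ x in frontier (Om γ δ c ε), v x * w x ∂(μH[(2:ℝ)] : Measure E3))
      + b ^ 2 * Bf γ δ c ε w := by
  unfold Bf
  have e : ∀ x, (a • v + b • w) x ^ 2 = a ^ 2 * v x ^ 2 + 2 * a * b * (v x * w x)
      + b ^ 2 * w x ^ 2 := by
    intro x
    simp only [Pi.add_apply, Pi.smul_apply, smul_eq_mul]
    ring
  simp_rw [e]
  rw [MeasureTheory.integral_add, MeasureTheory.integral_add, MeasureTheory.integral_const_mul,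
    MeasureTheory.integral_const_mul, MeasureTheory.integral_const_mul]
  all_goals exact integrable_frontier h (frontier_finite h) (by fun_prop)

theorem Nf_nonneg (v : E3 → ℝ) : 0 ≤ Nf γ δ c ε v :=
  MeasureTheory.integral_nonneg fun _ => sq_nonneg _
theorem Gf_nonneg (v : E3 → ℝ) : 0 ≤ Gf γ δ c ε v :=
  MeasureTheory.integral_nonneg fun _ => sq_nonneg _
theorem Bf_nonneg (v : E3 → ℝ) : 0 ≤ Bf γ δ c ε v :=
  MeasureTheory.integral_nonneg fun _ => sq_nonneg _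

theorem fderiv_comb {v w : E3 → ℝ} (hv : ContDiff ℝ 1 v) (hw : ContDiff ℝ 1 w) (a b : ℝ) (x : E3) :
    fderiv ℝ (a • v + b • w) x = a • fderiv ℝ v x + b • fderiv ℝ w x := by
  have dv : DifferentiableAt ℝ v x := hv.differentiable (by norm_num) x
  have dw : DifferentiableAt ℝ w x := hw.differentiable (by norm_num) x
  rw [fderiv_add (dv.const_smul a) (dw.const_smul b), fderiv_const_smul dv, fderiv_const_smul dw]

theorem Gf_comb_le (h : Adm γ δ c ε) {v w : E3 → ℝ} (hv : ContDiff ℝ 1 v) (hw : ContDiff ℝ 1 w)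
    (a b : ℝ) : Gf γ δ c ε (a • v + b • w) ≤ 2 * a ^ 2 * Gf γ δ c ε v
      + 2 * b ^ 2 * Gf γ δ c ε w := by
  unfold Gf
  have cv : Continuous (fun x => ‖fderiv ℝ v x‖ ^ 2) :=
    (hv.continuous_fderiv (by norm_num)).norm.pow 2
  have cw : Continuous (fun x => ‖fderiv ℝ w x‖ ^ 2) :=
    (hw.continuous_fderiv (by norm_num)).norm.pow 2
  have hvw : ContDiff ℝ 1 (a • v + b • w) := (hv.const_smul a).add (hw.const_smul b)
  have cvw : Continuous (fun x => ‖fderiv ℝ (a • v + b • w) x‖ ^ 2) :=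
    (hvw.continuous_fderiv (by norm_num)).norm.pow 2
  rw [← MeasureTheory.integral_const_mul, ← MeasureTheory.integral_const_mul,
    ← MeasureTheory.integral_add (integrableOn_Om h (by fun_prop)) (integrableOn_Om h (by fun_prop))]
  apply MeasureTheory.integral_mono (integrableOn_Om h cvw) (integrableOn_Om h (by fun_prop))
  intro x
  dsimp only
  rw [fderiv_comb hv hw]
  have h1 := norm_add_le (a • fderiv ℝ v x) (b • fderiv ℝ w x)
  rw [norm_smul, norm_smul] at h1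
  have h2 : ‖a • fderiv ℝ v x + b • fderiv ℝ w x‖ ^ 2
      ≤ (‖a‖ * ‖fderiv ℝ v x‖ + ‖b‖ * ‖fderiv ℝ w x‖) ^ 2 :=
    pow_le_pow_left₀ (norm_nonneg _) h1 2
  have h3 : ‖a‖ ^ 2 = a ^ 2 := by rw [Real.norm_eq_abs, sq_abs]
  have h4 : ‖b‖ ^ 2 = b ^ 2 := by rw [Real.norm_eq_abs, sq_abs]
  nlinarith [sq_nonneg (‖a‖ * ‖fderiv ℝ v x‖ - ‖b‖ * ‖fderiv ℝ w x‖)]

theorem Bf_comb_le (h : Adm γ δ c ε) {v w : E3 → ℝ} (hv : Continuous v) (hw : Continuous w)
    (a b : ℝ) : Bf γ δ c ε (a • v + b • w) ≤ 2 * a ^ 2 * Bf γ δ c ε v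
      + 2 * b ^ 2 * Bf γ δ c ε w := by
  have h1 := Bf_comb h hv hw a b
  have h2 := Bf_comb h hv hw a (-b)
  have h3 := Bf_nonneg (γ := γ) (δ := δ) (c := c) (ε := ε) (a • v + (-b) • w)
  nlinarith

theorem smul_eq_comb (a : ℝ) (v : E3 → ℝ) : a • v = a • v + (0:ℝ) • v := by simp

theorem Nf_smul (h : Adm γ δ c ε) {v : E3 → ℝ} (hv : Continuous v) (a : ℝ) :
    Nf γ δ c ε (a • v) = a ^ 2 * Nf γ δ c ε v := by
  rw [smul_eq_comb, Nf_comb h hv hv]; ring

theorem Bf_smul (h : Adm γ δ c ε) {v : E3 → ℝ} (hv : Continuous v) (a : ℝ) :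
    Bf γ δ c ε (a • v) = a ^ 2 * Bf γ δ c ε v := by
  rw [smul_eq_comb, Bf_comb h hv hv]; ring

theorem Gf_smul {v : E3 → ℝ} (hv : ContDiff ℝ 1 v) (a : ℝ) :
    Gf γ δ c ε (a • v) = a ^ 2 * Gf γ δ c ε v := by
  unfold Gf
  rw [← MeasureTheory.integral_const_mul]
  congr 1
  ext x
  have dv : DifferentiableAt ℝ v x := hv.differentiable (by norm_num) x
  rw [fderiv_const_smul dv, norm_smul, mul_pow, Real.norm_eq_abs, sq_abs]

theorem ell_comb {v w : E3 → ℝ} (hv : ContDiff ℝ 1 v) (hw : ContDiff ℝ 1 w) (a b : ℝ) :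
    ell γ δ c ε (a • v + b • w) = a * ell γ δ c ε v + b * ell γ δ c ε w := by
  unfold ell
  have cv := cWW hv γ δ c ε
  have cw := cWW hw γ δ c ε
  have e : ∀ q : ℝ, ∫ t in (0:ℝ)..1, WW γ δ c ε (a • v + b • w) 0 q t
      = a * (∫ t in (0:ℝ)..1, WW γ δ c ε v 0 q t) + b * ∫ t in (0:ℝ)..1, WW γ δ c ε w 0 q t := by
    intro q
    have c1 := cv.t 0 q
    have c2 := cw.t 0 q
    rw [← intervalIntegral.integral_const_mul, ← intervalIntegral.integral_const_mul,
      ← intervalIntegral.integral_add (by apply Continuous.intervalIntegrable; fun_prop)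
        (by apply Continuous.intervalIntegrable; fun_prop)]
    rfl
  simp_rw [e]
  have c1 := cont_row cv.int_t 0
  have c2 := cont_row cw.int_t 0
  rw [intervalIntegral.integral_add (by apply Continuous.intervalIntegrable; fun_prop)
        (by apply Continuous.intervalIntegrable; fun_prop),
    intervalIntegral.integral_const_mul, intervalIntegral.integral_const_mul]

/-! ### min-max sets -/

/-- the Rayleigh quotients on `V` -/
def RQ (γ δ c ε α : ℝ) (V : Submodule ℝ (E3 → ℝ)) : Set ℝ :=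
  {q : ℝ | ∃ v ∈ V, v ≠ 0 ∧ q = (Gf γ δ c ε v + α * Bf γ δ c ε v) / Nf γ δ c ε v}

def Sset (γ δ c ε α : ℝ) (k : ℕ) : Set ℝ :=
  {r : ℝ | ∃ V : Submodule ℝ (E3 → ℝ), Module.finrank ℝ V = k ∧ (∀ v ∈ V, ContDiff ℝ 1 v) ∧
    (∀ v ∈ V, v ≠ 0 → 0 < Nf γ δ c ε v) ∧ r = sSup (RQ γ δ c ε α V)}

theorem RQ_nonneg {α : ℝ} (hα : 0 ≤ α) (V : Submodule ℝ (E3 → ℝ)) :
    ∀ q ∈ RQ γ δ c ε α V, 0 ≤ q := by
  rintro q ⟨v, _, _, rfl⟩
  exact div_nonneg (add_nonneg (Gf_nonneg v) (mul_nonneg hα (Bf_nonneg v))) (Nf_nonneg v)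

theorem Sset_bddBelow {α : ℝ} (hα : 0 ≤ α) (k : ℕ) : BddBelow (Sset γ δ c ε α k) := by
  refine ⟨0, ?_⟩
  rintro r ⟨V, _, _, _, rfl⟩
  exact Real.sSup_nonneg (RQ_nonneg hα V)

/-- one-dimensional lower bound -/
theorem Sset_one_lower {α L : ℝ} (h : Adm γ δ c ε)
    (hL : ∀ v : E3 → ℝ, ContDiff ℝ 1 v → L * Nf γ δ c ε v ≤ Gf γ δ c ε v + α * Bf γ δ c ε v) :
    ∀ r ∈ Sset γ δ c ε α 1, L ≤ r := by
  rintro r ⟨V, hV1, hVc, hVp, rfl⟩
  obtain ⟨⟨v, hvV⟩, hv0, hgen⟩ := finrank_eq_one_iff'.1 hV1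
  have hv0' : v ≠ 0 := fun e => hv0 (Subtype.ext e)
  have hvc := hVc v hvV
  have hNp := hVp v hvV hv0'
  have hset : RQ γ δ c ε α V = {(Gf γ δ c ε v + α * Bf γ δ c ε v) / Nf γ δ c ε v} := by
    ext q
    constructor
    · rintro ⟨w, hwV, hw0, rfl⟩
      obtain ⟨k, hk⟩ := hgen ⟨w, hwV⟩
      have hk' : k • v = w := by
        have := congrArg Subtype.val hk
        simpa using this
      have hk0 : k ≠ 0 := by
        rintro rfl
        apply hw0
        rw [← hk', zero_smul]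
      rw [mem_singleton_iff, ← hk', Gf_smul hvc, Bf_smul h hvc.continuous, Nf_smul h hvc.continuous]
      field_simp
    · intro hq
      rw [mem_singleton_iff] at hq
      exact ⟨v, hvV, hv0', hq⟩
  rw [hset, csSup_singleton, le_div_iff₀ hNp]
  exact hL v hvc

/-- two-dimensional lower bound -/
theorem Sset_two_lower {α M : ℝ} (hα : 0 ≤ α) (h : Adm γ δ c ε)
    (hM : ∀ v : E3 → ℝ, ContDiff ℝ 1 v → ell γ δ c ε v = 0 →
      M * Nf γ δ c ε v ≤ Gf γ δ c ε v) :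
    ∀ r ∈ Sset γ δ c ε α 2, M ≤ r := by
  rintro r ⟨V, hV2, hVc, hVp, rfl⟩
  have hfin : Module.Finite ℝ V := Module.finite_of_finrank_pos (by rw [hV2]; norm_num)
  set b := Module.finBasisOfFinrankEq ℝ V hV2 with hb
  set v : E3 → ℝ := (b 0 : E3 → ℝ) with hv
  set w : E3 → ℝ := (b 1 : E3 → ℝ) with hw
  have hvV : v ∈ V := (b 0).2
  have hwV : w ∈ V := (b 1).2
  have hvc := hVc v hvV
  have hwc := hVc w hwV
  -- independence
  have hind : ∀ x y : ℝ, x • v + y • w = 0 → x = 0 ∧ y = 0 := by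
    intro x y hxy
    have h1 : x • b 0 + y • b 1 = 0 := by
      apply Subtype.ext
      simpa using hxy
    have h2 := b.linearIndependent
    rw [Fintype.linearIndependent_iff] at h2
    have h3 := h2 ![x, y] (by rw [Fin.sum_univ_two]; simpa using h1)
    exact ⟨by simpa using h3 0, by simpa using h3 1⟩
  have hspan : ∀ z ∈ V, ∃ x y : ℝ, z = x • v + y • w := by
    intro z hz
    have h1 := b.sum_repr ⟨z, hz⟩
    rw [Fin.sum_univ_two] at h1
    refine ⟨b.repr ⟨z, hz⟩ 0, b.repr ⟨z, hz⟩ 1, ?_⟩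
    have := congrArg Subtype.val h1
    simpa using this.symm
  have hv0 : v ≠ 0 := by
    intro e
    have := hind 1 0 (by rw [e]; simp)
    norm_num at this
  have hNv := hVp v hvV hv0
  set X := ∫ x in Om γ δ c ε, v x * w x with hX
  -- Gram determinant
  set Δ := Nf γ δ c ε v * Nf γ δ c ε w - X ^ 2 with hΔ
  have hΔ0 : 0 < Δ := by
    have hne : (-X) • v + (Nf γ δ c ε v) • w ≠ 0 := by
      intro e
      have := (hind _ _ e).2
      exact hNv.ne' this
    have h1 := hVp _ (V.add_mem (V.smul_mem _ hvV) (V.smul_mem _ hwV)) hne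
    rw [Nf_comb h hvc.continuous hwc.continuous] at h1
    have e : (-X) ^ 2 * Nf γ δ c ε v + 2 * (-X) * Nf γ δ c ε v * (∫ x in Om γ δ c ε, v x * w x)
        + Nf γ δ c ε v ^ 2 * Nf γ δ c ε w = Nf γ δ c ε v * Δ := by
      rw [← hX, hΔ]; ring
    rw [e] at h1
    exact (pos_iff_pos_of_mul_pos h1).1 hNv
  set Ev := Gf γ δ c ε v + α * Bf γ δ c ε v with hEv
  set Ew := Gf γ δ c ε w + α * Bf γ δ c ε w with hEw
  have hEv0 : 0 ≤ Ev := add_nonneg (Gf_nonneg v) (mul_nonneg hα (Bf_nonneg v))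
  have hEw0 : 0 ≤ Ew := add_nonneg (Gf_nonneg w) (mul_nonneg hα (Bf_nonneg w))
  have hbdd : BddAbove (RQ γ δ c ε α V) := by
    refine ⟨2 * (Ev * Nf γ δ c ε w + Ew * Nf γ δ c ε v) / Δ, ?_⟩
    rintro q ⟨z, hz, hz0, rfl⟩
    obtain ⟨x, y, rfl⟩ := hspan z hz
    have hNz := hVp _ hz hz0
    rw [div_le_iff₀ hNz]
    have e1 := Gf_comb_le h hvc hwc x y
    have e2 := mul_le_mul_of_nonneg_left (Bf_comb_le h hvc.continuous hwc.continuous x y) hα
    have e3 := Nf_comb h hvc.continuous hwc.continuous x y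
    rw [← hX] at e3
    set Nz := Nf γ δ c ε (x • v + y • w)
    have f1 : Δ * y ^ 2 ≤ Nf γ δ c ε v * Nz := by
      rw [e3, hΔ]
      nlinarith [sq_nonneg (x * Nf γ δ c ε v + y * X)]
    have f2 : Δ * x ^ 2 ≤ Nf γ δ c ε w * Nz := by
      rw [e3, hΔ]
      nlinarith [sq_nonneg (y * Nf γ δ c ε w + x * X)]
    have e4 : Gf γ δ c ε (x • v + y • w) + α * Bf γ δ c ε (x • v + y • w)
        ≤ 2 * x ^ 2 * Ev + 2 * y ^ 2 * Ew := by
      rw [hEv, hEw]; linarith
    refine e4.trans ?_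
    rw [div_mul_eq_mul_div, le_div_iff₀ hΔ0]
    have g1 := mul_le_mul_of_nonneg_left f1 hEw0
    have g2 := mul_le_mul_of_nonneg_left f2 hEv0
    linarith
  -- a vector in the kernel of ell
  have key : ∀ z ∈ V, z ≠ 0 → ell γ δ c ε z = 0 → M ≤ sSup (RQ γ δ c ε α V) := by
    intro z hz hz0 hl
    have h1 := hM z (hVc z hz) hl
    have hNz := hVp z hz hz0
    refine le_csSup_of_le hbdd ⟨z, hz, hz0, rfl⟩ ?_
    rw [le_div_iff₀ hNz]
    have := mul_nonneg hα (Bf_nonneg (γ := γ) (δ := δ) (c := c) (ε := ε) z)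
    linarith
  by_cases hl : ell γ δ c ε v = 0
  · exact key v hvV hv0 hl
  · apply key (ell γ δ c ε w • v + (-ell γ δ c ε v) • w)
      (V.add_mem (V.smul_mem _ hvV) (V.smul_mem _ hwV))
    · intro e
      have := (hind _ _ e).2
      exact hl (by linarith)
    · rw [ell_comb hvc hwc]
      ring

end Pool.Agent.H93.Robin
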