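import Pool.Agent.H93.RobinH

/-!
# Robin gap counterexample, part I: the test space and the final comparison
-/

namespace Pool.Agent.H93.Robin

open MeasureTheory intervalIntegral Set Filter Topology
open scoped NNReal ENNReal

variable {γ δ c ε : ℝ}

/-! ### the test functions -/

noncomputable def one3 : E3 → ℝ := fun _ => 1
noncomputable def u3 : E3 → ℝ := fun x => φ0 (x 0)

theorem contDiff_one3 : ContDiff ℝ 1 one3 := contDiff_const

theorem hasFDerivAt_u3 (x : E3) :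
    HasFDerivAt u3 ((1 - x 0 ^ 2) • (EuclideanSpace.proj 0 : E3 →L[ℝ] ℝ)) x := by
  have h1 : HasDerivAt φ0 (1 - x 0 ^ 2) (x 0) := by
    have := (hasDerivAt_id (x 0)).sub ((hasDerivAt_pow 3 (x 0)).div_const 3)
    refine this.congr_deriv ?_
    norm_num
  exact h1.comp_hasFDerivAt x (EuclideanSpace.proj 0 : E3 →L[ℝ] ℝ).hasFDerivAt

theorem contDiff_u3 : ContDiff ℝ 1 u3 := by
  have h1 : ContDiff ℝ 1 φ0 := by unfold φ0; fun_prop
  exact h1.comp (EuclideanSpace.proj 0 : E3 →L[ℝ] ℝ).contDiff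

theorem norm_proj0_sq : ‖(EuclideanSpace.proj 0 : E3 →L[ℝ] ℝ)‖ ^ 2 ≤ 1 := by
  have : ‖(EuclideanSpace.proj 0 : E3 →L[ℝ] ℝ)‖ ≤ 1 := by
    apply ContinuousLinearMap.opNorm_le_bound _ zero_le_one
    intro x
    rw [one_mul]
    exact PiLp.norm_apply_le x 0
  nlinarith [norm_nonneg (EuclideanSpace.proj 0 : E3 →L[ℝ] ℝ)]

theorem Gf_one3 : Gf γ δ c ε one3 = 0 := by
  unfold Gf one3
  simp

theorem Gf_u3_le (h : Adm γ δ c ε) : Gf γ δ c ε u3 ≤ δ * ε * (16 / 15) := by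
  have hγ0 := h.γ0
  have hγ1 := h.γ1
  have hc0 := h.c0
  have hc1 := h.c1
  have hδ0 := h.δ0
  have hε0 := h.ε0
  unfold Gf
  have cg : Continuous (fun x : E3 => ‖fderiv ℝ u3 x‖ ^ 2) :=
    (contDiff_u3.continuous_fderiv (by norm_num)).norm.pow 2
  have cs : Continuous (fun s : ℝ => (1 - s ^ 2) ^ 2) := by fun_prop
  have h1 : ∫ x in Om γ δ c ε, ‖fderiv ℝ u3 x‖ ^ 2
      ≤ ∫ x in Om γ δ c ε, (1 - x 0 ^ 2) ^ 2 := by
    apply MeasureTheory.integral_mono (integrableOn_Om h cg)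
      (integrableOn_Om h (cs.comp (cont_coord 0)))
    intro x
    change ‖fderiv ℝ u3 x‖ ^ 2 ≤ (1 - x 0 ^ 2) ^ 2
    rw [(hasFDerivAt_u3 x).fderiv, norm_smul, mul_pow, Real.norm_eq_abs, sq_abs]
    have := mul_le_mul_of_nonneg_left norm_proj0_sq (sq_nonneg (1 - x 0 ^ 2))
    linarith
  refine h1.trans ?_
  rw [vol_x0 h (ψ := fun s => (1 - s ^ 2) ^ 2) cs, ← int_dφ0_sq]
  apply mul_le_mul_of_nonneg_left _ (by positivity)
  apply intervalIntegral.integral_mono_on (by norm_num)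
    (by apply Continuous.intervalIntegrable; fun_prop)
    (by apply Continuous.intervalIntegrable; fun_prop)
  intro s hs
  have hs2 : s ^ 2 ≤ 1 := by nlinarith [hs.1, hs.2]
  have g0 : 0 ≤ 1 - γ * s ^ 2 := by nlinarith [sq_nonneg s]
  have g1 : 1 - γ * s ^ 2 ≤ 1 := by nlinarith [mul_nonneg hγ0.le (sq_nonneg s)]
  have k0 : 0 ≤ c * (1 - γ * s ^ 2) / 2 := by positivity
  have k1 : c * (1 - γ * s ^ 2) ≤ 1 := by nlinarith
  have : (1 - γ * s ^ 2) * (1 - c * (1 - γ * s ^ 2) / 2) ≤ 1 * 1 :=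
    mul_le_mul g1 (by linarith) (by linarith) (by norm_num)
  have := mul_le_mul_of_nonneg_right this (sq_nonneg (1 - s ^ 2))
  linarith

theorem odd_integral {f : ℝ → ℝ} (hodd : ∀ s, f (-s) = - f s) : ∫ s in (-1:ℝ)..1, f s = 0 := by
  have h1 := intervalIntegral.integral_comp_neg (a := -1) (b := 1) f
  simp only [neg_neg, hodd, intervalIntegral.integral_neg] at h1
  linarith

theorem cross_vol (h : Adm γ δ c ε) : ∫ x in Om γ δ c ε, one3 x * u3 x = 0 := by
  have : ∀ x : E3, one3 x * u3 x = φ0 (x 0) := fun x => by simp [one3, u3]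
  simp_rw [this]
  rw [vol_x0 h cont_φ0, odd_integral, mul_zero]
  intro s
  unfold φ0
  ring

theorem cross_front : ∫ x in frontier (Om γ δ c ε), one3 x * u3 x ∂(μH[(2:ℝ)] : Measure E3) = 0 := by
  have : ∀ x : E3, one3 x * u3 x = φ0 (x 0) := fun x => by simp [one3, u3]
  simp_rw [this]
  apply frontier_odd
  intro s
  unfold φ0
  ring

/-- upper bound for the energy on the test space -/
theorem test_upper {a A B U' β : ℝ} (h : Adm γ δ c ε) (ha0 : 0 ≤ a) (hA : A = 2 * a * c)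
    (hB : B = A * γ / 2) (hU0 : U' ≤ 0) (hκ : ε * c / δ ≤ 1)
    (hβ0 : 0 ≤ β) (hβ : β * cH = ε * a)
    (hkey1 : 2 * (3 * a * (ε * c / δ) + A * c / 4) + 32 * a * ε / δ
      ≤ B * (1 - γ) * (2 / 3) + U' * 2)
    (hkey2 : 16 / 15 + 2 * (3 * a * (ε * c / δ) + A * c / 4) + 32 * a * ε / δ
      ≤ B * (1 - γ) * (664 / 2835) + U' * (136 / 315)) (x y : ℝ) :
    Gf γ δ c ε (x • one3 + y • u3) + β * Bf γ δ c ε (x • one3 + y • u3)
      ≤ (2 * a + A / 2 + U') * Nf γ δ c ε (x • one3 + y • u3) := by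
  have hδε : 0 ≤ δ * ε := mul_nonneg h.δ0.le h.ε0.le
  have cφ2 : Continuous (fun s => φ0 s ^ 2) := cont_φ0.pow 2
  have hδ := h.δ0.ne'
  have hε := h.ε0.ne'
  -- the inequality for the constant function
  have k1 := upper_key (e := 0) h ha0 hA hB hU0 hκ (ψ := fun _ => 1) continuous_const
    (fun _ => zero_le_one) (by norm_num) (by
      simp only [mul_one]
      rw [integral_pow, intervalIntegral.integral_const]
      norm_num at hkey1 ⊢
      linarith)
  have k2 := upper_key (e := 16 / 15) h ha0 hA hB hU0 hκ (ψ := fun s => φ0 s ^ 2) cφ2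
    (fun _ => sq_nonneg _) (by rw [int_φ0_sq]; norm_num) (by
      rw [int_φ0_sq, int_s2_φ0_sq]
      linarith)
  have b1 : Bf γ δ c ε one3 ≤ cH * (δ * (1 + (1 + ε * c / δ) ^ 2) *
        (∫ s in (-1:ℝ)..1, (1 - γ * s ^ 2) * 1) + 32 * ε) := by
    have := frontier_upper h (φ := fun _ => 1) continuous_const (fun _ => zero_le_one)
      (fun _ _ => le_rfl)
    refine le_trans (le_of_eq ?_) this
    unfold Bf one3
    simp
  have b2 : Bf γ δ c ε u3 ≤ cH * (δ * (1 + (1 + ε * c / δ) ^ 2) *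
        (∫ s in (-1:ℝ)..1, (1 - γ * s ^ 2) * φ0 s ^ 2) + 32 * ε) := by
    refine frontier_upper h (φ := fun s => φ0 s ^ 2) cφ2 (fun _ => sq_nonneg _) ?_
    intro s hs
    have hs2 : s ^ 2 ≤ 1 := by nlinarith [hs.1, hs.2]
    have e : φ0 s ^ 2 = s ^ 2 * (1 - s ^ 2 / 3) ^ 2 := by unfold φ0; ring
    rw [e]
    have : (1 - s ^ 2 / 3) ^ 2 ≤ 1 := by nlinarith [sq_nonneg s]
    have := mul_le_mul hs2 this (sq_nonneg _) zero_le_one
    linarith
  have n1 : Nf γ δ c ε one3 = δ * ε *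
      ∫ s in (-1:ℝ)..1, (1 - γ * s ^ 2) * (1 - c * (1 - γ * s ^ 2) / 2) * 1 := by
    rw [← vol_x0 h (ψ := fun _ => 1) continuous_const]
    unfold Nf one3
    simp
  have n2 : Nf γ δ c ε u3 = δ * ε *
      ∫ s in (-1:ℝ)..1, (1 - γ * s ^ 2) * (1 - c * (1 - γ * s ^ 2) / 2) * φ0 s ^ 2 := by
    rw [← vol_x0 h (ψ := fun s => φ0 s ^ 2) cφ2]
    rfl
  have c1 := contDiff_one3.continuous
  have c2 := contDiff_u3.continuous
  have g1 : Gf γ δ c ε (x • one3 + y • u3) = y ^ 2 * Gf γ δ c ε u3 := by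
    rw [← Gf_smul contDiff_u3]
    unfold Gf
    congr 1
    ext z
    have : fderiv ℝ one3 z = 0 := by unfold one3; simp
    have d2 : DifferentiableAt ℝ u3 z := contDiff_u3.differentiable (by norm_num) z
    rw [fderiv_comb contDiff_one3 contDiff_u3, this, fderiv_const_smul d2]
    simp
  rw [g1, Bf_comb h c1 c2, Nf_comb h c1 c2, cross_vol h, cross_front]
  have m1 : β * Bf γ δ c ε one3 ≤ (2 * a + A / 2 + U') * Nf γ δ c ε one3 := by
    have s1 := mul_le_mul_of_nonneg_left b1 hβ0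
    have s2 := mul_le_mul_of_nonneg_left k1 hδε
    have e : β * (cH * (δ * (1 + (1 + ε * c / δ) ^ 2) *
        (∫ s in (-1:ℝ)..1, (1 - γ * s ^ 2) * 1) + 32 * ε)) = δ * ε * (0 +
        (a * (1 + (1 + ε * c / δ) ^ 2) * (∫ s in (-1:ℝ)..1, (1 - γ * s ^ 2) * 1)
          + 32 * a * ε / δ)) := by
      rw [← mul_assoc, hβ]
      field_simp
      ring
    rw [e] at s1
    rw [n1]
    linarith
  have m2 : δ * ε * (16 / 15) + β * Bf γ δ c ε u3 ≤ (2 * a + A / 2 + U') * Nf γ δ c ε u3 := by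
    have s1 := mul_le_mul_of_nonneg_left b2 hβ0
    have s2 := mul_le_mul_of_nonneg_left k2 hδε
    have e : δ * ε * (16 / 15) + β * (cH * (δ * (1 + (1 + ε * c / δ) ^ 2) *
        (∫ s in (-1:ℝ)..1, (1 - γ * s ^ 2) * φ0 s ^ 2) + 32 * ε)) = δ * ε * (16 / 15 +
        (a * (1 + (1 + ε * c / δ) ^ 2) * (∫ s in (-1:ℝ)..1, (1 - γ * s ^ 2) * φ0 s ^ 2)
          + 32 * a * ε / δ)) := by
      rw [← mul_assoc β, hβ]
      field_simp
    rw [n2]
    linarith
  have m3 := Gf_u3_le h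
  have q1 := mul_le_mul_of_nonneg_left m1 (sq_nonneg x)
  have q2 := mul_le_mul_of_nonneg_left m2 (sq_nonneg y)
  have q3 := mul_le_mul_of_nonneg_left m3 (sq_nonneg y)
  linarith

theorem Nf_one3_pos (h : Adm γ δ c ε) : 0 < Nf γ δ c ε one3 := by
  unfold Nf one3
  simp only [one_pow]
  rw [setIntegral_const, smul_eq_mul, mul_one, measureReal_def]
  apply ENNReal.toReal_pos
  · exact (isOpen_Om.measure_pos _ (nonempty_Om h)).ne'
  · exact (isBounded_Om h).measure_lt_top.ne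

theorem Nf_u3_pos (h : Adm γ δ c ε) : 0 < Nf γ δ c ε u3 := by
  have n2 : Nf γ δ c ε u3 = δ * ε *
      ∫ s in (-1:ℝ)..1, (1 - γ * s ^ 2) * (1 - c * (1 - γ * s ^ 2) / 2) * φ0 s ^ 2 := by
    rw [← vol_x0 h (ψ := fun s => φ0 s ^ 2) (cont_φ0.pow 2)]
    rfl
  rw [n2]
  have hγ0 := h.γ0
  have hγ1 := h.γ1
  have hc0 := h.c0
  have hc1 := h.c1
  have hδ0 := h.δ0
  have hε0 := h.ε0
  apply mul_pos (by positivity)
  have h1 : ∫ s in (-1:ℝ)..1, 1 / 4 * φ0 s ^ 2 ≤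
      ∫ s in (-1:ℝ)..1, (1 - γ * s ^ 2) * (1 - c * (1 - γ * s ^ 2) / 2) * φ0 s ^ 2 := by
    have cφ := cont_φ0
    apply intervalIntegral.integral_mono_on (by norm_num)
      (by apply Continuous.intervalIntegrable; fun_prop)
      (by apply Continuous.intervalIntegrable; fun_prop)
    intro s hs
    have hs2 : s ^ 2 ≤ 1 := by nlinarith [hs.1, hs.2]
    have g0 : 1 / 2 ≤ 1 - γ * s ^ 2 := by nlinarith [sq_nonneg s]
    have g1 : 1 - γ * s ^ 2 ≤ 1 := by nlinarith [mul_nonneg hγ0.le (sq_nonneg s)]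
    have k1 : c * (1 - γ * s ^ 2) ≤ 1 := by nlinarith
    have : 1 / 2 * (1 / 2) ≤ (1 - γ * s ^ 2) * (1 - c * (1 - γ * s ^ 2) / 2) :=
      mul_le_mul g0 (by linarith) (by norm_num) (by linarith)
    have := mul_le_mul_of_nonneg_right this (sq_nonneg (φ0 s))
    linarith
  rw [intervalIntegral.integral_const_mul, int_φ0_sq] at h1
  linarith

/-- test space -/
noncomputable def V2 : Submodule ℝ (E3 → ℝ) := Submodule.span ℝ {one3, u3}
noncomputable def V1 : Submodule ℝ (E3 → ℝ) := Submodule.span ℝ {one3}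

theorem mem_V2 {v : E3 → ℝ} : v ∈ V2 ↔ ∃ x y : ℝ, x • one3 + y • u3 = v :=
  Submodule.mem_span_pair

theorem mem_V1 {v : E3 → ℝ} : v ∈ V1 ↔ ∃ x : ℝ, x • one3 = v :=
  Submodule.mem_span_singleton

theorem Nf_V2 (h : Adm γ δ c ε) (x y : ℝ) : Nf γ δ c ε (x • one3 + y • u3)
    = x ^ 2 * Nf γ δ c ε one3 + y ^ 2 * Nf γ δ c ε u3 := by
  rw [Nf_comb h contDiff_one3.continuous contDiff_u3.continuous, cross_vol h]
  ring

theorem V2_pos (h : Adm γ δ c ε) {v : E3 → ℝ} (hv : v ∈ V2) (hv0 : v ≠ 0) :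
    0 < Nf γ δ c ε v := by
  obtain ⟨x, y, rfl⟩ := mem_V2.1 hv
  rw [Nf_V2 h]
  have p1 := Nf_one3_pos h
  have p2 := Nf_u3_pos h
  by_cases hx : x = 0
  · by_cases hy : y = 0
    · exact absurd (by rw [hx, hy]; simp) hv0
    · have := mul_pos (pow_pos (abs_pos.2 hy) 2) p2
      rw [sq_abs] at this
      have := mul_nonneg (sq_nonneg x) p1.le
      linarith
  · have := mul_pos (pow_pos (abs_pos.2 hx) 2) p1
    rw [sq_abs] at this
    have := mul_nonneg (sq_nonneg y) p2.le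
    linarith

theorem finrank_V2 : Module.finrank ℝ V2 = 2 := by
  have hli : LinearIndependent ℝ ![one3, u3] := by
    rw [Fintype.linearIndependent_iff]
    intro g hg
    rw [Fin.sum_univ_two] at hg
    simp only [Matrix.cons_val_zero, Matrix.cons_val_one] at hg
    have h0 := congrFun hg (0 : E3)
    have h1 := congrFun hg (!₂[1, 0, 0] : E3)
    simp [one3, u3, φ0] at h0 h1
    rw [h0] at h1
    intro i
    fin_cases i
    · exact h0
    · simp at h1
      rcases h1 with h1 | h1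
      · exact h1
      · norm_num at h1
  have := finrank_span_eq_card hli
  have hr : Set.range ![one3, u3] = {one3, u3} := by simp [Matrix.range_cons, Set.pair_comm]
  rw [hr, Fintype.card_fin] at this
  exact this

theorem finrank_V1 : Module.finrank ℝ V1 = 1 := by
  apply finrank_span_singleton
  intro e
  have := congrFun e (0 : E3)
  simp [one3] at this

theorem V2_smooth {v : E3 → ℝ} (hv : v ∈ V2) : ContDiff ℝ 1 v := by
  obtain ⟨x, y, rfl⟩ := mem_V2.1 hv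
  exact (contDiff_one3.const_smul x).add (contDiff_u3.const_smul y)

theorem V1_smooth {v : E3 → ℝ} (hv : v ∈ V1) : ContDiff ℝ 1 v := by
  obtain ⟨x, rfl⟩ := mem_V1.1 hv
  exact contDiff_one3.const_smul x

theorem V1_pos (h : Adm γ δ c ε) {v : E3 → ℝ} (hv : v ∈ V1) (hv0 : v ≠ 0) :
    0 < Nf γ δ c ε v := by
  obtain ⟨x, rfl⟩ := mem_V1.1 hv
  rw [Nf_smul h contDiff_one3.continuous]
  have hx : x ≠ 0 := by rintro rfl; simp at hv0
  have := Nf_one3_pos h
  positivity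

theorem V2_mem (h : Adm γ δ c ε) (α : ℝ) :
    sSup (RQ γ δ c ε α V2) ∈ Sset γ δ c ε α 2 :=
  ⟨V2, finrank_V2, fun _ hv => V2_smooth hv, fun _ hv hv0 => V2_pos h hv hv0, rfl⟩

theorem V1_mem (h : Adm γ δ c ε) (α : ℝ) :
    sSup (RQ γ δ c ε α V1) ∈ Sset γ δ c ε α 1 :=
  ⟨V1, finrank_V1, fun _ hv => V1_smooth hv, fun _ hv hv0 => V1_pos h hv hv0, rfl⟩

/-- λ₁(α) is small for small α -/
theorem lam_one_small (h : Adm γ δ c ε) {α : ℝ} (hα : 0 ≤ α) :
    sInf (Sset γ δ c ε α 1) ≤ α * (Bf γ δ c ε one3 / Nf γ δ c ε one3) := by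
  refine csInf_le_of_le (Sset_bddBelow hα 1) (V1_mem h α) ?_
  have hN := Nf_one3_pos h
  have hB := Bf_nonneg (γ := γ) (δ := δ) (c := c) (ε := ε) one3
  apply Real.sSup_le
  · rintro q ⟨v, hv, hv0, rfl⟩
    obtain ⟨x, rfl⟩ := mem_V1.1 hv
    have hx : x ≠ 0 := by rintro rfl; simp at hv0
    rw [Gf_smul contDiff_one3, Bf_smul h contDiff_one3.continuous,
      Nf_smul h contDiff_one3.continuous, Gf_one3]
    apply le_of_eq
    field_simp
    ring
  · positivity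

end Pool.Agent.H93.Robin
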