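import Mathlib

set_option autoImplicit false

/-!
# A surjunctive Smale system with wandering circles: the system

`K ⊆ ℂ` consists of `0` and the circles of radius `2 * 2 ^ (-n)`, `n ≥ 0`, about `0`. The map `g` is
`z ↦ 2 z` inside the outer circle and `z ↦ z ^ 2 / 2` on the outer circle. `X` is its natural
extension. It consists of a fixed point, of a dyadic solenoid and of a sequence of wandering circles.
-/

noncomputable section

open Complex Filter Topology

namespace Pool.Agent.H93.Smale

/-- The compact set: `0` and the circles of radius `2 * 2 ^ (-n)`. -/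
def K : Set ℂ := {z | z = 0 ∨ ∃ n : ℕ, ‖z‖ = 2 * (1 / 2) ^ n}

/-- The expanding map. -/
def g (z : ℂ) : ℂ := if ‖z‖ < 3 / 2 then 2 * z else z ^ 2 / 2

/-- The inverse branch: the preimage of `a` near `b`, if `a` is near `g b`. -/
def inv (a b : ℂ) : ℂ :=
  if ‖b‖ < 3 / 2 then a / 2 else (starRingEnd ℂ) b * (a + b ^ 2 / 2) / ‖a + b ^ 2 / 2‖

lemma K_cases {z : ℂ} (hz : z ∈ K) : ‖z‖ = 2 ∨ ‖z‖ ≤ 1 := by
  rcases hz with rfl | ⟨n, hn⟩
  · right; simp
  · rcases n with _ | n
    · left; rw [hn]; norm_num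
    · right
      rw [hn, pow_succ]
      have : ((1 : ℝ) / 2) ^ n ≤ 1 := pow_le_one₀ (by norm_num) (by norm_num)
      linarith

lemma K_le {z : ℂ} (hz : z ∈ K) : ‖z‖ ≤ 2 := by
  rcases K_cases hz with h | h <;> linarith

lemma K_lt_iff {z : ℂ} (hz : z ∈ K) : ‖z‖ < 3 / 2 ↔ ‖z‖ ≤ 1 := by
  rcases K_cases hz with h | h
  · rw [h]; norm_num
  · constructor <;> intro _ <;> linarith

lemma K_not_lt_iff {z : ℂ} (hz : z ∈ K) : ¬ ‖z‖ < 3 / 2 ↔ ‖z‖ = 2 := by
  rcases K_cases hz with h | h
  · rw [h]; norm_num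
  · constructor
    · intro h'; exact absurd (by linarith) h'
    · intro h'; linarith

lemma half_mem_K {z : ℂ} (hz : z ∈ K) : z / 2 ∈ K := by
  rcases hz with rfl | ⟨n, hn⟩
  · left; simp
  · right
    refine ⟨n + 1, ?_⟩
    rw [norm_div, hn, pow_succ]
    simp
    ring

lemma g_mem_K {z : ℂ} (hz : z ∈ K) : g z ∈ K := by
  unfold g
  split_ifs with h
  · rcases hz with rfl | ⟨n, hn⟩
    · left; simp
    · rcases n with _ | n
      · exfalso; rw [hn] at h; norm_num at h
      · right
        refine ⟨n, ?_⟩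
        rw [norm_mul, hn, pow_succ, Complex.norm_ofNat]
        ring
  · rw [K_not_lt_iff hz] at h
    right
    refine ⟨0, ?_⟩
    rw [norm_div, norm_pow, h]
    norm_num

lemma isClosed_K : IsClosed K := by
  have h1 : IsCompact (insert (0 : ℝ) (Set.range fun n : ℕ => 2 * (1 / 2 : ℝ) ^ n)) := by
    apply Filter.Tendsto.isCompact_insert_range
    have := (tendsto_pow_atTop_nhds_zero_of_lt_one (r := (1 / 2 : ℝ)) (by norm_num)
      (by norm_num)).const_mul 2
    simpa using this
  have h2 : K = (fun z : ℂ => ‖z‖) ⁻¹'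
      (insert (0 : ℝ) (Set.range fun n : ℕ => 2 * (1 / 2 : ℝ) ^ n)) := by
    ext z
    simp only [K, Set.mem_ofPred_eq, Set.mem_preimage, Set.mem_insert_iff, norm_eq_zero,
      Set.mem_range]
    constructor
    · rintro (h | ⟨n, hn⟩)
      · exact Or.inl h
      · exact Or.inr ⟨n, hn.symm⟩
    · rintro (h | ⟨n, hn⟩)
      · exact Or.inl h
      · exact Or.inr ⟨n, hn.symm⟩
  rw [h2]
  exact h1.isClosed.preimage continuous_norm

lemma isCompact_K : IsCompact K := by
  refine Metric.isCompact_of_isClosed_isBounded isClosed_K ?_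
  refine (Metric.isBounded_closedBall (x := (0 : ℂ)) (r := 2)).subset fun z hz => ?_
  simpa using K_le hz

lemma continuousAt_g {z : ℂ} (hz : ‖z‖ ≠ 3 / 2) : ContinuousAt g z := by
  rcases lt_or_gt_of_ne hz with h | h
  · have : g =ᶠ[𝓝 z] fun w => 2 * w := by
      filter_upwards [(isOpen_lt continuous_norm continuous_const).mem_nhds h] with w hw
      exact if_pos hw
    exact (continuous_const.mul continuous_id).continuousAt.congr this.symm
  · have : g =ᶠ[𝓝 z] fun w => w ^ 2 / 2 := by
      filter_upwards [(isOpen_lt continuous_const continuous_norm).mem_nhds h] with w hw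
      exact if_neg (not_lt.mpr (le_of_lt hw))
    have hc : Continuous fun w : ℂ => w ^ 2 / 2 := by fun_prop
    exact hc.continuousAt.congr this.symm

lemma K_ne {z : ℂ} (hz : z ∈ K) : ‖z‖ ≠ 3 / 2 := by
  rcases K_cases hz with h | h
  · rw [h]; norm_num
  · intro h'; rw [h'] at h; norm_num at h

lemma continuousOn_g : ContinuousOn g K := fun _ hz => (continuousAt_g (K_ne hz)).continuousWithinAt

/-- The space of the system. -/
abbrev X : Type := {x : ℕ → ℂ // (∀ k, x k ∈ K) ∧ ∀ k, g (x (k + 1)) = x k}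

lemma X_ext {x y : X} (h : ∀ k, x.1 k = y.1 k) : x = y := Subtype.ext (funext h)

lemma isClosed_X : IsClosed {x : ℕ → ℂ | (∀ k, x k ∈ K) ∧ ∀ k, g (x (k + 1)) = x k} := by
  have hK : IsClosed {x : ℕ → ℂ | ∀ k, x k ∈ K} := by
    simp only [Set.ofPred_forall]
    exact isClosed_iInter fun k => isClosed_K.preimage (continuous_apply k)
  have : {x : ℕ → ℂ | (∀ k, x k ∈ K) ∧ ∀ k, g (x (k + 1)) = x k} =
      ⋂ k, ({x : ℕ → ℂ | ∀ k, x k ∈ K} ∩ (fun x : ℕ → ℂ => g (x (k + 1)) - x k) ⁻¹' {0}) := by
    ext x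
    simp only [Set.mem_ofPred_eq, Set.mem_iInter, Set.mem_inter_iff, Set.mem_preimage,
      Set.mem_singleton_iff, sub_eq_zero]
    exact ⟨fun h k => ⟨h.1, h.2 k⟩, fun h => ⟨(h 0).1, fun k => (h k).2⟩⟩
  rw [this]
  refine isClosed_iInter fun k => ?_
  refine ContinuousOn.preimage_isClosed_of_isClosed ?_ hK isClosed_singleton
  have h1 : ContinuousOn (fun x : ℕ → ℂ => g (x (k + 1))) {x : ℕ → ℂ | ∀ k, x k ∈ K} :=
    continuousOn_g.comp (continuous_apply (k + 1)).continuousOn fun x (hx : ∀ k, x k ∈ K) =>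
      hx (k + 1)
  exact h1.sub (continuous_apply k).continuousOn

instance : CompactSpace X := by
  refine isCompact_iff_compactSpace.mp ?_
  have h : IsCompact (Set.pi Set.univ fun _ : ℕ => K) := isCompact_univ_pi fun _ => isCompact_K
  refine h.of_isClosed_subset isClosed_X fun x hx => ?_
  simpa using hx.1

/-- The shift map, as a function. -/
def fwd (x : X) : X :=
  ⟨fun k => Nat.casesOn k (g (x.1 0)) fun k => x.1 k, by
    refine ⟨fun k => ?_, fun k => ?_⟩
    · cases k with
      | zero => exact g_mem_K (x.2.1 0)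
      | succ k => exact x.2.1 k
    · cases k with
      | zero => rfl
      | succ k => exact x.2.2 k⟩

/-- The inverse of the shift map, as a function. -/
def bwd (x : X) : X := ⟨fun k => x.1 (k + 1), fun k => x.2.1 (k + 1), fun k => x.2.2 (k + 1)⟩

@[simp] lemma fwd_zero (x : X) : (fwd x).1 0 = g (x.1 0) := rfl
@[simp] lemma fwd_succ (x : X) (k : ℕ) : (fwd x).1 (k + 1) = x.1 k := rfl
@[simp] lemma bwd_apply (x : X) (k : ℕ) : (bwd x).1 k = x.1 (k + 1) := rfl

lemma continuous_coord (k : ℕ) : Continuous fun x : X => x.1 k :=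
  (continuous_apply k).comp continuous_subtype_val

/-- The homeomorphism of the system. -/
def f : X ≃ₜ X where
  toFun := fwd
  invFun := bwd
  left_inv x := by
    apply X_ext
    intro k
    rfl
  right_inv x := by
    apply X_ext
    intro k
    cases k with
    | zero => exact x.2.2 0
    | succ k => rfl
  continuous_toFun := by
    refine Continuous.subtype_mk (continuous_pi fun k => ?_) _
    cases k with
    | zero => exact continuousOn_g.comp_continuous (continuous_coord 0) fun x => x.2.1 0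
    | succ k => exact continuous_coord k
  continuous_invFun := by
    refine Continuous.subtype_mk (continuous_pi fun k => ?_) _
    exact continuous_coord (k + 1)

@[simp] lemma f_zero (x : X) : (f x).1 0 = g (x.1 0) := rfl
@[simp] lemma f_succ (x : X) (k : ℕ) : (f x).1 (k + 1) = x.1 k := rfl
@[simp] lemma f_symm_apply (x : X) (k : ℕ) : (f.symm x).1 k = x.1 (k + 1) := rfl

/-! ### The metric -/

/-- The metric. -/
def d (x y : X) : ℝ := ∑' k : ℕ, (3 / 4 : ℝ) ^ k * ‖x.1 k - y.1 k‖

lemma term_nonneg (x y : X) (k : ℕ) : 0 ≤ (3 / 4 : ℝ) ^ k * ‖x.1 k - y.1 k‖ := by positivity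

lemma term_le (x y : X) (k : ℕ) : (3 / 4 : ℝ) ^ k * ‖x.1 k - y.1 k‖ ≤ (3 / 4 : ℝ) ^ k * 4 := by
  have h1 := norm_sub_le (x.1 k) (y.1 k)
  have h2 := K_le (x.2.1 k)
  have h3 := K_le (y.2.1 k)
  exact mul_le_mul_of_nonneg_left (by linarith) (by positivity)

lemma summable_bound : Summable fun k : ℕ => (3 / 4 : ℝ) ^ k * 4 :=
  (summable_geometric_of_lt_one (by norm_num) (by norm_num)).mul_right 4

lemma summable_d (x y : X) : Summable fun k : ℕ => (3 / 4 : ℝ) ^ k * ‖x.1 k - y.1 k‖ :=
  Summable.of_nonneg_of_le (term_nonneg x y) (term_le x y) summable_bound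

lemma d_nonneg (x y : X) : 0 ≤ d x y := tsum_nonneg (term_nonneg x y)

lemma coord_zero_le (x y : X) : ‖x.1 0 - y.1 0‖ ≤ d x y := by
  have := (summable_d x y).le_tsum 0 (fun k _ => term_nonneg x y k)
  rw [pow_zero, one_mul] at this
  exact this

lemma d_comm (x y : X) : d x y = d y x := by
  unfold d
  simp only [norm_sub_rev]

lemma d_eq_zero (x y : X) : d x y = 0 ↔ x = y := by
  constructor
  · intro h
    have h1 := (summable_d x y).hasSum
    rw [show (∑' k : ℕ, (3 / 4 : ℝ) ^ k * ‖x.1 k - y.1 k‖) = 0 from h] at h1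
    have h2 := (hasSum_zero_iff_of_nonneg (term_nonneg x y)).mp h1
    apply X_ext
    intro k
    have h3 := congrFun h2 k
    simp only [Pi.zero_apply, mul_eq_zero] at h3
    rcases h3 with h3 | h3
    · exact absurd h3 (by positivity)
    · exact sub_eq_zero.mp (norm_eq_zero.mp h3)
  · rintro rfl
    simp [d]

lemma d_triangle (x y z : X) : d x z ≤ d x y + d y z := by
  unfold d
  rw [← (summable_d x y).tsum_add (summable_d y z)]
  refine (summable_d x z).tsum_le_tsum (fun k => ?_) ((summable_d x y).add (summable_d y z))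
  rw [← mul_add]
  refine mul_le_mul_of_nonneg_left ?_ (by positivity)
  have := norm_add_le (x.1 k - y.1 k) (y.1 k - z.1 k)
  simpa using this

lemma continuous_d : Continuous fun p : X × X => d p.1 p.2 := by
  unfold d
  refine continuous_tsum (u := fun k : ℕ => (3 / 4 : ℝ) ^ k * 4) (fun k => ?_) summable_bound
    fun k p => ?_
  · have h1 := (continuous_coord k).comp (continuous_fst : Continuous fun p : X × X => p.1)
    have h2 := (continuous_coord k).comp (continuous_snd : Continuous fun p : X × X => p.2)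
    exact continuous_const.mul (h1.sub h2).norm
  · rw [Real.norm_eq_abs, abs_of_nonneg (term_nonneg _ _ _)]
    exact term_le _ _ _

lemma isOpen_iff_d (U : Set X) : IsOpen U ↔ ∀ x ∈ U, ∃ r > 0, ∀ y, d x y < r → y ∈ U := by
  have hc : ∀ x : X, Continuous fun y => d x y := fun x =>
    continuous_d.comp (Continuous.prodMk_right x)
  constructor
  · intro hU x hx
    have hcomp : IsCompact Uᶜ := hU.isClosed_compl.isCompact
    rcases Uᶜ.eq_empty_or_nonempty with he | hne
    · refine ⟨1, one_pos, fun y _ => ?_⟩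
      have : U = Set.univ := Set.compl_empty_iff.mp he
      rw [this]; trivial
    · obtain ⟨y0, hy0, hmin⟩ := hcomp.exists_isMinOn hne (hc x).continuousOn
      refine ⟨d x y0, ?_, fun y hy => ?_⟩
      · refine lt_of_le_of_ne (d_nonneg _ _) fun h => ?_
        have := (d_eq_zero x y0).mp h.symm
        exact hy0 (this ▸ hx)
      · by_contra hyU
        exact absurd (hmin hyU) (not_le.mpr hy)
  · intro h
    rw [isOpen_iff_mem_nhds]
    intro x hx
    obtain ⟨r, hr, hr'⟩ := h x hx
    have : {y : X | d x y < r} ∈ 𝓝 x := by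
      apply (isOpen_lt (hc x) continuous_const).mem_nhds
      simp only [Set.mem_ofPred_eq]
      rw [(d_eq_zero x x).mpr rfl]
      exact hr
    exact mem_of_superset this hr'

end Pool.Agent.H93.Smale
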