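import Pool.Agent.H93.SmaleBasic

set_option autoImplicit false

/-!
# A surjunctive Smale system with wandering circles: the bracket
-/

noncomputable section

open Complex Filter Topology

namespace Pool.Agent.H93.Smale

lemma g_of_lt {z : ℂ} (h : ‖z‖ < 3 / 2) : g z = 2 * z := if_pos h

lemma g_of_two {z : ℂ} (h : ‖z‖ = 2) : g z = z ^ 2 / 2 := if_neg (by rw [h]; norm_num)

lemma norm_add_ge {y z : ℂ} (hy : ‖y‖ = 2) (hz : ‖z‖ = 2) (h : ‖y - z‖ ≤ 1) :
    8 / 3 ≤ ‖y + z‖ := by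
  have h1 := parallelogram_law_with_norm ℝ y z
  have h2 : ‖y - z‖ * ‖y - z‖ ≤ 1 := by nlinarith [norm_nonneg (y - z)]
  rw [hy, hz] at h1
  nlinarith [norm_nonneg (y + z)]

/-- Expansion. -/
lemma g_expand {y z : ℂ} (hy : y ∈ K) (hz : z ∈ K) (h : ‖y - z‖ < 1) :
    ‖y - z‖ ≤ 3 / 4 * ‖g y - g z‖ := by
  have ht := norm_sub_norm_le y z
  have ht' := norm_sub_norm_le z y
  rw [norm_sub_rev] at ht'
  rcases K_cases hy with hy2 | hy1 <;> rcases K_cases hz with hz2 | hz1
  · rw [g_of_two hy2, g_of_two hz2]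
    have e : y ^ 2 / 2 - z ^ 2 / 2 = (y - z) * (y + z) / 2 := by ring
    rw [e, norm_div, norm_mul]
    have := norm_add_ge hy2 hz2 h.le
    have h0 := norm_nonneg (y - z)
    rw [Complex.norm_ofNat]
    nlinarith
  · exfalso; linarith
  · exfalso; linarith
  · rw [g_of_lt (by linarith), g_of_lt (by linarith), ← mul_sub, norm_mul, Complex.norm_ofNat]
    have h0 := norm_nonneg (y - z)
    linarith

lemma conj_mul_self' {z : ℂ} (h : ‖z‖ = 2) : (starRingEnd ℂ) z * z = 4 := by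
  rw [mul_comm, Complex.mul_conj, Complex.normSq_eq_norm_sq, h]
  norm_num

/-- The algebra of the inverse branch on the outer circle. -/
lemma inv_aux {a b : ℂ} (ha : ‖a‖ = 2) (hb : ‖b‖ = 2) (h : ‖a - b ^ 2 / 2‖ ≤ 1 / 2) :
    ‖inv a b‖ = 2 ∧ (inv a b) ^ 2 / 2 = a ∧ 8 / 3 ≤ ‖inv a b + b‖ := by
  have hb' : ¬ ‖b‖ < 3 / 2 := by rw [hb]; norm_num
  unfold inv
  rw [if_neg hb']
  set c := b ^ 2 / 2 with hc
  have hcn : ‖c‖ = 2 := by rw [hc, norm_div, norm_pow, hb, Complex.norm_ofNat]; norm_num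
  set s := a + c with hs
  have hsn : 8 / 3 ≤ ‖s‖ := norm_add_ge ha hcn (by linarith)
  have hs0 : s ≠ 0 := by
    intro h0
    rw [h0, norm_zero] at hsn
    norm_num at hsn
  have hsn0 : (‖s‖ : ℂ) ≠ 0 := by
    rw [Ne, Complex.ofReal_eq_zero, norm_eq_zero]
    exact hs0
  have hca := conj_mul_self' ha
  have hcb := conj_mul_self' hb
  have hcc := conj_mul_self' hcn
  have hb0 : b ≠ 0 := by
    intro h0
    rw [h0, norm_zero] at hb
    norm_num at hb
  have hss : (‖s‖ : ℂ) ^ 2 * (a * c) = 4 * s ^ 2 := by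
    have e1 : (‖s‖ : ℂ) ^ 2 = (starRingEnd ℂ) s * s := by
      rw [mul_comm, Complex.mul_conj, Complex.normSq_eq_norm_sq]
      push_cast
      rfl
    rw [e1, hs, map_add]
    linear_combination ((a + c) * c) * hca + ((a + c) * a) * hcc
  refine ⟨?_, ?_, ?_⟩
  · rw [norm_div, norm_mul, RCLike.norm_conj, hb, Complex.norm_real, norm_norm]
    have : ‖s‖ ≠ 0 := norm_ne_zero_iff.mpr hs0
    field_simp
  · have e1 : ((starRingEnd ℂ) b * s / ‖s‖) ^ 2 / 2 = a := by
      rw [div_pow, mul_pow, div_div, div_eq_iff (mul_ne_zero (pow_ne_zero 2 hsn0) two_ne_zero)]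
      have e2 : ((starRingEnd ℂ) b) ^ 2 * b ^ 2 = 16 := by
        rw [← mul_pow, hcb]; norm_num
      have e3 : b ^ 2 = 2 * c := by rw [hc]; ring
      have hc0 : c ≠ 0 := by
        intro h0
        rw [h0, norm_zero] at hcn
        norm_num at hcn
      apply mul_right_cancel₀ hc0
      linear_combination (s ^ 2 / 2) * e2 - (((starRingEnd ℂ) b) ^ 2 * s ^ 2 / 2) * e3 - 2 * hss
    exact e1
  · -- the real part of `inv a b * conj b` is nonnegative
    set r := (starRingEnd ℂ) b * s / ‖s‖ with hr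
    have hrn : ‖r‖ = 2 := by
      rw [hr, norm_div, norm_mul, RCLike.norm_conj, hb, Complex.norm_real, norm_norm]
      have : ‖s‖ ≠ 0 := norm_ne_zero_iff.mpr hs0
      field_simp
    have hre : 0 ≤ (r * (starRingEnd ℂ) b).re := by
      have e1 : r * (starRingEnd ℂ) b = ((2 / ‖s‖ : ℝ) : ℂ) * ((starRingEnd ℂ) c * s) := by
        have e3 : (starRingEnd ℂ) c = ((starRingEnd ℂ) b) ^ 2 / 2 := by
          rw [hc, map_div₀, map_pow, Complex.conj_ofNat]
        rw [hr, e3]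
        push_cast
        field_simp
      rw [e1, Complex.re_ofReal_mul]
      have e4 : 0 ≤ ((starRingEnd ℂ) c * s).re := by
        rw [hs, mul_add, hcc, Complex.add_re]
        have h5 := Complex.abs_re_le_norm ((starRingEnd ℂ) c * a)
        rw [norm_mul, RCLike.norm_conj, hcn, ha] at h5
        have h6 := (abs_le.mp h5).1
        have h7 : (4 : ℂ).re = 4 := by norm_num
        rw [h7]
        linarith
      positivity
    have h8 : ‖r + b‖ ^ 2 = ‖r‖ ^ 2 + 2 * (r * (starRingEnd ℂ) b).re + ‖b‖ ^ 2 := by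
      rw [← Complex.normSq_eq_norm_sq, ← Complex.normSq_eq_norm_sq, ← Complex.normSq_eq_norm_sq,
        Complex.normSq_add]
      ring
    rw [hrn, hb] at h8
    nlinarith [norm_nonneg (r + b)]

lemma norm_two_of_near {a b : ℂ} (ha : a ∈ K) (hb : ‖b‖ = 2) (h : ‖a - b‖ < 1) : ‖a‖ = 2 := by
  rcases K_cases ha with h1 | h1
  · exact h1
  · exfalso
    have := norm_sub_norm_le b a
    rw [norm_sub_rev] at this
    linarith

lemma norm_g_of_two {z : ℂ} (h : ‖z‖ = 2) : ‖g z‖ = 2 := by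
  rw [g_of_two h, norm_div, norm_pow, h, Complex.norm_ofNat]; norm_num

lemma inv_spec {a b : ℂ} (ha : a ∈ K) (hb : b ∈ K) (h : ‖a - g b‖ ≤ 1 / 2) :
    inv a b ∈ K ∧ g (inv a b) = a ∧ ‖inv a b - b‖ ≤ 3 / 4 * ‖a - g b‖ := by
  by_cases hb2 : ‖b‖ < 3 / 2
  · have e : inv a b = a / 2 := if_pos hb2
    rw [e]
    have hK := half_mem_K ha
    have hle := K_le ha
    have hn : ‖a / 2‖ < 3 / 2 := by
      rw [norm_div, Complex.norm_ofNat]; linarith
    refine ⟨hK, ?_, ?_⟩
    · rw [g_of_lt hn]; ring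
    · rw [g_of_lt hb2]
      have : a / 2 - b = (a - 2 * b) / 2 := by ring
      rw [this, norm_div, Complex.norm_ofNat]
      have h0 := norm_nonneg (a - 2 * b)
      linarith
  · rw [K_not_lt_iff hb] at hb2
    have hgb := norm_g_of_two hb2
    have ha2 : ‖a‖ = 2 := norm_two_of_near ha hgb (by linarith)
    have h' := h
    rw [g_of_two hb2] at h'
    obtain ⟨h1, h2, h3⟩ := inv_aux ha2 hb2 h'
    refine ⟨Or.inr ⟨0, by rw [h1]; norm_num⟩, by rw [g_of_two h1, h2], ?_⟩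
    rw [g_of_two hb2]
    have e : a - b ^ 2 / 2 = (inv a b - b) * (inv a b + b) / 2 := by
      linear_combination -h2
    rw [e, norm_div, norm_mul, Complex.norm_ofNat]
    have h0 := norm_nonneg (inv a b - b)
    nlinarith

lemma inv_unique {a b c : ℂ} (ha : a ∈ K) (hb : b ∈ K) (h : ‖a - g b‖ ≤ 1 / 2) (hc : c ∈ K)
    (hgc : g c = a) (hcb : ‖c - b‖ < 1) : c = inv a b := by
  by_cases hb2 : ‖b‖ < 3 / 2
  · have e : inv a b = a / 2 := if_pos hb2
    rw [e]
    have hb1 := (K_lt_iff hb).mp hb2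
    rcases K_cases hc with h1 | h1
    · exfalso
      have := norm_sub_norm_le c b
      linarith
    · rw [g_of_lt (by linarith)] at hgc
      rw [← hgc]; ring
  · rw [K_not_lt_iff hb] at hb2
    have hgb := norm_g_of_two hb2
    have ha2 : ‖a‖ = 2 := norm_two_of_near ha hgb (by linarith)
    have h' := h
    rw [g_of_two hb2] at h'
    obtain ⟨h1, h2, h3⟩ := inv_aux ha2 hb2 h'
    have hc2 : ‖c‖ = 2 := norm_two_of_near hc hb2 hcb
    rw [g_of_two hc2] at hgc
    have hsq : c ^ 2 = inv a b ^ 2 := by linear_combination 2 * hgc - 2 * h2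
    rcases sq_eq_sq_iff_eq_or_eq_neg.mp hsq with h4 | h4
    · exact h4
    · exfalso
      rw [h4, show -inv a b - b = -(inv a b + b) by ring, norm_neg] at hcb
      linarith

/-- The sequence starting at `a` and following the inverse branches of `y`. -/
def brs (a : ℂ) (y : ℕ → ℂ) : ℕ → ℂ
  | 0 => a
  | k + 1 => inv (brs a y k) (y (k + 1))

lemma brs_spec {a : ℂ} (ha : a ∈ K) (y : X) (h : ‖a - y.1 0‖ ≤ 1 / 2) (k : ℕ) :
    brs a y.1 k ∈ K ∧ ‖brs a y.1 k - y.1 k‖ ≤ (3 / 4) ^ k * ‖a - y.1 0‖ := by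
  induction k with
  | zero => exact ⟨ha, by simp [brs]⟩
  | succ k ih =>
    have hle : (3 / 4 : ℝ) ^ k * ‖a - y.1 0‖ ≤ 1 / 2 := by
      have h1 : (3 / 4 : ℝ) ^ k ≤ 1 := pow_le_one₀ (by norm_num) (by norm_num)
      have h0 := norm_nonneg (a - y.1 0)
      nlinarith
    have hg := y.2.2 k
    obtain ⟨h1, h2, h3⟩ := inv_spec ih.1 (y.2.1 (k + 1)) (by rw [hg]; exact ih.2.trans hle)
    refine ⟨h1, ?_⟩
    change ‖inv (brs a y.1 k) (y.1 (k + 1)) - y.1 (k + 1)‖ ≤ _
    rw [hg] at h3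
    rw [pow_succ]
    linarith [ih.2]

lemma brs_near {a : ℂ} (ha : a ∈ K) (y : X) (h : ‖a - y.1 0‖ ≤ 1 / 2) (k : ℕ) :
    ‖brs a y.1 k - y.1 k‖ ≤ ‖a - y.1 0‖ := by
  have h1 := (brs_spec ha y h k).2
  have h2 : (3 / 4 : ℝ) ^ k ≤ 1 := pow_le_one₀ (by norm_num) (by norm_num)
  have h0 := norm_nonneg (a - y.1 0)
  nlinarith

lemma g_brs {a : ℂ} (ha : a ∈ K) (y : X) (h : ‖a - y.1 0‖ ≤ 1 / 2) (k : ℕ) :
    g (brs a y.1 (k + 1)) = brs a y.1 k := by
  have h1 := brs_spec ha y h k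
  have hg := y.2.2 k
  exact (inv_spec h1.1 (y.2.1 (k + 1)) (by rw [hg]; exact (brs_near ha y h k).trans h)).2.1

/-- The bracket: the future of `x` and the past of `y`. -/
def br (x y : X) : X := by
  classical
  exact if h : ‖x.1 0 - y.1 0‖ ≤ 1 / 2 then
    ⟨brs (x.1 0) y.1, fun k => (brs_spec (x.2.1 0) y h k).1, fun k => g_brs (x.2.1 0) y h k⟩
  else x

lemma br_apply {x y : X} (h : ‖x.1 0 - y.1 0‖ ≤ 1 / 2) (k : ℕ) :
    (br x y).1 k = brs (x.1 0) y.1 k := by
  unfold br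
  rw [dif_pos h]

lemma br_zero {x y : X} : (br x y).1 0 = x.1 0 := by
  unfold br
  split_ifs with h
  · rfl
  · rfl

lemma near_of_d {x y : X} (h : d x y ≤ 1 / 4) : ‖x.1 0 - y.1 0‖ ≤ 1 / 4 :=
  (coord_zero_le x y).trans h

lemma br_self (x : X) : br x x = x := by
  have h : ‖x.1 0 - x.1 0‖ ≤ 1 / 2 := by simp
  apply X_ext
  intro k
  rw [br_apply h]
  induction k with
  | zero => rfl
  | succ k ih =>
    change inv (brs (x.1 0) x.1 k) (x.1 (k + 1)) = _
    rw [ih]
    exact (inv_unique (x.2.1 k) (x.2.1 (k + 1)) (by rw [x.2.2 k]; simp) (x.2.1 (k + 1)) (x.2.2 k)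
      (by simp)).symm

lemma br_br_right (x y z : X) (h1 : d y z ≤ 1 / 4) (h2 : d x (br y z) ≤ 1 / 4)
    (h3 : d x z ≤ 1 / 4) : br x (br y z) = br x z := by
  have n1 := near_of_d h1
  have n2 := near_of_d h2
  have n3 := near_of_d h3
  apply X_ext
  intro k
  rw [br_apply (by linarith), br_apply (by linarith)]
  induction k with
  | zero => rfl
  | succ k ih =>
    change inv (brs (x.1 0) (br y z).1 k) ((br y z).1 (k + 1)) =
      inv (brs (x.1 0) z.1 k) (z.1 (k + 1))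
    have s1 := brs_spec (x.2.1 0) z (by linarith) k
    have s2 := brs_near (x.2.1 0) z (by linarith) k
    have s3 := brs_near (x.2.1 0) (br y z) (by linarith) k
    have s4 : ‖(br y z).1 (k + 1) - z.1 (k + 1)‖ ≤ 1 / 4 := by
      rw [br_apply (by linarith)]
      exact (brs_near (y.2.1 0) z (by linarith) (k + 1)).trans n1
    rw [ih] at s3 ⊢
    obtain ⟨t1, t2, t3⟩ := inv_spec s1.1 (z.2.1 (k + 1)) (by rw [z.2.2 k]; linarith)
    rw [z.2.2 k] at t3
    symm
    refine inv_unique s1.1 ((br y z).2.1 (k + 1)) ?_ t1 t2 ?_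
    · rw [(br y z).2.2 k]; linarith
    · have := norm_sub_le_norm_sub_add_norm_sub
        (inv (brs (x.1 0) z.1 k) (z.1 (k + 1))) (z.1 (k + 1)) ((br y z).1 (k + 1))
      rw [norm_sub_rev (z.1 (k + 1))] at this
      linarith

lemma br_br_left (x y z : X) (_h1 : d x y ≤ 1 / 4) (_h2 : d (br x y) z ≤ 1 / 4)
    (h3 : d x z ≤ 1 / 4) : br (br x y) z = br x z := by
  have n3 := near_of_d h3
  apply X_ext
  intro k
  rw [br_apply (x := br x y) (y := z) (by rw [br_zero]; linarith),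
    br_apply (x := x) (y := z) (by linarith), br_zero]

lemma f_br (x y : X) (h1 : d x y ≤ 1 / 4) (h2 : d (f x) (f y) ≤ 1 / 4) :
    f (br x y) = br (f x) (f y) := by
  have n1 := near_of_d h1
  have n2 := near_of_d h2
  apply X_ext
  intro k
  rw [br_apply (by linarith)]
  cases k with
  | zero =>
    rw [f_zero, br_zero]
    rfl
  | succ k =>
    rw [f_succ, br_apply (by linarith)]
    induction k with
    | zero =>
      change x.1 0 = inv (g (x.1 0)) (y.1 0)
      exact inv_unique (g_mem_K (x.2.1 0)) (y.2.1 0) (by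
        rw [f_zero, f_zero] at n2; linarith) (x.2.1 0) rfl (by linarith)
    | succ k ih =>
      change inv (brs (x.1 0) y.1 k) (y.1 (k + 1)) =
        inv (brs ((f x).1 0) (f y).1 (k + 1)) ((f y).1 (k + 2))
      rw [← ih]
      rfl

lemma stable (x y z : X) (_h1 : d x y ≤ 1 / 4) (h2 : br y x = x) (_h3 : d x z ≤ 1 / 4)
    (h4 : br z x = x) : d (f y) (f z) ≤ 3 / 4 * d y z := by
  have e1 : y.1 0 = z.1 0 := by
    have h5 : (br y x).1 0 = x.1 0 := by rw [h2]
    have h6 : (br z x).1 0 = x.1 0 := by rw [h4]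
    rw [br_zero] at h5 h6
    rw [h5, h6]
  unfold d
  rw [(summable_d (f y) (f z)).tsum_eq_zero_add, ← tsum_mul_left]
  simp only [f_zero, e1, sub_self, norm_zero, mul_zero, zero_add, f_succ]
  refine le_of_eq (tsum_congr fun k => ?_)
  rw [pow_succ]
  ring

lemma unstable_near {x y : X} (h1 : d x y ≤ 1 / 4) (h2 : br x y = x) (k : ℕ) :
    ‖x.1 k - y.1 k‖ ≤ 1 / 4 := by
  have n1 := near_of_d h1
  have e : x.1 k = brs (x.1 0) y.1 k := by
    rw [← br_apply (by linarith), h2]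
  rw [e]
  exact (brs_near (x.2.1 0) y (by linarith) k).trans n1

lemma unstable (x y z : X) (h1 : d x y ≤ 1 / 4) (h2 : br x y = x) (h3 : d x z ≤ 1 / 4)
    (h4 : br x z = x) : d (f.symm y) (f.symm z) ≤ 3 / 4 * d y z := by
  unfold d
  rw [← tsum_mul_left]
  refine (summable_d (f.symm y) (f.symm z)).tsum_le_tsum (fun k => ?_)
    ((summable_d y z).mul_left (3 / 4))
  simp only [f_symm_apply]
  have a1 := unstable_near h1 h2 (k + 1)
  have a2 := unstable_near h3 h4 (k + 1)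
  have a3 : ‖y.1 (k + 1) - z.1 (k + 1)‖ < 1 := by
    have := norm_sub_le_norm_sub_add_norm_sub (y.1 (k + 1)) (x.1 (k + 1)) (z.1 (k + 1))
    rw [norm_sub_rev (y.1 (k + 1)) (x.1 (k + 1))] at this
    linarith
  have a4 := g_expand (y.2.1 (k + 1)) (z.2.1 (k + 1)) a3
  rw [y.2.2 k, z.2.2 k] at a4
  have a5 : (0 : ℝ) < (3 / 4) ^ k := by positivity
  calc (3 / 4 : ℝ) ^ k * ‖y.1 (k + 1) - z.1 (k + 1)‖
      ≤ (3 / 4) ^ k * (3 / 4 * ‖y.1 k - z.1 k‖) := mul_le_mul_of_nonneg_left a4 a5.le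
    _ = 3 / 4 * ((3 / 4) ^ k * ‖y.1 k - z.1 k‖) := by ring

/-! ### Continuity of the bracket -/

lemma continuousAt_inv {a b : ℂ} (ha : a ∈ K) (hb : b ∈ K) (h : ‖a - g b‖ ≤ 1 / 2) :
    ContinuousAt (fun p : ℂ × ℂ => inv p.1 p.2) (a, b) := by
  by_cases hb2 : ‖b‖ < 3 / 2
  · have : (fun p : ℂ × ℂ => inv p.1 p.2) =ᶠ[𝓝 (a, b)] fun p => p.1 / 2 := by
      have hopen : IsOpen {p : ℂ × ℂ | ‖p.2‖ < 3 / 2} :=
        isOpen_lt (continuous_norm.comp continuous_snd) continuous_const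
      filter_upwards [hopen.mem_nhds hb2] with p hp
      exact if_pos hp
    have hc : Continuous fun p : ℂ × ℂ => p.1 / 2 := by fun_prop
    exact hc.continuousAt.congr this.symm
  · have hb3 := (K_not_lt_iff hb).mp hb2
    have hgb := norm_g_of_two hb3
    have ha2 : ‖a‖ = 2 := norm_two_of_near ha hgb (by linarith)
    have hs : 8 / 3 ≤ ‖a + b ^ 2 / 2‖ := by
      rw [g_of_two hb3] at h hgb
      exact norm_add_ge ha2 hgb (by linarith)
    have hs0 : ((‖a + b ^ 2 / 2‖ : ℝ) : ℂ) ≠ 0 := by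
      rw [Ne, Complex.ofReal_eq_zero]
      linarith
    have : (fun p : ℂ × ℂ => inv p.1 p.2) =ᶠ[𝓝 (a, b)]
        fun p => (starRingEnd ℂ) p.2 * (p.1 + p.2 ^ 2 / 2) / ‖p.1 + p.2 ^ 2 / 2‖ := by
      have hopen : IsOpen {p : ℂ × ℂ | 3 / 2 < ‖p.2‖} :=
        isOpen_lt continuous_const (continuous_norm.comp continuous_snd)
      have hmem : (a, b) ∈ {p : ℂ × ℂ | 3 / 2 < ‖p.2‖} := by
        change 3 / 2 < ‖b‖
        rw [hb3]; norm_num
      filter_upwards [hopen.mem_nhds hmem] with p hp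
      exact if_neg (not_lt.mpr (le_of_lt hp))
    refine ContinuousAt.congr ?_ this.symm
    refine ContinuousAt.div ?_ ?_ hs0
    · exact ((Complex.continuous_conj.comp continuous_snd).mul (by fun_prop)).continuousAt
    · exact (Complex.continuous_ofReal.comp (continuous_norm.comp (by fun_prop))).continuousAt

lemma continuousOn_br :
    ContinuousOn (fun p : X × X => br p.1 p.2) {p | d p.1 p.2 ≤ 1 / 4} := by
  have key : ∀ k, ContinuousOn (fun p : X × X => brs (p.1.1 0) p.2.1 k)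
      {p | d p.1 p.2 ≤ 1 / 4} := by
    intro k
    induction k with
    | zero => exact ((continuous_coord 0).comp continuous_fst).continuousOn
    | succ k ih =>
      intro p hp
      have n1 := near_of_d hp
      have s1 := brs_spec (p.1.2.1 0) p.2 (by linarith) k
      have s2 := brs_near (p.1.2.1 0) p.2 (by linarith) k
      have hc := continuousAt_inv s1.1 (p.2.2.1 (k + 1)) (by rw [p.2.2.2 k]; linarith)
      have h2 : ContinuousWithinAt (fun p : X × X => p.2.1 (k + 1)) {p | d p.1 p.2 ≤ 1 / 4} p :=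
        ((continuous_coord (k + 1)).comp continuous_snd).continuousWithinAt
      exact ContinuousAt.comp_continuousWithinAt
        (f := fun p : X × X => (brs (p.1.1 0) p.2.1 k, p.2.1 (k + 1))) (x := p) hc
        ((ih p hp).prodMk h2)
  rw [Topology.IsInducing.subtypeVal.continuousOn_iff]
  rw [continuousOn_pi]
  intro k
  refine (key k).congr fun p hp => ?_
  have n1 := near_of_d hp
  exact br_apply (by linarith) k

end Pool.Agent.H93.Smale
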