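import Pool.Agent.H93.SmaleBracket

set_option autoImplicit false

/-!
# A surjunctive Smale system with wandering circles: surjunctivity
-/

noncomputable section

open Complex Filter Topology

namespace Pool.Agent.H93.Smale

/-! ### A circle cannot be mapped injectively onto a proper part of a circle -/

lemma circle_surj (s : ℝ → ℂ) (hs : Continuous s) (hn : ∀ t, ‖s t‖ = 1)
    (hper : ∀ t, s (t + Real.pi + Real.pi) = s t) (hne : ∀ t, s (t + Real.pi) ≠ s t)
    (q : ℂ) (hq : ‖q‖ = 1) : ∃ t, s t = q := by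
  by_contra hcon
  simp only [not_exists] at hcon
  have hq0 : q ≠ 0 := by
    intro h; rw [h, norm_zero] at hq; norm_num at hq
  set H : ℝ → ℝ := fun t => Complex.arg (-(s t) / q) with hH
  have hnorm : ∀ t, ‖-(s t) / q‖ = 1 := by
    intro t
    rw [norm_div, norm_neg, hn, hq]; norm_num
  have hslit : ∀ t, -(s t) / q ∈ Complex.slitPlane := by
    intro t
    rw [Complex.mem_slitPlane_iff_arg]
    refine ⟨fun h => ?_, ?_⟩
    · have h1 : -(s t) / q = -1 := by
        have h2 := Complex.norm_mul_exp_arg_mul_I (-(s t) / q)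
        rw [hnorm, h, Complex.ofReal_one, one_mul, Complex.exp_pi_mul_I] at h2
        exact h2.symm
      rw [div_eq_iff hq0] at h1
      exact hcon t (by linear_combination -h1)
    · intro h
      have := hnorm t
      rw [h, norm_zero] at this
      norm_num at this
  have hHc : Continuous H := by
    rw [continuous_iff_continuousAt]
    intro t
    have hcc : Continuous fun t => -(s t) / q := hs.neg.div_const q
    exact ContinuousAt.comp (g := Complex.arg) (f := fun t => -(s t) / q)
      (Complex.continuousAt_arg (hslit t)) hcc.continuousAt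
  set F : ℝ → ℝ := fun t => H t - H (t + Real.pi) with hF
  have hFc : Continuous F := hHc.sub (hHc.comp (by fun_prop))
  have hFpi : F (0 + Real.pi) = -F 0 := by
    simp only [hF, hH, hper]
    ring
  have hzero : ∃ t, F t = 0 := by
    rcases le_total (F 0) 0 with h | h
    · have h1 : 0 ∈ Set.Icc (F 0) (F (0 + Real.pi)) := ⟨h, by rw [hFpi]; linarith⟩
      exact mem_range_of_exists_le_of_exists_ge hFc ⟨_, h⟩ ⟨_, h1.2⟩
    · exact mem_range_of_exists_le_of_exists_ge hFc ⟨0 + Real.pi, by rw [hFpi]; linarith⟩ ⟨_, h⟩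
  obtain ⟨t, ht⟩ := hzero
  have h1 : Complex.arg (-(s t) / q) = Complex.arg (-(s (t + Real.pi)) / q) := by
    have : H t - H (t + Real.pi) = 0 := ht
    simpa [hH, sub_eq_zero] using this
  have h2 : -(s t) / q = -(s (t + Real.pi)) / q :=
    Complex.ext_norm_arg (by rw [hnorm, hnorm]) h1
  rw [div_left_inj' hq0, neg_inj] at h2
  exact hne t h2.symm

/-! ### Orbits -/

lemma g_zero : g 0 = 0 := by rw [g_of_lt (by norm_num)]; ring

lemma g_eq_zero {z : ℂ} (hz : z ∈ K) (h : g z = 0) : z = 0 := by
  rcases K_cases hz with h2 | h1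
  · have := norm_g_of_two h2
    rw [h, norm_zero] at this
    norm_num at this
  · rw [g_of_lt (by linarith)] at h
    simpa using h

lemma iterate_norm (m : ℕ) : ∀ z : ℂ, ‖z‖ = 2 * (1 / 2) ^ m → ∀ n, m ≤ n → ‖g^[n] z‖ = 2 := by
  induction m with
  | zero =>
    intro z hz n _
    induction n with
    | zero => simpa using hz
    | succ n ih =>
      rw [Function.iterate_succ_apply']
      exact norm_g_of_two (ih (Nat.zero_le _))
  | succ m ih =>
    intro z hz n hn
    obtain ⟨n, rfl⟩ : ∃ n', n = n' + 1 := ⟨n - 1, by omega⟩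
    rw [Function.iterate_succ_apply]
    refine ih _ ?_ n (by omega)
    have h1 : ((1 : ℝ) / 2) ^ m ≤ 1 := pow_le_one₀ (by norm_num) (by norm_num)
    rw [g_of_lt (by rw [hz, pow_succ]; linarith), norm_mul, hz, Complex.norm_ofNat, pow_succ]
    ring

lemma iterate_norm_eq (m : ℕ) : ∀ z : ℂ, ‖z‖ = 2 * (1 / 2) ^ (m + 1) → ‖g^[m] z‖ = 1 := by
  induction m with
  | zero =>
    intro z hz
    rw [Function.iterate_zero, id, hz]; norm_num
  | succ m ih =>
    intro z hz
    rw [Function.iterate_succ_apply]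
    refine ih _ ?_
    have h1 : ((1 : ℝ) / 2) ^ m ≤ 1 := pow_le_one₀ (by norm_num) (by norm_num)
    rw [g_of_lt (by rw [hz, pow_succ, pow_succ]; linarith), norm_mul, hz, Complex.norm_ofNat,
      pow_succ]
    ring

lemma f_iterate_zero (n : ℕ) (x : X) : (f^[n] x).1 0 = g^[n] (x.1 0) := by
  induction n with
  | zero => rfl
  | succ n ih => rw [Function.iterate_succ_apply', Function.iterate_succ_apply', f_zero, ih]

lemma f_iterate_add (n k : ℕ) (x : X) : (f^[n] x).1 (k + n) = x.1 k := by
  induction n with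
  | zero => rfl
  | succ n ih =>
    rw [Function.iterate_succ_apply', ← Nat.add_assoc, f_succ, ih]

lemma f_symm_iterate (n k : ℕ) (x : X) : (f.symm^[n] x).1 k = x.1 (k + n) := by
  induction n generalizing k with
  | zero => rfl
  | succ n ih =>
    rw [Function.iterate_succ_apply', f_symm_apply, ih, show k + 1 + n = k + (n + 1) by omega]

lemma coord_iterate (x : X) (k m : ℕ) : x.1 k = g^[m] (x.1 (k + m)) := by
  induction m with
  | zero => rfl
  | succ m ih =>
    rw [ih, Function.iterate_succ_apply, ← Nat.add_assoc, x.2.2 (k + m)]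

/-! ### The two fixed points -/

/-- The fixed point outside the solenoid. -/
def pt0 : X := ⟨fun _ => 0, fun _ => Or.inl rfl, fun _ => g_zero⟩

/-- The fixed point in the solenoid. -/
def pt2 : X := ⟨fun _ => 2, fun _ => Or.inr ⟨0, by norm_num⟩, fun _ => by
  rw [g_of_two (by norm_num)]; norm_num⟩

lemma pt0_ne_pt2 : pt0 ≠ pt2 := by
  intro h
  have : pt0.1 0 = pt2.1 0 := by rw [h]
  change (0 : ℂ) = 2 at this
  norm_num at this

lemma eq_pt0_of_coord {x : X} {n : ℕ} (h : x.1 n = 0) : x = pt0 := by
  have h1 : ∀ k, x.1 (n + k) = 0 := by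
    intro k
    induction k with
    | zero => exact h
    | succ k ih =>
      have := x.2.2 (n + k)
      rw [ih] at this
      exact g_eq_zero (x.2.1 _) this
  apply X_ext
  intro k
  change x.1 k = 0
  have h2 : ∀ m, g^[m] (0 : ℂ) = 0 := fun m => Function.iterate_fixed g_zero m
  rw [coord_iterate x k n, Nat.add_comm, h1, h2]

lemma fixed_cases {x : X} (h : f x = x) : x = pt0 ∨ x = pt2 := by
  have h0 : g (x.1 0) = x.1 0 := by
    rw [← f_zero, h]
  have hc : ∀ k, x.1 k = x.1 0 := by
    intro k
    induction k with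
    | zero => rfl
    | succ k ih =>
      calc x.1 (k + 1) = (f x).1 (k + 1) := by rw [h]
        _ = x.1 k := f_succ x k
        _ = x.1 0 := ih
  rcases K_cases (x.2.1 0) with h2 | h1
  · right
    rw [g_of_two h2] at h0
    have hne : x.1 0 ≠ 0 := by
      intro h; rw [h, norm_zero] at h2; norm_num at h2
    have h3 : x.1 0 = 2 := by
      apply mul_left_cancel₀ hne
      linear_combination 2 * h0
    apply X_ext
    intro k
    rw [hc k, h3]
    rfl
  · left
    rw [g_of_lt (by linarith)] at h0
    exact eq_pt0_of_coord (n := 0) (by linear_combination h0)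

/-! ### The circle -/

lemma circ_norm (t : ℝ) (k : ℕ) : ‖cexp (t * I) / 2 ^ k‖ = (1 / 2) ^ k := by
  rw [norm_div, Complex.norm_exp_ofReal_mul_I, norm_pow, Complex.norm_ofNat, one_div, one_div,
    inv_pow]

/-- The parametrised circle. -/
def C (t : ℝ) : X :=
  ⟨fun k => cexp (t * I) / 2 ^ k, fun k => Or.inr ⟨k + 1, by
    rw [circ_norm, pow_succ]; ring⟩, fun k => by
    have h1 : ((1 : ℝ) / 2) ^ (k + 1) ≤ 1 := pow_le_one₀ (by norm_num) (by norm_num)
    change g (cexp (t * I) / 2 ^ (k + 1)) = cexp (t * I) / 2 ^ k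
    rw [g_of_lt (by rw [circ_norm]; linarith), pow_succ]
    field_simp⟩

lemma C_apply (t : ℝ) (k : ℕ) : (C t).1 k = cexp (t * I) / 2 ^ k := rfl

lemma C_zero (t : ℝ) : (C t).1 0 = cexp (t * I) := by rw [C_apply]; simp

/-- The circle. -/
def C0 : Set X := {x | ‖x.1 0‖ = 1}

lemma C_mem (t : ℝ) : C t ∈ C0 := by
  change ‖(C t).1 0‖ = 1
  rw [C_zero, Complex.norm_exp_ofReal_mul_I]

lemma continuous_C : Continuous C := by
  refine Continuous.subtype_mk (continuous_pi fun k => ?_) _
  fun_prop

lemma C0_coord {x : X} (hx : x ∈ C0) (k : ℕ) : x.1 k = x.1 0 / 2 ^ k := by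
  induction k with
  | zero => simp
  | succ k ih =>
    have h1 := x.2.2 k
    have hx' : ‖x.1 0‖ = 1 := hx
    have h2 : ‖x.1 k‖ = (1 / 2) ^ k := by
      rw [ih, norm_div, hx', norm_pow, Complex.norm_ofNat, one_div, one_div, inv_pow]
    have h3 : ((1 : ℝ) / 2) ^ k ≤ 1 := pow_le_one₀ (by norm_num) (by norm_num)
    rcases K_cases (x.2.1 (k + 1)) with h4 | h4
    · exfalso
      have h5 := norm_g_of_two h4
      rw [h1] at h5
      linarith
    · rw [g_of_lt (by linarith)] at h1
      rw [pow_succ]
      have h6 : x.1 (k + 1) = x.1 k / 2 := by rw [← h1]; ring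
      rw [h6, ih]
      field_simp

lemma C0_eq {x : X} (hx : x ∈ C0) : x = C (Complex.arg (x.1 0)) := by
  apply X_ext
  intro k
  rw [C0_coord hx k, C_apply]
  have h := Complex.norm_mul_exp_arg_mul_I (x.1 0)
  have hx' : ‖x.1 0‖ = 1 := hx
  rw [hx', Complex.ofReal_one, one_mul] at h
  rw [h]

lemma C0_eq_range : C0 = Set.range C := by
  ext x
  constructor
  · intro hx
    exact ⟨_, (C0_eq hx).symm⟩
  · rintro ⟨t, rfl⟩
    exact C_mem t

lemma isClopen_C0 : IsClopen C0 := by
  constructor
  · exact isClosed_eq (continuous_coord 0).norm continuous_const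
  · have : C0 = (fun x : X => ‖x.1 0‖) ⁻¹' Set.Ioo (3 / 4) (3 / 2) := by
      ext x
      constructor
      · intro hx
        have hx' : ‖x.1 0‖ = 1 := hx
        change ‖x.1 0‖ ∈ Set.Ioo (3 / 4 : ℝ) (3 / 2)
        rw [hx']
        norm_num
      · intro hx
        have h1 : 3 / 4 < ‖x.1 0‖ := hx.1
        have h2 : ‖x.1 0‖ < 3 / 2 := hx.2
        change ‖x.1 0‖ = 1
        rcases x.2.1 0 with h | ⟨n, hn⟩
        · rw [h, norm_zero] at h1; norm_num at h1
        · rcases n with _ | _ | n
          · rw [hn] at h2; norm_num at h2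
          · rw [hn]; norm_num
          · exfalso
            have h3 : ((1 : ℝ) / 2) ^ n ≤ 1 := pow_le_one₀ (by norm_num) (by norm_num)
            rw [hn, pow_succ, pow_succ] at h1
            linarith
    rw [this]
    exact isOpen_Ioo.preimage (continuous_coord 0).norm

lemma C0_wandering {x : X} (hx : x ∈ C0) {n : ℕ} (hn : 1 ≤ n) : f^[n] x ∉ C0 := by
  intro h
  have h1 : ‖(f^[n] x).1 0‖ = 1 := h
  have hx' : ‖x.1 0‖ = 1 := hx
  rw [f_iterate_zero, iterate_norm 1 (x.1 0) (by rw [hx']; norm_num) n hn] at h1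
  norm_num at h1

/-! ### Limits -/

lemma tendsto_X {u : ℕ → X} {x : X} (h : ∀ k, Tendsto (fun n => (u n).1 k) atTop (𝓝 (x.1 k))) :
    Tendsto u atTop (𝓝 x) := by
  rw [Topology.IsInducing.subtypeVal.tendsto_nhds_iff]
  exact tendsto_pi_nhds.mpr h

lemma tendsto_pt2 : Tendsto (fun n => f^[n] (C 0)) atTop (𝓝 pt2) := by
  apply tendsto_X
  intro k
  have h : ∀ n, k < n → (f^[n] (C 0)).1 k = 2 := by
    intro n
    induction n generalizing k with
    | zero => intro h; omega
    | succ n ih =>
      intro hk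
      rw [Function.iterate_succ_apply']
      rcases k with _ | k
      · rw [f_zero]
        rcases n with _ | n
        · change g ((C 0).1 0) = 2
          rw [C_zero, Complex.ofReal_zero, zero_mul, Complex.exp_zero, g_of_lt (by norm_num)]
          norm_num
        · rw [ih 0 (by omega), g_of_two (by norm_num)]; norm_num
      · rw [f_succ]
        exact ih k (by omega)
  refine tendsto_const_nhds.congr' ?_
  filter_upwards [eventually_gt_atTop k] with n hn
  rw [h n hn]
  rfl

lemma tendsto_pt0 {x : X} (hx : x ∈ C0) : Tendsto (fun n => f.symm^[n] x) atTop (𝓝 pt0) := by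
  apply tendsto_X
  intro k
  change Tendsto (fun n => (f.symm^[n] x).1 k) atTop (𝓝 0)
  have h : ∀ n, (f.symm^[n] x).1 k = (x.1 0 / 2 ^ k) * (1 / 2 : ℂ) ^ n := by
    intro n
    rw [f_symm_iterate, C0_coord hx, pow_add, one_div, inv_pow]
    field_simp
  simp only [h]
  have h2 : Tendsto (fun n : ℕ => (1 / 2 : ℂ) ^ n) atTop (𝓝 0) :=
    tendsto_pow_atTop_nhds_zero_of_norm_lt_one (by norm_num)
  simpa using h2.const_mul (x.1 0 / 2 ^ k)

/-! ### Injective endomorphisms -/

variable {τ : X → X}

lemma comm_iterate (hcomm : ∀ x, τ (f x) = f (τ x)) (n : ℕ) (x : X) :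
    τ (f^[n] x) = f^[n] (τ x) := by
  induction n with
  | zero => rfl
  | succ n ih => rw [Function.iterate_succ_apply', Function.iterate_succ_apply', hcomm, ih]

lemma comm_symm (hcomm : ∀ x, τ (f x) = f (τ x)) (x : X) : τ (f.symm x) = f.symm (τ x) := by
  apply f.injective
  rw [← hcomm, f.apply_symm_apply, f.apply_symm_apply]

lemma comm_symm_iterate (hcomm : ∀ x, τ (f x) = f (τ x)) (n : ℕ) (x : X) :
    τ (f.symm^[n] x) = f.symm^[n] (τ x) := by
  induction n with
  | zero => rfl
  | succ n ih =>
    rw [Function.iterate_succ_apply', Function.iterate_succ_apply', comm_symm hcomm, ih]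

lemma tau_pt2_ne (hc : Continuous τ) (hcomm : ∀ x, τ (f x) = f (τ x))
    (hinj : Function.Injective τ) : τ pt2 ≠ pt0 := by
  intro h
  have h1 : Tendsto (fun n => f^[n] (τ (C 0))) atTop (𝓝 pt0) := by
    rw [← h]
    have := (hc.tendsto pt2).comp tendsto_pt2
    refine this.congr fun n => ?_
    exact comm_iterate hcomm n (C 0)
  have h2 : Tendsto (fun n => g^[n] ((τ (C 0)).1 0)) atTop (𝓝 0) := by
    have := ((continuous_coord 0).tendsto pt0).comp h1
    refine this.congr fun n => ?_
    exact f_iterate_zero n _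
  have h3 : (τ (C 0)).1 0 = 0 := by
    rcases (τ (C 0)).2.1 0 with h3 | ⟨m, hm⟩
    · exact h3
    · exfalso
      have h4 := h2.norm
      have h5 : Tendsto (fun n => ‖g^[n] ((τ (C 0)).1 0)‖) atTop (𝓝 2) := by
        refine tendsto_const_nhds.congr' ?_
        filter_upwards [eventually_ge_atTop m] with n hn
        rw [iterate_norm m _ hm n hn]
      have h6 := tendsto_nhds_unique h4 h5
      rw [norm_zero] at h6
      norm_num at h6
  have h4 : τ (C 0) = τ pt2 := by rw [h, eq_pt0_of_coord h3]
  have h5 : (C 0).1 0 = pt2.1 0 := by rw [hinj h4]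
  rw [C_zero] at h5
  change cexp ((0 : ℝ) * I) = 2 at h5
  rw [Complex.ofReal_zero, zero_mul, Complex.exp_zero] at h5
  norm_num at h5

lemma tau_pt0 (hc : Continuous τ) (hcomm : ∀ x, τ (f x) = f (τ x))
    (hinj : Function.Injective τ) : τ pt0 = pt0 := by
  have f0 : f pt0 = pt0 := by
    apply X_ext
    intro k
    rcases k with _ | k
    · exact g_zero
    · rfl
  have f2 : f pt2 = pt2 := by
    apply X_ext
    intro k
    rcases k with _ | k
    · rw [f_zero]
      change g 2 = 2
      rw [g_of_two (by norm_num)]; norm_num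
    · rfl
  have h2 : τ pt2 = pt2 := by
    rcases fixed_cases (x := τ pt2) (by rw [← hcomm, f2]) with h | h
    · exact absurd h (tau_pt2_ne hc hcomm hinj)
    · exact h
  rcases fixed_cases (x := τ pt0) (by rw [← hcomm, f0]) with h | h
  · exact h
  · exfalso
    rw [← h2] at h
    exact pt0_ne_pt2 (hinj h)

/-- The points outside the solenoid and different from the isolated fixed point are on the orbit of
the circle. -/
lemma exists_shift {y : X} (hy : y ≠ pt0) {n : ℕ} (hn : ‖y.1 n‖ ≤ 1) :
    ∃ m, f^[m] (f.symm^[n] y) ∈ C0 := by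
  rcases y.2.1 n with h | ⟨m, hm⟩
  · exact absurd (eq_pt0_of_coord h) hy
  · rcases m with _ | m
    · rw [hm] at hn; norm_num at hn
    · refine ⟨m, ?_⟩
      change ‖(f^[m] (f.symm^[n] y)).1 0‖ = 1
      rw [f_iterate_zero, f_symm_iterate, Nat.zero_add]
      exact iterate_norm_eq m _ hm

lemma exists_shift_tau (hc : Continuous τ) (hcomm : ∀ x, τ (f x) = f (τ x))
    (hinj : Function.Injective τ) : ∃ n m, f^[m] (f.symm^[n] (τ (C 0))) ∈ C0 := by
  have h0 := tau_pt0 hc hcomm hinj
  have hne : τ (C 0) ≠ pt0 := by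
    intro h
    rw [← h0] at h
    have h1 : (C 0).1 0 = pt0.1 0 := by rw [hinj h]
    rw [C_zero] at h1
    exact Complex.exp_ne_zero _ h1
  have h1 : Tendsto (fun n => (τ (C 0)).1 n) atTop (𝓝 0) := by
    have h2 := (hc.tendsto pt0).comp (tendsto_pt0 (C_mem 0))
    rw [h0] at h2
    have h3 := ((continuous_coord 0).tendsto pt0).comp h2
    refine h3.congr fun n => ?_
    change (τ (f.symm^[n] (C 0))).1 0 = (τ (C 0)).1 n
    rw [comm_symm_iterate hcomm, f_symm_iterate, Nat.zero_add]
  have h2 : ∀ᶠ n in atTop, ‖(τ (C 0)).1 n‖ < 1 := by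
    have := h1.norm
    rw [norm_zero] at this
    exact this.eventually (gt_mem_nhds one_pos)
  obtain ⟨n, hn⟩ := h2.exists
  obtain ⟨m, hm⟩ := exists_shift hne hn.le
  exact ⟨n, m, hm⟩

lemma eq_univ_of_closed (R : Set X) (hR : IsClosed R) (h1 : ∀ x ∈ R, f x ∈ R)
    (h2 : ∀ x ∈ R, f.symm x ∈ R) (h3 : C0 ⊆ R) (x : X) : x ∈ R := by
  have h1' : ∀ n, ∀ x ∈ R, f^[n] x ∈ R := by
    intro n
    induction n with
    | zero => exact fun x hx => hx
    | succ n ih =>
      intro x hx
      rw [Function.iterate_succ_apply']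
      exact h1 _ (ih x hx)
  have h2' : ∀ n, ∀ x ∈ R, f.symm^[n] x ∈ R := by
    intro n
    induction n with
    | zero => exact fun x hx => hx
    | succ n ih =>
      intro x hx
      rw [Function.iterate_succ_apply']
      exact h2 _ (ih x hx)
  by_cases hx0 : x = pt0
  · rw [hx0]
    exact hR.mem_of_tendsto (tendsto_pt0 (C_mem 0))
      (Eventually.of_forall fun n => h2' n _ (h3 (C_mem 0)))
  by_cases hx2 : ∀ k, ‖x.1 k‖ = 2
  · -- the point is in the solenoid
    have hw : Tendsto (fun N => f^[N + 1] (C (Complex.arg (x.1 N / 2)))) atTop (𝓝 x) := by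
      apply tendsto_X
      intro k
      refine tendsto_const_nhds.congr' ?_
      filter_upwards [eventually_ge_atTop k] with N hN
      set w := f^[N + 1] (C (Complex.arg (x.1 N / 2))) with hw
      have e1 : w.1 (N + 1) = x.1 N / 2 := by
        have h4 := f_iterate_add (N + 1) 0 (C (Complex.arg (x.1 N / 2)))
        rw [Nat.zero_add, C_zero] at h4
        rw [hw, h4]
        have h5 := Complex.norm_mul_exp_arg_mul_I (x.1 N / 2)
        have h6 : ‖x.1 N / 2‖ = 1 := by
          rw [norm_div, hx2 N, Complex.norm_ofNat]; norm_num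
        rw [h6, Complex.ofReal_one, one_mul] at h5
        exact h5
      have e2 : w.1 N = x.1 N := by
        rw [← w.2.2 N, e1, g_of_lt (by rw [norm_div, hx2 N, Complex.norm_ofNat]; norm_num)]
        ring
      obtain ⟨m, rfl⟩ : ∃ m, N = k + m := ⟨N - k, by omega⟩
      rw [coord_iterate w k m, coord_iterate x k m, e2]
    exact hR.mem_of_tendsto hw (Eventually.of_forall fun n => h1' _ _ (h3 (C_mem _)))
  · simp only [not_forall] at hx2
    obtain ⟨n, hn⟩ := hx2
    have hn1 : ‖x.1 n‖ ≤ 1 := (K_cases (x.2.1 n)).resolve_left hn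
    obtain ⟨m, hm⟩ := exists_shift hx0 hn1
    have e : x = f^[n] (f.symm^[m] (f^[m] (f.symm^[n] x))) := by
      have e1 : ∀ (m : ℕ) (y : X), f.symm^[m] (f^[m] y) = y := fun m y =>
        (Function.LeftInverse.iterate f.symm_apply_apply m) y
      have e2 : ∀ (m : ℕ) (y : X), f^[m] (f.symm^[m] y) = y := fun m y =>
        (Function.LeftInverse.iterate f.apply_symm_apply m) y
      rw [e1, e2]
    rw [e]
    exact h1' _ _ (h2' _ _ (h3 hm))

lemma surj_of_mem (hc : Continuous τ) (hcomm : ∀ x, τ (f x) = f (τ x))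
    (hinj : Function.Injective τ) (h0 : τ (C 0) ∈ C0) : Function.Surjective τ := by
  -- the circle is mapped to itself
  have hpre : IsPreconnected (Set.range fun t => τ (C t)) :=
    isPreconnected_range (hc.comp continuous_C)
  have hsub : (Set.range fun t => τ (C t)) ⊆ C0 :=
    hpre.subset_isClopen isClopen_C0 ⟨_, ⟨0, rfl⟩, h0⟩
  have hmem : ∀ t, τ (C t) ∈ C0 := fun t => hsub ⟨t, rfl⟩
  have hcirc := circle_surj (fun t => (τ (C t)).1 0)
    ((continuous_coord 0).comp (hc.comp continuous_C)) (fun t => hmem t)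
    (fun t => by
      have : C (t + Real.pi + Real.pi) = C t := by
        apply X_ext
        intro k
        rw [C_apply, C_apply]
        congr 1
        have e : ((t + Real.pi + Real.pi : ℝ) : ℂ) * I = t * I + 2 * Real.pi * I := by
          push_cast; ring
        rw [e, Complex.exp_add, Complex.exp_two_pi_mul_I, mul_one]
      simp only [this])
    (fun t h => by
      have h1 : τ (C (t + Real.pi)) = τ (C t) := by
        apply X_ext
        intro k
        rw [C0_coord (hmem _), C0_coord (hmem t)]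
        rw [show (τ (C (t + Real.pi))).1 0 = (τ (C t)).1 0 from h]
      have h2 : (C (t + Real.pi)).1 0 = (C t).1 0 := by rw [hinj h1]
      rw [C_zero, C_zero] at h2
      have e : ((t + Real.pi : ℝ) : ℂ) * I = t * I + Real.pi * I := by
        push_cast; ring
      rw [e, Complex.exp_add, Complex.exp_pi_mul_I] at h2
      have h3 := Complex.exp_ne_zero ((t : ℂ) * I)
      apply h3
      linear_combination (-1 / 2 : ℂ) * h2)
  have hC0 : C0 ⊆ Set.range τ := by
    intro x hx
    obtain ⟨t, ht⟩ := hcirc (x.1 0) hx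
    refine ⟨C t, ?_⟩
    apply X_ext
    intro k
    rw [C0_coord (hmem t), C0_coord hx]
    rw [show (τ (C t)).1 0 = x.1 0 from ht]
  intro x
  refine eq_univ_of_closed (Set.range τ) (isCompact_range hc).isClosed ?_ ?_ hC0 x
  · rintro _ ⟨y, rfl⟩
    exact ⟨f y, hcomm y⟩
  · rintro _ ⟨y, rfl⟩
    exact ⟨f.symm y, comm_symm hcomm y⟩

/-- The system is surjunctive. -/
theorem surjunctive (hc : Continuous τ) (hcomm : ∀ x, τ (f x) = f (τ x))
    (hinj : Function.Injective τ) : Function.Surjective τ := by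
  obtain ⟨n, m, hnm⟩ := exists_shift_tau hc hcomm hinj
  have hc' : Continuous fun x => f^[m] (f.symm^[n] (τ x)) :=
    (f.continuous.iterate m).comp ((f.symm.continuous.iterate n).comp hc)
  have hinj' : Function.Injective fun x => f^[m] (f.symm^[n] (τ x)) :=
    (f.injective.iterate m).comp ((f.symm.injective.iterate n).comp hinj)
  have hcomm' : ∀ x, f^[m] (f.symm^[n] (τ (f x))) = f (f^[m] (f.symm^[n] (τ x))) := by
    intro x
    have e1 : ∀ y, f.symm^[n] (f y) = f (f.symm^[n] y) := by
      intro y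
      have := (Function.Commute.iterate_left (f := f.symm) (g := f)
        (fun z => by rw [f.symm_apply_apply, f.apply_symm_apply]) n) y
      exact this
    rw [hcomm, e1]
    exact (Function.iterate_succ_apply f m _).symm.trans (Function.iterate_succ_apply' f m _)
  have hs := surj_of_mem hc' hcomm' hinj' hnm
  intro x
  obtain ⟨y, hy⟩ := hs (f^[m] (f.symm^[n] x))
  exact ⟨y, (f.symm.injective.iterate n) ((f.injective.iterate m) hy)⟩

/-! ### There is no decomposition -/

lemma C_injOn : Set.InjOn C (Set.Icc (0 : ℝ) 1) := by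
  intro s hs t ht h
  have h1 : (C s).1 0 = (C t).1 0 := by rw [h]
  rw [C_zero, C_zero, Complex.exp_eq_exp_iff_exists_int] at h1
  obtain ⟨n, hn⟩ := h1
  have h2 : (s : ℂ) = t + n * (2 * Real.pi) := by
    apply mul_right_cancel₀ Complex.I_ne_zero
    rw [hn]; ring
  have h3 : s = t + n * (2 * Real.pi) := by exact_mod_cast h2
  have h4 := Real.pi_gt_three
  have hs1 := hs.1
  have hs2 := hs.2
  have ht1 := ht.1
  have ht2 := ht.2
  have h5 : n = 0 := by
    by_contra hne
    rcases lt_or_gt_of_ne hne with h6 | h6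
    · have h7 : (n : ℝ) ≤ -1 := by
        have : n ≤ -1 := by omega
        exact_mod_cast this
      nlinarith
    · have h7 : (1 : ℝ) ≤ n := by
        have : 1 ≤ n := by omega
        exact_mod_cast this
      nlinarith
  rw [h3, h5]; simp

lemma not_countable_C0 : ¬ C0.Countable := by
  intro h
  have h1 : (C '' Set.Icc (0 : ℝ) 1).Countable :=
    h.mono (by rintro _ ⟨t, _, rfl⟩; exact C_mem t)
  have h2 := Set.countable_of_injective_of_countable_image C_injOn h1
  have h3 := h2.measure_zero MeasureTheory.volume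
  rw [Real.volume_Icc] at h3
  norm_num at h3

/-- The system is not the disjoint union of a non-wandering system and of a system on a countable
space. -/
theorem no_decomposition {Y : Type} [TopologicalSpace Y] (gY : Y ≃ₜ Y)
    (hnw : ∀ U : Set Y, IsOpen U → U.Nonempty →
      ∃ n : ℕ, 1 ≤ n ∧ ((⇑gY)^[n] '' U ∩ U).Nonempty)
    {W : Type} [TopologicalSpace W] {Z : Set W} (hZ : Z.Countable) (σ : Z → Z)
    (h : X ≃ₜ (Y ⊕ Z)) (hh : ∀ x : X, h (f x) = Sum.map (⇑gY) σ (h x)) : False := by
  by_cases hex : ∃ x ∈ C0, ∃ y : Y, h x = Sum.inl y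
  · obtain ⟨x, hx, y, hy⟩ := hex
    have hU : IsOpen {y : Y | h.symm (Sum.inl y) ∈ C0} :=
      isClopen_C0.isOpen.preimage (h.symm.continuous.comp continuous_inl)
    obtain ⟨n, hn, _, ⟨y1, hy1, rfl⟩, hy2⟩ := hnw _ hU ⟨y, by
      change h.symm (Sum.inl y) ∈ C0
      rw [← hy, h.symm_apply_apply]
      exact hx⟩
    have key : ∀ n, ∀ y : Y, h.symm (Sum.inl (gY^[n] y)) = f^[n] (h.symm (Sum.inl y)) := by
      intro n
      induction n with
      | zero => exact fun y => rfl
      | succ n ih =>
        intro y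
        rw [Function.iterate_succ_apply', Function.iterate_succ_apply', ← ih]
        apply h.injective
        rw [h.apply_symm_apply, hh, h.apply_symm_apply]
        rfl
    have hy3 : h.symm (Sum.inl (gY^[n] y1)) ∈ C0 := hy2
    rw [key] at hy3
    exact C0_wandering hy1 hn hy3
  · simp only [not_exists, not_and] at hex
    apply not_countable_C0
    have hZ' : Countable Z := hZ.to_subtype
    have h1 : (Set.range (Sum.inr : Z → Y ⊕ Z)).Countable := Set.countable_range _
    have h2 : (h ⁻¹' Set.range (Sum.inr : Z → Y ⊕ Z)).Countable :=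
      h1.preimage_of_injOn h.injective.injOn
    refine h2.mono fun x hx => ?_
    change h x ∈ Set.range (Sum.inr : Z → Y ⊕ Z)
    rcases hx' : h x with y | z
    · exact absurd hx' (hex x hx y)
    · exact ⟨z, rfl⟩

end Pool.Agent.H93.Smale
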